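import Pool.Agent.Helper92.HA.Cover

set_option autoImplicit false

/-!
# HR CoverR: the comparison of the general fibre with `(ℙᵈ, ∑ δ_i H_i)`
-/

namespace Pool.Agent.Helper92.HA

open Module Pool.Agent.Helper92.Weak

variable {k K L K' M L' : Type*} [Field k] [Field K] [Field L] [Field K'] [Field M] [Field L']
  [Algebra k K] [Algebra k L] [Algebra k L'] [Algebra K L] [Algebra K K'] [Algebra K L']
  [Algebra L L'] [Algebra K' L'] [Algebra K' M] [Algebra M L'] [IsScalarTower K L L']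
  [IsScalarTower K K' L'] {d : ℕ} {t : Fin d → M} {ι : Type*} [Fintype ι] [DecidableEq ι]

theorem IsArrangement.isLogCover {X : ProjVar k L} {Δ : X.Div} {Z : ProjVar k K}
    {A : Arr K' L' t ι} (H : IsArrangement X Δ Z A)
    (hc : ∀ (v : DVal k L') (D : DVal K' M), A.Over v D → A.EqAt K Δ v) :
    IsLogCover (K := K) X Δ A where
  above D hD v e he hv := by
    obtain ⟨P, hP, ε, hε⟩ := H.above v D ⟨hD, e, he, hv⟩
    exact ⟨P, hP, ε, hε, fun ℓ hℓ => hc v D ⟨hD, e, he, hv⟩ P ε hε ℓ hℓ⟩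
  disc := H.disc

end Pool.Agent.Helper92.HA
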