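import Pool.Agent.Helper92.HA.Defs

set_option autoImplicit false

/-!
# Project HR (MP_2c56d9_ag, second part of HA): boundaries which are larger than an arrangement

`(ℙᵈ, ∑ δ_i H_i)` log canonical with `h > 0`, and on the generic fibre `K_X + Δ` is at least the pull-back of
`K + ∑ δ_i H_i`. The additional boundary is bounded by a multiple of the divisor of a polynomial `G` in the
coordinates `l (j 1), ..., l (j d)` given by a base `{o, j 1, ..., j d}`.
-/

namespace Pool.Agent.Helper92.HA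

open Module Pool.Agent.Helper92.Weak

section

variable {K' M L' : Type*} [Field K'] [Field M] [Field L'] [Algebra K' M] [Algebra K' L']
  [Algebra M L'] {d : ℕ} {t : Fin d → M} {ι : Type*} [Fintype ι] [DecidableEq ι]

/-- The affine functions `l (j i)` as coordinates. -/
def Arr.sc (A : Arr K' L' t ι) (j : Fin d → ι) (i : Fin d) : L' := A.l (j i)

/-- The base given by `o` and the `j i`. -/
def Arr.base (A : Arr K' L' t ι) (j : Fin d → ι) : Finset ι := insert A.o (Finset.univ.image j)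

/-- `{o, j 1, ..., j d}` is a base (with `d + 1` elements). -/
structure Arr.IsCo (A : Arr K' L' t ι) (j : Fin d → ι) : Prop where
  inj : Function.Injective j
  ne : ∀ i, j i ≠ A.o
  base : IsBase K' A.co (A.base j)

/-- The term of the polynomial `G` with the exponent `α`. -/
noncomputable def Arr.term (A : Arr K' L' t ι) (j : Fin d → ι) (G : MvPolynomial (Fin d) K')
    (α : Fin d →₀ ℕ) : L' :=
  algebraMap K' L' (G.coeff α) * ∏ i, A.l (j i) ^ α i

/-- The value `G (l (j 1), ..., l (j d))`. -/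
noncomputable def Arr.ev (A : Arr K' L' t ι) (j : Fin d → ι) (G : MvPolynomial (Fin d) K') : L' :=
  MvPolynomial.aeval (A.sc j) G

/-- The product of the quotients of the terms of `G` by `G`. -/
noncomputable def Arr.sig (A : Arr K' L' t ι) (j : Fin d → ι) (G : MvPolynomial (Fin d) K') : L' :=
  ∏ α ∈ G.support, (A.term j G α / A.ev j G)

/-- A constant which bounds the loss of `sig`. -/
def sigC (G : MvPolynomial (Fin d) K') : ℕ := G.support.card * G.support.card

end

section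

variable {k K L K' M L' : Type*} [Field k] [Field K] [Field L] [Field K'] [Field M] [Field L']
  [Algebra k K] [Algebra k L] [Algebra k K'] [Algebra k L'] [Algebra K L] [Algebra K K']
  [Algebra L L'] [Algebra K' L'] [Algebra K' M] [Algebra M L'] {d : ℕ} {X : ProjVar k L}
  {Z : ProjVar k K} {t : Fin d → M} {ι : Type*} [Fintype ι] [DecidableEq ι]

/-- The divisor `P` over `Q` is good for `A` and all terms of `G` have the value of `G`. -/
def GoodR (F : DFrame X Z K' (tL L' t)) (A : Arr K' L' t ι) (j : Fin d → ι)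
    (G : MvPolynomial (Fin d) K') (Δ : X.Div) (E : Z.Div) (P : X.primeDivisors)
    (Q : Z.primeDivisors) (e : ℕ) : Prop :=
  Good F A (fun _ => True) Δ E P Q e ∧ ∀ (v : DVal k L') (ε : ℕ), LiesOver v P.1 ε →
    ∀ α ∈ G.support, v (A.term j G α) = v (A.ev j G)

/-- The horizontal part of the comparison of `(X, Δ)` with `(ℙᵈ, ∑ δ_i H_i)`, if
`K_X + Δ ≥ K + ∑ δ_i H_i`, and `K_X + Δ ≤ K + ∑ δ_i H_i + w (G)` over prime divisors of `ℙᵈ`. -/
structure HorR (F : DFrame X Z K' (tL L' t)) (A : Arr K' L' t ι) (j : Fin d → ι)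
    (G : MvPolynomial (Fin d) K') (n : ℕ) (w : ℚ) (Δ : X.Div) where
  T : Set (DVal k L')
  w_nonneg : 0 ≤ w
  G_ne : G ≠ 0
  deg : G.totalDegree ≤ n
  disc : ∀ P : X.primeDivisors, (∀ x : K, P.1 (algebraMap K L x) = 0) →
    ∀ (v : DVal k L') (ε : ℕ), LiesOver v P.1 ε → ∀ m, IsMin A v m →
      v F.u + (d + 1) * m + ∑ i, A.δ i * (v (A.l i) - m) ≤ ε * (F.a P + Δ P)
  slack : ∀ P : X.primeDivisors, (∀ x : K, P.1 (algebraMap K L x) = 0) →
    ∀ (v : DVal k L') (ε : ℕ), LiesOver v P.1 ε → ∀ m, IsMin A v m → n * m < v (A.ev j G) →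
      v F.u + (d + 1) * m < (ε * (F.a P + Δ P) : ℚ)
  up : ∀ v ∈ T, ∃ P : X.primeDivisors, (∀ x : K, P.1 (algebraMap K L x) = 0) ∧
    ∃ ε, LiesOver v P.1 ε ∧ ∀ m, IsMin A v m →
      ε * (F.a P + Δ P) ≤ v F.u + (d + 1) * m + ∑ i, A.δ i * (v (A.l i) - m) +
        w * (v (A.ev j G) - n * m)
  sec : ∀ (f : L') (c : ℤ), (∀ v ∈ T, ∀ m, IsMin A v m → v.Ge (c * m) f) →
    ∃ G' : (ι → Fin A.N) → MvPolynomial (Fin d) K',
      f = ∑ χ, MvPolynomial.aeval (tL L' t) (G' χ) * A.mono χ ∧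
      ∀ χ, G' χ ≠ 0 → (χ A.o : ℕ) = 0 ∧ A.N * (G' χ).totalDegree + ∑ i, (χ i : ℕ) ≤ A.N * c
  kill : ∀ v ∈ T, ∃ (g : MvPolynomial (Fin d) K') (n : ℕ), g ≠ 0 ∧ g.totalDegree ≤ n ∧
    ∀ m, IsMin A v m → n * m + 1 ≤ v (MvPolynomial.aeval (tL L' t) g)
  poly : ∀ v ∈ T, ∀ (g : MvPolynomial (Fin d) K') (n : ℕ), g.totalDegree ≤ n → ∀ m, IsMin A v m →
    v.Ge (n * m) (MvPolynomial.aeval (tL L' t) g)

end

end Pool.Agent.Helper92.HA
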