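import Pool.Agent.Helper92.HA.Theta
import Pool.Agent.Helper92.HA.Rho
import Pool.Agent.Helper92.HA.Coord
import Pool.Agent.Helper92.HR.DefsR

set_option autoImplicit false
set_option linter.unusedSectionVars false

/-!
# HR-03 BaseCo: the coordinates given by a base

`exists_co`: `exists_base_mem` (Rho) gives a base `b ∋ o`, `card_base` its cardinality; `j` enumerates `b.erase o`.
`sc_torus`: the coordinates `sc` are images of the affine functions `affine t (co (j i)) ∈ M`, which are an affine coordinate
system of `M` (`IsTorus`); this is `t'` of `exists_coord` for `γ = 1` (its proof; if `exists_coord` is too rigid, redo it: the matrix of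
`(1, sc)` in terms of `(1, t)` is invertible because `{o, j 1, ..., j d}` is a base and `co_o`).
`poly_co`, `poly_co'`: substitute affine functions for the variables (as in `exists_coord`; degrees do not increase).
`ev_ne`: `sc` is algebraically independent over `K'`.
`exists_der_co`: `D' i = ∑_l q_(i l) F.D l` with `q` the inverse (over `K'`) of the matrix `(∂ sc_i / ∂ t_l)`, whose determinant is
`± cdet (base j)` (up to the order; the value is that of `cdet`, see `cdet` and Det: `det_quot`/`cdet_ne`; the row of `o` is `(1, 0, ..., 0)`).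
For `x ≠ 0` apply `F.star` to the family `sc` with the `i`-th member replaced by `x`: the determinant `det (F.D l g_m)` is
`± cdet · D' i x`, so `v (cdet) + v (D' i x) ≥ v x + ∑_(l ≠ i) v (sc l) - μ` (if `D' i x ≠ 0`), and `v (θ_b) = v (cdet) - ∑_(i ∈ b) v (l i)`,
`v (l o) = 0`: `v (sc i · D' i x) ≥ v x - (v (θ_b) + μ)`.
-/

namespace Pool.Agent.Helper92.HA

open Module Pool.Agent.Helper92.Weak Pool.Agent.Helper63.PB

/-! ### Auxiliary lemmas -/

section Aux

variable {F E : Type*} [Field F] [Field E] [Algebra F E] {d : ℕ}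

/-- The affine polynomial with the given coefficients. -/
private noncomputable def bcP (a : Fin (d + 1) → F) : MvPolynomial (Fin d) F :=
  MvPolynomial.C (a 0) + ∑ j : Fin d, MvPolynomial.C (a j.succ) * MvPolynomial.X j

private theorem bc_aeval (T : Fin d → E) (a : Fin (d + 1) → F) :
    MvPolynomial.aeval T (bcP a) = affine T a := by
  unfold bcP affine
  rw [map_add, MvPolynomial.aeval_C, map_sum]
  congr 1
  refine Finset.sum_congr rfl fun j _ => ?_
  rw [map_mul, MvPolynomial.aeval_C, MvPolynomial.aeval_X]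

private theorem bc_td (a : Fin (d + 1) → F) : (bcP a).totalDegree ≤ 1 := by
  unfold bcP
  refine (MvPolynomial.totalDegree_add _ _).trans (max_le ?_ ?_)
  · rw [MvPolynomial.totalDegree_C]
    exact Nat.zero_le _
  · refine MvPolynomial.totalDegree_finsetSum_le fun j _ => ?_
    refine (MvPolynomial.totalDegree_mul _ _).trans ?_
    rw [MvPolynomial.totalDegree_C, MvPolynomial.totalDegree_X]

private theorem bc_bind_td (f : Fin d → MvPolynomial (Fin d) F) (hf : ∀ j, (f j).totalDegree ≤ 1)
    (G : MvPolynomial (Fin d) F) : (MvPolynomial.bind₁ f G).totalDegree ≤ G.totalDegree := by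
  have h1 : MvPolynomial.bind₁ f G =
      ∑ α ∈ G.support, MvPolynomial.C (G.coeff α) * ∏ j, f j ^ α j := by
    change MvPolynomial.aeval f G = _
    rw [MvPolynomial.aeval_eq_eval₂Hom, MvPolynomial.coe_eval₂Hom, MvPolynomial.eval₂_eq']
    rfl
  rw [h1]
  refine MvPolynomial.totalDegree_finsetSum_le fun α hα => ?_
  refine (MvPolynomial.totalDegree_mul _ _).trans ?_
  rw [MvPolynomial.totalDegree_C, zero_add]
  refine (MvPolynomial.totalDegree_finsetProd _ _).trans ?_
  refine le_trans (Finset.sum_le_sum fun j _ => (MvPolynomial.totalDegree_pow _ _).trans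
    (Nat.mul_le_mul_left (α j) (hf j))) ?_
  have h2 := MvPolynomial.le_totalDegree hα
  rw [Finsupp.sum_fintype _ _ (fun _ => rfl)] at h2
  simpa using h2

/-- Composition of affine functions. -/
private theorem bc_comp (t : Fin d → E) (w : Matrix (Fin (d + 1)) (Fin (d + 1)) F)
    (hw : w 0 = Pi.single 0 1) (a : Fin (d + 1) → F) :
    affine (fun j => affine t (w j.succ)) a = affine t (Matrix.vecMul a w) := by
  have hadd : ∀ a b : Fin (d + 1) → F, affine t (a + b) = affine t a + affine t b := by
    intro a b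
    simp only [affine, Pi.add_apply, map_add, add_mul, Finset.sum_add_distrib]
    ring
  have hsmul : ∀ (c : F) (b : Fin (d + 1) → F),
      affine t (c • b) = algebraMap F E c * affine t b := by
    intro c b
    simp only [affine, Pi.smul_apply, smul_eq_mul, map_mul, mul_add, Finset.mul_sum, mul_assoc]
  have hsum : ∀ (s : Finset (Fin (d + 1))) (f : Fin (d + 1) → Fin (d + 1) → F),
      affine t (∑ i ∈ s, f i) = ∑ i ∈ s, affine t (f i) := by
    intro s f
    induction s using Finset.induction_on with
    | empty =>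
      rw [Finset.sum_empty, Finset.sum_empty]
      simp [affine]
    | insert i s hi ih => rw [Finset.sum_insert hi, Finset.sum_insert hi, hadd, ih]
  have h1 : Matrix.vecMul a w = ∑ i, a i • w i := by
    ext j
    simp [Matrix.vecMul, dotProduct]
  rw [h1, hsum, Fin.sum_univ_succ, hsmul, hw]
  have h2 : affine t (Pi.single 0 1 : Fin (d + 1) → F) = 1 := by
    simp [affine, Fin.succ_ne_zero]
  rw [h2, mul_one]
  conv_lhs => unfold affine
  congr 1
  exact Finset.sum_congr rfl fun j _ => (hsmul _ _).symm

private theorem bc_single (t : Fin d → E) (j : Fin d) :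
    affine t (Pi.single j.succ 1 : Fin (d + 1) → F) = t j := by
  rw [affine, Pi.single_eq_of_ne (Fin.succ_ne_zero j).symm, map_zero, zero_add,
    Finset.sum_eq_single j]
  · rw [Pi.single_eq_same, map_one, one_mul]
  · intro i _ hij
    rw [Pi.single_eq_of_ne (fun h => hij (Fin.succ_injective _ h)), map_zero, zero_mul]
  · intro h
    exact absurd (Finset.mem_univ j) h

end Aux

section Arr1

variable {K' M L' : Type*} [Field K'] [Field M] [Field L'] [Algebra K' M] [Algebra K' L']
  [Algebra M L'] {d : ℕ} {t : Fin d → M} {ι : Type*} [Fintype ι] [DecidableEq ι]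

/-- The determinant of the coefficients for another order. -/
private theorem bc_cdet_perm (A : Arr K' L' t ι) {b : Finset ι} (h : b.card = d + 1)
    (ψ : Fin (d + 1) ≃ b) : ∃ s : ℤˣ,
      (Matrix.of fun i : Fin (d + 1) => A.co (ψ i)).det = ((s : ℤ) : K') * A.cdet b := by
  let σ : Equiv.Perm (Fin (d + 1)) := ψ.trans (b.equivFinOfCardEq h)
  refine ⟨Equiv.Perm.sign σ, ?_⟩
  unfold Arr.cdet
  rw [dif_pos h, ← Matrix.det_permute]
  congr 1
  ext i j
  simp only [Matrix.submatrix_apply, Matrix.of_apply, σ, id_eq, Equiv.trans_apply,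
    Equiv.symm_apply_apply]


/-- The indices of the base. -/
private def bcF (A : Arr K' L' t ι) (j : Fin d → ι) : Fin (d + 1) → ι := fun r => Fin.cases A.o j r

/-- The matrix of `(1, sc)` in terms of `(1, t)`. -/
private def bcW (A : Arr K' L' t ι) (j : Fin d → ι) : Matrix (Fin (d + 1)) (Fin (d + 1)) K' :=
  Matrix.of fun r => A.co (bcF A j r)

private theorem bcW_zero (A : Arr K' L' t ι) (j : Fin d → ι) : bcW A j 0 = Pi.single 0 1 := by
  change A.co A.o = _
  rw [A.co_o]
  ext i
  simp [Pi.single_apply]

private theorem bcW_succ (A : Arr K' L' t ι) (j : Fin d → ι) (i : Fin d) :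
    bcW A j i.succ = A.co (j i) := rfl

end Arr1

variable {k K L K' M L' : Type*} [Field k] [Field K] [Field L] [Field K'] [Field M] [Field L']
  [Algebra k K] [Algebra k L] [Algebra k K'] [Algebra k M] [Algebra k L'] [Algebra K L]
  [Algebra K K'] [Algebra K L'] [Algebra L L'] [Algebra K' M] [Algebra K' L'] [Algebra M L']
  [IsScalarTower k K L] [IsScalarTower k K K'] [IsScalarTower k K L'] [IsScalarTower k L L']
  [IsScalarTower k K' M] [IsScalarTower k K' L'] [IsScalarTower k M L'] [IsScalarTower K L L']
  [IsScalarTower K K' L'] [IsScalarTower K' M L'] [FiniteDimensional K K']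
  [FiniteDimensional L L'] [FiniteDimensional M L'] [CharZero k] {d : ℕ}
  {X : ProjVar k L} {Z : ProjVar k K} {t : Fin d → M} {ι : Type*} [Fintype ι] [DecidableEq ι]

private theorem bcW_det {A : Arr K' L' t ι} {j : Fin d → ι} (hj : A.IsCo j) :
    ∃ s : ℤˣ, (bcW A j).det = ((s : ℤ) : K') * A.cdet (A.base j) := by
  classical
  have hcard := card_base A hj.base
  have hmem : ∀ r, bcF A j r ∈ A.base j := by
    intro r
    refine Fin.cases (Finset.mem_insert_self _ _) (fun i => ?_) r
    exact Finset.mem_insert_of_mem (Finset.mem_image_of_mem j (Finset.mem_univ i))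
  have hinj : Function.Injective (bcF A j) := by
    intro r s
    refine Fin.cases ?_ (fun i => ?_) r
    · refine Fin.cases (fun _ => rfl) (fun l => ?_) s
      intro h
      exact absurd h.symm (hj.ne l)
    · refine Fin.cases ?_ (fun l => ?_) s
      · intro h
        exact absurd h (hj.ne i)
      · intro h
        rw [hj.inj (show j i = j l from h)]
  let ψ : Fin (d + 1) ≃ A.base j := Equiv.ofBijective (fun r => ⟨bcF A j r, hmem r⟩) (by
    rw [Fintype.bijective_iff_injective_and_card]
    refine ⟨fun r s h => hinj (congrArg Subtype.val h), ?_⟩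
    rw [Fintype.card_fin, Fintype.card_coe, hcard])
  exact bc_cdet_perm A hcard ψ

private theorem bcW_ne {A : Arr K' L' t ι} {j : Fin d → ι} (hj : A.IsCo j) :
    (bcW A j).det ≠ 0 := by
  obtain ⟨s, hs⟩ := bcW_det hj
  rw [hs]
  refine mul_ne_zero ?_ (cdet_ne A hj.base)
  rcases Int.units_eq_one_or s with h | h <;> rw [h] <;> simp

private theorem bc_sc (A : Arr K' L' t ι) (j : Fin d → ι) (i : Fin d) :
    A.sc j i = affine (tL L' t) (bcW A j i.succ) := affine_map A (j i)

/-- The coordinates `t` in terms of the coordinates `sc`. -/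
private noncomputable def bcQ (A : Arr K' L' t ι) (j : Fin d → ι) (l : Fin d) : Fin (d + 1) → K' :=
  Matrix.vecMul (Pi.single l.succ 1) (bcW A j)⁻¹

private theorem bc_back {A : Arr K' L' t ι} {j : Fin d → ι} (hj : A.IsCo j) (l : Fin d) :
    affine (A.sc j) (bcQ A j l) = tL L' t l := by
  have h1 : A.sc j = fun i => affine (tL L' t) (bcW A j i.succ) := funext fun i => bc_sc A j i
  rw [h1, bc_comp (tL L' t) (bcW A j) (bcW_zero A j), bcQ, Matrix.vecMul_vecMul,
    Matrix.nonsing_inv_mul _ (bcW_ne hj).isUnit, Matrix.vecMul_one, bc_single]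

theorem exists_co (A : Arr K' L' t ι) : ∃ j : Fin d → ι, A.IsCo j := by
  obtain ⟨b, hb, hob⟩ := exists_base_mem (F := K') A.co A.o (A.co_ne A.o)
  have hcard : (b.erase A.o).card = d := by
    rw [Finset.card_erase_of_mem hob, card_base A hb, Nat.add_sub_cancel]
  let φ := (b.erase A.o).equivFinOfCardEq hcard
  have hset : A.base (fun i => (φ.symm i : ι)) = b := by
    unfold Arr.base
    ext i
    rw [Finset.mem_insert, Finset.mem_image]
    constructor
    · rintro (rfl | ⟨l, -, rfl⟩)
      · exact hob
      · exact Finset.mem_of_mem_erase (φ.symm l).2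
    · intro hi
      by_cases hio : i = A.o
      · exact Or.inl hio
      · exact Or.inr ⟨φ ⟨i, Finset.mem_erase.2 ⟨hio, hi⟩⟩, Finset.mem_univ _, by simp⟩
  refine ⟨fun i => (φ.symm i : ι), fun r s h => φ.symm.injective (Subtype.ext h),
    fun i => Finset.ne_of_mem_erase (φ.symm i).2, ?_⟩
  rw [hset]
  exact hb

theorem sc_indep {A : Arr K' L' t ι} {j : Fin d → ι} (hj : A.IsCo j) :
    AlgebraicIndependent K' (A.sc j) := by
  refine indep_of_isAlgebraic A.torus (A.sc j) fun l => ?_
  have hmem : algebraMap M L' (t l) ∈ IntermediateField.adjoin K' (Set.range (A.sc j)) := by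
    have h := bc_back hj l
    rw [show algebraMap M L' (t l) = tL L' t l from rfl, ← h]
    unfold affine
    refine add_mem (IntermediateField.algebraMap_mem _ _) (sum_mem fun l _ => ?_)
    exact mul_mem (IntermediateField.algebraMap_mem _ _)
      (IntermediateField.subset_adjoin K' _ (Set.mem_range_self _))
  exact isAlgebraic_algebraMap (R := IntermediateField.adjoin K' (Set.range (A.sc j))) (A := L')
    ⟨algebraMap M L' (t l), hmem⟩

theorem ev_ne {A : Arr K' L' t ι} {j : Fin d → ι} (hj : A.IsCo j) {G : MvPolynomial (Fin d) K'}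
    (hG : G ≠ 0) : A.ev j G ≠ 0 := by
  intro h
  exact hG ((sc_indep hj).eq_zero_of_aeval_eq_zero G h)

theorem term_ne {A : Arr K' L' t ι} {j : Fin d → ι} (hj : A.IsCo j)
    {G : MvPolynomial (Fin d) K'} {α : Fin d →₀ ℕ} (hα : α ∈ G.support) : A.term j G α ≠ 0 := by
  have _ := hj
  unfold Arr.term
  refine mul_ne_zero ?_ (Finset.prod_ne_zero_iff.2 fun i _ => pow_ne_zero _ (l_ne A _))
  rw [Ne, map_eq_zero]
  exact MvPolynomial.mem_support_iff.1 hα

theorem poly_co {A : Arr K' L' t ι} {j : Fin d → ι} (hj : A.IsCo j)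
    (g : MvPolynomial (Fin d) K') : ∃ G : MvPolynomial (Fin d) K',
      A.ev j G = MvPolynomial.aeval (tL L' t) g ∧ G.totalDegree ≤ g.totalDegree := by
  refine ⟨MvPolynomial.bind₁ (fun l => bcP (bcQ A j l)) g, ?_, bc_bind_td _ (fun l => bc_td _) g⟩
  unfold Arr.ev
  rw [MvPolynomial.aeval_bind₁]
  have h1 : (fun l => MvPolynomial.aeval (A.sc j) (bcP (bcQ A j l))) = tL L' t := by
    funext l
    rw [bc_aeval, bc_back hj]
  rw [h1]

theorem poly_co' {A : Arr K' L' t ι} {j : Fin d → ι} (hj : A.IsCo j)
    (G : MvPolynomial (Fin d) K') : ∃ g : MvPolynomial (Fin d) K',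
      MvPolynomial.aeval (tL L' t) g = A.ev j G ∧ g.totalDegree ≤ G.totalDegree := by
  have _ := hj
  refine ⟨MvPolynomial.bind₁ (fun i => bcP (A.co (j i))) G, ?_, bc_bind_td _ (fun l => bc_td _) G⟩
  unfold Arr.ev
  rw [MvPolynomial.aeval_bind₁]
  have h1 : (fun i => MvPolynomial.aeval (tL L' t) (bcP (A.co (j i)))) = A.sc j := by
    funext i
    rw [bc_aeval, bc_sc]
    rfl
  rw [h1]

theorem exists_der_co (F : DFrame X Z K' (tL L' t)) {A : Arr K' L' t ι} {j : Fin d → ι}
    (hj : A.IsCo j) : ∃ D' : Fin d → Derivation K' L' L',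
      (∀ i l, D' i (A.sc j l) = if i = l then 1 else 0) ∧
      ∀ (P : X.primeDivisors) (Q : Z.primeDivisors) (e : ℕ), LiesOver P.1 Q.1 e →
        ∀ (v : DVal k L') (ε : ℕ), LiesOver v P.1 ε → ∀ (i : Fin d) (x : L'), x ≠ 0 →
          v.Ge ((v x - (v (A.theta (A.base j)) + F.mu P Q e v ε) : ℤ) : ℚ)
            (A.sc j i * D' i x) := by
  classical
  set w := bcW A j with hw
  have hw0 : w 0 = Pi.single 0 1 := bcW_zero A j
  have hwne : w.det ≠ 0 := bcW_ne hj
  let V : Matrix (Fin d) (Fin d) K' := w.submatrix Fin.succ Fin.succ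
  have hV : V.det = w.det := by
    rw [Matrix.det_succ_row_zero w, Finset.sum_eq_single 0]
    · rw [hw0, Pi.single_eq_same, Fin.succAbove_zero]
      simp [V]
    · intro j _ hj
      rw [hw0, Pi.single_eq_of_ne hj]
      simp
    · intro h
      exact absurd (Finset.mem_univ _) h
  have hVunit : IsUnit V.det := by rw [hV]; exact hwne.isUnit
  let D' : Fin d → Derivation K' L' L' := fun i =>
    ∑ l, algebraMap K' L' (V⁻¹ l i) • F.D l
  have hD'app : ∀ i x, D' i x = ∑ l, algebraMap K' L' (V⁻¹ l i) * F.D l x := by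
    intro i x
    change (∑ l, algebraMap K' L' (V⁻¹ l i) • F.D l) x = _
    change (Derivation.coeFnAddMonoidHom (∑ l, algebraMap K' L' (V⁻¹ l i) • F.D l)) x = _
    rw [map_sum, Finset.sum_apply]
    rfl
  have hFD : ∀ l i, F.D l (A.sc j i) = algebraMap K' L' (V i l) := by
    intro l i
    rw [bc_sc, deriv_affine (tL L' t) F.D F.D_t]
    rfl
  have hD't : ∀ i l, D' i (A.sc j l) = if i = l then 1 else 0 := by
    intro i l
    rw [hD'app]
    have h1 : ∀ r, algebraMap K' L' (V⁻¹ r i) * F.D r (A.sc j l) =
        algebraMap K' L' (V l r * V⁻¹ r i) := by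
      intro r
      rw [hFD, ← map_mul, mul_comm]
    rw [Finset.sum_congr rfl fun r _ => h1 r, ← map_sum, ← Matrix.mul_apply,
      Matrix.mul_nonsing_inv V hVunit, Matrix.one_apply]
    by_cases h : i = l
    · subst h; simp
    · rw [if_neg (Ne.symm h), if_neg h, map_zero]
  have hDD' : ∀ r x, F.D r x = ∑ i, algebraMap K' L' (V i r) * D' i x := by
    intro r x
    have h1 : ∀ i, algebraMap K' L' (V i r) * D' i x =
        ∑ l, algebraMap K' L' (V⁻¹ l i * V i r) * F.D l x := by
      intro i
      rw [hD'app, Finset.mul_sum]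
      refine Finset.sum_congr rfl fun l _ => ?_
      rw [map_mul]
      ring
    rw [Finset.sum_congr rfl fun i _ => h1 i, Finset.sum_comm]
    have h2 : ∀ l, ∑ i, algebraMap K' L' (V⁻¹ l i * V i r) * F.D l x =
        (if l = r then F.D l x else 0) := by
      intro l
      rw [← Finset.sum_mul, ← map_sum, ← Matrix.mul_apply, Matrix.nonsing_inv_mul V hVunit,
        Matrix.one_apply]
      split_ifs <;> simp
    rw [Finset.sum_congr rfl fun l _ => h2 l]
    simp
  have hscne : ∀ i, A.sc j i ≠ 0 := fun i => l_ne A _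
  refine ⟨D', hD't, fun P Q e hPQ v ε hv i x hx => ?_⟩
  set μ := F.mu P Q e v ε with hμ
  -- the value of the determinant
  obtain ⟨s, hs⟩ := bcW_det hj
  have hcdne : algebraMap K' L' (A.cdet (A.base j)) ≠ 0 := by
    rw [Ne, map_eq_zero]; exact cdet_ne A hj.base
  have hwv : v (algebraMap K' L' w.det) = v (algebraMap K' L' (A.cdet (A.base j))) := by
    rw [hw, hs, map_mul]
    rcases Int.units_eq_one_or s with h | h <;> rw [h] <;> simp
  have hθ : v (A.theta (A.base j)) =
      v (algebraMap K' L' (A.cdet (A.base j))) - ∑ l, v (A.sc j l) := by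
    rw [theta_val A v hj.base]
    congr 1
    unfold Arr.base
    have hnot : A.o ∉ Finset.univ.image j := by
      rw [Finset.mem_image]
      rintro ⟨l, -, hl⟩
      exact hj.ne l hl
    have hlo : A.l A.o = 1 := by
      rw [Arr.l, A.co_o, affine]
      simp [Fin.succ_ne_zero]
    rw [Finset.sum_insert hnot, Finset.sum_image fun a _ b _ h => hj.inj h, hlo, v.map_one,
      zero_add]
    rfl
  let G : Fin d → L' := Function.update (A.sc j) i x
  have hG : ∀ l, G l ≠ 0 := by
    intro l
    by_cases h : l = i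
    · subst h
      simp only [G, Function.update_self]
      exact hx
    · simp only [G, Function.update_of_ne h]
      exact hscne l
  have h1 := F.star P Q e hPQ v ε hv G hG
  have h2 : ∑ l, v (G l) = v x + ∑ l, v (A.sc j l) - v (A.sc j i) := by
    rw [← Finset.add_sum_erase _ _ (Finset.mem_univ i),
      ← Finset.add_sum_erase _ (fun l => v (A.sc j l)) (Finset.mem_univ i)]
    have h3 : ∑ l ∈ Finset.univ.erase i, v (G l) = ∑ l ∈ Finset.univ.erase i, v (A.sc j l) :=
      Finset.sum_congr rfl fun l hl => by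
        simp only [G, Function.update_of_ne (Finset.ne_of_mem_erase hl)]
    rw [h3]
    simp only [G, Function.update_self]
    ring
  have h3 : (Matrix.of fun a l => F.D a (G l)) =
      (V.map (algebraMap K' L')).transpose * (Matrix.of fun a l => D' a (G l)) := by
    ext a l
    rw [Matrix.mul_apply, Matrix.of_apply, hDD']
    rfl
  have h4 : (Matrix.of fun a l => D' a (G l)) =
      (1 : Matrix (Fin d) (Fin d) L').updateCol i (fun a => D' a x) := by
    ext a l
    rw [Matrix.of_apply, Matrix.updateCol_apply]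
    split_ifs with h
    · rw [h]
      simp only [G, Function.update_self]
    · simp only [G, Function.update_of_ne h]
      rw [hD't, Matrix.one_apply]
  have h5 : ((1 : Matrix (Fin d) (Fin d) L').updateCol i (fun a => D' a x)).det = D' i x := by
    rw [← Matrix.cramer_apply, Matrix.cramer_one]
    rfl
  have h6 : (V.map (algebraMap K' L')).det = algebraMap K' L' w.det := by
    rw [← hV, RingHom.map_det]
    rfl
  rw [h3, Matrix.det_mul, Matrix.det_transpose, h6, h4, h5, h2] at h1
  have h7 : algebraMap K' L' w.det ≠ 0 := by rwa [Ne, map_eq_zero]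
  have h8 : v.Ge (((v (A.sc j i) - v (algebraMap K' L' (A.cdet (A.base j))) : ℤ)) : ℚ)
      (A.sc j i * (algebraMap K' L' w.det)⁻¹) := by
    rw [DVal.ge_iff (mul_ne_zero (hscne i) (inv_ne_zero h7)),
      v.map_mul (hscne i) (inv_ne_zero h7), v.map_inv, hwv]
    push_cast
    linarith
  have h9 := h8.mul h1
  have h10 : A.sc j i * (algebraMap K' L' w.det)⁻¹ * (algebraMap K' L' w.det * D' i x) =
      A.sc j i * D' i x := by
    field_simp
  rw [h10] at h9
  refine h9.mono ?_
  rw [hθ, hμ, DFrame.mu]
  push_cast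
  linarith

end Pool.Agent.Helper92.HA
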