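import Pool.Agent.Helper92.HA.Exps
import Pool.Agent.Helper92.HR.DefsR

set_option autoImplicit false

/-!
# HR-05 ExpsR: exponents with slack

PROOF. `η = h / (2 (∑ δ i))`-like: `0 < η < 1` with `(1 - η) ∑ δ i > d + 1` (`∑ δ_i > d + 1 > 0`). The weights `(1 - η) δ i` are positive
and satisfy the log canonical condition (`rk ≥ 0` and `δ ≥ 0`: `(1 - η) ∑ δ ≤ ∑ δ ≤ rk`), so `exps_pos` for the structure
`A' = {A with δ := (1 - η) δ}` (the other fields unchanged; `A'.use = A.use`, definitionally) gives `m₁, r₁, x₁`. Multiply all by `c ≥ 1`: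
`m = c m₁`, `r = c r₁`, `x = c x₁` (`use` is linear), `c` larger than `C + 1` and `C / (η m₁)`.
-/

namespace Pool.Agent.Helper92.HA

open Module Pool.Agent.Helper92.Weak Pool.Agent.Helper63.PB

variable {K' M L' : Type*} [Field K'] [Field M] [Field L'] [Algebra K' M] [Algebra K' L']
  [Algebra M L'] {d : ℕ} {t : Fin d → M} {ι : Type*} [Fintype ι] [DecidableEq ι]

private theorem h45_use_mul (A : Arr K' L' t ι) (c : ℕ) (x : Finset ι → ℕ) (i : ι) :
    A.use (fun b => c * x b) i = c * A.use x i := by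
  unfold Arr.use
  rw [Finset.mul_sum]
  refine Finset.sum_congr rfl fun b _ => ?_
  split_ifs <;> simp

private theorem h45_use_cast (A : Arr K' L' t ι) (x : Finset ι → ℕ) (i : ι) :
    (A.use x i : ℚ) = ∑ b : Finset ι, if i ∈ b then (x b : ℚ) else 0 := by
  unfold Arr.use
  push_cast
  refine Finset.sum_congr rfl fun b _ => ?_
  split_ifs <;> simp

private theorem h45_rk_univ (A : Arr K' L' t ι) : rk K' A.co Finset.univ = d + 1 := by
  rw [rk, Finset.coe_univ, Set.image_univ, A.full, finrank_top, Module.finrank_fin_fun]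

theorem exps_posR (A : Arr K' L' t ι) (hh : 0 < A.h) : ∃ η : ℚ, 0 < η ∧ η < 1 ∧ ∀ C : ℕ,
    ∃ (m r : ℕ) (x : ι → Finset ι → ℕ), 0 < m ∧ 0 < r ∧ (C : ℚ) ≤ η * m ∧
      (∀ j b, IsBase K' A.co b → C < x j b) ∧ (∀ j b, x j b ≠ 0 → IsBase K' A.co b) ∧
      (∀ j i, (A.use (x j) i : ℚ) ≤ m * ((1 - η) * A.δ i)) ∧ (∀ j, ∑ b, x j b = m) ∧
      ∀ j i, A.use (x j) i + (if i = A.o then r else 0) =
        A.use (x A.o) i + (if i = j then r else 0) := by
  have hS0 : (0 : ℚ) ≤ ∑ i, A.δ i := Finset.sum_nonneg fun i _ => (A.δ_pos i).le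
  have hh' : (d : ℚ) + 1 < ∑ i, A.δ i := by
    have h := hh
    unfold Arr.h at h
    linarith
  have hS : (0 : ℚ) < ∑ i, A.δ i := by
    have : (0 : ℚ) ≤ d := Nat.cast_nonneg d
    linarith
  obtain ⟨η, hη0, hη1, hη⟩ : ∃ η : ℚ, 0 < η ∧ η < 1 ∧ (d : ℚ) + 1 < (1 - η) * ∑ i, A.δ i := by
    refine ⟨((∑ i, A.δ i) - (d + 1)) / (2 * ∑ i, A.δ i), ?_, ?_, ?_⟩
    · exact div_pos (by linarith) (by linarith)
    · rw [div_lt_one (by linarith)]
      have : (0 : ℚ) ≤ d := Nat.cast_nonneg d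
      linarith
    · have h1 : (((∑ i, A.δ i) - (d + 1)) / (2 * ∑ i, A.δ i)) * (∑ i, A.δ i) =
          ((∑ i, A.δ i) - (d + 1)) / 2 := by
        field_simp
      rw [sub_mul, one_mul, h1]
      linarith
  refine ⟨η, hη0, hη1, fun C => ?_⟩
  obtain ⟨m₁, r₁, x₁, hm, hr, h1, h2, h3, h4, h5⟩ := exists_exponents_pos (F := K') A.co
    (fun i => (1 - η) * A.δ i) A.co_ne (fun B hB => by
      rw [h45_rk_univ A] at hB
      have h1 := A.lc B hB
      have h2 : (0 : ℚ) ≤ ∑ i ∈ B, A.δ i := Finset.sum_nonneg fun i _ => (A.δ_pos i).le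
      change ∑ i ∈ B, (1 - η) * A.δ i ≤ _
      rw [← Finset.mul_sum]
      nlinarith) (fun i => mul_pos (by linarith) (A.δ_pos i)) (by
      change _ < ∑ i, (1 - η) * A.δ i
      rw [← Finset.mul_sum, h45_rk_univ A]
      push_cast
      exact hη) A.o
  have hm' : (0 : ℚ) < m₁ := by exact_mod_cast hm
  obtain ⟨c₀, hc₀⟩ := exists_nat_gt ((C : ℚ) / (η * m₁))
  have hc₁ : (C : ℚ) < c₀ * (η * m₁) := by
    rwa [div_lt_iff₀ (mul_pos hη0 hm')] at hc₀
  have hcpos : 0 < c₀ + C + 1 := by omega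
  refine ⟨(c₀ + C + 1) * m₁, (c₀ + C + 1) * r₁, fun j b => (c₀ + C + 1) * x₁ j b,
    Nat.mul_pos hcpos hm, Nat.mul_pos hcpos hr, ?_, ?_, ?_, ?_, ?_, ?_⟩
  · have h6 : (0 : ℚ) ≤ (C + 1) * (η * m₁) := by positivity
    push_cast
    nlinarith
  · intro j b hb
    have h6 := h1 j b hb
    have h7 : (c₀ + C + 1) * 1 ≤ (c₀ + C + 1) * x₁ j b := Nat.mul_le_mul_left _ h6
    change C < (c₀ + C + 1) * x₁ j b
    omega
  · intro j b hb
    exact h2 j b (right_ne_zero_of_mul hb)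
  · intro j i
    have h6 : (A.use (x₁ j) i : ℚ) ≤ m₁ * ((1 - η) * A.δ i) := by
      rw [h45_use_cast]
      exact h3 j i
    change ((A.use (fun b => (c₀ + C + 1) * x₁ j b) i : ℕ) : ℚ) ≤ _
    rw [h45_use_mul]
    have h7 : (0 : ℚ) ≤ ((c₀ + C + 1 : ℕ) : ℚ) := Nat.cast_nonneg _
    have h8 := mul_le_mul_of_nonneg_left h6 h7
    rw [Nat.cast_mul, Nat.cast_mul, mul_assoc]
    exact h8
  · intro j
    change ∑ b, (c₀ + C + 1) * x₁ j b = _
    rw [← Finset.mul_sum, h4 j]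
  · intro j i
    have h6 : A.use (x₁ j) i + (if i = A.o then r₁ else 0) =
        A.use (x₁ A.o) i + (if i = j then r₁ else 0) := by
      have h := h5 j i
      rw [← h45_use_cast A, ← h45_use_cast A] at h
      have h6 : ((A.use (x₁ j) i + (if i = A.o then r₁ else 0) : ℕ) : ℚ) =
          ((A.use (x₁ A.o) i + (if i = j then r₁ else 0) : ℕ) : ℚ) := by
        push_cast
        exact h
      exact_mod_cast h6
    change A.use (fun b => (c₀ + C + 1) * x₁ j b) i +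
      (if i = A.o then (c₀ + C + 1) * r₁ else 0) =
      A.use (fun b => (c₀ + C + 1) * x₁ A.o b) i + (if i = j then (c₀ + C + 1) * r₁ else 0)
    rw [h45_use_mul, h45_use_mul]
    have h7 := congrArg (fun z => (c₀ + C + 1) * z) h6
    simp only [mul_add, mul_ite, mul_zero] at h7
    simp only [add_mul] at h7 ⊢
    exact h7

end Pool.Agent.Helper92.HA
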