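import Pool.Agent.Helper92.HA.NormIndep
import Pool.Agent.Helper63.PB.LowNorm

set_option autoImplicit false

/-!
# HR-01 LowFam: lower data from a family of functions

This is the second half of the proof of `lowerA_pos` (`Helper92/HA/LowerA.lean`: copy it), for general functions.
PROOF. The `ρ j = ψ j / ψ₀` are algebraically independent over `K'`, hence over `K`. `R` from `low_norm`;
`exists_norm_indep` (for this `R`) gives `i : Fin s → Fin s`, `z : Fin s → k` such that the norms (to the power `R`) of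
`ρ_(i l) - z_l` are algebraically independent over `K`. `ψ'_l = ψ₀ (ρ_(i l) - z_l) = ψ (i l) - z_l ψ₀`. `ψ₀` and all `ψ'_l`
satisfy the hypotheses of `low_norm` (`Ge.sub`, `Ge.smul`; see `lowA_sub_le`, `lowA_sub_lt` in LowerA; the strict inequality
holds for one `v` for all the functions). `LowerData`: `b = norm(ψ₀)^R`, `ρ l = norm(ρ_(i l) - z_l)^R`, `N` as in LowerA.
-/

namespace Pool.Agent.Helper92.HA

open Module Pool.Agent.Helper92.Weak Pool.Agent.Helper63.PB

/-- Values of `a - z b`. -/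
private theorem lowF_sub_le {k L' : Type*} [Field k] [Field L'] [Algebra k L'] (v : DVal k L')
    {a b : L'} (z : k) (hab : a - algebraMap k L' z * b ≠ 0) {r : ℚ}
    (h1 : r ≤ v a) (h2 : r ≤ v b) : r ≤ v (a - algebraMap k L' z * b) := by
  have h3 : v.Ge r a := Or.inr h1
  have h4 : v.Ge r (algebraMap k L' z * b) := by
    rw [← Algebra.smul_def]
    exact DVal.Ge.smul (Or.inr h2) z
  exact (DVal.ge_iff hab).1 (h3.sub h4)

private theorem lowF_sub_lt {k L' : Type*} [Field k] [Field L'] [Algebra k L'] (v : DVal k L')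
    {a b : L'} (z : k) (hab : a - algebraMap k L' z * b ≠ 0) {r : ℚ}
    (h1 : r < v a) (h2 : r < v b) : r < v (a - algebraMap k L' z * b) := by
  have h3 : r < min (v a : ℚ) (v b) := lt_min h1 h2
  exact h3.trans_le (lowF_sub_le v z hab (min_le_left _ _) (min_le_right _ _))

theorem lower_of_family {k K L K' L' : Type*} [Field k] [Field K] [Field L] [Field K'] [Field L']
    [Algebra k K] [Algebra k L] [Algebra k K'] [Algebra k L'] [Algebra K L] [Algebra K K']
    [Algebra K L'] [Algebra L L'] [Algebra K' L'] [IsScalarTower k K L] [IsScalarTower k K K']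
    [IsScalarTower k K L'] [IsScalarTower k L L'] [IsScalarTower k K' L'] [IsScalarTower K L L']
    [IsScalarTower K K' L'] [FiniteDimensional K K'] [FiniteDimensional L L'] [CharZero k]
    {X : ProjVar k L} {Z : ProjVar k K} (D : X.Div) (T : Z.Div) (B : Finset Z.primeDivisors)
    {m : ℕ} (hm : 0 < m) {s : ℕ} {ψ₀ : L'} (hψ₀ : ψ₀ ≠ 0) {ψ : Fin s → L'}
    (hind : AlgebraicIndependent K' fun j => ψ j / ψ₀)
    (hor : ∀ P : X.primeDivisors, (∀ x : K, P.1 (algebraMap K L x) = 0) →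
      ∀ (v : DVal k L') (ε : ℕ), LiesOver v P.1 ε →
        -((ε : ℚ) * (m * D P)) ≤ v ψ₀ ∧ ∀ j, -((ε : ℚ) * (m * D P)) ≤ v (ψ j))
    (vert : ∀ (P : X.primeDivisors) (Q : Z.primeDivisors) (e : ℕ), LiesOver P.1 Q.1 e →
      ∀ (v : DVal k L') (ε : ℕ), LiesOver v P.1 ε →
        (ε : ℚ) * (m * (e * T Q - D P)) ≤ v ψ₀ ∧
          ∀ j, (ε : ℚ) * (m * (e * T Q - D P)) ≤ v (ψ j))
    (strict : ∀ Q ∈ B, ∀ (P : X.primeDivisors) (e : ℕ), LiesOver P.1 Q.1 e →
      ∃ (v : DVal k L') (ε : ℕ), LiesOver v P.1 ε ∧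
        (ε : ℚ) * (m * (e * T Q - D P)) < v ψ₀ ∧
          ∀ j, (ε : ℚ) * (m * (e * T Q - D P)) < v (ψ j)) :
    Nonempty (LowerData X Z D T B s) := by
  obtain ⟨R, hR, hlow⟩ := low_norm (L' := L') D T B hm
  have heK : AlgebraicIndependent K fun j => ψ j / ψ₀ :=
    hind.restrictScalars (algebraMap K K').injective
  obtain ⟨i, z, hz⟩ := exists_norm_indep (k := k) (K := K) (L := L) heK hR
  have hρz : ∀ l, ψ (i l) / ψ₀ - algebraMap k L' (z l) ≠ 0 := by
    intro l h
    have h1 := hz.transcendental l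
    simp only [h, Algebra.norm_zero, zero_pow hR.ne'] at h1
    exact h1 isAlgebraic_zero
  have heq : ∀ l, ψ₀ * (ψ (i l) / ψ₀ - algebraMap k L' (z l)) =
      ψ (i l) - algebraMap k L' (z l) * ψ₀ := by
    intro l
    field_simp
  have hψ1 : ∀ l, ψ (i l) - algebraMap k L' (z l) * ψ₀ ≠ 0 := by
    intro l
    rw [← heq]
    exact mul_ne_zero hψ₀ (hρz l)
  obtain ⟨a1, a2⟩ := hlow ψ₀ hψ₀
    (fun P hP v ε hv => (hor P hP v ε hv).1)
    (fun P Q e hPQ v ε hv => (vert P Q e hPQ v ε hv).1)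
    (fun P Q e hPQ hQ => by
      obtain ⟨v, ε, hv, h, _⟩ := strict Q hQ P e hPQ
      exact ⟨v, ε, hv, h⟩)
  have hbb := fun l => hlow (ψ (i l) - algebraMap k L' (z l) * ψ₀) (hψ1 l)
    (fun P hP v ε hv => lowF_sub_le v (z l) (hψ1 l) ((hor P hP v ε hv).2 _)
      (hor P hP v ε hv).1)
    (fun P Q e hPQ v ε hv => lowF_sub_le v (z l) (hψ1 l) ((vert P Q e hPQ v ε hv).2 _)
      (vert P Q e hPQ v ε hv).1)
    (fun P Q e hPQ hQ => by
      obtain ⟨v, ε, hv, h, h'⟩ := strict Q hQ P e hPQ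
      exact ⟨v, ε, hv, lowF_sub_lt v (z l) (hψ1 l) (h' _) h⟩)
  have hbρ : ∀ l, Algebra.norm L ψ₀ ^ R *
      Algebra.norm L (ψ (i l) / ψ₀ - algebraMap k L' (z l)) ^ R =
      Algebra.norm L (ψ (i l) - algebraMap k L' (z l) * ψ₀) ^ R := by
    intro l
    rw [← mul_pow, ← map_mul, heq]
  refine ⟨{ N := R * (Module.finrank L L' * m)
            N_pos := Nat.mul_pos hR (Nat.mul_pos Module.finrank_pos hm)
            b := Algebra.norm L ψ₀ ^ R
            b_ne := pow_ne_zero _ (Algebra.norm_ne_zero_iff.2 hψ₀)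
            ρ := fun l => Algebra.norm L (ψ (i l) / ψ₀ - algebraMap k L' (z l)) ^ R
            indep := hz
            hor := fun P hP => ⟨a1 P hP, fun l => ?_⟩
            vert := fun P Q e hPQ => ⟨a2 P Q e hPQ, fun l => ?_⟩ }⟩
  · rw [hbρ]
    exact (hbb l).1 P hP
  · rw [hbρ]
    exact (hbb l).2 P Q e hPQ

end Pool.Agent.Helper92.HA
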