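import Pool.Agent.Helper92.HR.PsiR
import Pool.Agent.Helper92.HR.ExpsR
import Pool.Agent.Helper92.HR.LowFam
import Pool.Agent.Helper92.HA.Rho

set_option autoImplicit false

/-!
# HR-07 LowerR: the data for the lower bound

PROOF. `exists_slack_const` gives `C₁`, `exps_posR` gives `η` and then, for `C = sigC G * (C₁ + 1)`, `m, r, x`. `rho_indep` gives `e : Fin d → ι`
with the `phi (x (e i)) / phi (x o)` algebraically independent. `lower_of_family` for `s = d`, `ψ₀ = phi (x o) sig / u^m`,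
`ψ i = phi (x (e i)) sig / u^m` (the quotients are the same: `sig ≠ 0`, `u ≠ 0`): `psiR_hor`, `psiR_vert`, `psiR_strict`
(for `Q ∈ B` and `P` over `Q`: `P` is not `GoodR` by `hB`).
-/

namespace Pool.Agent.Helper92.HA

open Module Pool.Agent.Helper92.Weak Pool.Agent.Helper63.PB

variable {k K L K' M L' : Type*} [Field k] [Field K] [Field L] [Field K'] [Field M] [Field L']
  [Algebra k K] [Algebra k L] [Algebra k K'] [Algebra k M] [Algebra k L'] [Algebra K L]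
  [Algebra K K'] [Algebra K L'] [Algebra L L'] [Algebra K' M] [Algebra K' L'] [Algebra M L']
  [IsScalarTower k K L] [IsScalarTower k K K'] [IsScalarTower k K L'] [IsScalarTower k L L']
  [IsScalarTower k K' M] [IsScalarTower k K' L'] [IsScalarTower k M L'] [IsScalarTower K L L']
  [IsScalarTower K K' L'] [IsScalarTower K' M L'] [FiniteDimensional K K']
  [FiniteDimensional L L'] [FiniteDimensional M L'] [CharZero k] {d : ℕ}
  {X : ProjVar k L} {Z : ProjVar k K} {t : Fin d → M} {ι : Type*} [Fintype ι] [DecidableEq ι]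

theorem lowerR_pos {F : DFrame X Z K' (tL L' t)} {A : Arr K' L' t ι} {j : Fin d → ι}
    {G : MvPolynomial (Fin d) K'} {n : ℕ} {w : ℚ} {Δ : X.Div} {E : Z.Div} (hj : A.IsCo j)
    (H : HorR F A j G n w Δ) (hh : 0 < A.h)
    (hE : ∀ (P : X.primeDivisors) (Q : Z.primeDivisors) (e : ℕ), LiesOver P.1 Q.1 e →
      e * E Q ≤ Δ P + (e - 1)) {B : Finset Z.primeDivisors}
    (hB : ∀ Q ∈ B, ¬ ∃ (P : X.primeDivisors) (e : ℕ), GoodR F A j G Δ E P Q e) :
    Nonempty (LowerData X Z (F.aD + Δ) (F.cD + E) B d) := by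
  obtain ⟨C₁, hC₁⟩ := exists_slack_const hj H
  obtain ⟨η, hη0, hη1, hex⟩ := exps_posR A hh
  obtain ⟨m, r, x, hm, hr, hC, hx1, hx2, hx3, hx4, hx5⟩ := hex (sigC G * (C₁ + 1))
  obtain ⟨e, hind⟩ := rho_indep A hr x hx2 hx5
  have hCa : ((sigC G * C₁ : ℕ) : ℚ) ≤ η * m := by
    refine le_trans ?_ hC
    exact_mod_cast Nat.mul_le_mul_left _ (Nat.le_succ C₁)
  have hCb : ∀ i b, IsBase K' A.co b → sigC G < x i b := by
    intro i b hb
    refine lt_of_le_of_lt ?_ (hx1 i b hb)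
    exact Nat.le_mul_of_pos_right _ (Nat.succ_pos C₁)
  have hφ : ∀ i, A.phi (x i) ≠ 0 := fun i => phi_ne A (hx2 i)
  have hσ : A.sig j G ≠ 0 := sig_ne hj H.G_ne
  have hu : F.u ^ m ≠ 0 := pow_ne_zero _ F.u_ne
  refine lower_of_family (K' := K') (F.aD + Δ) (F.cD + E) B hm
    (ψ₀ := A.phi (x A.o) * A.sig j G / F.u ^ m)
    (div_ne_zero (mul_ne_zero (hφ _) hσ) hu)
    (ψ := fun i => A.phi (x (e i)) * A.sig j G / F.u ^ m) ?_ ?_ ?_ ?_
  · have h1 : (fun i => A.phi (x (e i)) * A.sig j G / F.u ^ m /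
        (A.phi (x A.o) * A.sig j G / F.u ^ m)) = fun i => A.phi (x (e i)) / A.phi (x A.o) := by
      funext i
      have := hφ A.o
      field_simp
    rw [h1]
    exact hind
  · intro P hP v ε hv
    exact ⟨psiR_hor hj H hC₁ hη0 hη1 (hx2 _) (hx4 _) (hx3 _) hCa hP hv, fun i =>
      psiR_hor hj H hC₁ hη0 hη1 (hx2 _) (hx4 _) (hx3 _) hCa hP hv⟩
  · intro P Q e' hP v ε hv
    exact ⟨psiR_vert hj H.G_ne hE (hx2 _) (hx4 _) (hCb _) hP hv, fun i =>
      psiR_vert hj H.G_ne hE (hx2 _) (hx4 _) (hCb _) hP hv⟩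
  · intro Q hQ P e' hP
    obtain ⟨v, ε, hv, h⟩ := psiR_strict hj H.G_ne hE hP fun hg => hB Q hQ ⟨P, e', hg⟩
    exact ⟨v, ε, hv, h _ m hm (hx2 _) (hx4 _) (hCb _), fun i =>
      h _ m hm (hx2 _) (hx4 _) (hCb _)⟩

end Pool.Agent.Helper92.HA
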