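import Pool.Agent.Helper92.HA.Kill
import Pool.Agent.Helper92.HR.BaseCo
import Pool.Agent.Helper63.PB.Approx
import Pool.Agent.Helper63.PB.Finite
import Pool.Agent.Helper47.PQ.R1

set_option autoImplicit false

/-!
# HR-09 KillR: from sections on `X` to polynomials in the coordinates and the roots

As `exists_poly_of_secA` (`Helper92/HA/Kill.lean`: copy the proof), with the additional factor `(ev j G)^W`, `W = M₀ w`, in `Ψ`: for
`v ∈ T` over `P`, `H.up` gives `ε (a P + Δ P) ≤ v u + (d+1) m + ∑ δ_i (v (l_i) - m) + w (v (G) - n m)`, so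
`v F ≥ -ε (q M₀ (a P + Δ P) + A_X P) + q M₀ v u + q M₀ ∑ δ_i v (l_i) + q W v (G) + v (g(t)) ≥ q m (M₀ h + W n) - ε A_X P + v (g(t))`
`≥ (q J + c_A) m`. `H.sec` with `c = q J + c_A`.
-/

namespace Pool.Agent.Helper92.HA

open Module Pool.Agent.Helper92.Weak Pool.Agent.Helper63.PB

variable {k K L K' M L' : Type*} [Field k] [Field K] [Field L] [Field K'] [Field M] [Field L']
  [Algebra k K] [Algebra k L] [Algebra k K'] [Algebra k M] [Algebra k L'] [Algebra K L]
  [Algebra K K'] [Algebra K L'] [Algebra L L'] [Algebra K' M] [Algebra K' L'] [Algebra M L']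
  [IsScalarTower k K L] [IsScalarTower k K K'] [IsScalarTower k K L'] [IsScalarTower k L L']
  [IsScalarTower k K' M] [IsScalarTower k K' L'] [IsScalarTower k M L'] [IsScalarTower K L L']
  [IsScalarTower K K' L'] [IsScalarTower K' M L'] [FiniteDimensional K K']
  [FiniteDimensional L L'] [FiniteDimensional M L'] [CharZero k] {d : ℕ}
  {X : ProjVar k L} {Z : ProjVar k K} {t : Fin d → M} {ι : Type*} [Fintype ι] [DecidableEq ι]

/-- A valuation over a valuation trivial on `K` is trivial on `K'`. -/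
private theorem triv_aux {k K L K' L' : Type*} [Field k] [Field K] [Field L] [Field K'] [Field L']
    [Algebra k K] [Algebra k L] [Algebra k K'] [Algebra k L'] [Algebra K L] [Algebra K K']
    [Algebra K L'] [Algebra L L'] [Algebra K' L']
    [IsScalarTower K L L'] [IsScalarTower K K' L'] [FiniteDimensional K K']
    {P : DVal k L} (hP : ∀ x : K, P (algebraMap K L x) = 0) {v : DVal k L'} {ε : ℕ}
    (hv : LiesOver v P ε) (x : K') : v (algebraMap K' L' x) = 0 := by
  have hv0 : ∀ x : K, v (algebraMap K L' x) = 0 := fun x => by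
    rw [IsScalarTower.algebraMap_apply K L L', hv.2, hP, mul_zero]
  have key : ∀ z : K', 0 ≤ v (algebraMap K' L' z) := by
    intro z
    apply Pool.Agent.Helper47.PQ.mem_ring_of_isIntegral v
    have h1 : IsIntegral K (algebraMap K' L' z) :=
      (Algebra.IsIntegral.isIntegral z).algebraMap
    obtain ⟨p, hp, hpz⟩ := h1
    let φ : K →+* v.ring :=
      { toFun := fun c => ⟨algebraMap K L' c, (hv0 c).ge⟩
        map_one' := by ext; simp
        map_mul' := fun a b => by ext; simp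
        map_zero' := by ext; simp
        map_add' := fun a b => by ext; simp }
    refine ⟨p.map φ, hp.map φ, ?_⟩
    rw [Polynomial.eval₂_map]
    exact hpz
  have h1 := key x
  have h2 := key x⁻¹
  rw [map_inv₀, v.map_inv] at h2
  omega

/-- The polynomial `g`. -/
private theorem exists_killer {F : DFrame X Z K' (tL L' t)} {A : Arr K' L' t ι} {j : Fin d → ι}
    {G : MvPolynomial (Fin d) K'} {n₀ : ℕ} {w₀ : ℚ} {Δ : X.Div}
    (H : HorR F A j G n₀ w₀ Δ) (AX : X.Div) :
    ∃ (g : MvPolynomial (Fin d) K') (cA : ℕ), g ≠ 0 ∧ (AX = 0 → g = 1 ∧ cA = 0) ∧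
      ∀ v ∈ H.T, ∀ (P : X.primeDivisors) (ε : ℕ), LiesOver v P.1 ε → ∀ m, IsMin A v m →
        ((cA * m : ℤ) : ℚ) + ε * AX P ≤ v (MvPolynomial.aeval (tL L' t) g) := by
  classical
  -- the finitely many valuations
  have hfin : (⋃ P ∈ AX.support, {w : DVal k L' | ∃ ε, LiesOver w P.1 ε}).Finite :=
    Set.Finite.biUnion (Finset.finite_toSet _) fun P _ => finite_above P.1
  have hfin2 : (H.T ∩ ⋃ P ∈ AX.support, {w : DVal k L' | ∃ ε, LiesOver w P.1 ε}).Finite :=
    hfin.subset Set.inter_subset_right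
  set V : Finset (DVal k L') := hfin2.toFinset with hV
  have hVT : ∀ v ∈ V, v ∈ H.T := fun v hv => ((Set.Finite.mem_toFinset _).1 hv).1
  -- the killing polynomials
  have hk : ∀ v : DVal k L', ∃ (g : MvPolynomial (Fin d) K') (n : ℕ), g ≠ 0 ∧
      g.totalDegree ≤ n ∧ (v ∈ H.T → ∀ m, IsMin A v m →
        n * m + 1 ≤ v (MvPolynomial.aeval (tL L' t) g)) := by
    intro v
    by_cases hv : v ∈ H.T
    · obtain ⟨g, n, h1, h2, h3⟩ := H.kill v hv
      exact ⟨g, n, h1, h2, fun _ => h3⟩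
    · exact ⟨1, 0, one_ne_zero, by simp, fun h => absurd h hv⟩
  choose g n hg hn hgv using hk
  -- exponents
  have hN : ∀ v : DVal k L', ∃ N : ℕ, ∀ (P : X.primeDivisors) (ε : ℕ), LiesOver v P.1 ε →
      (ε : ℚ) * AX P ≤ N := by
    intro v
    by_cases hv : ∃ (P : X.primeDivisors) (ε : ℕ), LiesOver v P.1 ε
    · obtain ⟨P, ε, hP⟩ := hv
      obtain ⟨N, hN⟩ := exists_nat_ge ((ε : ℚ) * AX P)
      refine ⟨N, fun P' ε' hP' => ?_⟩
      obtain ⟨h1, h2⟩ := Pool.Agent.Helper47.PQ.liesOver_unique hP' hP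
      have h3 : P' = P := Subtype.ext h1
      rw [h3, h2]
      exact hN
    · push_neg at hv
      exact ⟨0, fun P ε h => absurd h (hv P ε)⟩
  choose N hN using hN
  have hinj : ∀ p : MvPolynomial (Fin d) K', p ≠ 0 → MvPolynomial.aeval (tL L' t) p ≠ 0 := by
    intro p hp h
    apply hp
    apply F.indep
    rw [h, map_zero]
  refine ⟨∏ v ∈ V, g v ^ N v, ∑ v ∈ V, N v * n v, ?_, ?_, ?_⟩
  · exact Finset.prod_ne_zero_iff.2 fun v _ => pow_ne_zero _ (hg v)
  · intro h0
    have hVe : V = ∅ := by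
      rw [hV]
      ext w
      simp [h0]
    rw [hVe]
    simp
  · intro v hv P ε hP m hm
    have hdeg : (∏ w ∈ V, g w ^ N w).totalDegree ≤ ∑ w ∈ V, N w * n w := by
      refine (MvPolynomial.totalDegree_finset_prod _ _).trans (Finset.sum_le_sum fun w _ => ?_)
      refine (MvPolynomial.totalDegree_pow _ _).trans (Nat.mul_le_mul_left _ (hn w))
    have hne : MvPolynomial.aeval (tL L' t) (∏ w ∈ V, g w ^ N w) ≠ 0 :=
      hinj _ (Finset.prod_ne_zero_iff.2 fun v _ => pow_ne_zero _ (hg v))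
    by_cases hvV : v ∈ V
    · -- value of the product
      have h1 : v (MvPolynomial.aeval (tL L' t) (∏ w ∈ V, g w ^ N w)) =
          ∑ w ∈ V, N w * v (MvPolynomial.aeval (tL L' t) (g w)) := by
        rw [map_prod, v.map_prod]
        · refine Finset.sum_congr rfl fun w _ => ?_
          rw [map_pow, v.map_pow]
        · intro w _
          rw [map_pow]
          exact pow_ne_zero _ (hinj _ (hg w))
      have h2 : ∀ w ∈ V, (N w * (n w * m) : ℤ) + (if w = v then (N v : ℤ) else 0) ≤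
          N w * v (MvPolynomial.aeval (tL L' t) (g w)) := by
        intro w _
        by_cases hwv : w = v
        · subst hwv
          rw [if_pos rfl]
          have h3 := hgv w hv m hm
          have h4 : (0 : ℤ) ≤ N w := by positivity
          nlinarith
        · rw [if_neg hwv, add_zero]
          have h3 := H.poly v hv (g w) (n w) (hn w) m hm
          rw [DVal.ge_iff (hinj _ (hg w))] at h3
          have h4 : (n w * m : ℤ) ≤ v (MvPolynomial.aeval (tL L' t) (g w)) := by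
            exact_mod_cast h3
          have h5 : (0 : ℤ) ≤ N w := by positivity
          nlinarith
      have h3 := Finset.sum_le_sum h2
      rw [Finset.sum_add_distrib, Finset.sum_ite_eq' V v, if_pos hvV, ← h1] at h3
      have h4 : (∑ w ∈ V, (N w * (n w * m) : ℤ)) = ((∑ w ∈ V, N w * n w : ℕ) : ℤ) * m := by
        push_cast
        rw [Finset.sum_mul]
        refine Finset.sum_congr rfl fun w _ => ?_
        ring
      rw [h4] at h3
      have h5 : (((∑ w ∈ V, N w * n w : ℕ) : ℤ) * m : ℚ) + N v ≤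
          v (MvPolynomial.aeval (tL L' t) (∏ w ∈ V, g w ^ N w)) := by exact_mod_cast h3
      have h6 := hN v P ε hP
      push_cast at h5 ⊢
      linarith
    · have h1 := H.poly v hv _ _ hdeg m hm
      rw [DVal.ge_iff hne] at h1
      have h2 : AX P = 0 := by
        by_contra hne
        apply hvV
        rw [hV, Set.Finite.mem_toFinset]
        refine ⟨hv, Set.mem_iUnion₂.2 ⟨P, Finsupp.mem_support_iff.2 hne, ε, hP⟩⟩
      rw [h2, mul_zero, add_zero]
      push_cast at h1 ⊢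
      exact h1

theorem exists_poly_of_secR {F : DFrame X Z K' (tL L' t)} {A : Arr K' L' t ι} {j : Fin d → ι}
    {G : MvPolynomial (Fin d) K'} {n : ℕ} {w : ℚ} {Δ : X.Div} (hj : A.IsCo j)
    (H : HorR F A j G n w Δ) {M₀ W : ℕ} {wt : ι → ℕ} (hw : ∀ i, (wt i : ℚ) = M₀ * A.δ i)
    (hW : (W : ℚ) = M₀ * w) {J : ℤ} (hJ : (J : ℚ) = M₀ * A.h + W * n) {κ₀ : K'} (hκ : κ₀ ≠ 0)
    (AX : X.Div) :
    ∃ (g : MvPolynomial (Fin d) K') (cA : ℕ), g ≠ 0 ∧ (AX = 0 → g = 1 ∧ cA = 0) ∧
      ∀ (q : ℕ) (f : L), f ∈ X.H0 (((q * M₀ : ℕ) : ℚ) • (F.aD + Δ) + AX) →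
        ∃ G' : (ι → Fin A.N) → MvPolynomial (Fin d) K',
          algebraMap L L' f * (F.u ^ M₀ * (algebraMap K' L' κ₀ * (∏ i, A.l i ^ wt i) *
            A.ev j G ^ W)) ^ q * MvPolynomial.aeval (tL L' t) g =
            ∑ χ, MvPolynomial.aeval (tL L' t) (G' χ) * A.mono χ ∧
          ∀ χ, G' χ ≠ 0 → (χ A.o : ℕ) = 0 ∧
            A.N * (G' χ).totalDegree + ∑ i, (χ i : ℕ) ≤ A.N * (q * J + cA) := by
  obtain ⟨g, cA, hg0, hg1, hg2⟩ := exists_killer H AX
  refine ⟨g, cA, hg0, hg1, fun q f hf => ?_⟩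
  refine H.sec _ (q * J + cA) ?_
  intro v hv m hm
  by_cases hf0 : f = 0
  · left
    rw [hf0, map_zero, zero_mul, zero_mul]
  right
  obtain ⟨P, hP, ε, hvP, hup⟩ := H.up v hv
  have hup := hup m hm
  have hgt := hg2 v hv P ε hvP m hm
  have hl : ∀ i, A.l i ≠ 0 := l_ne A
  have hG : A.ev j G ≠ 0 := ev_ne hj H.G_ne
  have hκ' : algebraMap K' L' κ₀ ≠ 0 := by
    rw [Ne, map_eq_zero]
    exact hκ
  have hfne : algebraMap L L' f ≠ 0 := by
    rw [Ne, map_eq_zero]
    exact hf0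
  have hprod : ∏ i, A.l i ^ wt i ≠ 0 := Finset.prod_ne_zero_iff.2 fun i _ => pow_ne_zero _ (hl i)
  have hgne : MvPolynomial.aeval (tL L' t) g ≠ 0 := by
    intro h
    apply hg0
    apply F.indep
    rw [h, map_zero]
  have hΨ : F.u ^ M₀ * (algebraMap K' L' κ₀ * (∏ i, A.l i ^ wt i) * A.ev j G ^ W) ≠ 0 :=
    mul_ne_zero (pow_ne_zero _ F.u_ne) (mul_ne_zero (mul_ne_zero hκ' hprod) (pow_ne_zero _ hG))
  have htr : v (algebraMap K' L' κ₀) = 0 := triv_aux (K := K) (K' := K') hP hvP κ₀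
  have hvf : v (algebraMap L L' f) = ε * P.1 f := hvP.2 f
  have hv1 : v (algebraMap L L' f * (F.u ^ M₀ * (algebraMap K' L' κ₀ * (∏ i, A.l i ^ wt i) *
      A.ev j G ^ W)) ^ q * MvPolynomial.aeval (tL L' t) g) =
        ε * P.1 f + q * (M₀ * v F.u + ∑ i, wt i * v (A.l i) + W * v (A.ev j G)) +
        v (MvPolynomial.aeval (tL L' t) g) := by
    rw [v.map_mul (mul_ne_zero hfne (pow_ne_zero _ hΨ)) hgne, v.map_mul hfne (pow_ne_zero _ hΨ),
      v.map_pow, v.map_mul (pow_ne_zero _ F.u_ne) (mul_ne_zero (mul_ne_zero hκ' hprod)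
        (pow_ne_zero _ hG)), v.map_pow, v.map_mul (mul_ne_zero hκ' hprod) (pow_ne_zero _ hG),
      v.map_pow, v.map_mul hκ' hprod, htr, hvf, v.map_prod _ _ fun i _ => pow_ne_zero _ (hl i)]
    simp only [v.map_pow]
    ring
  have hPf : -((q * M₀ : ℕ) * (F.a P + Δ P) + AX P) ≤ P.1 f := by
    have h1 : f ∈ sec (fun P : X.primeDivisors => P.1)
      (((q * M₀ : ℕ) : ℚ) • (F.aD + Δ) + AX) := hf
    unfold sec at h1
    have h2 := (Submodule.mem_iInf _).1 h1 P
    rw [DVal.mem_filt, DVal.ge_iff hf0] at h2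
    simp only [Pi.add_apply, Pi.smul_apply, smul_eq_mul, DFrame.aD_apply] at h2
    exact h2
  rw [hv1]
  have hε : (0 : ℚ) ≤ ε := by positivity
  have hq : (0 : ℚ) ≤ q := by positivity
  have hM : (0 : ℚ) ≤ M₀ := by positivity
  have h3 := mul_le_mul_of_nonneg_left hPf hε
  have h4 := mul_le_mul_of_nonneg_left hup (mul_nonneg hq hM)
  have h5 : ∑ i, (wt i : ℚ) * v (A.l i) = M₀ * ∑ i, A.δ i * v (A.l i) := by
    rw [Finset.mul_sum]
    refine Finset.sum_congr rfl fun i _ => ?_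
    rw [hw i, mul_assoc]
  have h6 : ∑ i, A.δ i * ((v (A.l i) : ℚ) - m) = ∑ i, A.δ i * v (A.l i) - (∑ i, A.δ i) * m := by
    rw [Finset.sum_mul, ← Finset.sum_sub_distrib]
    refine Finset.sum_congr rfl fun i _ => ?_
    ring
  rw [h6] at h4
  have h7 : (J : ℚ) = M₀ * (∑ i, A.δ i - (d + 1)) + W * n := hJ
  push_cast at h3 h4 h5 hgt ⊢
  rw [h5, h7, hW]
  nlinarith

end Pool.Agent.Helper92.HA
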