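import Pool.Agent.Helper92.HA.UpperPos
import Pool.Agent.Helper92.HR.KillR

set_option autoImplicit false
set_option linter.unusedSectionVars false

/-!
# HR-10 UpperR: the data for the upper bound

As `upperA_pos` (`Helper92/HA/UpperPos.lean`: copy the proof), with the additional factor `(κ₁ G)^W` in `Ψ`, `W = M₀ w` (choose `M₀` such that
`M₀ w` and all `M₀ δ_i` are natural numbers), `κ₁ = (a_α γ^α)⁻¹` for one `α ∈ G.support`, `a_α = G.coeff α`, `γ^α = ∏ γ (j i)^(α i)`. At a good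
`v` (`GoodR`): `v (G) = v (term α) = v (a_α) + ∑ α_i v (l (j i)) = v (a_α γ^α)`, so `v (κ₁ G) = 0`, and
`Ψ = κ₀ κ₁^W ∏ l_i^(w_i) G^W` has `v Ψ = M₀ μ_v` as before. `J = M₀ h + W n ≥ 0`. Everything else is unchanged (`exists_poly_of_secR` instead
of `exists_poly_of_secA`; in `upper_bad` use the element `u^M₀ Ψ` with the new `Ψ`).
-/

namespace Pool.Agent.Helper92.HA

open Module Pool.Agent.Helper92.Weak Pool.Agent.Helper63.PB

section UppBase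

variable {F V ι : Type*} [Field F] [AddCommGroup V] [Module F V] [Fintype ι]

private theorem upp_base {l : ι → V} {S : Set ι} (hS : LinearIndepOn F l S) :
    ∃ b : Finset ι, IsBase F l b ∧ ∀ i ∈ S, i ∈ b := by
  classical
  obtain ⟨b, -, hSb, hspan, hb⟩ := exists_linearIndepOn_extension hS (Set.subset_univ S)
  refine ⟨b.toFinset, ⟨?_, ?_⟩, fun i hi => Set.mem_toFinset.2 (hSb hi)⟩
  · rwa [Set.coe_toFinset]
  · rw [Set.coe_toFinset]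
    apply le_antisymm
    · exact Submodule.span_mono (Set.image_subset_range l b)
    · rw [Submodule.span_le, ← Set.image_univ]
      exact hspan

private theorem upp_base_pair {l : ι → V} (hl : ∀ i, l i ≠ 0)
    (hn : ∀ i j, i ≠ j → ∀ c : F, l i ≠ c • l j) {i j : ι} (hij : i ≠ j) :
    ∃ b : Finset ι, IsBase F l b ∧ i ∈ b ∧ j ∈ b := by
  have h1 : LinearIndepOn F l {i, j} := by
    rw [linearIndepOn_pair_iff l hij (hl i)]
    intro c hc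
    exact hn j i hij.symm c hc.symm
  obtain ⟨b, hb, h⟩ := upp_base h1
  exact ⟨b, hb, h i (by simp), h j (by simp)⟩

end UppBase

section UppDiv

variable {k K L L' : Type*} [Field k] [Field K] [Field L] [Field L'] [Algebra k K] [Algebra k L]
  [Algebra k L'] [Algebra K L] [Algebra L L'] [IsScalarTower k L L'] [FiniteDimensional L L']
  [CharZero k] {X : ProjVar k L} {Z : ProjVar k K}

private theorem upp_div {AX : X.Div} {gt : L'} (hgt : gt ≠ 0) (h0 : AX = 0 → gt = 1)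
    (Pc : Z.primeDivisors → X.primeDivisors) (hPc : ∀ Q, ∃ e, LiesOver (Pc Q).1 Q.1 e)
    (B : Finset Z.primeDivisors) (b : Z.primeDivisors → ℚ) (hb : ∀ Q, 0 ≤ b Q) :
    ∃ A' : Z.Div, (AX = 0 → A' = 0) ∧ (∀ Q, 0 ≤ A' Q) ∧
      (∀ (Q : Z.primeDivisors) (v : DVal k L') (ε : ℕ), LiesOver v (Pc Q).1 ε →
        ε * AX (Pc Q) - v gt ≤ A' Q) ∧ (AX ≠ 0 → ∀ Q ∈ B, b Q ≤ A' Q) := by
  classical
  by_cases hA : AX = 0
  · refine ⟨0, fun _ => rfl, fun Q => le_rfl, fun Q v ε _ => ?_, fun h => absurd hA h⟩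
    rw [hA, h0 hA, v.map_one]
    simp
  have hV : ∀ Q : Z.primeDivisors,
      {v : DVal k L' | ∃ ε, LiesOver v (Pc Q).1 ε}.Finite := fun Q => finite_above (Pc Q).1
  choose π hπ using fun Q : Z.primeDivisors => (Pc Q).1.surj'
  have hπ' : ∀ Q, (Pc Q).1 (π Q) = 1 := hπ
  obtain ⟨d, hd⟩ : ∃ d : Z.primeDivisors → DVal k L' → ℚ, ∀ Q v, d Q v =
      |((v (algebraMap L L' (π Q)) : ℤ) : ℚ) * AX (Pc Q)| + |((v gt : ℤ) : ℚ)| :=
    ⟨_, fun _ _ => rfl⟩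
  have hd0 : ∀ Q v, 0 ≤ d Q v := by
    intro Q v
    rw [hd]
    positivity
  have hfin : (Function.support fun Q : Z.primeDivisors =>
      (if Q ∈ B then b Q else 0) + ∑ v ∈ (hV Q).toFinset, d Q v).Finite := by
    have hT : ({P : X.primeDivisors | AX P ≠ 0} ∪
        {P : X.primeDivisors | ∃ (v : DVal k L') (ε : ℕ), LiesOver v P.1 ε ∧ v gt ≠ 0}).Finite :=
      AX.hasFiniteSupport.union (finite_ne X hgt)
    refine (B.finite_toSet.union (finite_image Z hT)).subset fun Q hQ => ?_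
    by_contra hcon
    rw [Set.mem_union, not_or] at hcon
    obtain ⟨hc1, hc2⟩ := hcon
    apply hQ
    obtain ⟨e, he⟩ := hPc Q
    have hPT : Pc Q ∉ ({P : X.primeDivisors | AX P ≠ 0} ∪
        {P : X.primeDivisors | ∃ (v : DVal k L') (ε : ℕ), LiesOver v P.1 ε ∧ v gt ≠ 0}) :=
      fun h => hc2 ⟨Pc Q, h, e, he⟩
    rw [Set.mem_union, not_or] at hPT
    obtain ⟨n1, n2⟩ := hPT
    have m1 : AX (Pc Q) = 0 := by
      by_contra h
      exact n1 h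
    have hcB : Q ∉ B := hc1
    dsimp only
    rw [if_neg hcB, zero_add]
    refine Finset.sum_eq_zero fun v hv => ?_
    rw [Set.Finite.mem_toFinset] at hv
    obtain ⟨ε, hε⟩ := hv
    have m2 : v gt = 0 := by
      by_contra h
      exact n2 ⟨v, ε, hε, h⟩
    rw [hd, m1, m2]
    simp
  obtain ⟨A', hA'⟩ : ∃ A' : Z.Div, ∀ Q, A' Q = (if Q ∈ B then b Q else 0) +
      ∑ v ∈ (hV Q).toFinset, d Q v := ⟨Finsupp.ofSupportFinite _ hfin, fun Q => rfl⟩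
  have hbi : ∀ Q, 0 ≤ (if Q ∈ B then b Q else 0) := by
    intro Q
    split_ifs
    · exact hb Q
    · exact le_rfl
  have hs0 : ∀ Q, 0 ≤ ∑ v ∈ (hV Q).toFinset, d Q v := fun Q =>
    Finset.sum_nonneg fun v _ => hd0 Q v
  refine ⟨A', fun h => absurd h hA, fun Q => ?_, fun Q v ε hv => ?_, fun _ Q hQ => ?_⟩
  · rw [hA']
    exact add_nonneg (hbi Q) (hs0 Q)
  · have hvm : v ∈ (hV Q).toFinset := by
      rw [Set.Finite.mem_toFinset]
      exact ⟨ε, hv⟩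
    have h1 : d Q v ≤ ∑ v ∈ (hV Q).toFinset, d Q v :=
      Finset.single_le_sum (f := fun v => d Q v) (fun w _ => hd0 Q w) hvm
    have h2 : (ε : ℚ) * AX (Pc Q) - v gt ≤ d Q v := by
      rw [hd, hv.2, hπ']
      have h3 := le_abs_self ((ε : ℚ) * AX (Pc Q))
      have h4 := neg_abs_le ((v gt : ℤ) : ℚ)
      push_cast
      rw [mul_one]
      linarith
    rw [hA']
    have h5 := hbi Q
    linarith
  · rw [hA', if_pos hQ]
    have := hs0 Q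
    linarith

end UppDiv

variable {k K L K' M L' : Type*} [Field k] [Field K] [Field L] [Field K'] [Field M] [Field L']
  [Algebra k K] [Algebra k L] [Algebra k K'] [Algebra k M] [Algebra k L'] [Algebra K L]
  [Algebra K K'] [Algebra K L'] [Algebra L L'] [Algebra K' M] [Algebra K' L'] [Algebra M L']
  [IsScalarTower k K L] [IsScalarTower k K K'] [IsScalarTower k K L'] [IsScalarTower k L L']
  [IsScalarTower k K' M] [IsScalarTower k K' L'] [IsScalarTower k M L'] [IsScalarTower K L L']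
  [IsScalarTower K K' L'] [IsScalarTower K' M L'] [FiniteDimensional K K']
  [FiniteDimensional L L'] [FiniteDimensional M L'] [CharZero k] {d : ℕ}
  {X : ProjVar k L} {Z : ProjVar k K} {t : Fin d → M} {ι : Type*} [Fintype ι] [DecidableEq ι]

private theorem upp_r_ne (A : Arr K' L' t ι) (i : ι) : A.r i ≠ 0 := by
  intro h
  have h1 := A.r_pow i
  rw [h, zero_pow A.N_pos.ne'] at h1
  exact l_ne A i h1.symm

private theorem upp_r_val (A : Arr K' L' t ι) (v : DVal k L') (i : ι) :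
    (A.N : ℤ) * v (A.r i) = v (A.l i) := by
  have h1 : A.r i ^ A.N = A.l i := A.r_pow i
  rw [← h1, v.map_pow]

private theorem upp_mono_val (A : Arr K' L' t ι) (v : DVal k L') (χ : ι → Fin A.N) :
    (A.N : ℤ) * v (A.mono χ) = ∑ i, ((χ i : ℕ) : ℤ) * v (A.l i) := by
  unfold Arr.mono
  rw [v.map_prod _ _ fun i _ => pow_ne_zero _ (upp_r_ne A i), Finset.mul_sum]
  refine Finset.sum_congr rfl fun i _ => ?_
  rw [v.map_pow, ← upp_r_val A v i]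
  ring

private theorem upp_psi_val (F : DFrame X Z K' (tL L' t)) (A : Arr K' L' t ι) {Δ : X.Div}
    {E : Z.Div} {P : X.primeDivisors} {Q : Z.primeDivisors} {e : ℕ}
    (hg : Good F A (fun _ => True) Δ E P Q e) {v : DVal k L'} {ε : ℕ} (hv : LiesOver v P.1 ε)
    {γ : ι → K'} (hγ0 : ∀ i, γ i ≠ 0) (hl : ∀ i, v (A.l i) = v (algebraMap K' L' (γ i)))
    {b₀ : Finset ι} (hb₀ : IsBase K' A.co b₀) (M₀ : ℕ) (w : ι → ℕ) :
    v (algebraMap K' L' (((∏ i ∈ b₀, γ i) / A.cdet b₀) ^ M₀ / ∏ i, γ i ^ w i) *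
      ∏ i, A.l i ^ w i) = M₀ * F.mu P Q e v ε := by
  have hγ' : ∀ i, algebraMap K' L' (γ i) ≠ 0 := fun i => (map_ne_zero _).2 (hγ0 i)
  have hc : A.cdet b₀ ≠ 0 := cdet_ne A hb₀
  have hc' : algebraMap K' L' (A.cdet b₀) ≠ 0 := (map_ne_zero _).2 hc
  have h1 := hg.2.2 v ε hv b₀ hb₀ trivial
  rw [theta_val A v hb₀] at h1
  have hp1 : ∏ i ∈ b₀, algebraMap K' L' (γ i) ≠ 0 := Finset.prod_ne_zero_iff.2 fun i _ => hγ' i
  have hp2 : ∏ i, algebraMap K' L' (γ i) ^ w i ≠ 0 :=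
    Finset.prod_ne_zero_iff.2 fun i _ => pow_ne_zero _ (hγ' i)
  have hp3 : ∏ i, A.l i ^ w i ≠ 0 :=
    Finset.prod_ne_zero_iff.2 fun i _ => pow_ne_zero _ (l_ne A i)
  have hd1 : ((∏ i ∈ b₀, algebraMap K' L' (γ i)) / algebraMap K' L' (A.cdet b₀)) ^ M₀ ≠ 0 :=
    pow_ne_zero _ (div_ne_zero hp1 hc')
  rw [map_div₀, map_pow, map_div₀, map_prod, map_prod]
  simp only [map_pow]
  rw [v.map_mul (div_ne_zero hd1 hp2) hp3, v.map_div hd1 hp2, v.map_pow,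
    v.map_div hp1 hc', v.map_prod _ _ fun i _ => hγ' i,
    v.map_prod _ _ fun i _ => pow_ne_zero _ (hγ' i),
    v.map_prod _ _ fun i _ => pow_ne_zero _ (l_ne A i)]
  simp only [v.map_pow, hl]
  have h2 : F.mu P Q e v ε = ∑ i ∈ b₀, v (algebraMap K' L' (γ i)) -
      v (algebraMap K' L' (A.cdet b₀)) := by
    have h3 : ∑ i ∈ b₀, v (A.l i) = ∑ i ∈ b₀, v (algebraMap K' L' (γ i)) :=
      Finset.sum_congr rfl fun i _ => hl i
    rw [h3] at h1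
    linarith
  rw [h2]
  ring

private theorem upp_psi_valR (F : DFrame X Z K' (tL L' t)) (A : Arr K' L' t ι) {j : Fin d → ι}
    {G : MvPolynomial (Fin d) K'} (hj : A.IsCo j) {Δ : X.Div}
    {E : Z.Div} {P : X.primeDivisors} {Q : Z.primeDivisors} {e : ℕ}
    (hg : GoodR F A j G Δ E P Q e) {v : DVal k L'} {ε : ℕ} (hv : LiesOver v P.1 ε)
    {γ : ι → K'} (hγ0 : ∀ i, γ i ≠ 0) (hl : ∀ i, v (A.l i) = v (algebraMap K' L' (γ i)))
    {b₀ : Finset ι} (hb₀ : IsBase K' A.co b₀) (M₀ : ℕ) (w : ι → ℕ) {β : Fin d →₀ ℕ}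
    (hβ : β ∈ G.support) (W : ℕ) :
    v (algebraMap K' L' (((∏ i ∈ b₀, γ i) / A.cdet b₀) ^ M₀ / (∏ i, γ i ^ w i) *
      (G.coeff β * ∏ i, γ (j i) ^ β i)⁻¹ ^ W) * (∏ i, A.l i ^ w i) * A.ev j G ^ W) =
      M₀ * F.mu P Q e v ε := by
  have hγ' : ∀ i, algebraMap K' L' (γ i) ≠ 0 := fun i => (map_ne_zero _).2 (hγ0 i)
  have hG : G ≠ 0 := by
    intro h
    rw [h] at hβ
    simp at hβ
  have hcβ : G.coeff β ≠ 0 := MvPolynomial.mem_support_iff.1 hβ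
  have hpγ : ∏ i, γ (j i) ^ β i ≠ 0 := Finset.prod_ne_zero_iff.2 fun i _ => pow_ne_zero _ (hγ0 _)
  have hev : A.ev j G ≠ 0 := ev_ne hj hG
  have h1 := upp_psi_val F A hg.1 hv hγ0 hl hb₀ M₀ w
  have h2 : v (algebraMap K' L' (G.coeff β * ∏ i, γ (j i) ^ β i)⁻¹ * A.ev j G) = 0 := by
    rw [v.map_mul ((map_ne_zero _).2 (inv_ne_zero (mul_ne_zero hcβ hpγ))) hev, map_inv₀,
      v.map_inv, map_mul, v.map_mul ((map_ne_zero _).2 hcβ) ((map_ne_zero _).2 hpγ),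
      ← hg.2 v ε hv β hβ]
    unfold Arr.term
    rw [v.map_mul ((map_ne_zero _).2 hcβ)
      (Finset.prod_ne_zero_iff.2 fun i _ => pow_ne_zero _ (l_ne A _)), map_prod,
      v.map_prod _ _ fun i _ => pow_ne_zero _ (l_ne A _)]
    simp only [map_pow]
    rw [v.map_prod _ _ fun i _ => pow_ne_zero _ (hγ' _)]
    simp only [v.map_pow, hl]
    ring
  have h3 : algebraMap K' L' (((∏ i ∈ b₀, γ i) / A.cdet b₀) ^ M₀ / (∏ i, γ i ^ w i) *
      (G.coeff β * ∏ i, γ (j i) ^ β i)⁻¹ ^ W) * (∏ i, A.l i ^ w i) * A.ev j G ^ W =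
      (algebraMap K' L' (((∏ i ∈ b₀, γ i) / A.cdet b₀) ^ M₀ / ∏ i, γ i ^ w i) *
        ∏ i, A.l i ^ w i) *
        (algebraMap K' L' (G.coeff β * ∏ i, γ (j i) ^ β i)⁻¹ * A.ev j G) ^ W := by
    rw [map_mul, map_pow, mul_pow]
    ring
  have hn1 : algebraMap K' L' (((∏ i ∈ b₀, γ i) / A.cdet b₀) ^ M₀ / ∏ i, γ i ^ w i) *
        ∏ i, A.l i ^ w i ≠ 0 := by
    refine mul_ne_zero ((map_ne_zero _).2 (div_ne_zero (pow_ne_zero _ (div_ne_zero ?_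
      (cdet_ne A hb₀))) ?_)) ?_
    · exact Finset.prod_ne_zero_iff.2 fun i _ => hγ0 i
    · exact Finset.prod_ne_zero_iff.2 fun i _ => pow_ne_zero _ (hγ0 i)
    · exact Finset.prod_ne_zero_iff.2 fun i _ => pow_ne_zero _ (l_ne A i)
  have hn2 : algebraMap K' L' (G.coeff β * ∏ i, γ (j i) ^ β i)⁻¹ * A.ev j G ≠ 0 :=
    mul_ne_zero ((map_ne_zero _).2 (inv_ne_zero (mul_ne_zero hcβ hpγ))) hev
  rw [h3, v.map_mul hn1 (pow_ne_zero _ hn2), v.map_pow, h2, h1, mul_zero, add_zero]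

private theorem upp_good {F : DFrame X Z K' (tL L' t)} {A : Arr K' L' t ι} {j : Fin d → ι}
    {G₀ : MvPolynomial (Fin d) K'} (hj : A.IsCo j) {Δ : X.Div}
    {E : Z.Div} {P : X.primeDivisors} {Q : Z.primeDivisors} {e : ℕ}
    (hg : GoodR F A j G₀ Δ E P Q e) {v : DVal k L'} {ε : ℕ} (hv : LiesOver v P.1 ε)
    {Q' : DVal k K'} {ε' : ℕ} (hvQ' : LiesOver v Q' ε')
    {γ : ι → K'} (hγ0 : ∀ i, γ i ≠ 0) (hγo : γ A.o = 1)
    (hl : ∀ i, v (A.l i) = v (algebraMap K' L' (γ i)))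
    {t' : Fin d → M} (ht' : IsTorus K' t')
    {c' : ι → Fin (d + 1) → K'} (hc' : ∀ i, affine t' (c' i) = affine t (A.co i))
    {D' : Fin d → Derivation K' L' L'}
    (hD' : ∀ i j, D' i (tL L' t' j) = if i = j then 1 else 0)
    (hlast : (∀ j, v (tL L' t' j) = 0) ∧
      (∀ (i : Fin d) (m : ℚ) (g : L'), v.Ge m g → v.Ge m (D' i g)) ∧
        ∀ b, IsBase K' A.co b → ∀ (a : ι → K') (m : ℚ),
          v.Ge m (∑ i ∈ b, algebraMap K' L' (a i) * (A.l i / algebraMap K' L' (γ i))) →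
          ∀ i ∈ b, v.Ge m (algebraMap K' L' (a i)))
    {b₀ : Finset ι} (hb₀ : IsBase K' A.co b₀) {M₀ : ℕ} {w : ι → ℕ} {β : Fin d →₀ ℕ}
    (hβ : β ∈ G₀.support) {W : ℕ} {gt : L'} (hgt : gt ≠ 0) {AX : X.Div} {q : ℕ} {f : L}
    (hf : f ∈ X.H0 (((q * M₀ : ℕ) : ℚ) • (F.aD + Δ) + AX))
    {G : (ι → Fin A.N) → MvPolynomial (Fin d) K'} (hG : ∀ χ, G χ ≠ 0 → (χ A.o : ℕ) = 0)
    (heq : algebraMap L L' f * (F.u ^ M₀ *
      (algebraMap K' L' (((∏ i ∈ b₀, γ i) / A.cdet b₀) ^ M₀ / (∏ i, γ i ^ w i) *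
        (G₀.coeff β * ∏ i, γ (j i) ^ β i)⁻¹ ^ W) * (∏ i, A.l i ^ w i) * A.ev j G₀ ^ W)) ^ q *
        gt =
      ∑ χ, MvPolynomial.aeval (tL L' t') (G χ) * A.mono χ)
    (χ : ι → Fin A.N) (α : Fin d →₀ ℕ) :
    v.Ge (-((ε : ℚ) * (e * (((q * M₀ : ℕ) : ℚ) * (F.cD + E) Q))) - (ε * AX P - v gt) -
      v (A.mono χ)) (algebraMap K' L' ((G χ).coeff α)) := by
  classical
  obtain ⟨htv, hDv, hbase⟩ := hlast
  refine good_coeff A ht' hc' hD' hγ0 hγo v hvQ' hl htv hDv ?_ G hG _ ?_ χ α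
  · intro i j hij a b m hm
    obtain ⟨bb, hbb, hib, hjb⟩ := upp_base_pair A.co_ne A.nprop hij
    have h1 := hbase bb hbb (fun l => if l = i then a else if l = j then b else 0) m (by
      rw [Finset.sum_eq_add i j hij]
      · simpa [hij.symm] using hm
      · intro c _ hc
        rw [if_neg hc.1, if_neg hc.2, map_zero, zero_mul]
      · exact fun h => absurd hib h
      · exact fun h => absurd hjb h)
    have h2 := h1 i hib
    have h3 := h1 j hjb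
    rw [if_pos rfl] at h2
    rw [if_neg hij.symm, if_pos rfl] at h3
    exact ⟨h2, h3⟩
  · rw [← heq]
    by_cases hf0 : f = 0
    · left
      rw [hf0, map_zero, zero_mul, zero_mul]
    have hfL : algebraMap L L' f ≠ 0 := (map_ne_zero _).2 hf0
    set Ψ : L' := algebraMap K' L' (((∏ i ∈ b₀, γ i) / A.cdet b₀) ^ M₀ / (∏ i, γ i ^ w i) *
        (G₀.coeff β * ∏ i, γ (j i) ^ β i)⁻¹ ^ W) * (∏ i, A.l i ^ w i) * A.ev j G₀ ^ W with hΨ
    have hΨv : v Ψ = M₀ * F.mu P Q e v ε := upp_psi_valR F A hj hg hv hγ0 hl hb₀ M₀ w hβ W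
    have hΨ0 : Ψ ≠ 0 := by
      rw [hΨ]
      refine mul_ne_zero (mul_ne_zero ((map_ne_zero _).2 (mul_ne_zero (div_ne_zero (pow_ne_zero _
        (div_ne_zero ?_ (cdet_ne A hb₀))) ?_) (pow_ne_zero _ (inv_ne_zero (mul_ne_zero
          (MvPolynomial.mem_support_iff.1 hβ) ?_))))) ?_) (pow_ne_zero _ (ev_ne hj ?_))
      · exact Finset.prod_ne_zero_iff.2 fun i _ => hγ0 i
      · exact Finset.prod_ne_zero_iff.2 fun i _ => pow_ne_zero _ (hγ0 i)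
      · exact Finset.prod_ne_zero_iff.2 fun i _ => pow_ne_zero _ (hγ0 _)
      · exact Finset.prod_ne_zero_iff.2 fun i _ => pow_ne_zero _ (l_ne A i)
      · intro h
        rw [h] at hβ
        simp at hβ
    have hPf : -((((q * M₀ : ℕ) : ℚ)) * (F.a P + Δ P) + AX P) ≤ P.1 f := by
      have h1 : P.1.Ge (-((((q * M₀ : ℕ) : ℚ) • (F.aD + Δ) + AX) P)) f := by
        have h2 := hf
        unfold ProjVar.H0 sec at h2
        rw [Submodule.mem_iInf] at h2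
        exact h2 P
      rw [DVal.ge_iff hf0, Finsupp.add_apply, Finsupp.smul_apply, Finsupp.add_apply,
        DFrame.aD_apply, smul_eq_mul] at h1
      exact h1
    have huM : F.u ^ M₀ ≠ 0 := pow_ne_zero _ F.u_ne
    have hgg : (F.u ^ M₀ * Ψ) ^ q ≠ 0 := pow_ne_zero _ (mul_ne_zero huM hΨ0)
    rw [DVal.ge_iff (mul_ne_zero (mul_ne_zero hfL hgg) hgt), v.map_mul (mul_ne_zero hfL hgg) hgt,
      v.map_mul hfL hgg, hv.2, v.map_pow, v.map_mul huM hΨ0, v.map_pow, hΨv]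
    unfold DFrame.mu
    rw [Finsupp.add_apply, DFrame.cD_apply]
    have h3 : (ε : ℚ) * (-((((q * M₀ : ℕ) : ℚ)) * (F.a P + Δ P) + AX P)) ≤ ε * P.1 f :=
      mul_le_mul_of_nonneg_left hPf (Nat.cast_nonneg _)
    have h4 : Δ P = e * E Q - (e - 1) := by
      have := hg.1.2.1
      linarith
    rw [h4] at h3
    push_cast at h3 ⊢
    refine le_trans (le_of_eq ?_) (add_le_add_left (add_le_add_left h3 _) _)
    ring

section Rho

variable {K'' : Type*} [Field K''] [Algebra k K''] [Algebra K' K'']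

omit [FiniteDimensional K K'] [FiniteDimensional L L'] in
private theorem upp_rho_ne (A : Arr K' L' t ι) {γ : ι → K'} (hγ0 : ∀ i, γ i ≠ 0) {ρ : ι → K''}
    (hρ : ∀ i, ρ i ^ A.N = algebraMap K' K'' (γ i)) (i : ι) : ρ i ≠ 0 := by
  intro h
  have h1 := hρ i
  rw [h, zero_pow A.N_pos.ne'] at h1
  exact (map_ne_zero _).2 (hγ0 i) h1.symm

private theorem upp_rho_val (A : Arr K' L' t ι) {v : DVal k L'} {Q' : DVal k K'} {ε' : ℕ}
    (hvQ' : LiesOver v Q' ε') {Q'' : DVal k K''} {e₂ : ℕ} (hQ'' : LiesOver Q'' Q' e₂)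
    {γ : ι → K'} (hγ0 : ∀ i, γ i ≠ 0) {ρ : ι → K''}
    (hρ : ∀ i, ρ i ^ A.N = algebraMap K' K'' (γ i))
    (hl : ∀ i, v (A.l i) = v (algebraMap K' L' (γ i))) (χ : ι → Fin A.N) {x : K'} (hx : x ≠ 0) :
    (ε' : ℤ) * Q'' (algebraMap K' K'' x * ∏ i, ρ i ^ (χ i : ℕ)) =
      e₂ * (v (algebraMap K' L' x) + v (A.mono χ)) := by
  have hρ0 := upp_rho_ne A hγ0 hρ
  have hN : (A.N : ℤ) ≠ 0 := by
    have := A.N_pos
    exact_mod_cast this.ne'
  apply mul_left_cancel₀ hN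
  rw [Q''.map_mul ((map_ne_zero _).2 hx)
    (Finset.prod_ne_zero_iff.2 fun i _ => pow_ne_zero _ (hρ0 i)), hQ''.2, hvQ'.2,
    Q''.map_prod _ _ fun i _ => pow_ne_zero _ (hρ0 i)]
  have h1 : (A.N : ℤ) * ∑ i, Q'' (ρ i ^ (χ i : ℕ)) = e₂ * ∑ i, ((χ i : ℕ) : ℤ) * Q' (γ i) := by
    rw [Finset.mul_sum, Finset.mul_sum]
    refine Finset.sum_congr rfl fun i _ => ?_
    have h2 : (A.N : ℤ) * Q'' (ρ i) = e₂ * Q' (γ i) := by
      rw [← hQ''.2, ← hρ i, Q''.map_pow]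
    rw [Q''.map_pow]
    linear_combination ((χ i : ℕ) : ℤ) * h2
  have h3 : (A.N : ℤ) * v (A.mono χ) = ε' * ∑ i, ((χ i : ℕ) : ℤ) * Q' (γ i) := by
    rw [upp_mono_val, Finset.mul_sum]
    refine Finset.sum_congr rfl fun i _ => ?_
    rw [hl i, hvQ'.2]
    ring
  linear_combination (ε' : ℤ) * h1 - (e₂ : ℤ) * h3

end Rho

private theorem upp_arith_good {ε e ε' e' e₂ e'' : ℕ} {m T C A' AP g x vx vm : ℚ}
    (h1 : (ε : ℚ) * e = ε' * e') (h2 : (e'' : ℚ) = e₂ * e') (hε' : 1 ≤ (ε' : ℚ))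
    (he' : 1 ≤ (e' : ℚ)) (he₂ : 1 ≤ (e₂ : ℚ)) (hA : 0 ≤ A') (hAg : ε * AP - g ≤ A')
    (hx : (ε' : ℚ) * x = e₂ * (vx + vm)) (hC : C = 0)
    (hv : -((ε : ℚ) * (e * (m * T))) - (ε * AP - g) - vm ≤ vx) :
    -((e'' : ℚ) * (m * (T + C) + A')) ≤ x := by
  have h3 : (ε' : ℚ) * (-((e'' : ℚ) * (m * (T + C) + A'))) ≤ ε' * x := by
    rw [hx, hC, h2]
    have h4 : (e₂ : ℚ) * (-((ε : ℚ) * (e * (m * T))) - A') ≤ e₂ * (vx + vm) := by
      refine mul_le_mul_of_nonneg_left ?_ (by linarith)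
      linarith
    refine le_trans ?_ h4
    have h5 : (e₂ : ℚ) * (-((ε : ℚ) * (e * (m * T))) - A') =
      -(e₂ * ((ε * e) * (m * T))) - e₂ * A' := by ring
    rw [h5, h1]
    have h6 : (e₂ : ℚ) * A' ≤ ε' * (e' * (e₂ * A')) := by
      have h7 : 0 ≤ (e₂ : ℚ) * A' := mul_nonneg (by linarith) hA
      have h8 : (e₂ : ℚ) * A' ≤ e' * (e₂ * A') := by nlinarith
      have h9 : 0 ≤ (e' : ℚ) * (e₂ * A') := by nlinarith
      nlinarith
    nlinarith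
  exact le_of_mul_le_mul_left h3 (by linarith)

private theorem upp_arith_bad {q M₀ e₂ e' e'' : ℕ} {T C A' C₁ CA C0 R x y r : ℚ}
    (h2 : (e'' : ℚ) = e₂ * e') (he' : 1 ≤ (e' : ℚ)) (he₂ : 1 ≤ (e₂ : ℚ)) (hq : 1 ≤ (q : ℚ))
    (hM : 1 ≤ (M₀ : ℚ)) (hA : 0 ≤ A') (hC₁ : 0 ≤ C₁) (hC0 : 0 ≤ C0) (hR : 0 ≤ R)
    (hCA : CA ≤ A' + C0) (hC : |T| + C₁ + C0 + R ≤ C)
    (hy : -(C₁ * q + CA) ≤ y) (hr : -R ≤ r) (hx : x = e₂ * y + r) :
    -((e'' : ℚ) * (((q * M₀ : ℕ) : ℚ) * (T + C) + A')) ≤ x := by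
  have hT := neg_abs_le T
  have hm : (q : ℚ) ≤ ((q * M₀ : ℕ) : ℚ) := by
    push_cast
    nlinarith
  have h3 : (q : ℚ) * (C₁ + C0 + R) ≤ ((q * M₀ : ℕ) : ℚ) * (T + C) := by
    have h4 : C₁ + C0 + R ≤ T + C := by linarith
    have h5 : 0 ≤ C₁ + C0 + R := by linarith
    nlinarith
  have h6 : C₁ * q + CA + R ≤ ((q * M₀ : ℕ) : ℚ) * (T + C) + A' := by
    have h7 : (q : ℚ) * (C₁ + C0 + R) = C₁ * q + q * C0 + q * R := by ring
    have h8 : C0 ≤ q * C0 := by nlinarith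
    have h9 : R ≤ q * R := by nlinarith
    linarith
  rw [hx, h2]
  have h10 : (e₂ : ℚ) * (-(C₁ * q + CA)) ≤ e₂ * y := mul_le_mul_of_nonneg_left hy (by linarith)
  -- `e₂ e' (S + A') ≥ e₂ (C₁ q + CA + R)`
  have h11 : 0 ≤ ((q * M₀ : ℕ) : ℚ) * (T + C) + A' := by
    have h12 : 0 ≤ (q : ℚ) * (C₁ + C0 + R) := by positivity
    linarith
  have h13 : ((q * M₀ : ℕ) : ℚ) * (T + C) + A' ≤ e' * (((q * M₀ : ℕ) : ℚ) * (T + C) + A') := by
    nlinarith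
  have h14 : (e₂ : ℚ) * (C₁ * q + CA + R) ≤ e₂ * (e' * (((q * M₀ : ℕ) : ℚ) * (T + C) + A')) :=
    mul_le_mul_of_nonneg_left (h6.trans h13) (by linarith)
  have h15 : R ≤ e₂ * R := by nlinarith
  nlinarith

theorem upperR_pos {F : DFrame X Z K' (tL L' t)} {A : Arr K' L' t ι} {j : Fin d → ι}
    {G : MvPolynomial (Fin d) K'} {n : ℕ} {w : ℚ} {Δ : X.Div} {E : Z.Div} (hj : A.IsCo j)
    (H : HorR F A j G n w Δ) (hh : 0 < A.h)
    (hK : ∀ x : L, IsAlgebraic K x → x ∈ Set.range (algebraMap K L))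
    {B : Finset Z.primeDivisors}
    (hB : ∀ Q, Q ∉ B → ∃ (P : X.primeDivisors) (e : ℕ), GoodR F A j G Δ E P Q e)
    {γ : ι → K'} (hγ0 : ∀ i, γ i ≠ 0) (hγo : γ A.o = 1)
    (hγ : ∀ (P : X.primeDivisors) (Q : Z.primeDivisors) (e : ℕ),
        Good F A (fun _ => True) Δ E P Q e → ∀ (v : DVal k L') (ε : ℕ), LiesOver v P.1 ε →
          ∀ i, v (A.l i) = v (algebraMap K' L' (γ i)))
    {K'' : Type*} [Field K''] [Algebra k K''] [Algebra K K''] [Algebra K' K'']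
    [IsScalarTower k K' K''] [IsScalarTower k K K''] [IsScalarTower K K' K'']
    [FiniteDimensional K' K''] {ρ : ι → K''} (hρ : ∀ i, ρ i ^ A.N = algebraMap K' K'' (γ i)) :
    UpperData X Z K'' (F.aD + Δ) (F.cD + E) B d := by
  classical
  have hρ0 := upp_rho_ne A hγ0 hρ
  obtain ⟨M₀, wo, hM₀, hwo⟩ := exists_nat_multiple
    (fun o : Option ι => o.elim w fun i => A.δ i) (fun o => by
      cases o with
      | none => exact H.w_nonneg
      | some i => exact (A.δ_pos i).le)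
  obtain ⟨wt, hwtdef⟩ : ∃ wt : ι → ℕ, ∀ i, wt i = wo (some i) := ⟨_, fun _ => rfl⟩
  obtain ⟨W, hWdef⟩ : ∃ W : ℕ, W = wo none := ⟨_, rfl⟩
  have hw : ∀ i, (wt i : ℚ) = M₀ * A.δ i := fun i => by
    rw [hwtdef]
    exact hwo (some i)
  have hW : (W : ℚ) = M₀ * w := by
    rw [hWdef]
    exact hwo none
  obtain ⟨β, hβ⟩ : ∃ β, β ∈ G.support := by
    obtain ⟨β, hβ⟩ := MvPolynomial.exists_coeff_ne_zero H.G_ne
    exact ⟨β, MvPolynomial.mem_support_iff.2 hβ⟩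
  have hcβ : G.coeff β ≠ 0 := MvPolynomial.mem_support_iff.1 hβ
  have hpγ : ∏ i, γ (j i) ^ β i ≠ 0 := Finset.prod_ne_zero_iff.2 fun i _ => pow_ne_zero _ (hγ0 _)
  obtain ⟨b₀, hb₀, -⟩ := upp_base (F := K') (l := A.co) (S := ∅) (linearIndepOn_empty K' A.co)
  obtain ⟨J, hJ⟩ : ∃ J : ℤ, (J : ℚ) = M₀ * A.h + W * n := by
    refine ⟨∑ i, (wt i : ℤ) - M₀ * (d + 1) + W * n, ?_⟩
    unfold Arr.h
    push_cast
    rw [mul_sub, Finset.mul_sum, Finset.sum_congr rfl fun i _ => hw i]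
  have hM₀' : (0 : ℚ) < M₀ := by exact_mod_cast hM₀
  have hJ0 : 0 ≤ J := by
    have h1 : (0 : ℚ) ≤ J := by
      rw [hJ]
      positivity
    exact_mod_cast h1
  obtain ⟨Jn, hJn⟩ := Int.eq_ofNat_of_zero_le hJ0
  obtain ⟨t', c', D', ht', hc', hD', hpol, hlast⟩ := exists_coord F A γ hγ0 hγo
  have hκ : ((∏ i ∈ b₀, γ i) / A.cdet b₀) ^ M₀ / (∏ i, γ i ^ wt i) *
      (G.coeff β * ∏ i, γ (j i) ^ β i)⁻¹ ^ W ≠ 0 := by
    refine mul_ne_zero (div_ne_zero (pow_ne_zero _ (div_ne_zero ?_ (cdet_ne A hb₀))) ?_)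
      (pow_ne_zero _ (inv_ne_zero (mul_ne_zero hcβ hpγ)))
    · exact Finset.prod_ne_zero_iff.2 fun i _ => hγ0 i
    · exact Finset.prod_ne_zero_iff.2 fun i _ => pow_ne_zero _ (hγ0 i)
  have hΨ0 : algebraMap K' L' (((∏ i ∈ b₀, γ i) / A.cdet b₀) ^ M₀ / (∏ i, γ i ^ wt i) *
      (G.coeff β * ∏ i, γ (j i) ^ β i)⁻¹ ^ W) * (∏ i, A.l i ^ wt i) * A.ev j G ^ W ≠ 0 :=
    mul_ne_zero (mul_ne_zero ((map_ne_zero _).2 hκ)
      (Finset.prod_ne_zero_iff.2 fun i _ => pow_ne_zero _ (l_ne A i)))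
      (pow_ne_zero _ (ev_ne hj H.G_ne))
  have hg0 : F.u ^ M₀ * (algebraMap K' L' (((∏ i ∈ b₀, γ i) / A.cdet b₀) ^ M₀ /
      (∏ i, γ i ^ wt i) * (G.coeff β * ∏ i, γ (j i) ^ β i)⁻¹ ^ W) * (∏ i, A.l i ^ wt i) *
        A.ev j G ^ W) ≠ 0 := mul_ne_zero (pow_ne_zero _ F.u_ne) hΨ0
  -- the chosen prime divisors
  have hch : ∀ Q : Z.primeDivisors, ∃ (P : X.primeDivisors) (e : ℕ), LiesOver P.1 Q.1 e ∧
      (Q ∉ B → GoodR F A j G Δ E P Q e) := by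
    intro Q
    by_cases hQ : Q ∈ B
    · obtain ⟨P, hP, e, he⟩ := F.surj Q.1 Q.2
      exact ⟨⟨P, hP⟩, e, he, fun h => absurd hQ h⟩
    · obtain ⟨P, e, h⟩ := hB Q hQ
      exact ⟨P, e, h.1.1, fun _ => h⟩
  choose Pc ec hPe hgood using hch
  have : FiniteDimensional K K'' := Module.Finite.trans K' K''
  have hresE : ∀ Q'' : DVal k K'', ∃ (Q' : DVal k K') (e₂ : ℕ), LiesOver Q'' Q' e₂ :=
    fun Q'' => exists_under Q''
  choose res r₂ hres using hresE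
  have hS : ∀ Q : Z.primeDivisors, {Q'' : DVal k K'' | ∃ ε, LiesOver Q'' Q.1 ε}.Finite :=
    fun Q => finite_above Q.1
  have hbad := fun Q' : DVal k K' => upper_bad A F.D F.D_t ht' ((M₀ : ℚ) • (F.aD + Δ)) hg0 Q'
  choose C₁ hC₁ using hbad
  choose CA hCA using hC₁
  obtain ⟨c₁, hc₁⟩ : ∃ c₁ : DVal k K'' → ℚ, ∀ Q'', c₁ Q'' =
      (C₁ (res Q'') : ℚ) + (CA (res Q'') 0 1 one_ne_zero : ℕ) +
        ∑ i, (A.N : ℚ) * |((Q'' (ρ i) : ℤ) : ℚ)| := ⟨_, fun _ => rfl⟩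
  have hc₁0 : ∀ Q'', 0 ≤ c₁ Q'' := by
    intro Q''
    rw [hc₁]
    positivity
  obtain ⟨C, hC⟩ : ∃ C : ℕ, ∀ Q ∈ B, ∀ Q'' ∈ (hS Q).toFinset,
      |(F.cD + E) Q| + c₁ Q'' ≤ C := by
    obtain ⟨C, hC⟩ := exists_nat_ge (∑ Q ∈ B, ∑ Q'' ∈ (hS Q).toFinset,
      (|(F.cD + E) Q| + c₁ Q''))
    refine ⟨C, fun Q hQ v hv => le_trans ?_ hC⟩
    have h0 : ∀ Q Q'', 0 ≤ |(F.cD + E) Q| + c₁ Q'' := fun Q Q'' =>
      add_nonneg (abs_nonneg _) (hc₁0 Q'')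
    have h1 : |(F.cD + E) Q| + c₁ v ≤ ∑ v ∈ (hS Q).toFinset, (|(F.cD + E) Q| + c₁ v) :=
      Finset.single_le_sum (f := fun v => |(F.cD + E) Q| + c₁ v) (fun w hw => h0 Q w) hv
    refine h1.trans (Finset.single_le_sum
      (f := fun Q => ∑ v ∈ (hS Q).toFinset, (|(F.cD + E) Q| + c₁ v))
      (fun Q' _ => Finset.sum_nonneg fun w _ => h0 Q' w) hQ)
  refine ⟨M₀, C, hM₀, fun AX => ?_⟩
  obtain ⟨g, cA, hg, hgA, hpoly⟩ := exists_poly_of_secR hj H hw hW hJ hκ AX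
  have hgt0 : MvPolynomial.aeval (tL L' t) g ≠ 0 := by
    intro h
    apply hg
    exact F.indep (by rw [h, map_zero])
  obtain ⟨A', hA'0, hA'p, hA'v, hA'B⟩ := upp_div (Z := Z) (AX := AX) hgt0
    (fun h => by rw [(hgA h).1, map_one]) Pc (fun Q => ⟨ec Q, hPe Q⟩) B
    (fun Q => ∑ Q'' ∈ (hS Q).toFinset, ((CA (res Q'') AX _ hgt0 : ℕ) : ℚ))
    (fun Q => Finset.sum_nonneg fun _ _ => Nat.cast_nonneg _)
  refine ⟨A', A.N ^ Fintype.card ι * (Jn + cA + 1) ^ d, hA'0, fun q hq => ?_⟩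
  have hq' : (1 : ℚ) ≤ q := by exact_mod_cast hq
  have hM1 : (1 : ℚ) ≤ M₀ := by exact_mod_cast hM₀
  obtain ⟨φ, hφ⟩ : ∃ φ : L →ₗ[k] L', ∀ f, φ f = algebraMap L L' f * (F.u ^ M₀ *
      (algebraMap K' L' (((∏ i ∈ b₀, γ i) / A.cdet b₀) ^ M₀ / (∏ i, γ i ^ wt i) *
        (G.coeff β * ∏ i, γ (j i) ^ β i)⁻¹ ^ W) * (∏ i, A.l i ^ wt i) * A.ev j G ^ W)) ^ q *
        MvPolynomial.aeval (tL L' t) g := by
    refine ⟨(LinearMap.mulRight k ((F.u ^ M₀ *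
      (algebraMap K' L' (((∏ i ∈ b₀, γ i) / A.cdet b₀) ^ M₀ / (∏ i, γ i ^ wt i) *
        (G.coeff β * ∏ i, γ (j i) ^ β i)⁻¹ ^ W) * (∏ i, A.l i ^ wt i) * A.ev j G ^ W)) ^ q *
        MvPolynomial.aeval (tL L' t) g)) ∘ₗ
        (IsScalarTower.toAlgHom k L L').toLinearMap, fun f => ?_⟩
    rw [LinearMap.comp_apply, LinearMap.mulRight_apply, AlgHom.toLinearMap_apply,
      IsScalarTower.coe_toAlgHom']
    exact (mul_assoc _ _ _).symm
  have hφi : Function.Injective φ := by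
    intro f f' hff
    rw [hφ, hφ] at hff
    have h1 := mul_right_cancel₀ hgt0 hff
    have h2 := mul_right_cancel₀ (pow_ne_zero q hg0) h1
    exact (algebraMap L L').injective h2
  have hmain := sdim_le_of_coeff A F.D F.D_t ht' (K'' := K'') (fun χ => ∏ i, ρ i ^ (χ i : ℕ))
    (fun χ => Finset.prod_ne_zero_iff.2 fun i _ => pow_ne_zero _ (hρ0 i)) hφi
    (X.H0 (((q * M₀ : ℕ) : ℚ) • (F.aD + Δ) + AX))
    (famH0 K'' Z (((q * M₀ : ℕ) : ℚ) • (F.cD + E + (C : ℚ) • redDiv B) + A'))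
    (q * Jn + cA) ?_
  · refine hmain.trans (mul_le_mul' ?_ le_rfl)
    have h1 : A.N ^ Fintype.card ι * (q * Jn + cA + 1) ^ d ≤
        A.N ^ Fintype.card ι * (Jn + cA + 1) ^ d * q ^ d := by
      rw [mul_assoc, ← mul_pow]
      refine Nat.mul_le_mul_left _ (Nat.pow_le_pow_left ?_ d)
      nlinarith
    exact_mod_cast h1
  intro f hf
  obtain ⟨G₁, hG1, hG2⟩ := hpoly q f hf
  have hG' : ∀ χ, ∃ G' : MvPolynomial (Fin d) K',
      MvPolynomial.aeval (tL L' t') G' = MvPolynomial.aeval (tL L' t) (G₁ χ) ∧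
      G'.totalDegree ≤ (G₁ χ).totalDegree ∧ (G₁ χ = 0 → G' = 0) := by
    intro χ
    by_cases h : G₁ χ = 0
    · exact ⟨0, by rw [h, map_zero, map_zero], by rw [h], fun _ => rfl⟩
    · obtain ⟨G', h1, h2⟩ := hpol (G₁ χ)
      exact ⟨G', h1, h2, fun h' => absurd h' h⟩
  choose G' hG'1 hG'2 hG'3 using hG'
  have hG'ne : ∀ χ, G' χ ≠ 0 → G₁ χ ≠ 0 := fun χ h h' => h (hG'3 χ h')
  have hG'o : ∀ χ, G' χ ≠ 0 → (χ A.o : ℕ) = 0 := fun χ h => (hG2 χ (hG'ne χ h)).1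
  have heq : algebraMap L L' f * (F.u ^ M₀ *
      (algebraMap K' L' (((∏ i ∈ b₀, γ i) / A.cdet b₀) ^ M₀ / (∏ i, γ i ^ wt i) *
        (G.coeff β * ∏ i, γ (j i) ^ β i)⁻¹ ^ W) * (∏ i, A.l i ^ wt i) * A.ev j G ^ W)) ^ q *
        MvPolynomial.aeval (tL L' t) g =
      ∑ χ, MvPolynomial.aeval (tL L' t') (G' χ) * A.mono χ := by
    rw [hG1]
    exact Finset.sum_congr rfl fun χ _ => by rw [hG'1]
  refine ⟨G', by rw [hφ, heq], fun χ hχ => ⟨hG'o χ hχ, ?_⟩, fun χ α => ?_⟩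
  · have h1 := (hG2 χ (hG'ne χ hχ)).2
    have h2 := hG'2 χ
    have h3 : (A.N : ℤ) * (G₁ χ).totalDegree ≤ A.N * (q * J + cA) := by
      refine le_trans ?_ h1
      have : (0 : ℤ) ≤ ∑ i, ((χ i : ℕ) : ℤ) := Finset.sum_nonneg fun _ _ => Int.natCast_nonneg _
      linarith
    have hN : (0 : ℤ) < A.N := by exact_mod_cast A.N_pos
    have h4 := le_of_mul_le_mul_left h3 hN
    rw [hJn] at h4
    have h5 : (G₁ χ).totalDegree ≤ q * Jn + cA := by exact_mod_cast h4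
    exact h2.trans h5
  -- the coefficients
  by_cases hx : (G' χ).coeff α = 0
  · rw [hx, map_zero, zero_mul]
    exact Submodule.zero_mem _
  rw [mem_famH0]
  intro Q Q'' e'' hQ''
  right
  obtain ⟨e', he', hee⟩ := under_factor (hres Q'') hQ''
  have hee' : (e'' : ℚ) = r₂ Q'' * e' := by exact_mod_cast hee
  have he'1 : (1 : ℚ) ≤ e' := by exact_mod_cast he'.1
  have he₂1 : (1 : ℚ) ≤ r₂ Q'' := by exact_mod_cast (hres Q'').1
  rw [Finsupp.add_apply, Finsupp.smul_apply, Finsupp.add_apply, Finsupp.smul_apply, smul_eq_mul,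
    smul_eq_mul, redDiv_apply]
  by_cases hQB : Q ∈ B
  · rw [if_pos hQB, mul_one]
    have hQm : Q'' ∈ (hS Q).toFinset := by
      rw [Set.Finite.mem_toFinset]
      exact ⟨e'', hQ''⟩
    have h1 := hC Q hQB Q'' hQm
    rw [hc₁] at h1
    have h2 := hCA (res Q'') AX _ hgt0 q f (by
      have h3 : ((q * M₀ : ℕ) : ℚ) • (F.aD + Δ) + AX =
          (q : ℚ) • ((M₀ : ℚ) • (F.aD + Δ)) + AX := by
        rw [smul_smul]
        push_cast
        rfl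
      rw [← h3]
      exact hf) G' hG'o heq χ α
    rw [DVal.ge_iff hx] at h2
    have hCA' : ((CA (res Q'') AX _ hgt0 : ℕ) : ℚ) ≤
        A' Q + (CA (res Q'') 0 1 one_ne_zero : ℕ) := by
      by_cases hAX : AX = 0
      · have h3 : (CA (res Q'') AX _ hgt0 : ℕ) = CA (res Q'') 0 1 one_ne_zero := by
          have h4 : MvPolynomial.aeval (tL L' t) g = 1 := by rw [(hgA hAX).1, map_one]
          subst hAX
          congr 1
        rw [h3]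
        have := hA'p Q
        linarith
      · have h3 := hA'B hAX Q hQB
        have h4 : ((CA (res Q'') AX _ hgt0 : ℕ) : ℚ) ≤
            ∑ Q'' ∈ (hS Q).toFinset, ((CA (res Q'') AX _ hgt0 : ℕ) : ℚ) :=
          Finset.single_le_sum (f := fun Q'' => ((CA (res Q'') AX _ hgt0 : ℕ) : ℚ))
            (fun _ _ => Nat.cast_nonneg _) hQm
        have h5 : (0 : ℚ) ≤ (CA (res Q'') 0 1 one_ne_zero : ℕ) := Nat.cast_nonneg _
        linarith
    have hQx : Q'' (algebraMap K' K'' ((G' χ).coeff α) * ∏ i, ρ i ^ (χ i : ℕ)) =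
        r₂ Q'' * res Q'' ((G' χ).coeff α) + ∑ i, ((χ i : ℕ) : ℤ) * Q'' (ρ i) := by
      rw [Q''.map_mul ((map_ne_zero _).2 hx)
        (Finset.prod_ne_zero_iff.2 fun i _ => pow_ne_zero _ (hρ0 i)), (hres Q'').2,
        Q''.map_prod _ _ fun i _ => pow_ne_zero _ (hρ0 i)]
      congr 1
      exact Finset.sum_congr rfl fun i _ => Q''.map_pow _ _
    refine upp_arith_bad (q := q) (M₀ := M₀) (e₂ := r₂ Q'') (e' := e') (C₁ := C₁ (res Q''))
      (CA := (CA (res Q'') AX _ hgt0 : ℕ)) (C0 := (CA (res Q'') 0 1 one_ne_zero : ℕ))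
      (R := ∑ i, (A.N : ℚ) * |((Q'' (ρ i) : ℤ) : ℚ)|) (y := res Q'' ((G' χ).coeff α))
      (r := ((∑ i, ((χ i : ℕ) : ℤ) * Q'' (ρ i) : ℤ) : ℚ)) hee' he'1 he₂1 hq' hM1 (hA'p Q)
      (Nat.cast_nonneg _) (Nat.cast_nonneg _) (by positivity) hCA' (by linarith) h2 ?_ ?_
    · push_cast
      rw [← Finset.sum_neg_distrib]
      refine Finset.sum_le_sum fun i _ => ?_
      have h3 : ((χ i : ℕ) : ℚ) ≤ A.N := by exact_mod_cast (χ i).2.le
      have h4 := neg_abs_le ((Q'' (ρ i) : ℤ) : ℚ)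
      have h5 := abs_nonneg ((Q'' (ρ i) : ℤ) : ℚ)
      have h6 : (0 : ℚ) ≤ ((χ i : ℕ) : ℚ) := Nat.cast_nonneg _
      nlinarith
    · rw [hQx]
      push_cast
      ring
  · rw [if_neg hQB, mul_zero, add_zero]
    have hgd := hgood Q hQB
    obtain ⟨v, ε, ε', hv, hvQ', hεε⟩ := exists_commonA (L' := L') hK (hPe Q) he'
    have hl := hγ (Pc Q) Q (ec Q) hgd.1 v ε hv
    have hco := upp_good hj hgd hv hvQ' hγ0 hγo hl ht' hc' hD'
      (hlast v (F.mu (Pc Q) Q (ec Q) v ε) hl (fun b hb => hgd.1.2.2 v ε hv b hb trivial)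
        (fun g hg => F.star (Pc Q) Q (ec Q) (hPe Q) v ε hv g hg)) hb₀ hβ hgt0 hf hG'o heq χ α
    rw [DVal.ge_iff ((map_ne_zero _).2 hx)] at hco
    have hrv := upp_rho_val A hvQ' (hres Q'') hγ0 hρ hl χ hx
    have hε'1 : (1 : ℚ) ≤ ε' := by exact_mod_cast hvQ'.1
    have h8 : (ε : ℚ) * ec Q = ε' * e' := by exact_mod_cast hεε
    have hrv' : (ε' : ℚ) * (Q'' (algebraMap K' K'' ((G' χ).coeff α) * ∏ i, ρ i ^ (χ i : ℕ)) : ℤ) =
        r₂ Q'' * (((v (algebraMap K' L' ((G' χ).coeff α)) : ℤ) : ℚ) +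
          ((v (A.mono χ) : ℤ) : ℚ)) := by
      exact_mod_cast hrv
    have h9 := upp_arith_good (C := 0) h8 hee' hε'1 he'1 he₂1 (hA'p Q) (hA'v Q v ε hv) hrv' rfl hco
    rw [add_zero] at h9
    exact h9

end Pool.Agent.Helper92.HA
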