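import Pool.Agent.Helper92.HA.FrameA
import Pool.Agent.Helper92.HR.LowerR
import Pool.Agent.Helper92.HR.GoodFinR
import Pool.Agent.Helper92.HR.UpperR

set_option autoImplicit false

/-!
# HR FrameR: the comparison theorem for a frame, boundaries larger than the arrangement
-/

universe u

namespace Pool.Agent.Helper92.HA

open Module Pool.Agent.Helper92.Weak Pool.Agent.Helper63.PB Polynomial

variable {k K L M L' : Type*} {K' : Type u} [Field k] [Field K] [Field L] [Field K'] [Field M]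
  [Field L'] [Algebra k K] [Algebra k L] [Algebra k K'] [Algebra k M] [Algebra k L'] [Algebra K L]
  [Algebra K K'] [Algebra K L'] [Algebra L L'] [Algebra K' M] [Algebra K' L'] [Algebra M L']
  [IsScalarTower k K L] [IsScalarTower k K K'] [IsScalarTower k K L'] [IsScalarTower k L L']
  [IsScalarTower k K' M] [IsScalarTower k K' L'] [IsScalarTower k M L'] [IsScalarTower K L L']
  [IsScalarTower K K' L'] [IsScalarTower K' M L'] [FiniteDimensional K K']
  [FiniteDimensional L L'] [FiniteDimensional M L'] [CharZero k] [IsAlgClosed k] {d : ℕ}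
  {X : ProjVar k L} {Z : ProjVar k K} {t : Fin d → M} {ι : Type*} [Fintype ι] [DecidableEq ι]

theorem frameR_main {F : DFrame X Z K' (tL L' t)} {A : Arr K' L' t ι} {j : Fin d → ι}
    {G : MvPolynomial (Fin d) K'} {n : ℕ} {w : ℚ} {Δ : X.Div} {E : Z.Div} (hj : A.IsCo j)
    (H : HorR F A j G n w Δ) (hh : 0 < A.h)
    (hK : ∀ x : L, IsAlgebraic K x → x ∈ Set.range (algebraMap K L))
    (hbase : ∀ (P : X.primeDivisors) (Q : Z.primeDivisors) (e : ℕ), LiesOver P.1 Q.1 e →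
      e * E Q ≤ Δ P + (e - 1))
    {N₃ : ℕ} (hN₃ : 0 < N₃) {η : K} (hη : η ≠ 0)
    (hT : ∀ Q : Z.primeDivisors, 0 ≤ (Q.1 η : ℚ) + N₃ * (F.cD + E) Q) :
    ∃ B : Finset Z.primeDivisors, ∀ ε : ℚ, 0 < ε →
      X.kod (F.aD + Δ) = d + Z.kod (F.cD + E + ε • redDiv B) ∧
      X.nu (F.aD + Δ) = d + Z.nu (F.cD + E + ε • redDiv B) := by
  classical
  have hfin := finite_not_goodR F hj H.G_ne Δ E
  have hB1 : ∀ Q ∈ hfin.toFinset, ¬ ∃ (P : X.primeDivisors) (e : ℕ),
      GoodR F A j G Δ E P Q e := by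
    intro Q hQ
    rw [Set.Finite.mem_toFinset] at hQ
    exact hQ
  have hB2 : ∀ Q, Q ∉ hfin.toFinset → ∃ (P : X.primeDivisors) (e : ℕ),
      GoodR F A j G Δ E P Q e := by
    intro Q hQ
    rw [Set.Finite.mem_toFinset, Set.mem_ofPred_eq, not_not] at hQ
    exact hQ
  have hlow := lowerR_pos hj H hh hbase hB1
  obtain ⟨γ, hγ0, hγo, hγ⟩ := exists_gamma F A hh Δ E
  obtain ⟨K'', iF, iA1, iA2, iA3, t1, t2, t3, ifd, hsp⟩ :=
    exists_splitField (k := k) (K := K) (∏ i, (Polynomial.X ^ A.N - C (γ i)) : K'[X])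
  have hf0 : (∏ i, (Polynomial.X ^ A.N - C (γ i)) : K'[X]) ≠ 0 :=
    Finset.prod_ne_zero_iff.2 fun i _ => X_pow_sub_C_ne_zero A.N_pos _
  have hroot : ∀ i, ∃ ρ : K'', ρ ^ A.N = algebraMap K' K'' (γ i) := by
    intro i
    have hdvd : (Polynomial.X ^ A.N - C (γ i)) ∣ (∏ i, (Polynomial.X ^ A.N - C (γ i)) : K'[X]) :=
      Finset.dvd_prod_of_mem _ (Finset.mem_univ i)
    have h1 : ((Polynomial.X ^ A.N - C (γ i)).map (algebraMap K' K'')).Splits :=
      hsp.of_dvd (Polynomial.map_ne_zero hf0) (Polynomial.map_dvd _ hdvd)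
    obtain ⟨ρ, hρ⟩ := h1.exists_eval_eq_zero (by
      rw [degree_map, degree_X_pow_sub_C A.N_pos]
      exact_mod_cast A.N_pos.ne')
    refine ⟨ρ, ?_⟩
    rw [eval_map_algebraMap] at hρ
    simp only [_root_.map_sub, _root_.map_pow, aeval_X, aeval_C] at hρ
    exact sub_eq_zero.1 hρ
  choose ρ hρ using hroot
  have i14 : FiniteDimensional K K'' := FiniteDimensional.trans K K' K''
  have hup := upperR_pos hj H hh hK hB2 hγ0 hγo hγ (K'' := K'') hρ
  exact ⟨hfin.toFinset, fun ε hε => abs_main F.equi hlow hup hN₃ hη hT hε⟩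

end Pool.Agent.Helper92.HA
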