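import Pool.Agent.Helper92.HA.OmDet
import Pool.Agent.Helper92.Weak.Torus1
import Pool.Agent.Helper92.Ga.Line

set_option autoImplicit false

/-!
# HR-11 OrdPos: the order of `dt₁ ∧ ... ∧ dt_d` along exceptional valuations

`E = K'(t₁, ..., t_d)`, `v` trivial on `K'`, `v (t j) ≥ 0`, and `v` is not the multiplicity of an irreducible polynomial. Then
the order of `dy ∧ dt₁ ∧ ... ∧ dt_d` along `v` is at least `1` (the log discrepancy of an exceptional divisor is at least `2`).
PROOF. `I = {f | f = 0 or v (f(t)) > 0}` is a prime ideal of `K'[X₁, ..., X_d]`, and `v (f(t)) = 0` for `f ∉ I`.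
(1) `I ≠ 0`: otherwise `v` is trivial on `E` (`exists_aeval_div`), but `v` is onto `ℤ`.
(2) Let `f ∈ I` be nonzero of minimal total degree. It is not constant, so some `∂_i f ≠ 0` (`CharZero`), of smaller degree, so
`∂_i f ∉ I`: `v (∂_i f (t)) = 0`. Renumber: this `i` is called `a`.
(3) There is `h ∈ I`, `h ≠ 0`, in which `X_a` does not occur (`h ∈ K'[X_i, i ≠ a]`). Otherwise `v` is trivial on the field `F₀` generated over `K'`
by the `t_i`, `i ≠ a` (quotients of polynomials `∉ I`), and `E = F₀(t_a)`: `v` is a valuation of a rational function field in one variable,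
trivial on `F₀`, `v (t_a) ≥ 0`, so it is the multiplicity of an irreducible polynomial `p ∈ F₀[X]` (`Helper92.Ga.exists_pVal`; by clearing
denominators and Gauss's lemma it is the multiplicity of an irreducible polynomial `g₀` of `K'[X₁, ..., X_d]`), against the
hypothesis. (Direct argument: `I` contains no nonzero polynomial free of `X_a`; let `g₀ ∈ I` be nonzero of minimal degree in `X_a`, and
among these irreducible (some irreducible factor of `g₀` is in `I` and its degree in `X_a` is not larger; it is not free of `X_a`); for `g ∈ I`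
pseudo-division by `g₀` in `K'[X_i, i ≠ a][X_a]` gives `c g = q g₀ + r`, `c` free of `X_a`, `deg_a r < deg_a g₀`, `r ∈ I`, so `r = 0`, `g₀ ∣ c g`, and
`g₀ ∤ c` (degree in `X_a`), so `g₀ ∣ g`: `I = (g₀)`. Then every nonzero `g` is `g₀^m g'` with `g' ∉ I`, so `v` is `v (g₀(t))` times the
multiplicity of `g₀`, and `v (g₀(t)) = 1` because `v` is onto `ℤ`.)
(4) Choose `h` as in (3) of minimal total degree: some `∂_c h ≠ 0`, `c ≠ a`, is free of `X_a`, of smaller degree, so `v (∂_c h (t)) = 0`.
(5) Let `g_a = f(t)`, `g_c = h(t)`, `g_l = t_l` for the other `l`, or `t_l + 1` if `v (t_l) > 0` does not matter: all `g_l ≠ 0` and `v (g_l) ≥ 0`.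
`omD_eq` with the derivations `D` dual to `t`: `OmD k y g = det (D i (g l)) • OmD k y t`; the determinant is `∂_a f · ∂_c h` (expand: column `l ≠ a, c`
is a unit vector, the remaining `2 × 2` matrix is `(∂_a f, ∂_a h = 0; ∂_c f, ∂_c h)`), of value `0`. So `OmD k y g` has the same order `o`
(`isOrd_smul`). `log_ineqH`: `o ≥ ∑ v (g_l) - 1 ≥ v (f(t)) + v (h(t)) - 1 ≥ 1`.
(`t` is a transcendence basis of `E / K'`: `IsTorus`.)
-/

namespace Pool.Agent.Helper92.HA

open Module Pool.Agent.Helper92.Weak Pool.Agent.Helper63.PB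

private lemma op_pseudo {S : Type*} [CommRing S] [IsDomain S] {g : Polynomial S} (hg : g ≠ 0) :
    ∀ (n : ℕ) (f : Polynomial S), f.natDegree ≤ n → ∃ (c : S) (q r : Polynomial S), c ≠ 0 ∧
      Polynomial.C c * f = q * g + r ∧ (r = 0 ∨ r.natDegree < g.natDegree ∨ g.natDegree = 0 ∧ r = 0) := by
  intro n
  induction n using Nat.strong_induction_on with
  | _ n ih =>
    intro f hf
    by_cases h1 : f.natDegree < g.natDegree
    · exact ⟨1, 0, f, one_ne_zero, by simp, Or.inr (Or.inl h1)⟩
    by_cases h0 : g.natDegree = 0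
    · obtain ⟨a, ha⟩ := Polynomial.natDegree_eq_zero.1 h0
      refine ⟨a, f, 0, ?_, ?_, Or.inl rfl⟩
      · rintro rfl
        exact hg (by rw [← ha, map_zero])
      · rw [ha, add_zero, mul_comm]
    have h2 : g.natDegree ≤ f.natDegree := not_lt.1 h1
    have h3 := Polynomial.natDegree_cancelLeads_lt_of_natDegree_le_natDegree h2 (by omega)
    obtain ⟨c, q, r, hc, heq, hr⟩ := ih (f.natDegree - 1) (by omega) (g.cancelLeads f) (by omega)
    have hl : g.leadingCoeff ≠ 0 := Polynomial.leadingCoeff_ne_zero.2 hg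
    refine ⟨c * g.leadingCoeff, q + Polynomial.C (c * f.leadingCoeff) * Polynomial.X ^ (f.natDegree - g.natDegree),
      r, mul_ne_zero hc hl, ?_, hr⟩
    have h4 : g.cancelLeads f = Polynomial.C g.leadingCoeff * f -
        Polynomial.C f.leadingCoeff * Polynomial.X ^ (f.natDegree - g.natDegree) * g := by
      unfold Polynomial.cancelLeads
      rw [Nat.sub_eq_zero_of_le h2, pow_zero, mul_one]
    rw [h4] at heq
    rw [map_mul, map_mul]
    linear_combination heq

private lemma op_principal {S : Type*} [CommRing S] [IsDomain S] [UniqueFactorizationMonoid S]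
    (I : Ideal (Polynomial S)) (hI : I.IsPrime) (h0 : I ≠ ⊥) (hS : ∀ c : S, Polynomial.C c ∈ I → c = 0) :
    ∃ p : Polynomial S, Prime p ∧ ∀ g, g ∈ I ↔ p ∣ g := by
  classical
  obtain ⟨p, hpI, hp⟩ := hI.exists_mem_prime_of_ne_bot h0
  have hex : ∃ n : ℕ, ∃ g ∈ I, g ≠ 0 ∧ g.natDegree = n := ⟨_, p, hpI, hp.ne_zero, rfl⟩
  obtain ⟨g₁, hg₁I, hg₁0, hg₁⟩ := Nat.find_spec hex
  have hmin : ∀ g ∈ I, g ≠ 0 → g₁.natDegree ≤ g.natDegree := fun g hg hg0 => by
    rw [hg₁]
    exact Nat.find_min' hex ⟨g, hg, hg0, rfl⟩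
  have hdiv : ∀ g ∈ I, ∃ c q, c ≠ 0 ∧ Polynomial.C c * g = q * g₁ := by
    intro g hg
    obtain ⟨c, q, r, hc, heq, hr⟩ := op_pseudo hg₁0 g.natDegree g le_rfl
    have hrI : r ∈ I := by
      have : r = Polynomial.C c * g - q * g₁ := by rw [heq]; ring
      rw [this]
      exact I.sub_mem (I.mul_mem_left _ hg) (I.mul_mem_left _ hg₁I)
    have hr0 : r = 0 := by
      by_contra hr0
      have := hmin r hrI hr0
      rcases hr with h | h | h
      · exact hr0 h
      · omega
      · exact hr0 h.2
    rw [hr0, add_zero] at heq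
    exact ⟨c, q, hc, heq⟩
  have hconst : ∀ g ∈ I, g ≠ 0 → g.natDegree ≠ 0 := by
    intro g hg hg0 hd
    obtain ⟨a, ha⟩ := Polynomial.natDegree_eq_zero.1 hd
    rw [← ha] at hg hg0
    exact hg0 (by rw [hS a hg, map_zero])
  have hpg₁ : p ∣ g₁ := by
    obtain ⟨c, q, hc, heq⟩ := hdiv p hpI
    have h1 : p ∣ q * g₁ := ⟨Polynomial.C c, by rw [← heq, mul_comm]⟩
    rcases hp.dvd_or_dvd h1 with ⟨q', hq'⟩ | h
    · exfalso
      have h2 : Polynomial.C c = q' * g₁ := by
        apply mul_left_cancel₀ hp.ne_zero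
        rw [mul_comm p, heq, hq']
        ring
      have h3 : (Polynomial.C c : Polynomial S) ≠ 0 := by simpa using hc
      have h4 := hS c (by rw [h2]; exact I.mul_mem_left _ hg₁I)
      exact hc h4
    · exact h
  refine ⟨p, hp, fun g => ⟨fun hg => ?_, fun ⟨q, hq⟩ => by rw [hq]; exact I.mul_mem_right _ hpI⟩⟩
  obtain ⟨c, q, hc, heq⟩ := hdiv g hg
  have h1 : p ∣ Polynomial.C c * g := by rw [heq]; exact hpg₁.mul_left q
  rcases hp.dvd_or_dvd h1 with ⟨q', hq'⟩ | h
  · exfalso
    exact hc (hS c (by rw [hq']; exact I.mul_mem_right _ hpI))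
  · exact h

variable {k K' E : Type*} [Field k] [Field K'] [Field E] [Algebra k K'] [Algebra k E]
    [Algebra K' E] [IsScalarTower k K' E]

omit [Algebra k K'] [IsScalarTower k K' E] in
private lemma op_nonneg {σ : Type*} {u : σ → E} {v : DVal k E}
    (hv : ∀ x : K', v (algebraMap K' E x) = 0) (h0 : ∀ i, 0 ≤ v (u i)) (f : MvPolynomial σ K') :
    0 ≤ v (MvPolynomial.aeval u f) := by
  rw [← DVal.mem_ring]
  induction f using MvPolynomial.induction_on with
  | C a => rw [MvPolynomial.aeval_C, DVal.mem_ring, hv]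
  | add p q hp hq => rw [map_add]; exact v.ring.add_mem hp hq
  | mul_X p i hp =>
    rw [map_mul, MvPolynomial.aeval_X]
    exact v.ring.mul_mem hp (by rw [DVal.mem_ring]; exact h0 i)

omit [Algebra k K'] [IsScalarTower k K' E] in
private lemma op_min [CharZero K'] {σ : Type*} {u : σ → E} (hu : AlgebraicIndependent K' u)
    {v : DVal k E} (hv : ∀ x : K', v (algebraMap K' E x) = 0) (h0 : ∀ i, 0 ≤ v (u i))
    (hex : ∃ f : MvPolynomial σ K', 0 < v (MvPolynomial.aeval u f)) :
    ∃ (f : MvPolynomial σ K') (i : σ), 0 < v (MvPolynomial.aeval u f) ∧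
      MvPolynomial.aeval u (MvPolynomial.pderiv i f) ≠ 0 ∧
      v (MvPolynomial.aeval u (MvPolynomial.pderiv i f)) = 0 := by
  classical
  have hex' : ∃ n : ℕ, ∃ f : MvPolynomial σ K', 0 < v (MvPolynomial.aeval u f) ∧ f.totalDegree = n := by
    obtain ⟨f, hf⟩ := hex
    exact ⟨_, f, hf, rfl⟩
  obtain ⟨f, hf, hfn⟩ := Nat.find_spec hex'
  have hmin : ∀ g : MvPolynomial σ K', 0 < v (MvPolynomial.aeval u g) →
      f.totalDegree ≤ g.totalDegree := fun g hg => by
    rw [hfn]
    exact Nat.find_min' hex' ⟨g, hg, rfl⟩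
  have hi : ∃ i, MvPolynomial.pderiv i f ≠ 0 := by
    by_contra hno
    push Not at hno
    have hC : f = MvPolynomial.C (MvPolynomial.coeff 0 f) := by
      ext m
      rw [MvPolynomial.coeff_C]
      by_cases hm : 0 = m
      · rw [if_pos hm, hm]
      · rw [if_neg hm]
        obtain ⟨i, hi⟩ : ∃ i, m i ≠ 0 := by
          by_contra hall
          push Not at hall
          exact hm (Finsupp.ext fun i => (hall i).symm)
        have h1 := MvPolynomial.coeff_pderiv (i := i) f (m - Finsupp.single i 1)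
        rw [hno i, MvPolynomial.coeff_zero] at h1
        have h2 : m - Finsupp.single i 1 + Finsupp.single i 1 = m := by
          apply tsub_add_cancel_of_le
          rw [Finsupp.single_le_iff]
          omega
        rw [h2] at h1
        have h3 : (((m - Finsupp.single i 1 : σ →₀ ℕ) i : ℕ) : K') + 1 ≠ 0 := by
          exact Nat.cast_add_one_ne_zero _
        rcases mul_eq_zero.1 h1.symm with h | h
        · exact h
        · exact absurd h h3
    rw [hC, MvPolynomial.aeval_C, hv] at hf
    exact lt_irrefl _ hf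
  obtain ⟨i, hi⟩ := hi
  have hlt : (MvPolynomial.pderiv i f).totalDegree < f.totalDegree := by
    obtain ⟨m, hm, hmd⟩ := Finset.exists_mem_eq_sup (MvPolynomial.pderiv i f).support
      (MvPolynomial.support_nonempty.2 hi) (fun s => s.sum fun _ e => e)
    have h1 : (MvPolynomial.pderiv i f).totalDegree = m.sum fun _ e => e := hmd
    rw [h1]
    have h2 : m + Finsupp.single i 1 ∈ f.support := by
      rw [MvPolynomial.mem_support_iff] at hm ⊢
      intro h3
      apply hm
      rw [MvPolynomial.coeff_pderiv, h3, zero_mul]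
    have h3 := MvPolynomial.le_totalDegree h2
    have h4 : ((m + Finsupp.single i 1).sum fun _ e => e) = (m.sum fun _ e => e) + 1 := by
      rw [Finsupp.sum_add_index' (fun _ => rfl) (fun _ _ _ => rfl), Finsupp.sum_single_index rfl]
    omega
  have hne : MvPolynomial.aeval u (MvPolynomial.pderiv i f) ≠ 0 := fun h => hi (hu (by rw [h, map_zero]))
  refine ⟨f, i, hf, hne, ?_⟩
  have h1 := op_nonneg (K' := K') hv h0 (MvPolynomial.pderiv i f)
  by_contra h2
  have h3 := hmin (MvPolynomial.pderiv i f) (by omega)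
  omega

private lemma op_der {σ : Type*} {u : σ → E} (D : Derivation K' E E) [DecidableEq σ] (i : σ)
    (hD : ∀ j, D (u j) = if i = j then 1 else 0) (f : MvPolynomial σ K') :
    D (MvPolynomial.aeval u f) = MvPolynomial.aeval u (MvPolynomial.pderiv i f) := by
  induction f using MvPolynomial.induction_on with
  | C a => rw [MvPolynomial.aeval_C, D.map_algebraMap, MvPolynomial.pderiv_C, map_zero]
  | add p q hp hq => rw [map_add, map_add, map_add, map_add, hp, hq]
  | mul_X p j hp =>
    rw [map_mul, MvPolynomial.aeval_X, D.leibniz, hD, hp, MvPolynomial.pderiv_mul, map_add, map_mul,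
      map_mul, MvPolynomial.aeval_X, MvPolynomial.pderiv_X]
    by_cases hij : i = j
    · subst hij
      rw [if_pos rfl, Pi.single_eq_same, map_one, smul_eq_mul, smul_eq_mul]
      ring
    · rw [if_neg hij, Pi.single_eq_of_ne (Ne.symm hij), map_zero, smul_eq_mul, smul_eq_mul]
      ring

private lemma op_der0 {σ : Type*} {u : σ → E} (D : Derivation K' E E)
    (hD : ∀ j, D (u j) = 0) (f : MvPolynomial σ K') : D (MvPolynomial.aeval u f) = 0 := by
  induction f using MvPolynomial.induction_on with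
  | C a => rw [MvPolynomial.aeval_C, D.map_algebraMap]
  | add p q hp hq => rw [map_add, map_add, hp, hq, add_zero]
  | mul_X p j hp =>
    rw [map_mul, MvPolynomial.aeval_X, D.leibniz, hD, hp, smul_zero, smul_zero, add_zero]

private lemma op_det {d : ℕ} {R : Type*} [CommRing R] (M : Matrix (Fin d) (Fin d) R) (a c : Fin d)
    (hac : a ≠ c) (h : M a c = 0)
    (h1 : ∀ i j, j ≠ a → j ≠ c → M i j = if i = j then 1 else 0) : M.det = M a a * M c c := by
  classical
  rw [Matrix.det_apply', Finset.sum_eq_single 1]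
  · rw [Equiv.Perm.sign_one, Finset.prod_eq_mul a c hac]
    · simp
    · intro i _ hi
      rw [Equiv.Perm.one_apply, h1 i i hi.1 hi.2, if_pos rfl]
    · intro h; exact absurd (Finset.mem_univ _) h
    · intro h; exact absurd (Finset.mem_univ _) h
  · intro σ _ hσ
    have : ∃ i, M (σ i) i = 0 := by
      by_contra hno
      push Not at hno
      apply hσ
      have h2 : ∀ j, j ≠ a → j ≠ c → σ j = j := by
        intro j hja hjc
        by_contra hne
        apply hno j
        rw [h1 _ _ hja hjc, if_neg hne]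
      have h3 : σ c = c := by
        by_contra hne
        by_cases hca : σ c = a
        · exact hno c (by rw [hca, h])
        · have h4 := h2 (σ c) hca hne
          exact hne (σ.injective h4)
      have h4 : σ a = a := by
        by_contra hne
        by_cases hca : σ a = c
        · rw [← h3] at hca
          exact hac (σ.injective hca)
        · have h5 := h2 (σ a) hne hca
          exact hne (σ.injective h5)
      ext j
      by_cases hja : j = a
      · rw [hja, h4]; rfl
      by_cases hjc : j = c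
      · rw [hjc, h3]; rfl
      rw [h2 j hja hjc]; rfl
    obtain ⟨i, hi⟩ := this
    exact mul_eq_zero_of_right _ (Finset.prod_eq_zero (Finset.mem_univ i) hi)
  · intro h; exact absurd (Finset.mem_univ _) h

private lemma op_mem_prime {R : Type*} [CommRing R] (v : DVal k E) (ψ : R →+* E)
    (h : ∀ x, 0 ≤ v (ψ x)) : ∃ I : Ideal R, I.IsPrime ∧ ∀ x, x ∈ I ↔ v.Ge 1 (ψ x) := by
  let I : Ideal R :=
    { carrier := {x | v.Ge 1 (ψ x)}
      add_mem' := fun {a b} ha hb => by
        change v.Ge 1 (ψ (a + b))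
        rw [map_add]
        exact DVal.Ge.add ha hb
      zero_mem' := by
        change v.Ge 1 (ψ 0)
        rw [map_zero]
        exact DVal.Ge.zero
      smul_mem' := fun c x hx => by
        change v.Ge 1 (ψ (c * x))
        rw [map_mul]
        have h0 : v.Ge 0 (ψ c) := Or.inr (by exact_mod_cast h c)
        have h1 := h0.mul hx
        rwa [zero_add] at h1 }
  have hmem : ∀ x, x ∈ I ↔ v.Ge 1 (ψ x) := fun _ => Iff.rfl
  refine ⟨I, ⟨?_, ?_⟩, hmem⟩
  · rw [Ne, Ideal.eq_top_iff_one, hmem, map_one, DVal.ge_iff one_ne_zero, v.map_one]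
    norm_num
  · intro x y hxy
    rw [hmem, map_mul] at hxy
    rw [hmem, hmem]
    by_cases hx : ψ x = 0
    · exact Or.inl (Or.inl hx)
    by_cases hy : ψ y = 0
    · exact Or.inr (Or.inl hy)
    rw [DVal.ge_iff (mul_ne_zero hx hy), v.map_mul hx hy] at hxy
    rw [DVal.ge_iff hx, DVal.ge_iff hy]
    have h1 : (1 : ℤ) ≤ v (ψ x) + v (ψ y) := by exact_mod_cast hxy
    have h2 := h x
    have h3 := h y
    by_cases h4 : 1 ≤ v (ψ x)
    · left; exact_mod_cast h4
    · right
      have h5 : 1 ≤ v (ψ y) := by omega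
      exact_mod_cast h5

omit [Algebra k K'] [IsScalarTower k K' E] in
private lemma op_free {d : ℕ} {t : Fin d → E} (ht : IsTorus K' t) {v : DVal k E}
    (hv : ∀ x : K', v (algebraMap K' E x) = 0) (h0 : ∀ i, 0 ≤ v (t i))
    (hT : ¬ ∃ g₀ : MvPolynomial (Fin d) K', Irreducible g₀ ∧ v (MvPolynomial.aeval t g₀) = 1 ∧
      ∀ g, ¬ g₀ ∣ g → v (MvPolynomial.aeval t g) = 0) (a : Fin d)
    (hex : ∃ f : MvPolynomial (Fin d) K', 0 < v (MvPolynomial.aeval t f)) :
    ∃ h : MvPolynomial {i : Fin d // i ≠ a} K',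
      0 < v (MvPolynomial.aeval (fun i : {i : Fin d // i ≠ a} => t i) h) := by
  classical
  by_contra hno
  push Not at hno
  obtain ⟨f, hf⟩ := hex
  let φ : MvPolynomial (Fin d) K' ≃ₐ[K'] Polynomial (MvPolynomial {i : Fin d // i ≠ a} K') :=
    (MvPolynomial.renameEquiv K' (Equiv.optionSubtypeNe a).symm).trans
      (MvPolynomial.optionEquivLeft K' {i : Fin d // i ≠ a})
  let ψ : Polynomial (MvPolynomial {i : Fin d // i ≠ a} K') →+* E :=
    ((MvPolynomial.aeval t : MvPolynomial (Fin d) K' →ₐ[K'] E).comp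
      φ.symm.toAlgHom).toRingHom
  have hψ : ∀ x, ψ x = MvPolynomial.aeval t (φ.symm x) := fun _ => rfl
  have hψ0 : ∀ x, 0 ≤ v (ψ x) := fun x => by
    rw [hψ]
    exact op_nonneg hv h0 _
  have hψC : ∀ c : MvPolynomial {i : Fin d // i ≠ a} K', ψ (Polynomial.C c) =
      MvPolynomial.aeval (fun i : {i : Fin d // i ≠ a} => t i) c := by
    intro c
    rw [hψ]
    induction c using MvPolynomial.induction_on with
    | C r => simp [φ]
    | add p q hp hq => rw [map_add, map_add, map_add, map_add, hp, hq]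
    | mul_X p i hp =>
      rw [map_mul, map_mul, map_mul, map_mul, hp]
      congr 1
      simp [φ]
  obtain ⟨I, hI, hmem⟩ := op_mem_prime v ψ hψ0
  have hIbot : I ≠ ⊥ := by
    intro hbot
    have h1 : φ f ∈ I := by
      rw [hmem, hψ, AlgEquiv.symm_apply_apply]
      exact Or.inr (by exact_mod_cast hf)
    rw [hbot, Ideal.mem_bot] at h1
    have h2 : f = 0 := by
      apply φ.injective
      rw [h1, map_zero]
    rw [h2, map_zero, v.map_zero] at hf
    exact lt_irrefl _ hf
  have hind : AlgebraicIndependent K' (fun i : {i : Fin d // i ≠ a} => t i) :=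
    ht.indep.comp _ Subtype.val_injective
  have hIS : ∀ c : MvPolynomial {i : Fin d // i ≠ a} K', Polynomial.C c ∈ I → c = 0 := by
    intro c hc
    rw [hmem, hψC] at hc
    rcases hc with h | h
    · exact hind (by rw [h, map_zero])
    · exfalso
      have h1 := hno c
      have h2 : (1 : ℤ) ≤ v (MvPolynomial.aeval (fun i : {i : Fin d // i ≠ a} => t i) c) := by
        exact_mod_cast h
      omega
  obtain ⟨p, hp, hpI⟩ := op_principal I hI hIbot hIS
  have hg₀ : Prime (φ.symm p) := (MulEquiv.prime_iff φ.symm.toMulEquiv).2 hp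
  have hv0 : ∀ g, ¬ φ.symm p ∣ g → v (MvPolynomial.aeval t g) = 0 := by
    intro g hg
    have h1 : ¬ p ∣ φ g := by
      rintro ⟨q, hq⟩
      apply hg
      exact ⟨φ.symm q, by rw [← map_mul, ← hq, AlgEquiv.symm_apply_apply]⟩
    rw [← hpI, hmem, hψ, AlgEquiv.symm_apply_apply] at h1
    have h2 := op_nonneg (K' := K') hv h0 g
    by_contra h3
    apply h1
    right
    have h4 : 1 ≤ v (MvPolynomial.aeval t g) := by omega
    exact_mod_cast h4
  have hpos : 0 < v (MvPolynomial.aeval t (φ.symm p)) := by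
    have h1 : p ∈ I := (hpI p).2 dvd_rfl
    rw [hmem, hψ] at h1
    rcases h1 with h | h
    · exfalso
      exact hg₀.ne_zero (ht.indep (by rw [h, map_zero]))
    · have h2 : (1 : ℤ) ≤ v (MvPolynomial.aeval t (φ.symm p)) := by exact_mod_cast h
      omega
  have hne : ∀ g : MvPolynomial (Fin d) K', g ≠ 0 → MvPolynomial.aeval t g ≠ 0 := fun g hg h =>
    hg (ht.indep (by rw [h, map_zero]))
  have hmul : ∀ g : MvPolynomial (Fin d) K', g ≠ 0 → ∃ n : ℕ,
      v (MvPolynomial.aeval t g) = n * v (MvPolynomial.aeval t (φ.symm p)) := by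
    intro g hg
    obtain ⟨n, g', hg', heq⟩ := WfDvdMonoid.max_power_factor hg hg₀.irreducible
    refine ⟨n, ?_⟩
    have hg'0 : g' ≠ 0 := by rintro rfl; exact hg' (dvd_zero _)
    rw [heq, map_mul, map_pow, v.map_mul (pow_ne_zero _ (hne _ hg₀.ne_zero)) (hne _ hg'0),
      v.map_pow, hv0 g' hg', add_zero]
  apply hT
  refine ⟨φ.symm p, hg₀.irreducible, ?_, hv0⟩
  obtain ⟨z, hz⟩ := v.surj'
  change v z = 1 at hz
  obtain ⟨A, B, hB, rfl⟩ := exists_aeval_div ht z
  have hA : A ≠ 0 := by
    rintro rfl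
    rw [map_zero, zero_div, v.map_zero] at hz
    omega
  rw [v.map_div (hne A hA) (hne B hB)] at hz
  obtain ⟨n₁, h1⟩ := hmul A hA
  obtain ⟨n₂, h2⟩ := hmul B hB
  rw [h1, h2] at hz
  apply Int.eq_one_of_dvd_one hpos.le
  exact ⟨n₁ - n₂, by linear_combination -hz⟩

omit [Algebra k K'] [IsScalarTower k K' E] [Field k] [Algebra k E] in
private lemma op_alg {d : ℕ} {t : Fin d → E} (ht : IsTorus K' t) :
    Algebra.IsAlgebraic (Algebra.adjoin K' (Set.range t)) E := by
  refine ⟨fun z => ?_⟩
  have hz : z ∈ IntermediateField.adjoin K' (Set.range t) := by rw [ht.gen]; trivial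
  rw [IntermediateField.mem_adjoin_iff_div] at hz
  obtain ⟨a, ha, b, hb, h⟩ := hz
  rw [h, div_eq_mul_inv]
  have h1 : IsAlgebraic (Algebra.adjoin K' (Set.range t)) a :=
    isAlgebraic_algebraMap (⟨a, ha⟩ : Algebra.adjoin K' (Set.range t))
  have h2 : IsAlgebraic (Algebra.adjoin K' (Set.range t)) b :=
    isAlgebraic_algebraMap (⟨b, hb⟩ : Algebra.adjoin K' (Set.range t))
  exact h1.mul h2.inv

theorem order_pos {k K' E : Type*} [Field k] [Field K'] [Field E] [Algebra k K'] [Algebra k E]
    [Algebra K' E] [IsScalarTower k K' E] [CharZero k] {n d : ℕ} {y : Fin n → K'}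
    (hy : IsTranscendenceBasis k y) {t : Fin d → E} (ht : IsTorus K' t) {v : DVal k E}
    (hv : ∀ x : K', v (algebraMap K' E x) = 0) (h0 : ∀ i, 0 ≤ v (t i))
    (hT : ¬ ∃ g₀ : MvPolynomial (Fin d) K', Irreducible g₀ ∧ v (MvPolynomial.aeval t g₀) = 1 ∧
      ∀ g, ¬ g₀ ∣ g → v (MvPolynomial.aeval t g) = 0) {o : ℤ} (ho : v.IsOrd (OmD k y t) o) :
    1 ≤ o := by
  classical
  have hchar : CharZero K' := charZero_of_injective_algebraMap (algebraMap k K').injective
  have hex : ∃ f : MvPolynomial (Fin d) K', 0 < v (MvPolynomial.aeval t f) := by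
    obtain ⟨z, hz⟩ := v.surj'
    change v z = 1 at hz
    obtain ⟨A, B, hB, rfl⟩ := exists_aeval_div ht z
    have hB' : MvPolynomial.aeval t B ≠ 0 := fun h => hB (ht.indep (by rw [h, map_zero]))
    have hA' : MvPolynomial.aeval t A ≠ 0 := by
      intro h
      rw [h, zero_div, v.map_zero] at hz
      omega
    rw [v.map_div hA' hB'] at hz
    have h1 := op_nonneg (K' := K') hv h0 B
    exact ⟨A, by omega⟩
  have hs : IsTranscendenceBasis K' t :=
    ht.indep.isTranscendenceBasis_iff_isAlgebraic.2 (op_alg ht)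
  obtain ⟨f, a, hf, hfa, hfa0⟩ := op_min ht.indep hv h0 hex
  have hind : AlgebraicIndependent K' (fun i : {i : Fin d // i ≠ a} => t i) :=
    ht.indep.comp _ Subtype.val_injective
  obtain ⟨h, c, hh, hhc, hhc0⟩ := op_min hind hv (fun i => h0 i) (op_free ht hv h0 hT a hex)
  have hca : a ≠ c := fun h => c.2 h.symm
  obtain ⟨D, hD⟩ := exists_derivations hs
  let g : Fin d → E := fun i => if i = a then MvPolynomial.aeval t f else
    if i = c then MvPolynomial.aeval (fun i : {i : Fin d // i ≠ a} => t i) h else t i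
  have hga : g a = MvPolynomial.aeval t f := if_pos rfl
  have hgc : g c = MvPolynomial.aeval (fun i : {i : Fin d // i ≠ a} => t i) h := by
    change (if (c : Fin d) = a then _ else if (c : Fin d) = c then _ else _) = _
    rw [if_neg c.2, if_pos rfl]
  have hgj : ∀ j, j ≠ a → j ≠ c → g j = t j := by
    intro j h1 h2
    change (if j = a then _ else if j = c then _ else _) = _
    rw [if_neg h1, if_neg h2]
  have hg0 : ∀ j, g j ≠ 0 := by
    intro j
    by_cases h1 : j = a
    · rw [h1, hga]
      intro h2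
      rw [h2, v.map_zero] at hf
      exact lt_irrefl _ hf
    by_cases h2 : j = c
    · rw [h2, hgc]
      intro h2
      rw [h2, v.map_zero] at hh
      exact lt_irrefl _ hh
    · rw [hgj j h1 h2]
      exact ht.ne_zero j
  have hdet : (Matrix.of fun i j => D i (g j)).det =
      MvPolynomial.aeval t (MvPolynomial.pderiv a f) *
        MvPolynomial.aeval (fun i : {i : Fin d // i ≠ a} => t i) (MvPolynomial.pderiv c h) := by
    rw [op_det _ a c hca]
    · rw [Matrix.of_apply, Matrix.of_apply, hga, hgc, op_der (D a) a (hD a)]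
      congr 1
      apply op_der
      intro j
      rw [hD]
      by_cases hcj : c = j
      · rw [if_pos hcj, if_pos (congrArg Subtype.val hcj)]
      · rw [if_neg hcj, if_neg fun h => hcj (Subtype.ext h)]
    · rw [Matrix.of_apply, hgc]
      apply op_der0
      intro j
      rw [hD, if_neg fun h => j.2 h.symm]
    · intro i j h1 h2
      rw [Matrix.of_apply, hgj j h1 h2, hD]
  have hom := omD_eq hy hs D hD g
  rw [hdet] at hom
  have hne := mul_ne_zero hfa hhc
  have ho' : v.IsOrd (OmD k y g) o := by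
    have h1 := (isOrd_smul v hne).2 ho
    rw [v.map_mul hfa hhc, hfa0, hhc0, add_zero, zero_add] at h1
    rw [hom]
    exact h1
  have h1 := log_ineqH hy hs hv hg0 ho'
  have h2 : v (g a) + v (g c) ≤ ∑ j, v (g j) := by
    rw [← Finset.sum_pair hca (f := fun j => v (g j))]
    apply Finset.sum_le_sum_of_subset_of_nonneg (Finset.subset_univ _)
    intro j _ hj
    rw [Finset.mem_insert, Finset.mem_singleton, not_or] at hj
    rw [hgj j hj.1 hj.2]
    exact h0 j
  rw [hga, hgc] at h2
  omega

end Pool.Agent.Helper92.HA
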