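import Pool.Agent.Helper92.Weak.Values
import Pool.Agent.Helper50.Forms.Log
import Mathlib.Algebra.MvPolynomial.PDeriv

set_option autoImplicit false

/-!
# HR-02 LogDer: the terms of a polynomial and logarithmic derivatives

`D i` derivations with `D i (s j) = δ_ij`, and the logarithmic derivations `s_i D i` lose at most `lam ≥ 0`:
`v (s_i D_i x) ≥ v x - lam`. Then every term `a_α s^α` of `G` has `v (a_α s^α) ≥ v (G(s)) - (#support - 1) lam`.
PROOF. Choose `c : Fin d → ℕ` such that the numbers `⟨c, α⟩ = ∑ c_i α_i`, `α ∈ G.support`, are distinct (`c_i = M^i`, `M` larger than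
all exponents: `M`-adic digits; or any injectivity argument, e.g. `Finsupp` weights outside finitely many hyperplanes).
`Θ x = ∑ c_i s_i D_i x` is additive, `v.Ge (m) x → v.Ge (m - lam) (Θ x)` (natural numbers have value `≥ 0`: `DVal.Ge.smul`),
and `Θ (a s^α) = ⟨c, α⟩ a s^α` for `a ∈ K'`. For the fixed `α`, the composition of the `#support - 1` operators
`Θ - ⟨c, β⟩`, `β ∈ support`, `β ≠ α`, maps `G(s) = ∑ a_β s^β` to `∏_β (⟨c, α⟩ - ⟨c, β⟩) a_α s^α`; every such operator loses at
most `lam` (`lam ≥ 0`, `Ge.sub`), and a nonzero integer has value `0` (`Helper50.Forms.v_intCast`).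
(Induction over a finset `S ⊆ support.erase α`: the element `∑_β (∏_(γ ∈ S) (⟨c, β⟩ - ⟨c, γ⟩)) a_β s^β` has value
`≥ v (G(s)) - #S lam`.)
`exists_term_le`: `G(s) = ∑ a_α s^α`, so some term has value at most `v (G(s))`.
-/

namespace Pool.Agent.Helper92.HA

open Pool.Agent.Helper92.Weak

private lemma ld_prod {K' E : Type*} [Field K'] [Field E] [Algebra K' E] {d : ℕ} (s : Fin d → E)
    (D : Fin d → Derivation K' E E) (hD : ∀ i j, D i (s j) = if i = j then 1 else 0)
    (α : Fin d →₀ ℕ) (i : Fin d) (S : Finset (Fin d)) :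
    s i * D i (∏ j ∈ S, s j ^ α j) = (if i ∈ S then (α i : E) else 0) * ∏ j ∈ S, s j ^ α j := by
  classical
  induction S using Finset.induction_on with
  | empty => simp
  | insert a S ha ih =>
    rw [Finset.prod_insert ha, Derivation.leibniz, Derivation.leibniz_pow, hD]
    simp only [smul_eq_mul, nsmul_eq_mul]
    by_cases hia : i = a
    · subst hia
      rw [if_neg ha, zero_mul] at ih
      rw [if_pos rfl, if_pos (Finset.mem_insert_self i S)]
      have h1 : (α i : E) * s i ^ (α i - 1) * s i = (α i : E) * s i ^ α i := by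
        rcases Nat.eq_zero_or_pos (α i) with h | h
        · rw [h]; simp
        · rw [mul_assoc, ← pow_succ, Nat.sub_add_cancel h]
      linear_combination (s i ^ α i) * ih + (∏ j ∈ S, s j ^ α j) * h1
    · rw [if_neg hia]
      have h1 : (i ∈ insert a S) ↔ i ∈ S := by
        rw [Finset.mem_insert]
        exact ⟨fun h => h.resolve_left hia, Or.inr⟩
      simp only [h1]
      linear_combination (s a ^ α a) * ih

private lemma ld_term {K' E : Type*} [Field K'] [Field E] [Algebra K' E] {d : ℕ} (s : Fin d → E)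
    (D : Fin d → Derivation K' E E) (hD : ∀ i j, D i (s j) = if i = j then 1 else 0)
    (α : Fin d →₀ ℕ) (i : Fin d) (a : K') :
    s i * D i (algebraMap K' E a * ∏ j, s j ^ α j) =
      (α i : E) * (algebraMap K' E a * ∏ j, s j ^ α j) := by
  have h := ld_prod s D hD α i Finset.univ
  rw [if_pos (Finset.mem_univ i)] at h
  rw [Derivation.leibniz, Derivation.map_algebraMap]
  simp only [smul_eq_mul, mul_zero, add_zero]
  linear_combination (algebraMap K' E a) * h

private lemma exists_weight {d : ℕ} (T : Finset (Fin d →₀ ℕ)) :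
    ∃ c : Fin d → ℤ, ∀ α ∈ T, ∀ β ∈ T, α ≠ β → ∑ i, c i * (α i : ℤ) ≠ ∑ i, c i * (β i : ℤ) := by
  classical
  let P : MvPolynomial (Fin d) ℤ := ∏ p ∈ (T ×ˢ T).filter (fun p => p.1 ≠ p.2),
    ∑ i, MvPolynomial.C ((p.1 i : ℤ) - (p.2 i : ℤ)) * MvPolynomial.X i
  have hP : P ≠ 0 := by
    apply Finset.prod_ne_zero_iff.2
    intro p hp
    rw [Finset.mem_filter] at hp
    obtain ⟨i, hi⟩ : ∃ i, p.1 i ≠ p.2 i := by
      by_contra hcon
      push Not at hcon
      exact hp.2 (Finsupp.ext hcon)
    intro h0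
    have h1 := congrArg (MvPolynomial.eval (Pi.single i (1 : ℤ))) h0
    rw [map_sum, map_zero] at h1
    simp only [map_mul, MvPolynomial.eval_C, MvPolynomial.eval_X] at h1
    rw [Finset.sum_eq_single i] at h1
    · rw [Pi.single_eq_same, mul_one, sub_eq_zero] at h1
      exact hi (by exact_mod_cast h1)
    · intro j _ hj
      rw [Pi.single_eq_of_ne hj, mul_zero]
    · intro h
      exact absurd (Finset.mem_univ i) h
  obtain ⟨c, hc⟩ : ∃ c : Fin d → ℤ, MvPolynomial.eval c P ≠ 0 := by
    by_contra hcon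
    push Not at hcon
    apply hP
    apply MvPolynomial.funext
    intro x
    rw [hcon x, map_zero]
  refine ⟨c, fun α hα β hβ hne heq => ?_⟩
  apply hc
  rw [map_prod]
  apply Finset.prod_eq_zero (i := (α, β))
  · rw [Finset.mem_filter, Finset.mem_product]
    exact ⟨⟨hα, hβ⟩, hne⟩
  · rw [map_sum]
    simp only [map_mul, MvPolynomial.eval_C, MvPolynomial.eval_X]
    have h2 : ∑ i, ((α i : ℤ) - (β i : ℤ)) * c i =
        ∑ i, c i * (α i : ℤ) - ∑ i, c i * (β i : ℤ) := by
      rw [← Finset.sum_sub_distrib]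
      apply Finset.sum_congr rfl
      intro i _
      ring
    rw [h2, heq, sub_self]

theorem term_ge {k K' E : Type*} [Field k] [Field K'] [Field E] [Algebra k E] [Algebra K' E]
    [CharZero k] {d : ℕ} (v : DVal k E) (s : Fin d → E) (hs : ∀ i, s i ≠ 0)
    (D : Fin d → Derivation K' E E) (hD : ∀ i j, D i (s j) = if i = j then 1 else 0) {lam : ℤ}
    (hlam : 0 ≤ lam)
    (hstar : ∀ (i : Fin d) (x : E), x ≠ 0 → v.Ge ((v x - lam : ℤ) : ℚ) (s i * D i x))
    {G : MvPolynomial (Fin d) K'} (hG : MvPolynomial.aeval s G ≠ 0) {α : Fin d →₀ ℕ}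
    (hα : α ∈ G.support) :
    v (MvPolynomial.aeval s G) - ((G.support.card : ℤ) - 1) * lam ≤
      v (algebraMap K' E (G.coeff α) * ∏ i, s i ^ α i) := by
  classical
  have : CharZero E := charZero_of_injective_algebraMap (algebraMap k E).injective
  obtain ⟨c, hc⟩ := exists_weight G.support
  let w : (Fin d →₀ ℕ) → ℤ := fun β => ∑ i, c i * (β i : ℤ)
  let t : (Fin d →₀ ℕ) → E := fun β => algebraMap K' E (G.coeff β) * ∏ i, s i ^ β i
  let Θ : E → E := fun x => ∑ i, (c i : E) * (s i * D i x)
  have hint : ∀ m : ℤ, v.Ge 0 (m : E) := by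
    intro m
    right
    rw [Pool.Agent.Helper50.Forms.v_intCast v m]
    simp
  have hΘ : ∀ (m : ℚ) (x : E), v.Ge m x → v.Ge (m - lam) (Θ x) := by
    intro m x hx
    by_cases hx0 : x = 0
    · left
      simp only [Θ, hx0, map_zero, mul_zero, Finset.sum_const_zero]
    · apply DVal.Ge.sum
      intro i _
      have h1 := (hint (c i)).mul (hstar i x hx0)
      rw [DVal.ge_iff hx0] at hx
      apply h1.mono
      push_cast
      linarith
  have hΘt : ∀ β, Θ (t β) = (w β : E) * t β := by
    intro β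
    simp only [Θ, t, w]
    have h1 : ∀ i, (c i : E) * (s i * D i (algebraMap K' E (G.coeff β) * ∏ j, s j ^ β j)) =
        ((c i : E) * (β i : E)) * (algebraMap K' E (G.coeff β) * ∏ j, s j ^ β j) := by
      intro i
      rw [ld_term s D hD β i (G.coeff β), mul_assoc]
    rw [Finset.sum_congr rfl fun i _ => h1 i, ← Finset.sum_mul]
    push_cast
    rfl
  have hΘsum : ∀ (T : Finset (Fin d →₀ ℕ)) (f : (Fin d →₀ ℕ) → ℤ) ,
      Θ (∑ β ∈ T, (f β : E) * t β) = ∑ β ∈ T, (f β : E) * Θ (t β) := by
    intro T f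
    simp only [Θ, map_sum, Finset.mul_sum]
    rw [Finset.sum_comm]
    apply Finset.sum_congr rfl
    intro β _
    apply Finset.sum_congr rfl
    intro i _
    rw [Derivation.leibniz, Derivation.map_intCast]
    simp only [smul_eq_mul, mul_zero, add_zero]
    ring
  have haev : MvPolynomial.aeval s G = ∑ β ∈ G.support, t β := by
    rw [MvPolynomial.aeval_def, MvPolynomial.eval₂_eq']
  -- the induction
  have key : ∀ S : Finset (Fin d →₀ ℕ), v.Ge ((v (MvPolynomial.aeval s G) : ℚ) - S.card * lam)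
      (∑ β ∈ G.support, ((∏ γ ∈ S, (w β - w γ) : ℤ) : E) * t β) := by
    intro S
    induction S using Finset.induction_on with
    | empty =>
      simp only [Finset.prod_empty, Int.cast_one, one_mul, Finset.card_empty, Nat.cast_zero,
        zero_mul, sub_zero]
      rw [← haev]
      exact DVal.ge_self _
    | insert γ S hγ ih =>
      set x := ∑ β ∈ G.support, ((∏ γ ∈ S, (w β - w γ) : ℤ) : E) * t β with hx
      have e1 : ∑ β ∈ G.support, ((∏ γ' ∈ insert γ S, (w β - w γ') : ℤ) : E) * t β =
          Θ x - (w γ : E) * x := by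
        rw [hx, hΘsum, Finset.mul_sum, ← Finset.sum_sub_distrib]
        apply Finset.sum_congr rfl
        intro β _
        rw [hΘt, Finset.prod_insert hγ]
        push_cast
        ring
      rw [e1, Finset.card_insert_of_notMem hγ]
      have h1 := hΘ _ _ ih
      have h2 := (hint (w γ)).mul ih
      have hl : (0 : ℚ) ≤ lam := by exact_mod_cast hlam
      push_cast
      apply DVal.Ge.sub
      · apply h1.mono
        linarith
      · apply h2.mono
        linarith
  have hk := key (G.support.erase α)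
  have e2 : ∑ β ∈ G.support, ((∏ γ ∈ G.support.erase α, (w β - w γ) : ℤ) : E) * t β =
      ((∏ γ ∈ G.support.erase α, (w α - w γ) : ℤ) : E) * t α := by
    apply Finset.sum_eq_single_of_mem α hα
    intro β hβ hne
    rw [Finset.prod_eq_zero (Finset.mem_erase.2 ⟨hne, hβ⟩) (sub_self _), Int.cast_zero, zero_mul]
  have hN : (∏ γ ∈ G.support.erase α, (w α - w γ) : ℤ) ≠ 0 := by
    apply Finset.prod_ne_zero_iff.2
    intro γ hγ
    rw [Finset.mem_erase] at hγ
    exact sub_ne_zero.2 (hc α hα γ hγ.2 (Ne.symm hγ.1))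
  have hN' : ((∏ γ ∈ G.support.erase α, (w α - w γ) : ℤ) : E) ≠ 0 := Int.cast_ne_zero.2 hN
  have ht : t α ≠ 0 := by
    apply mul_ne_zero
    · rw [MvPolynomial.mem_support_iff] at hα
      exact (map_ne_zero (algebraMap K' E)).2 hα
    · exact Finset.prod_ne_zero_iff.2 fun i _ => pow_ne_zero _ (hs i)
  rw [e2, DVal.ge_iff (mul_ne_zero hN' ht), v.map_mul hN' ht,
    Pool.Agent.Helper50.Forms.v_intCast v, zero_add] at hk
  have hcard : ((G.support.erase α).card : ℤ) = (G.support.card : ℤ) - 1 := by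
    rw [Finset.card_erase_of_mem hα]
    have : 0 < G.support.card := Finset.card_pos.2 ⟨α, hα⟩
    omega
  rw [← hcard]
  exact_mod_cast hk

theorem exists_term_le {k K' E : Type*} [Field k] [Field K'] [Field E] [Algebra k E] [Algebra K' E]
    {d : ℕ} (v : DVal k E) (s : Fin d → E) {G : MvPolynomial (Fin d) K'}
    (hG : MvPolynomial.aeval s G ≠ 0) : ∃ α ∈ G.support,
      v (algebraMap K' E (G.coeff α) * ∏ i, s i ^ α i) ≤ v (MvPolynomial.aeval s G) := by
  classical
  by_contra hcon
  push Not at hcon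
  have haev : MvPolynomial.aeval s G =
      ∑ β ∈ G.support, algebraMap K' E (G.coeff β) * ∏ i, s i ^ β i := by
    rw [MvPolynomial.aeval_def, MvPolynomial.eval₂_eq']
  have h1 : v.Ge ((v (MvPolynomial.aeval s G) + 1 : ℤ) : ℚ) (MvPolynomial.aeval s G) := by
    conv_rhs => rw [haev]
    apply DVal.Ge.sum
    intro β hβ
    right
    have := hcon β hβ
    exact_mod_cast this
  rw [DVal.ge_iff hG] at h1
  have h2 : v (MvPolynomial.aeval s G) + 1 ≤ v (MvPolynomial.aeval s G) := by exact_mod_cast h1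
  omega

end Pool.Agent.Helper92.HA
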