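import Pool.Agent.Helper92.HA.Theta
import Pool.Agent.Helper92.HR.BaseCo
import Pool.Agent.Helper92.HR.LogDer

set_option autoImplicit false

/-!
# HR-04 Sigma: bounds for the product of the quotients of the terms of `G` by `G`

`lam = v (θ_b) + μ_v ≥ 0` (`theta_vert`), `b = base j`.
`term_ge_vert`: `term_ge` for `s = sc j`, `D'` from `exists_der_co`.
`sig_val`: `v (sig) = ∑_(α ∈ support) (v (term α) - v (G))`, all factors are nonzero (`term_ne`, `ev_ne`).
`sig_vert`: every summand is `≥ -(# - 1) lam ≥ -# lam`, there are `#` of them: `≥ -#² lam = -sigC lam`.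
`sig_strict`: `lam = 0`: all summands are `≥ 0`, and they are not all `0`.
`sig_hor`: `v` is trivial on `K'`: `v (term α) = ∑ α_i v (l (j i)) ≥ (∑ α_i) m ≥ n m`, because `m ≤ v (l o) = 0` and `|α| ≤ deg G ≤ n`
(`MvPolynomial.le_totalDegree`). So `v (sig) ≥ # (n m - v (G)) ≥ -sigC (v (G) - n m)`: `v (G) ≥ n m` since `G` is the sum of its terms,
and `# ≤ #²`.
`ev_ge`: `v (G) ≥ n m`.
-/

namespace Pool.Agent.Helper92.HA

open Module Pool.Agent.Helper92.Weak Pool.Agent.Helper63.PB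

variable {k K L K' M L' : Type*} [Field k] [Field K] [Field L] [Field K'] [Field M] [Field L']
  [Algebra k K] [Algebra k L] [Algebra k K'] [Algebra k M] [Algebra k L'] [Algebra K L]
  [Algebra K K'] [Algebra K L'] [Algebra L L'] [Algebra K' M] [Algebra K' L'] [Algebra M L']
  [IsScalarTower k K L] [IsScalarTower k K K'] [IsScalarTower k K L'] [IsScalarTower k L L']
  [IsScalarTower k K' M] [IsScalarTower k K' L'] [IsScalarTower k M L'] [IsScalarTower K L L']
  [IsScalarTower K K' L'] [IsScalarTower K' M L'] [FiniteDimensional K K']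
  [FiniteDimensional L L'] [FiniteDimensional M L'] [CharZero k] {d : ℕ}
  {X : ProjVar k L} {Z : ProjVar k K} {t : Fin d → M} {ι : Type*} [Fintype ι] [DecidableEq ι]

theorem l_o_one (A : Arr K' L' t ι) : A.l A.o = 1 := by
  unfold Arr.l affine
  rw [A.co_o]
  simp [Fin.succ_ne_zero]

theorem min_nonpos {A : Arr K' L' t ι} {v : DVal k L'} {m : ℤ} (hm : IsMin A v m) : m ≤ 0 := by
  have h := hm.1 A.o
  rw [l_o_one, DVal.map_one] at h
  exact h

theorem sig_ne {A : Arr K' L' t ι} {j : Fin d → ι} (hj : A.IsCo j)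
    {G : MvPolynomial (Fin d) K'} (hG : G ≠ 0) : A.sig j G ≠ 0 := by
  unfold Arr.sig
  exact Finset.prod_ne_zero_iff.2 fun α hα => div_ne_zero (term_ne hj hα) (ev_ne hj hG)

/-- The value of the product of the quotients. -/
private theorem h45_sig_val {A : Arr K' L' t ι} {j : Fin d → ι} (hj : A.IsCo j)
    {G : MvPolynomial (Fin d) K'} (hG : G ≠ 0) (v : DVal k L') :
    v (A.sig j G) = ∑ α ∈ G.support, (v (A.term j G α) - v (A.ev j G)) := by
  unfold Arr.sig
  rw [DVal.map_prod]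
  · exact Finset.sum_congr rfl fun α hα => v.map_div (term_ne hj hα) (ev_ne hj hG)
  · exact fun α hα => div_ne_zero (term_ne hj hα) (ev_ne hj hG)

/-- The value of a term, `v` trivial on the constants. -/
private theorem h45_term_hor {A : Arr K' L' t ι} {j : Fin d → ι} (hj : A.IsCo j)
    {G : MvPolynomial (Fin d) K'} {n : ℕ} (hn : G.totalDegree ≤ n) {v : DVal k L'}
    (hv : ∀ x : K', v (algebraMap K' L' x) = 0) {m : ℤ} (hm : IsMin A v m) {α : Fin d →₀ ℕ}
    (hα : α ∈ G.support) : n * m ≤ v (A.term j G α) := by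
  have h0 := min_nonpos hm
  have hc : algebraMap K' L' (G.coeff α) ≠ 0 := by
    rw [Ne, map_eq_zero]
    exact MvPolynomial.mem_support_iff.1 hα
  have hp : ∀ i ∈ (Finset.univ : Finset (Fin d)), A.l (j i) ^ α i ≠ 0 := fun i _ =>
    pow_ne_zero _ (l_ne A _)
  have h1 : v (A.term j G α) = ∑ i, (α i : ℤ) * v (A.l (j i)) := by
    unfold Arr.term
    rw [v.map_mul hc (Finset.prod_ne_zero_iff.2 hp), hv, zero_add, v.map_prod _ _ hp]
    exact Finset.sum_congr rfl fun i _ => v.map_pow _ _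
  have h2 : ((∑ i, α i : ℕ) : ℤ) * m ≤ v (A.term j G α) := by
    rw [h1]
    push_cast
    rw [Finset.sum_mul]
    exact Finset.sum_le_sum fun i _ => mul_le_mul_of_nonneg_left (hm.1 _) (Int.natCast_nonneg _)
  have h3 : (∑ i, α i : ℕ) ≤ n := by
    have h4 := MvPolynomial.le_totalDegree hα
    rw [Finsupp.sum_fintype _ _ (fun _ => rfl)] at h4
    exact h4.trans hn
  have h5 : ((∑ i, α i : ℕ) : ℤ) ≤ n := by exact_mod_cast h3
  have h6 : (n : ℤ) * m ≤ ((∑ i, α i : ℕ) : ℤ) * m := mul_le_mul_of_nonpos_right h5 h0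
  exact h6.trans h2

theorem term_ge_vert (F : DFrame X Z K' (tL L' t)) {A : Arr K' L' t ι} {j : Fin d → ι}
    (hj : A.IsCo j) {G : MvPolynomial (Fin d) K'} (hG : G ≠ 0) {P : X.primeDivisors}
    {Q : Z.primeDivisors} {e : ℕ} (hP : LiesOver P.1 Q.1 e) {v : DVal k L'} {ε : ℕ}
    (hv : LiesOver v P.1 ε) {α : Fin d →₀ ℕ} (hα : α ∈ G.support) :
    v (A.ev j G) - ((G.support.card : ℤ) - 1) * (v (A.theta (A.base j)) + F.mu P Q e v ε) ≤
      v (A.term j G α) := by
  obtain ⟨D', hD, hstar⟩ := exists_der_co F hj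
  exact term_ge v (A.sc j) (fun i => l_ne A (j i)) D' hD (theta_vert F A hP hv hj.base)
    (fun i x hx => hstar P Q e hP v ε hv i x hx) (ev_ne hj hG) hα

theorem sig_vert (F : DFrame X Z K' (tL L' t)) {A : Arr K' L' t ι} {j : Fin d → ι}
    (hj : A.IsCo j) {G : MvPolynomial (Fin d) K'} (hG : G ≠ 0) {P : X.primeDivisors}
    {Q : Z.primeDivisors} {e : ℕ} (hP : LiesOver P.1 Q.1 e) {v : DVal k L'} {ε : ℕ}
    (hv : LiesOver v P.1 ε) :
    -(sigC G * (v (A.theta (A.base j)) + F.mu P Q e v ε)) ≤ v (A.sig j G) := by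
  have h0 := theta_vert F A hP hv hj.base
  rw [h45_sig_val hj hG v]
  have h1 : ∀ α ∈ G.support,
      -((G.support.card : ℤ) * (v (A.theta (A.base j)) + F.mu P Q e v ε)) ≤
        v (A.term j G α) - v (A.ev j G) := by
    intro α hα
    have h2 := term_ge_vert F hj hG hP hv hα
    linarith
  have h3 := Finset.card_nsmul_le_sum _ _ _ h1
  rw [nsmul_eq_mul] at h3
  refine le_trans (le_of_eq ?_) h3
  unfold sigC
  push_cast
  ring

theorem sig_strict (F : DFrame X Z K' (tL L' t)) {A : Arr K' L' t ι} {j : Fin d → ι}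
    (hj : A.IsCo j) {G : MvPolynomial (Fin d) K'} (hG : G ≠ 0) {P : X.primeDivisors}
    {Q : Z.primeDivisors} {e : ℕ} (hP : LiesOver P.1 Q.1 e) {v : DVal k L'} {ε : ℕ}
    (hv : LiesOver v P.1 ε) (h0 : v (A.theta (A.base j)) + F.mu P Q e v ε = 0)
    {α : Fin d →₀ ℕ} (hα : α ∈ G.support) (hne : v (A.term j G α) ≠ v (A.ev j G)) :
    0 < v (A.sig j G) := by
  rw [h45_sig_val hj hG v]
  have h1 : ∀ β ∈ G.support, v (A.ev j G) ≤ v (A.term j G β) := by
    intro β hβ
    have h2 := term_ge_vert F hj hG hP hv hβ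
    rw [h0, mul_zero, sub_zero] at h2
    exact h2
  refine Finset.sum_pos' (fun β hβ => sub_nonneg.2 (h1 β hβ)) ⟨α, hα, ?_⟩
  exact sub_pos.2 (lt_of_le_of_ne (h1 α hα) (Ne.symm hne))

theorem ev_ge {A : Arr K' L' t ι} {j : Fin d → ι} (hj : A.IsCo j)
    {G : MvPolynomial (Fin d) K'} (hG : G ≠ 0) {n : ℕ} (hn : G.totalDegree ≤ n) {v : DVal k L'}
    (hv : ∀ x : K', v (algebraMap K' L' x) = 0) {m : ℤ} (hm : IsMin A v m) :
    n * m ≤ v (A.ev j G) := by
  have h1 : v.Ge ((n * m : ℤ) : ℚ) (A.ev j G) := by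
    have h2 : A.ev j G = ∑ α ∈ G.support, A.term j G α := by
      unfold Arr.ev
      rw [MvPolynomial.aeval_def, MvPolynomial.eval₂_eq']
      rfl
    rw [h2]
    refine DVal.Ge.sum fun α hα => ?_
    rw [DVal.ge_iff (term_ne hj hα)]
    exact_mod_cast h45_term_hor hj hn hv hm hα
  rw [DVal.ge_iff (ev_ne hj hG)] at h1
  exact_mod_cast h1

theorem sig_hor {A : Arr K' L' t ι} {j : Fin d → ι} (hj : A.IsCo j)
    {G : MvPolynomial (Fin d) K'} (hG : G ≠ 0) {n : ℕ} (hn : G.totalDegree ≤ n) {v : DVal k L'}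
    (hv : ∀ x : K', v (algebraMap K' L' x) = 0) {m : ℤ} (hm : IsMin A v m) :
    -(sigC G * (v (A.ev j G) - n * m)) ≤ v (A.sig j G) := by
  have h0 := ev_ge hj hG hn hv hm
  rw [h45_sig_val hj hG v]
  have h1 : ∀ α ∈ G.support, -(v (A.ev j G) - n * m) ≤ v (A.term j G α) - v (A.ev j G) := by
    intro α hα
    have h2 := h45_term_hor hj hn hv hm hα
    linarith
  have h3 := Finset.card_nsmul_le_sum _ _ _ h1
  rw [nsmul_eq_mul] at h3
  refine le_trans ?_ h3
  have h4 : (G.support.card : ℤ) ≤ sigC G := by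
    unfold sigC
    exact_mod_cast Nat.le_mul_self _
  have h5 := mul_le_mul_of_nonneg_right h4 (sub_nonneg.2 h0)
  linarith

end Pool.Agent.Helper92.HA
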