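import Pool.Agent.Helper92.HR.CoverR
import Pool.Agent.Helper92.HR.Sigma
import Pool.Agent.Helper92.HR.OrdPos
import Pool.Agent.Helper92.HA.MkHorA
import Pool.Agent.Helper63.PB.Unram
import Pool.Agent.Helper63.PB.Hurwitz
import Pool.Agent.Helper63.PB.Finite

set_option autoImplicit false

/-!
# HR-13 MkHorS: the horizontal data, any `N`

This is `exists_horR` of MkHorR.lean (case `N = 1`, proved) for general `N`: the valuations `v ∈ T = horT A` are now `v = e D` on `M` with
`e ≥ 1`; instead of `N = 1` there is the hypothesis `hsat`. Every `v` over a horizontal `P` has `ε = 1` (`Helper63.PB.unram`) and is trivial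
on `K'`. For `T`, `sec`, `kill`, `poly` use `horT`, `horT_sec`, `horT_kill`, `horT_poly`, `horT_cases` of MkHorA.

By `hF` and `hasOrd_wedge` (as in MkHorR, MkHorA) `IsLogDisc K v ℓ` holds for `ℓ = 1 + (a P - v u) - ((d + 1) m + ∑ δ_i (v (l i) - m))` for
all `v` over `P` horizontal and `m` with `IsMin A v m`. So `hdisc` says `v u + (d + 1) m + ∑ δ_i (v (l_i) - m) ≤ a P + Δ P`.
Put `S v = a P + Δ P - (v u + (d + 1) m + ∑ δ_i (v (l_i) - m)) ≥ 0`. If `A.EqAt K Δ v` then `S v = 0` (for `v ∈ T`, which is over a horizontal `P` by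
`habove`). CALL `v ∈ T` strict if not `A.EqAt K Δ v`. By `hsat` all `v` over the same `D` are strict or none is.
FINITENESS: every `v` over `P` with `a P = 0`, `Δ P = 0`, `v u = 0` and all `v (l i) = 0` has `S v = 0` for the `ℓ` above. Strictness: not
`EqAt` means that `1 - Δ P ≠ ℓ` for some `ℓ` with `IsLogDisc K v ℓ`; all such `ℓ` agree: if this is not already clear use
`omD_change` (two transcendence bases `y, y'` of `K / k`: `dy = g₀ dy'`, `OmD k y t = g₀ OmD k y' t`, `v g₀ = 0`), `isOrd_unique`, and the uniqueness of the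
minimum. So the set of strict `v ∈ T` is finite (`Helper63.PB.finite_ne`, `finite_above`, finite supports), and strict `v` have `S v > 0`.
`G`: for each finite `D` (all `D (t j) ≥ 0`) below a strict `v` take its irreducible polynomial `g₀` (`horT_cases`/`proj_fin`); `G₀` = their product over the
finitely many strict `v`, `G` with `ev j G = G₀(t)` (`poly_co`), `G.totalDegree = G₀.totalDegree` (`poly_co'`); `n = G.totalDegree`, plus `1` if some strict `v`
is over the hyperplane at infinity. `w` = the maximum of `0` and the finitely many `S v`.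
`up`: `v ∈ T` over `D` (`e`). `S v = 0`: `ev_ge` and `w ≥ 0`. Strict: `v (ev j G) - n m ≥ 1`: `D` finite: `m = 0` and `g₀ ∣ G₀`, `v (g₀(t)) = e ≥ 1`; `D` infinite:
`m = -e`, `v (G₀(t)) = -e deg G₀`, `n = deg G₀ + 1`.
`slack`: let `n m < v (ev j G)`. (a) `v ∈ T`: `D` finite: `v (G₀(t)) > 0`, so the irreducible polynomial of `D` divides (is associated to) one of the chosen
ones, so `D` is below a strict `v'` (the valuation of `M` is determined by its polynomial), so `v` is strict by `hsat` (contraposition: `EqAt v → EqAt v'`),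
`S v > 0`. `D` infinite: `v (ev) - n m = e (n - deg G₀) > 0`, so some strict `v'` is over the hyperplane at infinity, which is unique (`proj_inf`), again `v` is strict.
And `v (l i) ≥ m`, so `v u + (d + 1) m ≤ a P + Δ P - S v < a P + Δ P`.
(b) `v ∉ T`. If some `v (l i) > m`: `v u + (d + 1) m < v u + (d + 1) m + ∑ δ_i (v (l_i) - m) ≤ a P + Δ P`. Otherwise all `v (l i) = m = v (l o) = 0`, so
`v (t j) ≥ 0` for all `j` (`full`). Let `w` be the valuation of `M` (over `k`) below `v` (`exists_under`: `v = e' w` on `M`, `e' ≥ 1`): `w` is trivial on `K'`,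
`w (t j) ≥ 0`, and `w` is not the multiplicity of an irreducible polynomial (otherwise it would be a prime divisor `D` of `ℙᵈ` by `exists_fin` and uniqueness, and
`v ∈ T`). Let `o_w` be the order of `dy' ∧ dt` along `w` (`y' = algebraMap K K' ∘ y`, `omD_base`): it exists because the order along `v` exists:
`Helper63.PB.hurwitz` needs the order along `w`; if its existence is a problem use `IsOrd` on `M`: `M = K'(t)` and `w` is divisorial? INSTEAD argue directly on `L'`:
the proof of `order_pos` works verbatim for `v` on `L'` (`f, h` polynomials in `t` with `v (f(t)), v (h(t)) ≥ 1`, `v (∂_a f), v (∂_c h) = 0`, `omD_eq` and `log_ineqH` for the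
transcendence basis `tL L' t` of `L' / K'`): restate it as a private lemma for a field `E'` algebraic over `K'(t)`. So `1 ≤ a P - v u`, and `v u < a P ≤ a P + Δ P` (`hΔ`).
-/

namespace Pool.Agent.Helper92.HA

open Module Pool.Agent.Helper92.Weak Pool.Agent.Helper63.PB

section HsOrd

private lemma hso_pseudo {S : Type*} [CommRing S] [IsDomain S] {g : Polynomial S} (hg : g ≠ 0) :
    ∀ (n : ℕ) (f : Polynomial S), f.natDegree ≤ n → ∃ (c : S) (q r : Polynomial S), c ≠ 0 ∧
      Polynomial.C c * f = q * g + r ∧ (r = 0 ∨ r.natDegree < g.natDegree ∨ g.natDegree = 0 ∧ r = 0) := by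
  intro n
  induction n using Nat.strong_induction_on with
  | _ n ih =>
    intro f hf
    by_cases h1 : f.natDegree < g.natDegree
    · exact ⟨1, 0, f, one_ne_zero, by simp, Or.inr (Or.inl h1)⟩
    by_cases h0 : g.natDegree = 0
    · obtain ⟨a, ha⟩ := Polynomial.natDegree_eq_zero.1 h0
      refine ⟨a, f, 0, ?_, ?_, Or.inl rfl⟩
      · rintro rfl
        exact hg (by rw [← ha, map_zero])
      · rw [ha, add_zero, mul_comm]
    have h2 : g.natDegree ≤ f.natDegree := not_lt.1 h1
    have h3 := Polynomial.natDegree_cancelLeads_lt_of_natDegree_le_natDegree h2 (by omega)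
    obtain ⟨c, q, r, hc, heq, hr⟩ := ih (f.natDegree - 1) (by omega) (g.cancelLeads f) (by omega)
    have hl : g.leadingCoeff ≠ 0 := Polynomial.leadingCoeff_ne_zero.2 hg
    refine ⟨c * g.leadingCoeff, q + Polynomial.C (c * f.leadingCoeff) * Polynomial.X ^ (f.natDegree - g.natDegree),
      r, mul_ne_zero hc hl, ?_, hr⟩
    have h4 : g.cancelLeads f = Polynomial.C g.leadingCoeff * f -
        Polynomial.C f.leadingCoeff * Polynomial.X ^ (f.natDegree - g.natDegree) * g := by
      unfold Polynomial.cancelLeads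
      rw [Nat.sub_eq_zero_of_le h2, pow_zero, mul_one]
    rw [h4] at heq
    rw [map_mul, map_mul]
    linear_combination heq

private lemma hso_principal {S : Type*} [CommRing S] [IsDomain S] [UniqueFactorizationMonoid S]
    (I : Ideal (Polynomial S)) (hI : I.IsPrime) (h0 : I ≠ ⊥) (hS : ∀ c : S, Polynomial.C c ∈ I → c = 0) :
    ∃ p : Polynomial S, Prime p ∧ ∀ g, g ∈ I ↔ p ∣ g := by
  classical
  obtain ⟨p, hpI, hp⟩ := hI.exists_mem_prime_of_ne_bot h0
  have hex : ∃ n : ℕ, ∃ g ∈ I, g ≠ 0 ∧ g.natDegree = n := ⟨_, p, hpI, hp.ne_zero, rfl⟩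
  obtain ⟨g₁, hg₁I, hg₁0, hg₁⟩ := Nat.find_spec hex
  have hmin : ∀ g ∈ I, g ≠ 0 → g₁.natDegree ≤ g.natDegree := fun g hg hg0 => by
    rw [hg₁]
    exact Nat.find_min' hex ⟨g, hg, hg0, rfl⟩
  have hdiv : ∀ g ∈ I, ∃ c q, c ≠ 0 ∧ Polynomial.C c * g = q * g₁ := by
    intro g hg
    obtain ⟨c, q, r, hc, heq, hr⟩ := hso_pseudo hg₁0 g.natDegree g le_rfl
    have hrI : r ∈ I := by
      have : r = Polynomial.C c * g - q * g₁ := by rw [heq]; ring
      rw [this]
      exact I.sub_mem (I.mul_mem_left _ hg) (I.mul_mem_left _ hg₁I)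
    have hr0 : r = 0 := by
      by_contra hr0
      have := hmin r hrI hr0
      rcases hr with h | h | h
      · exact hr0 h
      · omega
      · exact hr0 h.2
    rw [hr0, add_zero] at heq
    exact ⟨c, q, hc, heq⟩
  have hconst : ∀ g ∈ I, g ≠ 0 → g.natDegree ≠ 0 := by
    intro g hg hg0 hd
    obtain ⟨a, ha⟩ := Polynomial.natDegree_eq_zero.1 hd
    rw [← ha] at hg hg0
    exact hg0 (by rw [hS a hg, map_zero])
  have hpg₁ : p ∣ g₁ := by
    obtain ⟨c, q, hc, heq⟩ := hdiv p hpI
    have h1 : p ∣ q * g₁ := ⟨Polynomial.C c, by rw [← heq, mul_comm]⟩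
    rcases hp.dvd_or_dvd h1 with ⟨q', hq'⟩ | h
    · exfalso
      have h2 : Polynomial.C c = q' * g₁ := by
        apply mul_left_cancel₀ hp.ne_zero
        rw [mul_comm p, heq, hq']
        ring
      have h3 : (Polynomial.C c : Polynomial S) ≠ 0 := by simpa using hc
      have h4 := hS c (by rw [h2]; exact I.mul_mem_left _ hg₁I)
      exact hc h4
    · exact h
  refine ⟨p, hp, fun g => ⟨fun hg => ?_, fun ⟨q, hq⟩ => by rw [hq]; exact I.mul_mem_right _ hpI⟩⟩
  obtain ⟨c, q, hc, heq⟩ := hdiv g hg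
  have h1 : p ∣ Polynomial.C c * g := by rw [heq]; exact hpg₁.mul_left q
  rcases hp.dvd_or_dvd h1 with ⟨q', hq'⟩ | h
  · exfalso
    exact hc (hS c (by rw [hq']; exact I.mul_mem_right _ hpI))
  · exact h

variable {k K' E : Type*} [Field k] [Field K'] [Field E] [Algebra k K'] [Algebra k E]
    [Algebra K' E] [IsScalarTower k K' E]

omit [Algebra k K'] [IsScalarTower k K' E] in
private lemma hso_nonneg {σ : Type*} {u : σ → E} {v : DVal k E}
    (hv : ∀ x : K', v (algebraMap K' E x) = 0) (h0 : ∀ i, 0 ≤ v (u i)) (f : MvPolynomial σ K') :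
    0 ≤ v (MvPolynomial.aeval u f) := by
  rw [← DVal.mem_ring]
  induction f using MvPolynomial.induction_on with
  | C a => rw [MvPolynomial.aeval_C, DVal.mem_ring, hv]
  | add p q hp hq => rw [map_add]; exact v.ring.add_mem hp hq
  | mul_X p i hp =>
    rw [map_mul, MvPolynomial.aeval_X]
    exact v.ring.mul_mem hp (by rw [DVal.mem_ring]; exact h0 i)

omit [Algebra k K'] [IsScalarTower k K' E] in
private lemma hso_min [CharZero K'] {σ : Type*} {u : σ → E} (hu : AlgebraicIndependent K' u)
    {v : DVal k E} (hv : ∀ x : K', v (algebraMap K' E x) = 0) (h0 : ∀ i, 0 ≤ v (u i))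
    (hex : ∃ f : MvPolynomial σ K', 0 < v (MvPolynomial.aeval u f)) :
    ∃ (f : MvPolynomial σ K') (i : σ), 0 < v (MvPolynomial.aeval u f) ∧
      MvPolynomial.aeval u (MvPolynomial.pderiv i f) ≠ 0 ∧
      v (MvPolynomial.aeval u (MvPolynomial.pderiv i f)) = 0 := by
  classical
  have hex' : ∃ n : ℕ, ∃ f : MvPolynomial σ K', 0 < v (MvPolynomial.aeval u f) ∧ f.totalDegree = n := by
    obtain ⟨f, hf⟩ := hex
    exact ⟨_, f, hf, rfl⟩
  obtain ⟨f, hf, hfn⟩ := Nat.find_spec hex'
  have hmin : ∀ g : MvPolynomial σ K', 0 < v (MvPolynomial.aeval u g) →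
      f.totalDegree ≤ g.totalDegree := fun g hg => by
    rw [hfn]
    exact Nat.find_min' hex' ⟨g, hg, rfl⟩
  have hi : ∃ i, MvPolynomial.pderiv i f ≠ 0 := by
    by_contra hno
    push Not at hno
    have hC : f = MvPolynomial.C (MvPolynomial.coeff 0 f) := by
      ext m
      rw [MvPolynomial.coeff_C]
      by_cases hm : 0 = m
      · rw [if_pos hm, hm]
      · rw [if_neg hm]
        obtain ⟨i, hi⟩ : ∃ i, m i ≠ 0 := by
          by_contra hall
          push Not at hall
          exact hm (Finsupp.ext fun i => (hall i).symm)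
        have h1 := MvPolynomial.coeff_pderiv (i := i) f (m - Finsupp.single i 1)
        rw [hno i, MvPolynomial.coeff_zero] at h1
        have h2 : m - Finsupp.single i 1 + Finsupp.single i 1 = m := by
          apply tsub_add_cancel_of_le
          rw [Finsupp.single_le_iff]
          omega
        rw [h2] at h1
        have h3 : (((m - Finsupp.single i 1 : σ →₀ ℕ) i : ℕ) : K') + 1 ≠ 0 := by
          exact Nat.cast_add_one_ne_zero _
        rcases mul_eq_zero.1 h1.symm with h | h
        · exact h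
        · exact absurd h h3
    rw [hC, MvPolynomial.aeval_C, hv] at hf
    exact lt_irrefl _ hf
  obtain ⟨i, hi⟩ := hi
  have hlt : (MvPolynomial.pderiv i f).totalDegree < f.totalDegree := by
    obtain ⟨m, hm, hmd⟩ := Finset.exists_mem_eq_sup (MvPolynomial.pderiv i f).support
      (MvPolynomial.support_nonempty.2 hi) (fun s => s.sum fun _ e => e)
    have h1 : (MvPolynomial.pderiv i f).totalDegree = m.sum fun _ e => e := hmd
    rw [h1]
    have h2 : m + Finsupp.single i 1 ∈ f.support := by
      rw [MvPolynomial.mem_support_iff] at hm ⊢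
      intro h3
      apply hm
      rw [MvPolynomial.coeff_pderiv, h3, zero_mul]
    have h3 := MvPolynomial.le_totalDegree h2
    have h4 : ((m + Finsupp.single i 1).sum fun _ e => e) = (m.sum fun _ e => e) + 1 := by
      rw [Finsupp.sum_add_index' (fun _ => rfl) (fun _ _ _ => rfl), Finsupp.sum_single_index rfl]
    omega
  have hne : MvPolynomial.aeval u (MvPolynomial.pderiv i f) ≠ 0 := fun h => hi (hu (by rw [h, map_zero]))
  refine ⟨f, i, hf, hne, ?_⟩
  have h1 := hso_nonneg (K' := K') hv h0 (MvPolynomial.pderiv i f)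
  by_contra h2
  have h3 := hmin (MvPolynomial.pderiv i f) (by omega)
  omega

private lemma hso_der {σ : Type*} {u : σ → E} (D : Derivation K' E E) [DecidableEq σ] (i : σ)
    (hD : ∀ j, D (u j) = if i = j then 1 else 0) (f : MvPolynomial σ K') :
    D (MvPolynomial.aeval u f) = MvPolynomial.aeval u (MvPolynomial.pderiv i f) := by
  induction f using MvPolynomial.induction_on with
  | C a => rw [MvPolynomial.aeval_C, D.map_algebraMap, MvPolynomial.pderiv_C, map_zero]
  | add p q hp hq => rw [map_add, map_add, map_add, map_add, hp, hq]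
  | mul_X p j hp =>
    rw [map_mul, MvPolynomial.aeval_X, D.leibniz, hD, hp, MvPolynomial.pderiv_mul, map_add, map_mul,
      map_mul, MvPolynomial.aeval_X, MvPolynomial.pderiv_X]
    by_cases hij : i = j
    · subst hij
      rw [if_pos rfl, Pi.single_eq_same, map_one, smul_eq_mul, smul_eq_mul]
      ring
    · rw [if_neg hij, Pi.single_eq_of_ne (Ne.symm hij), map_zero, smul_eq_mul, smul_eq_mul]
      ring

private lemma hso_der0 {σ : Type*} {u : σ → E} (D : Derivation K' E E)
    (hD : ∀ j, D (u j) = 0) (f : MvPolynomial σ K') : D (MvPolynomial.aeval u f) = 0 := by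
  induction f using MvPolynomial.induction_on with
  | C a => rw [MvPolynomial.aeval_C, D.map_algebraMap]
  | add p q hp hq => rw [map_add, map_add, hp, hq, add_zero]
  | mul_X p j hp =>
    rw [map_mul, MvPolynomial.aeval_X, D.leibniz, hD, hp, smul_zero, smul_zero, add_zero]

private lemma hso_det {d : ℕ} {R : Type*} [CommRing R] (M : Matrix (Fin d) (Fin d) R) (a c : Fin d)
    (hac : a ≠ c) (h : M a c = 0)
    (h1 : ∀ i j, j ≠ a → j ≠ c → M i j = if i = j then 1 else 0) : M.det = M a a * M c c := by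
  classical
  rw [Matrix.det_apply', Finset.sum_eq_single 1]
  · rw [Equiv.Perm.sign_one, Finset.prod_eq_mul a c hac]
    · simp
    · intro i _ hi
      rw [Equiv.Perm.one_apply, h1 i i hi.1 hi.2, if_pos rfl]
    · intro h; exact absurd (Finset.mem_univ _) h
    · intro h; exact absurd (Finset.mem_univ _) h
  · intro σ _ hσ
    have : ∃ i, M (σ i) i = 0 := by
      by_contra hno
      push Not at hno
      apply hσ
      have h2 : ∀ j, j ≠ a → j ≠ c → σ j = j := by
        intro j hja hjc
        by_contra hne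
        apply hno j
        rw [h1 _ _ hja hjc, if_neg hne]
      have h3 : σ c = c := by
        by_contra hne
        by_cases hca : σ c = a
        · exact hno c (by rw [hca, h])
        · have h4 := h2 (σ c) hca hne
          exact hne (σ.injective h4)
      have h4 : σ a = a := by
        by_contra hne
        by_cases hca : σ a = c
        · rw [← h3] at hca
          exact hac (σ.injective hca)
        · have h5 := h2 (σ a) hne hca
          exact hne (σ.injective h5)
      ext j
      by_cases hja : j = a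
      · rw [hja, h4]; rfl
      by_cases hjc : j = c
      · rw [hjc, h3]; rfl
      rw [h2 j hja hjc]; rfl
    obtain ⟨i, hi⟩ := this
    exact mul_eq_zero_of_right _ (Finset.prod_eq_zero (Finset.mem_univ i) hi)
  · intro h; exact absurd (Finset.mem_univ _) h

private lemma hso_mem_prime {R : Type*} [CommRing R] (v : DVal k E) (ψ : R →+* E)
    (h : ∀ x, 0 ≤ v (ψ x)) : ∃ I : Ideal R, I.IsPrime ∧ ∀ x, x ∈ I ↔ v.Ge 1 (ψ x) := by
  let I : Ideal R :=
    { carrier := {x | v.Ge 1 (ψ x)}
      add_mem' := fun {a b} ha hb => by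
        change v.Ge 1 (ψ (a + b))
        rw [map_add]
        exact DVal.Ge.add ha hb
      zero_mem' := by
        change v.Ge 1 (ψ 0)
        rw [map_zero]
        exact DVal.Ge.zero
      smul_mem' := fun c x hx => by
        change v.Ge 1 (ψ (c * x))
        rw [map_mul]
        have h0 : v.Ge 0 (ψ c) := Or.inr (by exact_mod_cast h c)
        have h1 := h0.mul hx
        rwa [zero_add] at h1 }
  have hmem : ∀ x, x ∈ I ↔ v.Ge 1 (ψ x) := fun _ => Iff.rfl
  refine ⟨I, ⟨?_, ?_⟩, hmem⟩
  · rw [Ne, Ideal.eq_top_iff_one, hmem, map_one, DVal.ge_iff one_ne_zero, v.map_one]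
    norm_num
  · intro x y hxy
    rw [hmem, map_mul] at hxy
    rw [hmem, hmem]
    by_cases hx : ψ x = 0
    · exact Or.inl (Or.inl hx)
    by_cases hy : ψ y = 0
    · exact Or.inr (Or.inl hy)
    rw [DVal.ge_iff (mul_ne_zero hx hy), v.map_mul hx hy] at hxy
    rw [DVal.ge_iff hx, DVal.ge_iff hy]
    have h1 : (1 : ℤ) ≤ v (ψ x) + v (ψ y) := by exact_mod_cast hxy
    have h2 := h x
    have h3 := h y
    by_cases h4 : 1 ≤ v (ψ x)
    · left; exact_mod_cast h4
    · right
      have h5 : 1 ≤ v (ψ y) := by omega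
      exact_mod_cast h5

omit [Algebra k K'] [IsScalarTower k K' E] in
private lemma hso_free {d : ℕ} {t : Fin d → E} (ht : AlgebraicIndependent K' t) {v : DVal k E}
    (hv : ∀ x : K', v (algebraMap K' E x) = 0) (h0 : ∀ i, 0 ≤ v (t i))
    (hT : ¬ ∃ g₀ : MvPolynomial (Fin d) K', Irreducible g₀ ∧ 0 < v (MvPolynomial.aeval t g₀) ∧
      ∀ g, ¬ g₀ ∣ g → v (MvPolynomial.aeval t g) = 0) (a : Fin d)
    (hex : ∃ f : MvPolynomial (Fin d) K', 0 < v (MvPolynomial.aeval t f)) :
    ∃ h : MvPolynomial {i : Fin d // i ≠ a} K',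
      0 < v (MvPolynomial.aeval (fun i : {i : Fin d // i ≠ a} => t i) h) := by
  classical
  by_contra hno
  push Not at hno
  obtain ⟨f, hf⟩ := hex
  let φ : MvPolynomial (Fin d) K' ≃ₐ[K'] Polynomial (MvPolynomial {i : Fin d // i ≠ a} K') :=
    (MvPolynomial.renameEquiv K' (Equiv.optionSubtypeNe a).symm).trans
      (MvPolynomial.optionEquivLeft K' {i : Fin d // i ≠ a})
  let ψ : Polynomial (MvPolynomial {i : Fin d // i ≠ a} K') →+* E :=
    ((MvPolynomial.aeval t : MvPolynomial (Fin d) K' →ₐ[K'] E).comp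
      φ.symm.toAlgHom).toRingHom
  have hψ : ∀ x, ψ x = MvPolynomial.aeval t (φ.symm x) := fun _ => rfl
  have hψ0 : ∀ x, 0 ≤ v (ψ x) := fun x => by
    rw [hψ]
    exact hso_nonneg hv h0 _
  have hψC : ∀ c : MvPolynomial {i : Fin d // i ≠ a} K', ψ (Polynomial.C c) =
      MvPolynomial.aeval (fun i : {i : Fin d // i ≠ a} => t i) c := by
    intro c
    rw [hψ]
    induction c using MvPolynomial.induction_on with
    | C r => simp [φ]
    | add p q hp hq => rw [map_add, map_add, map_add, map_add, hp, hq]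
    | mul_X p i hp =>
      rw [map_mul, map_mul, map_mul, map_mul, hp]
      congr 1
      simp [φ]
  obtain ⟨I, hI, hmem⟩ := hso_mem_prime v ψ hψ0
  have hIbot : I ≠ ⊥ := by
    intro hbot
    have h1 : φ f ∈ I := by
      rw [hmem, hψ, AlgEquiv.symm_apply_apply]
      exact Or.inr (by exact_mod_cast hf)
    rw [hbot, Ideal.mem_bot] at h1
    have h2 : f = 0 := by
      apply φ.injective
      rw [h1, map_zero]
    rw [h2, map_zero, v.map_zero] at hf
    exact lt_irrefl _ hf
  have hind : AlgebraicIndependent K' (fun i : {i : Fin d // i ≠ a} => t i) :=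
    ht.comp _ Subtype.val_injective
  have hIS : ∀ c : MvPolynomial {i : Fin d // i ≠ a} K', Polynomial.C c ∈ I → c = 0 := by
    intro c hc
    rw [hmem, hψC] at hc
    rcases hc with h | h
    · exact hind (by rw [h, map_zero])
    · exfalso
      have h1 := hno c
      have h2 : (1 : ℤ) ≤ v (MvPolynomial.aeval (fun i : {i : Fin d // i ≠ a} => t i) c) := by
        exact_mod_cast h
      omega
  obtain ⟨p, hp, hpI⟩ := hso_principal I hI hIbot hIS
  have hg₀ : Prime (φ.symm p) := (MulEquiv.prime_iff φ.symm.toMulEquiv).2 hp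
  have hv0 : ∀ g, ¬ φ.symm p ∣ g → v (MvPolynomial.aeval t g) = 0 := by
    intro g hg
    have h1 : ¬ p ∣ φ g := by
      rintro ⟨q, hq⟩
      apply hg
      exact ⟨φ.symm q, by rw [← map_mul, ← hq, AlgEquiv.symm_apply_apply]⟩
    rw [← hpI, hmem, hψ, AlgEquiv.symm_apply_apply] at h1
    have h2 := hso_nonneg (K' := K') hv h0 g
    by_contra h3
    apply h1
    right
    have h4 : 1 ≤ v (MvPolynomial.aeval t g) := by omega
    exact_mod_cast h4
  have hpos : 0 < v (MvPolynomial.aeval t (φ.symm p)) := by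
    have h1 : p ∈ I := (hpI p).2 dvd_rfl
    rw [hmem, hψ] at h1
    rcases h1 with h | h
    · exfalso
      exact hg₀.ne_zero (ht (by rw [h, map_zero]))
    · have h2 : (1 : ℤ) ≤ v (MvPolynomial.aeval t (φ.symm p)) := by exact_mod_cast h
      omega
  exact hT ⟨φ.symm p, hg₀.irreducible, hpos, hv0⟩

omit [Field K'] [Algebra k K'] [Algebra K' E] [IsScalarTower k K' E] in
private lemma hso_triv {F₀ : Type*} [Field F₀] [Algebra F₀ E] [Algebra.IsAlgebraic F₀ E]
    {v : DVal k E} (hv : ∀ x : F₀, v (algebraMap F₀ E x) = 0) (z : E) : v z = 0 := by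
  have key : ∀ z : E, 0 ≤ v z := by
    intro z
    apply Pool.Agent.Helper47.PQ.mem_ring_of_isIntegral v
    have h1 : IsIntegral F₀ z := (Algebra.IsAlgebraic.isAlgebraic (R := F₀) z).isIntegral
    obtain ⟨p, hp, hpz⟩ := h1
    let φ : F₀ →+* v.ring :=
      { toFun := fun c => ⟨algebraMap F₀ E c, (hv c).ge⟩
        map_one' := by ext; simp
        map_mul' := fun a b => by ext; simp
        map_zero' := by ext; simp
        map_add' := fun a b => by ext; simp }
    refine ⟨p.map φ, hp.map φ, ?_⟩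
    rw [Polynomial.eval₂_map]
    exact hpz
  have h1 := key z
  have h2 := key z⁻¹
  rw [v.map_inv] at h2
  omega

private theorem hso_order_pos {k K' E : Type*} [Field k] [Field K'] [Field E] [Algebra k K'] [Algebra k E]
    [Algebra K' E] [IsScalarTower k K' E] [CharZero k] {n d : ℕ} {y : Fin n → K'}
    (hy : IsTranscendenceBasis k y) {t : Fin d → E} (hs : IsTranscendenceBasis K' t) {v : DVal k E}
    (hv : ∀ x : K', v (algebraMap K' E x) = 0) (h0 : ∀ i, 0 ≤ v (t i))
    (hT : ¬ ∃ g₀ : MvPolynomial (Fin d) K', Irreducible g₀ ∧ 0 < v (MvPolynomial.aeval t g₀) ∧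
      ∀ g, ¬ g₀ ∣ g → v (MvPolynomial.aeval t g) = 0) {o : ℤ} (ho : v.IsOrd (OmD k y t) o) :
    1 ≤ o := by
  classical
  have hchar : CharZero K' := charZero_of_injective_algebraMap (algebraMap k K').injective
  have hex : ∃ f : MvPolynomial (Fin d) K', 0 < v (MvPolynomial.aeval t f) := by
    by_contra hno
    push Not at hno
    have hz : ∀ f : MvPolynomial (Fin d) K', v (MvPolynomial.aeval t f) = 0 := fun f =>
      le_antisymm (hno f) (hso_nonneg hv h0 f)
    have : Algebra.IsAlgebraic (IntermediateField.adjoin K' (Set.range t)) E := hs.isAlgebraic_field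
    have hF : ∀ x : IntermediateField.adjoin K' (Set.range t),
        v (algebraMap (IntermediateField.adjoin K' (Set.range t)) E x) = 0 := by
      rintro ⟨x, hx⟩
      change v x = 0
      rw [IntermediateField.mem_adjoin_range_iff] at hx
      obtain ⟨r, s, rfl⟩ := hx
      by_cases hr : MvPolynomial.aeval t r = 0
      · rw [hr, zero_div, v.map_zero]
      by_cases hs : MvPolynomial.aeval t s = 0
      · rw [hs, div_zero, v.map_zero]
      rw [v.map_div hr hs, hz, hz, sub_zero]
    obtain ⟨z, hz1⟩ := v.surj'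
    change v z = 1 at hz1
    rw [hso_triv hF z] at hz1
    exact zero_ne_one hz1
  obtain ⟨f, a, hf, hfa, hfa0⟩ := hso_min hs.1 hv h0 hex
  have hind : AlgebraicIndependent K' (fun i : {i : Fin d // i ≠ a} => t i) :=
    hs.1.comp _ Subtype.val_injective
  obtain ⟨h, c, hh, hhc, hhc0⟩ := hso_min hind hv (fun i => h0 i) (hso_free hs.1 hv h0 hT a hex)
  have hca : a ≠ c := fun h => c.2 h.symm
  obtain ⟨D, hD⟩ := exists_derivations hs
  let g : Fin d → E := fun i => if i = a then MvPolynomial.aeval t f else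
    if i = c then MvPolynomial.aeval (fun i : {i : Fin d // i ≠ a} => t i) h else t i
  have hga : g a = MvPolynomial.aeval t f := if_pos rfl
  have hgc : g c = MvPolynomial.aeval (fun i : {i : Fin d // i ≠ a} => t i) h := by
    change (if (c : Fin d) = a then _ else if (c : Fin d) = c then _ else _) = _
    rw [if_neg c.2, if_pos rfl]
  have hgj : ∀ j, j ≠ a → j ≠ c → g j = t j := by
    intro j h1 h2
    change (if j = a then _ else if j = c then _ else _) = _
    rw [if_neg h1, if_neg h2]
  have hg0 : ∀ j, g j ≠ 0 := by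
    intro j
    by_cases h1 : j = a
    · rw [h1, hga]
      intro h2
      rw [h2, v.map_zero] at hf
      exact lt_irrefl _ hf
    by_cases h2 : j = c
    · rw [h2, hgc]
      intro h2
      rw [h2, v.map_zero] at hh
      exact lt_irrefl _ hh
    · rw [hgj j h1 h2]
      exact hs.1.ne_zero j
  have hdet : (Matrix.of fun i j => D i (g j)).det =
      MvPolynomial.aeval t (MvPolynomial.pderiv a f) *
        MvPolynomial.aeval (fun i : {i : Fin d // i ≠ a} => t i) (MvPolynomial.pderiv c h) := by
    rw [hso_det _ a c hca]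
    · rw [Matrix.of_apply, Matrix.of_apply, hga, hgc, hso_der (D a) a (hD a)]
      congr 1
      apply hso_der
      intro j
      rw [hD]
      by_cases hcj : c = j
      · rw [if_pos hcj, if_pos (congrArg Subtype.val hcj)]
      · rw [if_neg hcj, if_neg fun h => hcj (Subtype.ext h)]
    · rw [Matrix.of_apply, hgc]
      apply hso_der0
      intro j
      rw [hD, if_neg fun h => j.2 h.symm]
    · intro i j h1 h2
      rw [Matrix.of_apply, hgj j h1 h2, hD]
  have hom := omD_eq hy hs D hD g
  rw [hdet] at hom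
  have hne := mul_ne_zero hfa hhc
  have ho' : v.IsOrd (OmD k y g) o := by
    have h1 := (isOrd_smul v hne).2 ho
    rw [v.map_mul hfa hhc, hfa0, hhc0, add_zero, zero_add] at h1
    rw [hom]
    exact h1
  have h1 := log_ineqH hy hs hv hg0 ho'
  have h2 : v (g a) + v (g c) ≤ ∑ j, v (g j) := by
    rw [← Finset.sum_pair hca (f := fun j => v (g j))]
    apply Finset.sum_le_sum_of_subset_of_nonneg (Finset.subset_univ _)
    intro j _ hj
    rw [Finset.mem_insert, Finset.mem_singleton, not_or] at hj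
    rw [hgj j hj.1 hj.2]
    exact h0 j
  rw [hga, hgc] at h2
  omega

end HsOrd

variable {k K L K' M L' : Type*} [Field k] [Field K] [Field L] [Field K'] [Field M] [Field L']
  [Algebra k K] [Algebra k L] [Algebra k K'] [Algebra k M] [Algebra k L'] [Algebra K L]
  [Algebra K K'] [Algebra K L'] [Algebra L L'] [Algebra K' M] [Algebra K' L'] [Algebra M L']
  [IsScalarTower k K L] [IsScalarTower k K K'] [IsScalarTower k K L'] [IsScalarTower k L L']
  [IsScalarTower k K' M] [IsScalarTower k K' L'] [IsScalarTower k M L'] [IsScalarTower K L L']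
  [IsScalarTower K K' L'] [IsScalarTower K' M L'] [FiniteDimensional K K']
  [FiniteDimensional L L'] [FiniteDimensional M L'] [CharZero k] {d : ℕ}
  {X : ProjVar k L} {Z : ProjVar k K} {t : Fin d → M} {ι : Type*} [Fintype ι] [DecidableEq ι]

/-! ### Auxiliary lemmas -/

section HsAux

/-- `v` is `e` times the multiplicity of `p`. -/
private def HsMult {k₁ κ E : Type*} [Field k₁] [Field κ] [Field E] [Algebra k₁ E] [Algebra κ E]
    {d : ℕ} (v : DVal k₁ E) (τ : Fin d → E) (p : MvPolynomial (Fin d) κ) (e : ℤ) : Prop :=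
  v (MvPolynomial.aeval τ p) = e ∧ ∀ g, ¬ p ∣ g → v (MvPolynomial.aeval τ g) = 0

/-- `v` is minus the degree. -/
private def HsInf {k₁ : Type*} (κ : Type*) {E : Type*} [Field k₁] [Field κ] [Field E]
    [Algebra k₁ E] [Algebra κ E] {d : ℕ} (v : DVal k₁ E) (τ : Fin d → E) : Prop :=
  ∀ g : MvPolynomial (Fin d) κ, g ≠ 0 →
    v (MvPolynomial.aeval τ g) = -(g.totalDegree : ℤ)

variable {k₁ κ E : Type*} [Field k₁] [Field κ] [Field E] [Algebra k₁ E] [Algebra κ E]
  {d : ℕ} {v v' : DVal k₁ E} {τ : Fin d → E} {p q : MvPolynomial (Fin d) κ} {e : ℤ}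

private theorem hs_aeval_ne (hτ : AlgebraicIndependent κ τ) {g : MvPolynomial (Fin d) κ}
    (hg : g ≠ 0) : MvPolynomial.aeval τ g ≠ 0 := fun h => hg (hτ (by rw [h, map_zero]))

private theorem hs_mult_val (hτ : AlgebraicIndependent κ τ) (hp : Irreducible p)
    (h : HsMult v τ p e) {g : MvPolynomial (Fin d) κ} (hg : g ≠ 0) :
    v (MvPolynomial.aeval τ g) = e * (multiplicity p g : ℤ) := by
  obtain ⟨c, hc, hnc⟩ :=
    (FiniteMultiplicity.of_not_isUnit hp.not_isUnit hg).exists_eq_pow_mul_and_not_dvd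
  have hc0 : c ≠ 0 := by
    rintro rfl
    exact hnc (dvd_zero _)
  have h1 : v (MvPolynomial.aeval τ (p ^ multiplicity p g * c)) =
      e * (multiplicity p g : ℤ) := by
    rw [map_mul, map_pow, v.map_mul (pow_ne_zero _ (hs_aeval_ne hτ hp.ne_zero))
      (hs_aeval_ne hτ hc0), v.map_pow, h.1, h.2 c hnc]
    ring
  rw [← hc] at h1
  exact h1

private theorem hs_mult_assoc (hτ : AlgebraicIndependent κ τ) (hp : Irreducible p)
    (hq : Irreducible q) (hpq : p ∣ q) (h : HsMult v τ p e) : HsMult v τ q e := by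
  have ha : Associated p q := hp.associated_of_dvd hq hpq
  obtain ⟨u, hu⟩ := ha
  have hnu : ¬ p ∣ (u : MvPolynomial (Fin d) κ) := fun h1 =>
    hp.not_isUnit (isUnit_of_dvd_unit h1 u.isUnit)
  refine ⟨?_, fun g hg => h.2 g fun h1 => hg ?_⟩
  · rw [← hu, map_mul, v.map_mul (hs_aeval_ne hτ hp.ne_zero) (hs_aeval_ne hτ u.isUnit.ne_zero),
      h.1, h.2 _ hnu, add_zero]
  · exact (Associated.dvd_iff_dvd_left ⟨u, hu⟩).1 h1

private theorem hs_mult_unique (hτ : IsTorus κ τ) (hp : Irreducible p) (h : HsMult v τ p e)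
    (h' : HsMult v' τ p e) : v = v' := by
  apply DVal.ext
  intro z
  obtain ⟨a, b, hb, hz⟩ := exists_aeval_div hτ z
  by_cases ha : a = 0
  · rw [hz, ha, map_zero, zero_div, v.map_zero, v'.map_zero]
  · rw [hz, v.map_div (hs_aeval_ne hτ.indep ha) (hs_aeval_ne hτ.indep hb),
      v'.map_div (hs_aeval_ne hτ.indep ha) (hs_aeval_ne hτ.indep hb),
      hs_mult_val hτ.indep hp h ha, hs_mult_val hτ.indep hp h hb,
      hs_mult_val hτ.indep hp h' ha, hs_mult_val hτ.indep hp h' hb]

private theorem hs_inf_unique (hτ : IsTorus κ τ) (h : HsInf κ v τ) (h' : HsInf κ v' τ) :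
    v = v' := by
  apply DVal.ext
  intro z
  obtain ⟨a, b, hb, hz⟩ := exists_aeval_div hτ z
  by_cases ha : a = 0
  · rw [hz, ha, map_zero, zero_div, v.map_zero, v'.map_zero]
  · rw [hz, v.map_div (hs_aeval_ne hτ.indep ha) (hs_aeval_ne hτ.indep hb),
      v'.map_div (hs_aeval_ne hτ.indep ha) (hs_aeval_ne hτ.indep hb), h a ha, h b hb, h' a ha,
      h' b hb]

end HsAux

private theorem hs_aeval (g : MvPolynomial (Fin d) K') :
    MvPolynomial.aeval (tL L' t) g = algebraMap M L' (MvPolynomial.aeval t g) :=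
  MvPolynomial.aeval_algebraMap_apply L' t g

private theorem hs_indep (A : Arr K' L' t ι) : AlgebraicIndependent K' (tL L' t) :=
  A.torus.indep.map' (f := IsScalarTower.toAlgHom K' M L') (algebraMap M L').injective

private theorem hs_min_unique {A : Arr K' L' t ι} {v : DVal k L'} {m m' : ℤ} (h : IsMin A v m)
    (h' : IsMin A v m') : m = m' := by
  obtain ⟨i, hi⟩ := h.2
  obtain ⟨i', hi'⟩ := h'.2
  have h1 := h.1 i'
  have h2 := h'.1 i
  omega

private theorem hs_exists_min (A : Arr K' L' t ι) (v : DVal k L') : ∃ m, IsMin A v m := by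
  obtain ⟨i, -, hi⟩ := Finset.exists_min_image Finset.univ (fun i => v (A.l i))
    ⟨A.o, Finset.mem_univ _⟩
  exact ⟨v (A.l i), fun j => hi j (Finset.mem_univ j), i, rfl⟩

/-- A valuation of `L'` which is proportional to a multiplicity lies over a prime divisor. -/
private theorem hs_mem_fin {A : Arr K' L' t ι} {v : DVal k L'} {p : MvPolynomial (Fin d) K'}
    {e : ℤ} (he : 0 < e) (hp : Irreducible p) (h : HsMult v (tL L' t) p e) : v ∈ horT A := by
  obtain ⟨D, hD, -, h1, h2⟩ := exists_fin A.torus hp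
  have hen : ((e.toNat : ℕ) : ℤ) = e := Int.toNat_of_nonneg he.le
  refine ⟨D, hD, e.toNat, by omega, fun x => ?_⟩
  have hD' : HsMult D t p 1 := ⟨h1, h2⟩
  obtain ⟨a, b, hb, hx⟩ := exists_aeval_div A.torus x
  have hi := hs_indep A
  by_cases ha : a = 0
  · rw [hx, ha, map_zero, zero_div, map_zero, v.map_zero, D.map_zero, mul_zero]
  · rw [hx, map_div₀, ← hs_aeval, ← hs_aeval, v.map_div (hs_aeval_ne hi ha) (hs_aeval_ne hi hb),
      D.map_div (hs_aeval_ne A.torus.indep ha) (hs_aeval_ne A.torus.indep hb),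
      hs_mult_val hi hp h ha, hs_mult_val hi hp h hb,
      hs_mult_val A.torus.indep hp hD' ha, hs_mult_val A.torus.indep hp hD' hb, hen]
    ring

private theorem hs_triv {P : DVal k L} (hP : ∀ x : K, P (algebraMap K L x) = 0) {v : DVal k L'}
    {ε : ℕ} (hv : LiesOver v P ε) (x : K') : v (algebraMap K' L' x) = 0 := by
  have hv0 : ∀ x : K, v (algebraMap K L' x) = 0 := fun x => by
    rw [IsScalarTower.algebraMap_apply K L L', hv.2, hP, mul_zero]
  have key : ∀ z : K', 0 ≤ v (algebraMap K' L' z) := by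
    intro z
    apply Pool.Agent.Helper47.PQ.mem_ring_of_isIntegral v
    have h1 : IsIntegral K (algebraMap K' L' z) :=
      (Algebra.IsIntegral.isIntegral z).algebraMap
    obtain ⟨p, hp, hpz⟩ := h1
    let φ : K →+* v.ring :=
      { toFun := fun c => ⟨algebraMap K L' c, (hv0 c).ge⟩
        map_one' := by ext; simp
        map_mul' := fun a b => by ext; simp
        map_zero' := by ext; simp
        map_add' := fun a b => by ext; simp }
    refine ⟨p.map φ, hp.map φ, ?_⟩
    rw [Polynomial.eval₂_map]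
    exact hpz
  have h1 := key x
  have h2 := key x⁻¹
  rw [map_inv₀, v.map_inv] at h2
  omega

/-- The slack. -/
private noncomputable def hsVal (F : DFrame X Z K' (tL L' t)) (A : Arr K' L' t ι) (Δ : X.Div)
    (P : X.primeDivisors) (v : DVal k L') (m : ℤ) : ℚ :=
  F.a P + Δ P - (v F.u + (d + 1) * m + ∑ i, A.δ i * (v (A.l i) - m))

private theorem hs_basis (A : Arr K' L' t ι) : IsTranscendenceBasis K (tL L' t) ∧
    IsTranscendenceBasis K' (tL L' t) := by
  have htb' : IsTranscendenceBasis K' t := by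
    rw [A.torus.indep.isTranscendenceBasis_iff_isAlgebraic]
    constructor
    intro a
    have ha : a ∈ IntermediateField.adjoin K' (Set.range t) := by
      rw [A.torus.gen]
      trivial
    rw [IntermediateField.mem_adjoin_iff_div] at ha
    obtain ⟨r, hr, s, hs, rfl⟩ := ha
    have h1 : IsAlgebraic (Algebra.adjoin K' (Set.range t)) r :=
      isAlgebraic_algebraMap (⟨r, hr⟩ : Algebra.adjoin K' (Set.range t))
    have h2 : IsAlgebraic (Algebra.adjoin K' (Set.range t)) s :=
      isAlgebraic_algebraMap (⟨s, hs⟩ : Algebra.adjoin K' (Set.range t))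
    rw [div_eq_mul_inv]
    exact h1.mul h2.inv
  have htb : IsTranscendenceBasis K' (tL L' t) := htb'.algebraMap_comp (A := L')
  refine ⟨?_, htb⟩
  have h1 : AlgebraicIndependent K (tL L' t) :=
    htb.1.restrictScalars (R := K) (algebraMap K K').injective
  have h3 : Algebra.trdeg K' L' = d := by
    have h := htb.lift_cardinalMk_eq_trdeg
    rw [Cardinal.mk_fin, Cardinal.lift_natCast] at h
    have h' : Cardinal.lift.{0} (Algebra.trdeg K' L') = d := by
      rw [← h]
    simpa using h'
  have h2 : Algebra.trdeg K L' = d := by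
    have h := lift_trdeg_add_eq K K' L'
    rw [trdeg_eq_zero (R := K) (A := K'), h3] at h
    simp only [Cardinal.lift_zero, zero_add, Cardinal.lift_natCast] at h
    rw [eq_comm, Cardinal.lift_eq_nat_iff] at h
    exact h
  refine h1.isTranscendenceBasis_of_lift_trdeg_le_of_finite ?_
  rw [h2, Cardinal.mk_fin, Cardinal.lift_natCast, Cardinal.lift_natCast]

/-- the log discrepancy -/
private theorem hs_logDisc {n₀ : ℕ} {y : Fin n₀ → K}
    (hy : IsTranscendenceBasis k y) {F : DFrame X Z K' (tL L' t)}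
    (hF : ∀ (P : X.primeDivisors) (v : DVal k L') (ε : ℕ), LiesOver v P.1 ε →
      v.IsOrd (OmD k y (tL L' t)) (ε * (F.a P + 1) - 1 - v F.u))
    {A : Arr K' L' t ι} (P : X.primeDivisors) {v : DVal k L'} {ε : ℕ} (hv : LiesOver v P.1 ε)
    {m : ℤ} (hm : IsMin A v m) :
    A.IsLogDisc K v (1 + ((ε * (F.a P + 1) - 1 - v F.u : ℤ) : ℚ) -
          ((d + 1) * m + ∑ i, A.δ i * (v (A.l i) - m))) := by
  obtain ⟨b, hb⟩ := Pool.Agent.Helper50.Forms.exists_kaehler_basis
    (append_basisD hy (hs_basis (K := K) A).1)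
  exact ⟨n₀, y, _, m, hy, (hasOrd_wedge b _ hb v _ _).2 (hF P v ε hv), hm, rfl⟩

/-- the log discrepancy is unique -/
private theorem hs_logDisc_unique {A : Arr K' L' t ι} {v : DVal k L'}
    (hv : ∀ x : K, v (algebraMap K L' x) = 0) {ℓ ℓ' : ℚ} (h : A.IsLogDisc K v ℓ)
    (h' : A.IsLogDisc K v ℓ') : ℓ = ℓ' := by
  have hK0 : CharZero K := charZero_of_injective_algebraMap (algebraMap k K).injective
  have htK := (hs_basis (K := K) A).1
  obtain ⟨n, y, o, m, hy, ho, hm, rfl⟩ := h
  obtain ⟨n', y', o', m', hy', ho', hm', rfl⟩ := h'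
  have hn : n = n' := by
    have h1 := hy.lift_cardinalMk_eq hy'
    rw [Cardinal.mk_fin, Cardinal.mk_fin, Cardinal.lift_natCast, Cardinal.lift_natCast] at h1
    exact_mod_cast h1
  subst hn
  have hmm := hs_min_unique hm hm'
  subst hmm
  obtain ⟨b, hb⟩ := Pool.Agent.Helper50.Forms.exists_kaehler_basis (append_basisD hy htK)
  rw [hasOrd_wedge b _ hb] at ho ho'
  obtain ⟨b', hb'⟩ := Pool.Agent.Helper50.Forms.exists_kaehler_basis hy'
  obtain ⟨b₁, hb₁⟩ := Pool.Agent.Helper50.Forms.exists_kaehler_basis hy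
  have h1 := Pool.Agent.Helper50.Forms.dform_eq_det y' b' hb' y
  have hg0 : b'.det (fun j => KaehlerDifferential.D k K (y j)) ≠ 0 := by
    intro h0
    rw [h0, zero_smul] at h1
    exact Pool.Agent.Helper50.Forms.dform_ne_zero y b₁ hb₁ h1
  have h2 := omD_change hy hy' htK h1 (tL L' t)
  have hg0' : algebraMap K L' (b'.det (fun j => KaehlerDifferential.D k K (y j))) ≠ 0 := by
    rw [Ne, map_eq_zero]
    exact hg0
  have h3 := (isOrd_smul v hg0').2 ho'
  rw [hv, zero_add] at h3
  have h4 : v.IsOrd (OmD k y (tL L' t)) o' := by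
    rw [h2]
    exact h3
  rw [ho.unique h4]

theorem exists_horS [Algebra.IsPushout K K' L L'] (hd : 0 < d) {n₀ : ℕ} {y : Fin n₀ → K}
    (hy : IsTranscendenceBasis k y) {F : DFrame X Z K' (tL L' t)}
    (hF : ∀ (P : X.primeDivisors) (v : DVal k L') (ε : ℕ), LiesOver v P.1 ε →
      v.IsOrd (OmD k y (tL L' t)) (ε * (F.a P + 1) - 1 - v F.u))
    {A : Arr K' L' t ι} {Δ : X.Div} (hΔ : ∀ P, 0 ≤ Δ P)
    (habove : ∀ (v : DVal k L') (D : DVal K' M), A.Over v D →
      ∃ P : X.primeDivisors, (∀ x : K, P.1 (algebraMap K L x) = 0) ∧ ∃ ε, LiesOver v P.1 ε)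
    (hdisc : ∀ P : X.primeDivisors, (∀ x : K, P.1 (algebraMap K L x) = 0) →
      ∀ (v : DVal k L') (ε : ℕ), LiesOver v P.1 ε → ∀ ℓ, A.IsLogDisc K v ℓ → ε * (1 - Δ P) ≤ ℓ)
    (hsat : ∀ (v v' : DVal k L') (D : DVal K' M),
      A.Over v D → A.Over v' D → A.EqAt K Δ v → A.EqAt K Δ v')
    {j : Fin d → ι} (hj : A.IsCo j) :
    ∃ (G : MvPolynomial (Fin d) K') (n : ℕ) (w : ℚ), Nonempty (HorR F A j G n w Δ) := by
  classical
  have hK0 : CharZero K := charZero_of_injective_algebraMap (algebraMap k K).injective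
  have hi := hs_indep A
  have htb := (hs_basis (K := K) A).2
  -- ramification
  have hε1 : ∀ (P : X.primeDivisors), (∀ x : K, P.1 (algebraMap K L x) = 0) →
      ∀ (v : DVal k L') (ε : ℕ), LiesOver v P.1 ε → ε = 1 := fun P hP v ε hv =>
    unram (K := K) (K' := K') hP hv
  have hdisc' : ∀ (P : X.primeDivisors), (∀ x : K, P.1 (algebraMap K L x) = 0) →
      ∀ (v : DVal k L') (ε : ℕ), LiesOver v P.1 ε → ∀ m, IsMin A v m →
        v F.u + (d + 1) * m + ∑ i, A.δ i * (v (A.l i) - m) ≤ ε * (F.a P + Δ P) := by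
    intro P hP v ε hv m hm
    have h2 := hdisc P hP v ε hv _ (hs_logDisc hy hF P hv hm)
    push_cast at h2
    linarith
  have hover : ∀ v ∈ (horT A : Set (DVal k L')), ∃ D e, D ∈ (projSpace A.torus).primeDivisors ∧
      (0 < e ∧ ∀ x : M, v (algebraMap M L' x) = (e : ℕ) * D x) := by
    rintro v ⟨D, hD, e, he⟩
    exact ⟨D, e, hD, he⟩
  have hOver : ∀ (v : DVal k L') (D : DVal K' M) (e : ℕ),
      D ∈ (projSpace A.torus).primeDivisors → (0 < e ∧ ∀ x : M, v (algebraMap M L' x) = e * D x) →
      A.Over v D := fun v D e hD he => ⟨hD, e, he⟩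
  -- the valuations with slack
  let TB : Set (DVal k L') := {v | v ∈ horT A ∧ ¬ A.EqAt K Δ v}
  have hTBval : ∀ v ∈ TB, ∀ (P : X.primeDivisors) (ε : ℕ) (m : ℤ), LiesOver v P.1 ε →
      IsMin A v m → 0 < hsVal F A Δ P v m := by
    rintro v ⟨hvT, hne⟩ P ε m hε hm
    obtain ⟨D, e, hD, he⟩ := hover v hvT
    obtain ⟨P', hP', ε', hε'⟩ := habove v D (hOver v D e hD he)
    have hPP : P = P' := Subtype.ext (Pool.Agent.Helper47.PQ.liesOver_unique hε hε').1
    subst hPP
    have hv0 : ∀ x : K, v (algebraMap K L' x) = 0 := fun x => by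
      rw [IsScalarTower.algebraMap_apply K L L', hε.2, hP', mul_zero]
    have h0 := hdisc' P hP' v ε hε m hm
    by_contra hcon
    apply hne
    intro P₁ ε₁ hε₁ ℓ hℓ
    obtain ⟨h1, h2⟩ := Pool.Agent.Helper47.PQ.liesOver_unique hε₁ hε
    have hPP : P₁ = P := Subtype.ext h1
    subst hPP
    subst h2
    rw [hs_logDisc_unique hv0 hℓ (hs_logDisc hy hF P₁ hε hm)]
    have he1 := hε1 P₁ hP' v ε₁ hε₁
    subst he1
    unfold hsVal at hcon
    push_cast at h0 ⊢
    linarith
  have hTBeq : ∀ v ∈ (horT A : Set (DVal k L')), v ∉ TB → A.EqAt K Δ v := by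
    intro v hv hvB
    by_contra hcon
    exact hvB ⟨hv, hcon⟩
  have hTBnot : ∀ v ∈ (horT A : Set (DVal k L')), v ∉ TB → ∀ (P : X.primeDivisors) (ε : ℕ) (m : ℤ),
      LiesOver v P.1 ε → IsMin A v m →
      ε * (F.a P + Δ P) = v F.u + (d + 1) * m + ∑ i, A.δ i * (v (A.l i) - m) := by
    intro v hv hvB P ε m hε hm
    have h1 := hTBeq v hv hvB P ε hε _ (hs_logDisc hy hF P hε hm)
    push_cast at h1
    linarith
  have hTB : TB.Finite := by
    let B : Set X.primeDivisors := {P | P ∈ F.a.support} ∪ {P | P ∈ Δ.support} ∪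
      {P | ∃ (v : DVal k L') (ε : ℕ), LiesOver v P.1 ε ∧ v F.u ≠ 0} ∪
      ⋃ i : ι, {P | ∃ (v : DVal k L') (ε : ℕ), LiesOver v P.1 ε ∧ v (A.l i) ≠ 0}
    have hB : B.Finite := by
      refine Set.Finite.union (Set.Finite.union (Set.Finite.union ?_ ?_) ?_) ?_
      · exact Finset.finite_toSet F.a.support
      · exact Finset.finite_toSet Δ.support
      · exact finite_ne X F.u_ne
      · exact Set.finite_iUnion fun i => finite_ne X (l_ne A i)
    refine (hB.biUnion fun P _ => finite_above (E' := L') P.1).subset ?_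
    intro v hvB
    obtain ⟨D, e, hD, he⟩ := hover v hvB.1
    obtain ⟨P, hP, ε, hε⟩ := habove v D (hOver v D e hD he)
    obtain ⟨m, hm⟩ := hs_exists_min A v
    have hpos := hTBval v hvB P ε m hε hm
    simp only [Set.mem_iUnion, exists_prop]
    refine ⟨P, ?_, ε, hε⟩
    by_contra hPB
    have h1 : F.a P = 0 := by
      by_contra h
      exact hPB (Or.inl (Or.inl (Or.inl (Finsupp.mem_support_iff.2 h))))
    have h2 : Δ P = 0 := by
      by_contra h
      exact hPB (Or.inl (Or.inl (Or.inr (Finsupp.mem_support_iff.2 h))))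
    have h3 : v F.u = 0 := by
      by_contra h
      exact hPB (Or.inl (Or.inr ⟨v, ε, hε, h⟩))
    have h4 : ∀ i, v (A.l i) = 0 := by
      intro i
      by_contra h
      exact hPB (Or.inr (Set.mem_iUnion.2 ⟨i, v, ε, hε, h⟩))
    have h5 : m = 0 := by
      obtain ⟨i, hi⟩ := hm.2
      rw [← hi, h4]
    unfold hsVal at hpos
    simp only [h1, h2, h3, h4, h5] at hpos
    simp at hpos
  -- the bound
  have hW : ∀ v : DVal k L', ∃ W : ℚ, 0 ≤ W ∧ ∀ (P : X.primeDivisors) (ε : ℕ) (m : ℤ),
      LiesOver v P.1 ε → IsMin A v m → hsVal F A Δ P v m ≤ W := by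
    intro v
    obtain ⟨m, hm⟩ := hs_exists_min A v
    by_cases hP : ∃ (P : X.primeDivisors) (ε : ℕ), LiesOver v P.1 ε
    · obtain ⟨P, ε, hPε⟩ := hP
      refine ⟨max 0 (hsVal F A Δ P v m), le_max_left _ _, fun P' ε' m' hP' hm' => ?_⟩
      obtain ⟨h1, -⟩ := Pool.Agent.Helper47.PQ.liesOver_unique hP' hPε
      have h3 : P' = P := Subtype.ext h1
      rw [h3, hs_min_unique hm' hm]
      exact le_max_right _ _
    · exact ⟨0, le_rfl, fun P' ε' m' hP' _ => absurd ⟨P', ε', hP'⟩ hP⟩
  choose W hW0 hW using hW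
  let w : ℚ := ∑ v ∈ hTB.toFinset, W v
  have hw0 : 0 ≤ w := Finset.sum_nonneg fun v _ => hW0 v
  have hw : ∀ v ∈ TB, W v ≤ w := fun v hv =>
    Finset.single_le_sum (f := W) (fun v _ => hW0 v) (hTB.mem_toFinset.2 hv)
  -- the polynomial
  have hp : ∀ v : DVal k L', ∃ (p : MvPolynomial (Fin d) K') (D : DVal K' M) (e : ℕ), p ≠ 0 ∧
      (v ∈ horT A → (D ∈ (projSpace A.torus).primeDivisors ∧
        (0 < e ∧ ∀ x : M, v (algebraMap M L' x) = e * D x)) ∧
        ((IsMin A v 0 ∧ Irreducible p ∧ HsMult D t p 1) ∨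
          (IsMin A v (-(e : ℤ)) ∧ p = 1 ∧ HsInf K' D t))) := by
    intro v
    by_cases hv : v ∈ horT A
    · obtain ⟨D, e, hD, he⟩ := hover v hv
      rcases horT_cases A hd hD he.2 with ⟨h1, -, h2, -⟩ | ⟨h1, h2, -⟩
      · obtain ⟨p, hp, h3, h4⟩ := proj_fin A.torus hD h2
        exact ⟨p, D, e, hp.ne_zero, fun _ => ⟨⟨hD, he⟩, Or.inl ⟨h1, hp, h3, h4⟩⟩⟩
      · exact ⟨1, D, e, one_ne_zero, fun _ => ⟨⟨hD, he⟩, Or.inr ⟨h1, rfl,
          fun g hg => proj_inf A.torus hD h2 g hg⟩⟩⟩
    · obtain ⟨D, -, -, -⟩ := exists_inf A.torus hd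
      exact ⟨1, D, 1, one_ne_zero, fun h => absurd h hv⟩
  choose p Dv ev hp0 hp using hp
  have hval : ∀ v ∈ (horT A : Set (DVal k L')), ∀ g : MvPolynomial (Fin d) K',
      v (MvPolynomial.aeval (tL L' t) g) = ev v * Dv v (MvPolynomial.aeval t g) := by
    intro v hv g
    rw [hs_aeval, (hp v hv).1.2.2]
  have hev0 : ∀ v ∈ (horT A : Set (DVal k L')), 0 < ev v := fun v hv => (hp v hv).1.2.1
  let G₀ : MvPolynomial (Fin d) K' := ∏ v ∈ hTB.toFinset, p v
  have hG₀ : G₀ ≠ 0 := Finset.prod_ne_zero_iff.2 fun v _ => hp0 v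
  obtain ⟨G, hG, hGdeg⟩ := poly_co hj G₀
  have hGne : G ≠ 0 := by
    rintro rfl
    apply hs_aeval_ne hi hG₀
    rw [← hG]
    unfold Arr.ev
    rw [map_zero]
  have hGdeg' : G.totalDegree = G₀.totalDegree := by
    refine le_antisymm hGdeg ?_
    obtain ⟨g, hg, hgd⟩ := poly_co' hj G
    have h1 : g = G₀ := hi (by rw [hg, hG])
    rw [← h1]
    exact hgd
  let n : ℕ := if ∃ v ∈ TB, HsInf K' (Dv v) t then G.totalDegree + 1 else G.totalDegree
  have hn : G.totalDegree ≤ n := by
    show G.totalDegree ≤ if ∃ v ∈ TB, HsInf K' (Dv v) t then G.totalDegree + 1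
      else G.totalDegree
    split_ifs <;> omega
  have hone : ∀ v ∈ TB, ∀ m, IsMin A v m → 1 ≤ v (A.ev j G) - n * m := by
    intro v hv m hm
    have he0 : (1 : ℤ) ≤ ev v := by exact_mod_cast hev0 v hv.1
    rcases (hp v hv.1).2 with ⟨h0, h1, h2⟩ | ⟨h0, -, h2⟩
    · have hm0 : m = 0 := hs_min_unique hm h0
      rw [hm0, mul_zero, sub_zero, hG, hval v hv.1]
      have h3 : p v ∣ G₀ := Finset.dvd_prod_of_mem p (hTB.mem_toFinset.2 hv)
      obtain ⟨c, hc⟩ := h3
      have hc0 : c ≠ 0 := by
        rintro rfl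
        exact hG₀ (by rw [hc, mul_zero])
      have h4 : 1 ≤ Dv v (MvPolynomial.aeval t G₀) := by
        rw [hc, map_mul, (Dv v).map_mul (hs_aeval_ne A.torus.indep h1.ne_zero)
          (hs_aeval_ne A.torus.indep hc0), h2.1, hs_mult_val A.torus.indep h1 h2 hc0]
        have := Int.natCast_nonneg (multiplicity (p v) c)
        omega
      nlinarith
    · have hm0 : m = -(ev v : ℤ) := hs_min_unique hm h0
      have hn1 : n = G.totalDegree + 1 := if_pos ⟨v, hv, h2⟩
      rw [hm0, hG, hval v hv.1, h2 G₀ hG₀, hn1, hGdeg']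
      push_cast
      linarith
  -- the values of the valuations in `T` with `n m < v (G)`
  have hslackT : ∀ v ∈ (horT A : Set (DVal k L')), ∀ m, IsMin A v m →
      n * m < v (A.ev j G) → v ∈ TB := by
    intro v hv m hm hlt
    have he0 : (1 : ℤ) ≤ ev v := by exact_mod_cast hev0 v hv
    have key : ∀ v' ∈ TB, Dv v = Dv v' → v ∈ TB := by
      intro v' hv' hDD
      refine ⟨hv, fun hcon => hv'.2 ?_⟩
      have h1 := hOver v (Dv v) (ev v) (hp v hv).1.1 (hp v hv).1.2
      have h2 := hOver v' (Dv v') (ev v') (hp v' hv'.1).1.1 (hp v' hv'.1).1.2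
      rw [← hDD] at h2
      exact hsat v v' (Dv v) h1 h2 hcon
    rcases (hp v hv).2 with ⟨h0, hq, h⟩ | ⟨h0, -, h⟩
    · have hm0 : m = 0 := hs_min_unique hm h0
      rw [hm0, mul_zero, hG, hval v hv] at hlt
      have h1 : p v ∣ G₀ := by
        by_contra h2
        rw [h.2 G₀ h2, mul_zero] at hlt
        exact lt_irrefl _ hlt
      obtain ⟨v', hv', hdvd⟩ := (hq.prime.dvd_finsetProd_iff p).1 h1
      have hv'B := hTB.mem_toFinset.1 hv'
      rcases (hp v' hv'B.1).2 with ⟨-, h3, h4⟩ | ⟨-, h3, -⟩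
      · have h5 := hs_mult_assoc A.torus.indep hq h3 hdvd h
        exact key v' hv'B (hs_mult_unique A.torus h3 h5 h4)
      · rw [h3] at hdvd
        exact absurd (isUnit_of_dvd_one hdvd) hq.not_isUnit
    · have hm0 : m = -(ev v : ℤ) := hs_min_unique hm h0
      rw [hm0, hG, hval v hv, h G₀ hG₀, ← hGdeg'] at hlt
      have h1 : G.totalDegree < n := by
        have h2 : (G.totalDegree : ℤ) < n := by
          by_contra h3
          push Not at h3
          have h4 : (ev v : ℤ) * n ≤ ev v * G.totalDegree :=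
            mul_le_mul_of_nonneg_left h3 (by omega)
          linarith
        exact_mod_cast h2
      by_cases hinf : ∃ v ∈ TB, HsInf K' (Dv v) t
      · obtain ⟨v', hv', h'⟩ := hinf
        exact key v' hv' (hs_inf_unique A.torus h h')
      · have hn1 : n = G.totalDegree := if_neg hinf
        omega
  refine ⟨G, n, w, ⟨{
    T := horT A
    w_nonneg := hw0
    G_ne := hGne
    deg := hn
    disc := hdisc'
    slack := ?_
    up := ?_
    sec := fun f c hf => horT_sec A hd F.D F.D_t hf
    kill := fun v hv => horT_kill A hd hv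
    poly := fun v hv g n' hg m hm => horT_poly A hd hv hg hm }⟩⟩
  · -- slack
    intro P hP v ε hε m hm hlt
    have he := hε1 P hP v ε hε
    subst he
    rw [Nat.cast_one, one_mul]
    have h0 := hdisc' P hP v 1 hε m hm
    rw [Nat.cast_one, one_mul] at h0
    have hsum : ∀ i, 0 ≤ A.δ i * ((v (A.l i) : ℚ) - m) := fun i =>
      mul_nonneg (A.δ_pos i).le (by
        have h1 := hm.1 i
        have h2 : (m : ℚ) ≤ v (A.l i) := by exact_mod_cast h1
        linarith)
    by_cases hvT : v ∈ horT A
    · have h1 := hTBval v (hslackT v hvT m hm hlt) P 1 m hε hm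
      unfold hsVal at h1
      have h2 : 0 ≤ ∑ i, A.δ i * ((v (A.l i) : ℚ) - m) := Finset.sum_nonneg fun i _ => hsum i
      linarith
    · by_cases hall : ∀ i, v (A.l i) = m
      · have hm0 : m = 0 := by
          rw [← hall A.o, l_o_one, v.map_one]
        have hvK : ∀ x : K', v (algebraMap K' L' x) = 0 := hs_triv hP hε
        have hvt : ∀ l, 0 ≤ v (tL L' t l) := by
          have hx : ∀ x : Fin (d + 1) → K', affine (tL L' t) x = algebraMap K' L' (x 0) +
              ∑ j : Fin d, algebraMap K' L' (x j.succ) * tL L' t j := fun x => rfl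
          have key : ∀ x ∈ Submodule.span K' (Set.range A.co), v.Ge 0 (affine (tL L' t) x) := by
            intro x hx
            induction hx using Submodule.span_induction with
            | mem x hx =>
              obtain ⟨i, rfl⟩ := hx
              rw [← affine_map]
              right
              rw [hall i, hm0, Int.cast_zero]
            | zero =>
              left
              unfold affine
              simp
            | add x z _ _ hx hz =>
              have h1 : affine (tL L' t) (x + z) = affine (tL L' t) x + affine (tL L' t) z := by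
                unfold affine
                simp only [Pi.add_apply, map_add, add_mul, Finset.sum_add_distrib]
                ring
              rw [h1]
              exact hx.add hz
            | smul c x _ hx =>
              have h1 : affine (tL L' t) (c • x) = algebraMap K' L' c * affine (tL L' t) x := by
                unfold affine
                rw [mul_add, Finset.mul_sum]
                simp only [Pi.smul_apply, smul_eq_mul, map_mul]
                congr 1
                exact Finset.sum_congr rfl fun i _ => mul_assoc _ _ _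
              rw [h1]
              have h2 : v.Ge 0 (algebraMap K' L' c) := Or.inr (by rw [hvK, Int.cast_zero])
              have h3 := h2.mul hx
              rwa [zero_add] at h3
          intro l
          have h1 := key (Pi.single l.succ 1) (by rw [A.full]; trivial)
          have h2 : affine (tL L' t) (Pi.single l.succ 1 : Fin (d + 1) → K') = tL L' t l := by
            unfold affine
            rw [Pi.single_eq_of_ne (Fin.succ_ne_zero l).symm, map_zero, zero_add,
              Finset.sum_eq_single l]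
            · rw [Pi.single_eq_same, map_one, one_mul]
            · intro i _ hil
              rw [Pi.single_eq_of_ne (fun h => hil (Fin.succ_injective _ h)), map_zero, zero_mul]
            · intro h
              exact absurd (Finset.mem_univ l) h
          rw [h2, DVal.ge_iff (hi.ne_zero l)] at h1
          exact_mod_cast h1
        have hy' : IsTranscendenceBasis k (fun i => algebraMap K K' (y i)) :=
          hy.algebraMap_comp (A := K')
        have hord := hF P v 1 hε
        rw [← omD_base (K' := K')] at hord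
        have h1 := hso_order_pos hy' htb hvK hvt (fun ⟨g₀, hg₀, h1, h2⟩ =>
          hvT (hs_mem_fin h1 hg₀ ⟨rfl, h2⟩)) hord
        rw [Nat.cast_one, one_mul] at h1
        have h2 : v F.u < F.a P := by omega
        have h3 : (v F.u : ℚ) < F.a P := by exact_mod_cast h2
        have h4 := hΔ P
        rw [hm0, Int.cast_zero, mul_zero, add_zero]
        linarith
      · push Not at hall
        obtain ⟨i, hi'⟩ := hall
        have h1 : 0 < A.δ i * ((v (A.l i) : ℚ) - m) := by
          refine mul_pos (A.δ_pos i) ?_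
          have h2 := lt_of_le_of_ne (hm.1 i) (Ne.symm hi')
          have h3 : (m : ℚ) < v (A.l i) := by exact_mod_cast h2
          linarith
        have h2 : 0 < ∑ i, A.δ i * ((v (A.l i) : ℚ) - m) :=
          Finset.sum_pos' (fun i _ => hsum i) ⟨i, Finset.mem_univ i, h1⟩
        linarith
  · -- up
    intro v hv
    obtain ⟨P, hP, ε, hε⟩ := habove v (Dv v) (hOver v _ _ (hp v hv).1.1 (hp v hv).1.2)
    refine ⟨P, hP, ε, hε, fun m hm => ?_⟩
    have hev : n * m ≤ v (A.ev j G) := ev_ge hj hGne hn (hs_triv hP hε) hm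
    have hev' : (0 : ℚ) ≤ v (A.ev j G) - n * m := by
      have h1 : ((n * m : ℤ) : ℚ) ≤ v (A.ev j G) := by exact_mod_cast hev
      push_cast at h1
      linarith
    by_cases hvB : v ∈ TB
    · have he1 := hε1 P hP v ε hε
      subst he1
      rw [Nat.cast_one, one_mul]
      have h1 := (hW v P 1 m hε hm).trans (hw v hvB)
      have h2 := hone v hvB m hm
      have h3 : (1 : ℚ) ≤ v (A.ev j G) - n * m := by exact_mod_cast h2
      have h4 : w ≤ w * (v (A.ev j G) - n * m) := le_mul_of_one_le_right hw0 h3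
      unfold hsVal at h1
      linarith
    · have h1 : 0 ≤ w * ((v (A.ev j G) : ℚ) - n * m) := mul_nonneg hw0 hev'
      have h2 := hTBnot v hv hvB P ε m hε hm
      linarith

end Pool.Agent.Helper92.HA
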