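import Pool.Agent.Helper92.HA.MainA
import Pool.Agent.Helper92.HR.CoverR
import Pool.Agent.Helper92.HR.FrameR
import Pool.Agent.Helper92.HR.MkHorS

set_option autoImplicit false

/-!
# HR MainR: the comparison theorem for fibrations whose general fibre is compared with a log
canonical hyperplane arrangement
-/

universe u

namespace Pool.Agent.Helper92.HA

open Module Pool.Agent.Helper92.Weak Pool.Agent.Helper63.PB

variable {k K L M L' : Type*} {K' : Type u} [Field k] [Field K] [Field L] [Field K'] [Field M]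
  [Field L'] [Algebra k K] [Algebra k L] [Algebra k K'] [Algebra k M] [Algebra k L'] [Algebra K L]
  [Algebra K K'] [Algebra K L'] [Algebra L L'] [Algebra K' M] [Algebra K' L'] [Algebra M L']
  [IsScalarTower k K L] [IsScalarTower k K K'] [IsScalarTower k K L'] [IsScalarTower k L L']
  [IsScalarTower k K' M] [IsScalarTower k K' L'] [IsScalarTower k M L'] [IsScalarTower K L L']
  [IsScalarTower K K' L'] [IsScalarTower K' M L'] {d : ℕ}
  {X : ProjVar k L} {Z : ProjVar k K} {t : Fin d → M} {ι : Type*} [Fintype ι] [DecidableEq ι]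

/-- The comparison theorem. -/
theorem mainR [IsAlgClosed k] [CharZero k] {n : ℕ} (hn : Algebra.trdeg k K = n) (hd : 0 < d)
    (A : Arr K' L' t ι) (p : X.Pair (n + d)) (q : Z.Pair n) (h : IsArrangement X p.Δ Z A)
    (hq : IsOrbifoldBase p q) (hκ : Z.kod q.logDiv ≠ ⊥) :
    (A.h < 0 → X.kod p.logDiv = ⊥ ∧ X.nu p.logDiv = ⊥) ∧
    (0 ≤ A.h → ∃ (s : ℕ) (B : Z.Div), s = (if A.h = 0 then 0 else d) ∧ (∀ Q, 0 ≤ B Q) ∧
      (∀ ε : ℚ, 0 < ε → X.kod p.logDiv = s + Z.kod (q.logDiv + ε • B) ∧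
        X.nu p.logDiv = s + Z.nu (q.logDiv + ε • B)) ∧
      (Z.IsSmooth n → Z.IsQFactorial → Z.IsKlt q.ω q.can q.Δ →
        ∃ ε₀ : ℚ, 0 < ε₀ ∧ ∀ ε, 0 < ε → ε ≤ ε₀ → Z.IsKlt q.ω q.can (q.Δ + ε • B))) := by
  classical
  rcases h.eq with hc | ⟨hh, hpush, hsat⟩
  · exact mainA hn hd A p q
      { mor := h.mor, equi := h.equi, conn := h.conn, finK := h.finK, finL := h.finL,
        cover := h.isLogCover hc } hq hκ
  · refine ⟨fun h0 => absurd h0 (not_lt.2 hh.le), fun _ => ?_⟩
    have j1 := h.finK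
    have j2 := h.finL
    have j3 := finite_of_arr A
    obtain ⟨y, F, g, h', hy, hg, hhz, hp, hq', hord⟩ :=
      exists_dframe hn h.mor h.equi (tL_basis A) p q
    obtain ⟨j, hj⟩ := exists_co A
    obtain ⟨G, m, w, ⟨H⟩⟩ := exists_horS hd hy hord p.nonneg h.above h.disc hsat hj
    have e1 : p.logDiv = (F.aD + p.Δ) + X.prin g := by
      unfold ProjVar.Pair.logDiv
      ext P
      rw [Finsupp.add_apply, Finsupp.add_apply, Finsupp.add_apply, hp, DFrame.aD_apply,
        ProjVar.prin_apply]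
      ring
    have e2 : q.logDiv = (F.cD + q.Δ) + Z.prin h' := by
      unfold ProjVar.Pair.logDiv
      ext Q
      rw [Finsupp.add_apply, Finsupp.add_apply, Finsupp.add_apply, hq', DFrame.cD_apply,
        ProjVar.prin_apply]
      ring
    have hκ' : Z.kod (F.cD + q.Δ) ≠ ⊥ := by
      rwa [e2, Z.kod_add_prin _ hhz] at hκ
    obtain ⟨N₃, hN₃, η, hη, hT⟩ := exists_pluri hκ'
    obtain ⟨B, hB⟩ := frameR_main hj H hh h.conn hq hN₃ hη hT
    refine ⟨d, redDiv B, by rw [if_neg hh.ne'], fun Q => ?_, fun ε hε => ?_,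
      fun hsm hqf hklt => Pool.Agent.Helper92.Ga.klt_add_smul hn Z hsm hqf q hklt (redDiv B)⟩
    · rw [redDiv_apply]
      split_ifs
      · exact zero_le_one
      · exact le_rfl
    · have e3 : q.logDiv + ε • redDiv B = (F.cD + q.Δ + ε • redDiv B) + Z.prin h' := by
        rw [e2]
        abel
      rw [e3, e1, Z.kod_add_prin _ hhz, Z.nu_add_prin _ hhz, X.kod_add_prin _ hg,
        X.nu_add_prin _ hg]
      exact hB ε hε

end Pool.Agent.Helper92.HA
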