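import Pool.Agent.Helper92.HR.MainR
import Pool.Agent.Helper63.PB.StableOps

set_option autoImplicit false

/-!
# HR StableR: weak abundance for arrangement fibrations over stable bases
-/

universe u

namespace Pool.Agent.Helper92.HA

open Module Pool.Agent.Helper92.Weak Pool.Agent.Helper63.PB

variable {k K L M L' : Type*} {K' : Type u} [Field k] [Field K] [Field L] [Field K'] [Field M]
  [Field L'] [Algebra k K] [Algebra k L] [Algebra k K'] [Algebra k M] [Algebra k L'] [Algebra K L]
  [Algebra K K'] [Algebra K L'] [Algebra L L'] [Algebra K' M] [Algebra K' L'] [Algebra M L']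
  [IsScalarTower k K L] [IsScalarTower k K K'] [IsScalarTower k K L'] [IsScalarTower k L L']
  [IsScalarTower k K' M] [IsScalarTower k K' L'] [IsScalarTower k M L'] [IsScalarTower K L L']
  [IsScalarTower K K' L'] [IsScalarTower K' M L'] {d : ℕ}
  {X : ProjVar k L} {Z : ProjVar k K} {t : Fin d → M} {ι : Type*} [Fintype ι] [DecidableEq ι]

/-- If `N = 1` then the valuation of `L'` over a prime divisor of `ℙᵈ` is unique. -/
theorem over_unique {A : Arr K' L' t ι} (hN : A.N = 1) {v v' : DVal k L'} {D : DVal K' M}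
    (h : A.Over v D) (h' : A.Over v' D) : v = v' := by
  have hsurj : Function.Surjective (algebraMap M L') := by
    have h1 : Algebra.adjoin M (Set.range A.r) ≤ ⊥ := by
      rw [Algebra.adjoin_le_iff]
      rintro _ ⟨i, rfl⟩
      have h2 := A.r_pow i
      rw [hN, pow_one] at h2
      rw [h2]
      exact Subalgebra.algebraMap_mem _ _
    intro z
    have h3 : z ∈ (⊥ : Subalgebra M L') := h1 (by rw [A.gen]; trivial)
    rwa [Algebra.mem_bot] at h3
  have key : ∀ (w : DVal k L') (e : ℕ), (∀ x : M, w (algebraMap M L' x) = e * D x) → e = 1 := by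
    intro w e hw
    obtain ⟨a, ha⟩ := w.surj'
    obtain ⟨x, rfl⟩ := hsurj a
    have h1 := hw x
    have h2 : (e : ℤ) * D x = 1 := by
      rw [← h1]
      exact ha
    have h3 : (e : ℤ) = 1 ∨ (e : ℤ) = -1 := Int.isUnit_iff.1 (IsUnit.of_mul_eq_one _ h2)
    omega
  obtain ⟨-, e, -, he⟩ := h
  obtain ⟨-, e', -, he'⟩ := h'
  apply DVal.ext
  intro a
  obtain ⟨x, rfl⟩ := hsurj a
  rw [he, he', key v e he, key v' e' he']

/-- Weak abundance for arrangement fibrations over a stable base. -/
theorem kod_eq_nu_arrangement [IsAlgClosed k] [CharZero k] {n : ℕ} (hn : Algebra.trdeg k K = n)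
    (hd : 0 < d) (A : Arr K' L' t ι) (p : X.Pair (n + d)) (q : Z.Pair n)
    (h : IsArrangement X p.Δ Z A) (hq : IsOrbifoldBase p q) (hZ : IsStable Z q.logDiv) :
    X.kod p.logDiv = X.nu p.logDiv := by
  obtain ⟨h1, h2⟩ := mainR hn hd A p q h hq hZ.1
  rcases lt_or_ge A.h 0 with hA | hA
  · rw [(h1 hA).1, (h1 hA).2]
  · obtain ⟨s, B, -, hB, h3, -⟩ := h2 hA
    obtain ⟨h4, h5⟩ := h3 1 one_pos
    rw [h4, h5, one_smul, hZ.2 B hB]

/-- If the boundary is allowed to be larger, the pair is stable. -/
theorem isStable_arrangement [IsAlgClosed k] [CharZero k] {n : ℕ} (hn : Algebra.trdeg k K = n)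
    (hd : 0 < d) (A : Arr K' L' t ι) (p : X.Pair (n + d)) (q : Z.Pair n)
    (h : IsArrangement X p.Δ Z A) (hA : 0 < A.h ∧ A.N = 1 ∧ Algebra.IsPushout K K' L L')
    (hq : IsOrbifoldBase p q) (hZ : IsStable Z q.logDiv) : IsStable X p.logDiv := by
  constructor
  · obtain ⟨s, B, -, hB, h3, -⟩ := (mainR hn hd A p q h hq hZ.1).2 hA.1.le
    obtain ⟨h4, -⟩ := h3 1 one_pos
    rw [h4, one_smul]
    have h5 : Z.kod (q.logDiv + B) ≠ ⊥ := by
      intro h6
      apply hZ.1
      have h7 : Z.kod q.logDiv ≤ Z.kod (q.logDiv + B) := kod_mono fun Q => by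
        rw [Finsupp.add_apply]
        linarith [hB Q]
      rw [h6] at h7
      exact le_bot_iff.1 h7
    intro h6
    rw [EReal.add_eq_bot_iff] at h6
    rcases h6 with h6 | h6
    · exact absurd h6 (EReal.natCast_ne_bot _)
    · exact h5 h6
  · intro B hB
    have h1 : IsArrangement X (addPair p B hB).Δ Z A :=
      { mor := h.mor, equi := h.equi, conn := h.conn, finK := h.finK, finL := h.finL
        above := h.above
        disc := fun P hP v ε hv ℓ hℓ => by
          refine le_trans ?_ (h.disc P hP v ε hv ℓ hℓ)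
          have h2 : (0 : ℚ) ≤ ε := Nat.cast_nonneg ε
          have h3 := hB P
          rw [addPair_Δ, Finsupp.add_apply]
          nlinarith
        eq := Or.inr ⟨hA.1, hA.2.2, fun v v' D hv hv' he => over_unique hA.2.1 hv hv' ▸ he⟩ }
    have h2 : IsOrbifoldBase (addPair p B hB) q := by
      intro P Q e hPQ
      have h3 := hq P Q e hPQ
      rw [addPair_Δ, Finsupp.add_apply]
      linarith [hB P]
    have h3 := kod_eq_nu_arrangement hn hd A (addPair p B hB) q h1 h2 hZ
    rwa [addPair_logDiv] at h3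

end Pool.Agent.Helper92.HA
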