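import Pool.Agent.Helper92.HA.Stat

set_option autoImplicit false

/-!
# HR Above: the inequality of the log pull-backs (used in the case `N = 1`)
-/

namespace Pool.Agent.Helper92.HA

open Module Pool.Agent.Helper92.Weak

variable {k K L K' M L' : Type*} [Field k] [Field K] [Field L] [Field K'] [Field M] [Field L']
  [Algebra k K] [Algebra k L] [Algebra k L'] [Algebra K L] [Algebra K L']
  [Algebra L L'] [Algebra K' L'] [Algebra K' M] [Algebra M L'] {d : ℕ}
  {t : Fin d → M} {ι : Type*} [Fintype ι] [DecidableEq ι]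

/-- On the generic fibre the log pull-back of `(X, Δ)` to `L'` is at least the log pull-back of
`(ℙᵈ, ∑ δ_i H_i)`. -/
structure IsLogAbove (X : ProjVar k L) (Δ : X.Div) (A : Arr K' L' t ι) : Prop where
  above : ∀ D ∈ (projSpace A.torus).primeDivisors, ∀ (v : DVal k L') (e : ℕ), 0 < e →
    (∀ x : M, v (algebraMap M L' x) = e * D x) →
    ∃ P : X.primeDivisors, (∀ x : K, P.1 (algebraMap K L x) = 0) ∧ ∃ ε, LiesOver v P.1 ε
  disc : ∀ P : X.primeDivisors, (∀ x : K, P.1 (algebraMap K L x) = 0) →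
    ∀ (v : DVal k L') (ε : ℕ), LiesOver v P.1 ε → ∀ ℓ, A.IsLogDisc K v ℓ → ε * (1 - Δ P) ≤ ℓ

end Pool.Agent.Helper92.HA
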