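import Pool.Agent.Helper92.HR.MainR
import Pool.Agent.Helper63.PB.LogCover
import Pool.Agent.Helper63.PB.Canonical

set_option autoImplicit false

/-!
# HR CoverMain: finite covers
-/

universe u

namespace Pool.Agent.Helper92.HA

open Module Pool.Agent.Helper92.Weak Pool.Agent.Helper63.PB Pool.Agent.Helper47.PQ

variable {k K L M L' E : Type*} {K' : Type u} [Field k] [Field K] [Field L] [Field K'] [Field M]
  [Field L'] [Field E] [Algebra k K] [Algebra k L] [Algebra k K'] [Algebra k M] [Algebra k L']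
  [Algebra k E] [Algebra K L] [Algebra K E] [Algebra L E]
  [Algebra K K'] [Algebra K L'] [Algebra L L'] [Algebra K' M] [Algebra K' L'] [Algebra M L']
  [IsScalarTower k K L] [IsScalarTower k K K'] [IsScalarTower k K L'] [IsScalarTower k L L']
  [IsScalarTower k L E] [IsScalarTower K L E]
  [IsScalarTower k K' M] [IsScalarTower k K' L'] [IsScalarTower k M L'] [IsScalarTower K L L']
  [IsScalarTower K K' L'] [IsScalarTower K' M L'] {d : ℕ}
  {X : ProjVar k E} {Y : ProjVar k L} {Z : ProjVar k K} {t : Fin d → M} {ι : Type*} [Fintype ι]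
  [DecidableEq ι]

omit [Algebra k E] [Algebra K E] [Algebra L E] [IsScalarTower k L E] [IsScalarTower K L E]
  [Field E] in
/-- The dimension of the total space. -/
theorem trdeg_of_arr {n : ℕ} (hn : Algebra.trdeg k K = n) (A : Arr K' L' t ι)
    [FiniteDimensional K K'] [FiniteDimensional L L'] : Algebra.trdeg k L = (n + d : ℕ) := by
  have h1 : Algebra.trdeg K' L' = d := by
    have h := (tL_basis A).lift_cardinalMk_eq_trdeg
    simp only [Cardinal.mk_fintype, Fintype.card_fin, Cardinal.lift_natCast] at h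
    rw [eq_comm, Cardinal.lift_eq_nat_iff] at h
    exact h
  have h2 : Algebra.trdeg K L' = d := by
    have h := lift_trdeg_add_eq K K' L'
    rw [trdeg_eq_zero (R := K) (A := K'), h1] at h
    simp only [Cardinal.lift_zero, zero_add, Cardinal.lift_natCast] at h
    rw [eq_comm, Cardinal.lift_eq_nat_iff] at h
    exact h
  have h3 : Algebra.trdeg K L = d := by
    have h := lift_trdeg_add_eq K L L'
    rw [trdeg_eq_zero (R := L) (A := L'), h2] at h
    simp only [Cardinal.lift_zero, add_zero, Cardinal.lift_natCast] at h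
    rw [Cardinal.lift_eq_nat_iff] at h
    exact h
  have h4 := lift_trdeg_add_eq k K L
  rw [hn, h3] at h4
  simp only [Cardinal.lift_natCast] at h4
  have h5 : Cardinal.lift (Algebra.trdeg k L) = ((n + d : ℕ) : Cardinal) := by
    rw [← h4]
    push_cast
    rfl
  rw [Cardinal.lift_eq_nat_iff] at h5
  exact h5

omit [IsScalarTower k K L] in
/-- If `X → Y` is a finite cover, `K_X + Δ` is the pull back of `K_Y + Δ'`, and `q` is a part of the
orbifold divisor of `(X, Δ) → Z`, then it is a part of the orbifold divisor of `(Y, Δ') → Z`. -/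
theorem orbifold_of_cover [CharZero k] (hc : IsFiniteCover X Y) {m n : ℕ} {p : X.Pair m}
    {p' : Y.Pair m} (hp : IsLogPull p.Δ p'.Δ) {q : Z.Pair n} (hq : IsOrbifoldBase p q) :
    IsOrbifoldBase p' q := by
  intro P' Q e' hPQ
  obtain ⟨P, e, hPe⟩ := exists_above hc P'
  have he : (1 : ℚ) ≤ e := by exact_mod_cast hPe.1
  have h2 := hp P P' e hPe
  have h3 := hq P Q (e * e') (under_trans hPe hPQ)
  push_cast at h3
  by_contra hcon
  push Not at hcon
  have h4 : (e : ℚ) * (p'.Δ P' + (e' - 1)) < e * (e' * q.Δ Q) :=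
    mul_lt_mul_of_pos_left hcon (by linarith)
  linarith

/-- The comparison theorem for finite covers of arrangement fibrations. -/
theorem mainC [IsAlgClosed k] [CharZero k] {n : ℕ} (hn : Algebra.trdeg k K = n) (hd : 0 < d)
    (A : Arr K' L' t ι) (hc : IsFiniteCover X Y) (p : X.Pair (n + d)) (Δ' : Y.Div)
    (hp : IsLogPull p.Δ Δ') (q : Z.Pair n) (h : IsArrangement Y Δ' Z A)
    (hq : IsOrbifoldBase p q) (hκ : Z.kod q.logDiv ≠ ⊥) :
    (A.h < 0 → X.kod p.logDiv = ⊥ ∧ X.nu p.logDiv = ⊥) ∧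
    (0 ≤ A.h → ∃ (s : ℕ) (B : Z.Div), s = (if A.h = 0 then 0 else d) ∧ (∀ Q, 0 ≤ B Q) ∧
      (∀ ε : ℚ, 0 < ε → X.kod p.logDiv = s + Z.kod (q.logDiv + ε • B) ∧
        X.nu p.logDiv = s + Z.nu (q.logDiv + ε • B)) ∧
      (Z.IsSmooth n → Z.IsQFactorial → Z.IsKlt q.ω q.can q.Δ →
        ∃ ε₀ : ℚ, 0 < ε₀ ∧ ∀ ε, 0 < ε → ε ≤ ε₀ → Z.IsKlt q.ω q.can (q.Δ + ε • B))) := by
  have j1 := h.finK
  have j2 := h.finL
  have htr := trdeg_of_arr hn A (L := L)
  obtain ⟨p', rfl⟩ := exists_pair htr (logPull_nonneg hc hp p.nonneg)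
  obtain ⟨hk, hnu⟩ := logPull_eq hc htr hp
  rw [hk, hnu]
  exact mainR hn hd A p' q h (orbifold_of_cover hc hp hq) hκ

end Pool.Agent.Helper92.HA
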