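import Pool.Agent.Helper92.HA.Stat
import Pool.Agent.Helper92.Tor.Defs
import Pool.Agent.Helper47.PQ.Defs
import Pool.Agent.Helper63.PB.CurveDefs
import Pool.Agent.Helper63.PB.CoverDefs
import Pool.Agent.Helper63.PB.Big

set_option autoImplicit false

/-!
# HR FibDefs: the towers of fibrations of the comparison formula
-/

namespace Pool.Agent.Helper92.HA

open Pool.Agent.Helper92.Weak Pool.Agent.Helper92.Ga Pool.Agent.Helper47.PQ
open Pool.Agent.Helper63.PB
open scoped Pointwise

universe u

/-- `FibTower Z₀ n q₀ S L X m p`: the pair `p = (K_X, Δ)` on the `m`-dimensional variety `X` is obtained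
from the pair `q₀ = (K_(Z₀), E₀)` on the `n`-dimensional variety `Z₀` by the operations `enlarge`, `curve`,
`arrangement`, `torus`, `quotient`, `contraction`. In the three types of fibrations `X → Z` the pair
`q = (K_Z, E)` is such that `E` is a part of the orbifold divisor of `(X, Δ) → Z`. `S` are the values
allowed for the contribution of the fibres to the Kodaira dimension. -/
inductive FibTower {k K₀ : Type u} [Field k] [Field K₀] [Algebra k K₀] (Z₀ : ProjVar k K₀)
    (n : ℕ) (q₀ : Z₀.Pair n) : Set EReal → (L : Type u) → [Field L] → [Algebra k L] →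
    (X : ProjVar k L) → (m : ℕ) → X.Pair m → Prop
  | base : FibTower Z₀ n q₀ {0} K₀ Z₀ n q₀
  /-- larger boundaries -/
  | enlarge (S : Set EReal) (L : Type u) [Field L] [Algebra k L] (X : ProjVar k L) (m : ℕ)
      (p p' : X.Pair m) (hp : FibTower Z₀ n q₀ S L X m p) (hΔ : ∀ P, p.Δ P ≤ p'.Δ P) :
      FibTower Z₀ n q₀ S L X m p'
  /-- fibrations in curves of genus at most one; in the case of genus zero all horizontal
  coefficients are smaller than one, or `K_X + min(Δ, 1)` has positive degree on the generic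
  fibre -/
  | curve (S : Set EReal) (K L K' L' : Type u) [Field K] [Field L] [Field K'] [Field L']
      [Algebra k K] [Algebra k L] [Algebra k K'] [Algebra k L'] [Algebra K L] [Algebra K K']
      [Algebra K L'] [Algebra L L'] [Algebra K' L'] [IsScalarTower k K L] [IsScalarTower k K K']
      [IsScalarTower k K L'] [IsScalarTower k L L'] [IsScalarTower k K' L']
      [IsScalarTower K L L'] [IsScalarTower K K' L'] (X : ProjVar k L) (Z : ProjVar k K) (m : ℕ)
      (h : IsCurveFibration K' L' X Z) (p : X.Pair (m + 1)) (q : Z.Pair m)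
      (hq : FibTower Z₀ n q₀ S K Z m q) (hpq : IsOrbifoldBase p q)
      (hΔ : (¬ ∃ t : L', Transcendental K' t ∧ IntermediateField.adjoin K' {t} = ⊤) ∨
        (∀ P : X.primeDivisors, (∀ x : K, P.1 (algebraMap K L x) = 0) → p.Δ P < 1) ∨
        IsBigOnFibre K p)
      (hκ : X.kod p.logDiv ≠ ⊥) : FibTower Z₀ n q₀ (S + {0, 1}) L X (m + 1) p
  /-- the boundary on the general fibre is at least a log canonical hyperplane arrangement of log
  general type -/
  | arrangement (S : Set EReal) (K L K' M L' ι : Type u) [Field K] [Field L] [Field K'] [Field M]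
      [Field L'] [Algebra k K] [Algebra k L] [Algebra k K'] [Algebra k M] [Algebra k L']
      [Algebra K L] [Algebra K K'] [Algebra K L'] [Algebra L L'] [Algebra K' M] [Algebra K' L']
      [Algebra M L'] [IsScalarTower k K L] [IsScalarTower k K K'] [IsScalarTower k K L']
      [IsScalarTower k L L'] [IsScalarTower k K' M] [IsScalarTower k K' L']
      [IsScalarTower k M L'] [IsScalarTower K L L'] [IsScalarTower K K' L']
      [IsScalarTower K' M L'] [Fintype ι] [DecidableEq ι] (X : ProjVar k L) (Z : ProjVar k K)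
      (m d : ℕ) (hd : 0 < d) (t : Fin d → M) (A : Arr K' L' t ι) (p : X.Pair (m + d))
      (q : Z.Pair m) (h : IsArrangement X p.Δ Z A)
      (hA : 0 < A.h ∧ A.N = 1 ∧ Algebra.IsPushout K K' L L')
      (hq : FibTower Z₀ n q₀ S K Z m q) (hpq : IsOrbifoldBase p q) :
      FibTower Z₀ n q₀ (S + {(d : EReal)}) L X (m + d) p
  /-- torus actions -/
  | torus (S : Set EReal) (K L : Type u) [Field K] [Field L] [Algebra k K] [Algebra k L]
      [Algebra K L] [IsScalarTower k K L] (X : ProjVar k L) (Z : ProjVar k K) (m r : ℕ)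
      (t : Fin r → L) (h : IsTorusVariety t X Z) (p : X.Pair (m + r)) (q : Z.Pair m)
      (hlc : ∀ B : X.Div, (∀ P, 0 ≤ B P) →
        ∃ c : ℚ, 0 < c ∧ X.IsLogCanonical p.ω p.can (p.Δ + c • B))
      (hq : FibTower Z₀ n q₀ S K Z m q) (hpq : IsOrbifoldBase p q) (hκ : X.kod p.logDiv ≠ ⊥) :
      FibTower Z₀ n q₀ (S + {s : EReal | ∃ i : ℕ, i ≤ r ∧ s = i}) L X (m + r) p
  /-- finite quotients `X → Y`, where `K_X + Δ` is the pull-back of `K_Y + Δ'` -/
  | quotient (S : Set EReal) (L M : Type u) [Field L] [Field M] [Algebra k L] [Algebra k M]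
      [Algebra L M] [IsScalarTower k L M] (X : ProjVar k M) (Y : ProjVar k L) (m : ℕ)
      (p : X.Pair m) (p' : Y.Pair m) (hp : FibTower Z₀ n q₀ S M X m p) (hc : IsFiniteCover X Y)
      (h : IsLogPull p.Δ p'.Δ) : FibTower Z₀ n q₀ S L Y m p'
  /-- birational contractions `X' ⇢ X` -/
  | contraction (S : Set EReal) (L : Type u) [Field L] [Algebra k L] (X X' : ProjVar k L) (m : ℕ)
      (p : X.Pair m) (p' : X'.Pair m) (hp : FibTower Z₀ n q₀ S L X' m p')
      (hX : ∀ P ∈ X.primeDivisors, P ∈ X'.primeDivisors)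
      (hΔ : ∀ (P : X.primeDivisors) (P' : X'.primeDivisors), P.1 = P'.1 → p.Δ P = p'.Δ P') :
      FibTower Z₀ n q₀ S L X m p

/-- The pairs over the towers `FibTower`: the top fibration may be of a more general type, followed by
finite covers and quotients. -/
inductive FibTop {k K₀ : Type u} [Field k] [Field K₀] [Algebra k K₀] (Z₀ : ProjVar k K₀)
    (n : ℕ) (q₀ : Z₀.Pair n) : Set EReal → (L : Type u) → [Field L] → [Algebra k L] →
    (X : ProjVar k L) → (m : ℕ) → X.Pair m → Prop
  | tower (S : Set EReal) (L : Type u) [Field L] [Algebra k L] (X : ProjVar k L) (m : ℕ)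
      (p : X.Pair m) (hp : FibTower Z₀ n q₀ S L X m p) : FibTop Z₀ n q₀ S L X m p
  /-- fibrations in curves of genus at most one; in the case of genus zero all horizontal
  coefficients are at most one, or `K_X + min(Δ, 1)` has positive degree on the generic fibre -/
  | curve (S : Set EReal) (K L K' L' : Type u) [Field K] [Field L] [Field K'] [Field L']
      [Algebra k K] [Algebra k L] [Algebra k K'] [Algebra k L'] [Algebra K L] [Algebra K K']
      [Algebra K L'] [Algebra L L'] [Algebra K' L'] [IsScalarTower k K L] [IsScalarTower k K K']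
      [IsScalarTower k K L'] [IsScalarTower k L L'] [IsScalarTower k K' L']
      [IsScalarTower K L L'] [IsScalarTower K K' L'] (X : ProjVar k L) (Z : ProjVar k K) (m : ℕ)
      (h : IsCurveFibration K' L' X Z) (p : X.Pair (m + 1)) (q : Z.Pair m)
      (hq : FibTower Z₀ n q₀ S K Z m q) (hpq : IsOrbifoldBase p q)
      (hΔ : (¬ ∃ t : L', Transcendental K' t ∧ IntermediateField.adjoin K' {t} = ⊤) ∨
        (∀ P : X.primeDivisors, (∀ x : K, P.1 (algebraMap K L x) = 0) → p.Δ P ≤ 1) ∨
        IsBigOnFibre K p) : FibTop Z₀ n q₀ (S + {⊥, 0, 1}) L X (m + 1) p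
  /-- the general fibre is compared with a log canonical hyperplane arrangement of `ℙᵈ`, or a Kummer
  cover of it; `h` is the degree of `K + Δ` on `ℙᵈ` -/
  | arrangement (S : Set EReal) (K L K' M L' ι : Type u) [Field K] [Field L] [Field K'] [Field M]
      [Field L'] [Algebra k K] [Algebra k L] [Algebra k K'] [Algebra k M] [Algebra k L']
      [Algebra K L] [Algebra K K'] [Algebra K L'] [Algebra L L'] [Algebra K' M] [Algebra K' L']
      [Algebra M L'] [IsScalarTower k K L] [IsScalarTower k K K'] [IsScalarTower k K L']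
      [IsScalarTower k L L'] [IsScalarTower k K' M] [IsScalarTower k K' L']
      [IsScalarTower k M L'] [IsScalarTower K L L'] [IsScalarTower K K' L']
      [IsScalarTower K' M L'] [Fintype ι] [DecidableEq ι] (X : ProjVar k L) (Z : ProjVar k K)
      (m d : ℕ) (hd : 0 < d) (t : Fin d → M) (A : Arr K' L' t ι) (p : X.Pair (m + d))
      (q : Z.Pair m) (h : IsArrangement X p.Δ Z A) (hq : FibTower Z₀ n q₀ S K Z m q)
      (hpq : IsOrbifoldBase p q) :
      FibTop Z₀ n q₀ (S + {if A.h < 0 then ⊥ else if A.h = 0 then 0 else (d : EReal)}) L X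
        (m + d) p
  /-- torus actions, log canonical pairs -/
  | torus (S : Set EReal) (K L : Type u) [Field K] [Field L] [Algebra k K] [Algebra k L]
      [Algebra K L] [IsScalarTower k K L] (X : ProjVar k L) (Z : ProjVar k K) (m r : ℕ)
      (t : Fin r → L) (h : IsTorusVariety t X Z) (p : X.Pair (m + r)) (q : Z.Pair m)
      (hlc : p.LC) (hq : FibTower Z₀ n q₀ S K Z m q) (hpq : IsOrbifoldBase p q) :
      FibTop Z₀ n q₀ (S + {s : EReal | s = ⊥ ∨ ∃ i : ℕ, i ≤ r ∧ s = i}) L X (m + r) p
  /-- finite covers `X → Y`, where `K_X + Δ` is the pull-back of `K_Y + Δ'` -/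
  | cover (S : Set EReal) (L M : Type u) [Field L] [Field M] [Algebra k L] [Algebra k M]
      [Algebra L M] [IsScalarTower k L M] (X : ProjVar k M) (Y : ProjVar k L) (m : ℕ)
      (p : X.Pair m) (p' : Y.Pair m) (hp : FibTop Z₀ n q₀ S L Y m p') (hc : IsFiniteCover X Y)
      (h : IsLogPull p.Δ p'.Δ) : FibTop Z₀ n q₀ S M X m p
  /-- finite quotients `X → Y`, where `K_X + Δ` is the pull-back of `K_Y + Δ'` -/
  | quotient (S : Set EReal) (L M : Type u) [Field L] [Field M] [Algebra k L] [Algebra k M]
      [Algebra L M] [IsScalarTower k L M] (X : ProjVar k M) (Y : ProjVar k L) (m : ℕ)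
      (p : X.Pair m) (p' : Y.Pair m) (hp : FibTop Z₀ n q₀ S M X m p) (hc : IsFiniteCover X Y)
      (h : IsLogPull p.Δ p'.Δ) : FibTop Z₀ n q₀ S L Y m p'

end Pool.Agent.Helper92.HA
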