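import Pool.Agent.Helper63.PB.StableOps2
import Pool.Agent.Helper63.PB.StableTorus
import Pool.Agent.Helper63.PB.TrdegArr
import Pool.Agent.Helper63.PB.Contract
import Pool.Agent.Helper63.PB.CurveCover
import Pool.Agent.Helper92.HR.StableR

set_option autoImplicit false

/-!
# HR StableBy: relative stability

`StableBy Φ Z D`: `κ(D) ≥ 0` and `Φ (κ(D + B)) (ν(D + B))` for all effective `B`. The operations on towers
preserve it (`Φ` is changed by adding the dimension of the fibre part).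
-/

universe u

namespace Pool.Agent.Helper92.HA

open Module Pool.Agent.Helper92.Weak Pool.Agent.Helper92.Ga Pool.Agent.Helper47.PQ
open Pool.Agent.Helper63.PB

/-- `κ(D) ≥ 0`, and the Kodaira and the numerical dimension of `D + B` satisfy `Φ` for every effective
`ℚ`-divisor `B`. -/
def StableBy (Φ : EReal → EReal → Prop) {k K : Type*} [Field k] [Field K] [Algebra k K]
    (Z : ProjVar k K) (D : Z.Div) : Prop :=
  Z.kod D ≠ ⊥ ∧ ∀ B : Z.Div, (∀ Q, 0 ≤ B Q) → Φ (Z.kod (D + B)) (Z.nu (D + B))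

variable {Φ Φ' : EReal → EReal → Prop}

section

variable {k K : Type*} [Field k] [Field K] [Algebra k K] {Z : ProjVar k K}

theorem StableBy.eq {D : Z.Div} (h : StableBy Φ Z D) : Φ (Z.kod D) (Z.nu D) := by
  have := h.2 0 fun _ => le_rfl
  rwa [add_zero] at this

theorem StableBy.add {D : Z.Div} (h : StableBy Φ Z D) {B : Z.Div} (hB : ∀ Q, 0 ≤ B Q)
    (hκ : Z.kod (D + B) ≠ ⊥) : StableBy Φ Z (D + B) := by
  refine ⟨hκ, fun B' hB' => ?_⟩
  rw [add_assoc]
  exact h.2 _ fun Q => by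
    rw [Finsupp.add_apply]
    exact add_nonneg (hB Q) (hB' Q)

/-- It is enough to consider small multiples of effective divisors. -/
theorem stableBy_of_small {D : Z.Div} (hκ : Z.kod D ≠ ⊥)
    (h : ∀ B : Z.Div, (∀ Q, 0 ≤ B Q) → ∃ c : ℚ, 0 < c ∧
      Φ (Z.kod (D + c • B)) (Z.nu (D + c • B))) : StableBy Φ Z D := by
  refine ⟨hκ, fun B hB => ?_⟩
  obtain ⟨c, hc, h1⟩ := h B hB
  obtain ⟨h2, h3⟩ := eps_indep hκ hB hc one_pos
  rw [one_smul] at h2 h3
  rwa [← h2, ← h3]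

theorem kod_add_ne [IsAlgClosed k] {D B : Z.Div} (hκ : Z.kod D ≠ ⊥) (hB : ∀ Q, 0 ≤ B Q) :
    Z.kod (D + B) ≠ ⊥ := by
  intro h6
  apply hκ
  have h7 : Z.kod D ≤ Z.kod (D + B) := kod_mono fun Q => by
    rw [Finsupp.add_apply]
    linarith [hB Q]
  rw [h6] at h7
  exact le_bot_iff.1 h7

theorem StableBy.congr {D : Z.Div} (h : StableBy Φ Z D) {ψ : K} (hψ : ψ ≠ 0) :
    StableBy Φ Z (D + Z.prin ψ) := by
  refine ⟨?_, fun B hB => ?_⟩
  · rw [Z.kod_add_prin _ hψ]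
    exact h.1
  · have e : D + Z.prin ψ + B = D + B + Z.prin ψ := by abel
    rw [e, Z.kod_add_prin _ hψ, Z.nu_add_prin _ hψ]
    exact h.2 B hB

theorem stableBy_enlarge [IsAlgClosed k] [CharZero k] {n : ℕ} (hn : Algebra.trdeg k K = n)
    {p p' : Z.Pair n} (h : ∀ Q, p.Δ Q ≤ p'.Δ Q) (hp : StableBy Φ Z p.logDiv) :
    StableBy Φ Z p'.logDiv := by
  obtain ⟨ψ, hψ, hc⟩ := exists_can_eq hn p p'
  have hB : ∀ Q, 0 ≤ (p'.Δ - p.Δ) Q := fun Q => by
    rw [Finsupp.sub_apply]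
    linarith [h Q]
  have e : p'.logDiv = p.logDiv + Z.prin ψ + (p'.Δ - p.Δ) := by
    unfold ProjVar.Pair.logDiv
    rw [hc]
    abel
  rw [e]
  have h1 := hp.congr hψ
  exact h1.add hB (kod_add_ne h1.1 hB)

end

section

variable {k L M : Type*} [Field k] [Field L] [Field M] [Algebra k L] [Algebra k M] [Algebra L M]
  [IsScalarTower k L M] {X : ProjVar k M} {Y : ProjVar k L}

theorem stableBy_quotient [IsAlgClosed k] [CharZero k] (hc : IsFiniteCover X Y) {n : ℕ}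
    (hn : Algebra.trdeg k L = n) {p : X.Pair n} {p' : Y.Pair n} (h : IsLogPull p.Δ p'.Δ)
    (hp : StableBy Φ X p.logDiv) : StableBy Φ Y p'.logDiv := by
  refine ⟨?_, fun B' hB' => ?_⟩
  · rw [← (logPull_eq hc hn h).1]
    exact hp.1
  · obtain ⟨B, hB⟩ := hc.exists_pull B'
    have hB0 : ∀ P, 0 ≤ B P := fun P => by
      obtain ⟨P', hP', e, he⟩ := hc.equi P.1 P.2
      rw [hB P ⟨P', hP'⟩ e he]
      exact mul_nonneg (Nat.cast_nonneg e) (hB' _)
    have h1 : IsLogPull (addPair p B hB0).Δ (addPair p' B' hB').Δ := isLogPull_add h hB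
    obtain ⟨h2, h3⟩ := logPull_eq hc hn h1
    rw [addPair_logDiv, addPair_logDiv] at h2 h3
    rw [← h2, ← h3]
    exact hp.2 B hB0

end

theorem orbifold_add {k K L : Type*} [Field k] [Field K] [Field L] [Algebra k K] [Algebra k L]
    [Algebra K L] {X : ProjVar k L} {Z : ProjVar k K} {m n : ℕ} {p : X.Pair m} {q : Z.Pair n}
    (hq : IsOrbifoldBase p q) {B : X.Div} (hB : ∀ P, 0 ≤ B P) :
    IsOrbifoldBase (addPair p B hB) q := by
  intro P Q e hPQ
  rw [addPair_Δ, Finsupp.add_apply]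
  linarith [hq P Q e hPQ, hB P]

section

variable {k K L K' L' : Type*} [Field k] [Field K] [Field L] [Field K'] [Field L']
  [Algebra k K] [Algebra k L] [Algebra k K'] [Algebra k L'] [Algebra K L] [Algebra K K']
  [Algebra K L'] [Algebra L L'] [Algebra K' L'] [IsScalarTower k K L] [IsScalarTower k K K']
  [IsScalarTower k K L'] [IsScalarTower k L L'] [IsScalarTower k K' L'] [IsScalarTower K L L']
  [IsScalarTower K K' L'] {X : ProjVar k L} {Z : ProjVar k K}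

/-- `curve_main` without condition on the coefficients in the case of genus one. -/
theorem curve_main' [IsAlgClosed k] [CharZero k] {d : ℕ} (hd : Algebra.trdeg k K = d)
    (h : IsCurveFibration K' L' X Z) (p : X.Pair (d + 1)) (q : Z.Pair d)
    (h1 : (¬ ∃ t : L', Transcendental K' t ∧ IntermediateField.adjoin K' {t} = ⊤) ∨
      (∀ P : X.primeDivisors, (∀ x : K, P.1 (algebraMap K L x) = 0) → p.Δ P ≤ 1) ∨
      IsBigOnFibre K p)
    (hq : IsOrbifoldBase p q) (hκ : Z.kod q.logDiv ≠ ⊥) :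
    (X.kod p.logDiv = ⊥ ∧ X.nu p.logDiv = ⊥) ∨
    ∃ (s : ℕ) (B : Z.Div), s ≤ 1 ∧ (∀ Q, 0 ≤ B Q) ∧ ∀ ε : ℚ, 0 < ε →
      X.kod p.logDiv = s + Z.kod (q.logDiv + ε • B) ∧
      X.nu p.logDiv = s + Z.nu (q.logDiv + ε • B) := by
  rcases h1 with h0 | h0
  · rcases h.curve with hc | hc
    · exact absurd hc h0
    · exact Or.inr (Pool.Agent.Helper60.PB.emain hd
        ⟨h.mor, h.equi, h.finite, h.pushout, hc⟩ p q hq hκ)
  · exact curve_main hd h p q h0 hq hκ

/-- The two dimensions of `K_X + Δ`: fibrations in curves of genus at most one. -/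
theorem by_curve [IsAlgClosed k] [CharZero k] {d : ℕ} (hd : Algebra.trdeg k K = d)
    (h : IsCurveFibration K' L' X Z) (p : X.Pair (d + 1)) (q : Z.Pair d)
    (h1 : (¬ ∃ t : L', Transcendental K' t ∧ IntermediateField.adjoin K' {t} = ⊤) ∨
      (∀ P : X.primeDivisors, (∀ x : K, P.1 (algebraMap K L x) = 0) → p.Δ P ≤ 1) ∨
      IsBigOnFibre K p)
    (hq : IsOrbifoldBase p q) (hZ : StableBy Φ Z q.logDiv)
    (hΦ : ∀ s : ℕ, s ≤ 1 → ∀ a b, Φ a b → Φ' (s + a) (s + b)) :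
    (X.kod p.logDiv = ⊥ ∧ X.nu p.logDiv = ⊥) ∨ Φ' (X.kod p.logDiv) (X.nu p.logDiv) := by
  rcases curve_main' hd h p q h1 hq hZ.1 with h3 | ⟨s, BZ, hs, hBZ, h3⟩
  · exact Or.inl h3
  · obtain ⟨h4, h5⟩ := h3 1 one_pos
    rw [one_smul] at h4 h5
    rw [h4, h5]
    exact Or.inr (hΦ s hs _ _ (hZ.2 BZ hBZ))

theorem stableBy_fibration [IsAlgClosed k] [CharZero k] {d : ℕ} (hd : Algebra.trdeg k K = d)
    (h : IsCurveFibration K' L' X Z) (p : X.Pair (d + 1)) (q : Z.Pair d)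
    (h1 : (¬ ∃ t : L', Transcendental K' t ∧ IntermediateField.adjoin K' {t} = ⊤) ∨
      (∀ P : X.primeDivisors, (∀ x : K, P.1 (algebraMap K L x) = 0) → p.Δ P < 1) ∨
      IsBigOnFibre K p)
    (hq : IsOrbifoldBase p q) (hZ : StableBy Φ Z q.logDiv)
    (hΦ : ∀ s : ℕ, s ≤ 1 → ∀ a b, Φ a b → Φ' (s + a) (s + b)) (hκ : X.kod p.logDiv ≠ ⊥) :
    StableBy Φ' X p.logDiv := by
  refine stableBy_of_small hκ fun B hB => ?_
  obtain ⟨c, hc, h2⟩ : ∃ c : ℚ, 0 < c ∧ ∀ hcB : ∀ P, 0 ≤ (c • B) P,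
      (¬ ∃ t : L', Transcendental K' t ∧ IntermediateField.adjoin K' {t} = ⊤) ∨
      (∀ P : X.primeDivisors, (∀ x : K, P.1 (algebraMap K L x) = 0) →
        (addPair p (c • B) hcB).Δ P ≤ 1) ∨ IsBigOnFibre K (addPair p (c • B) hcB) := by
    rcases h1 with h1 | h1 | h1
    · exact ⟨1, one_pos, fun _ => Or.inl h1⟩
    · obtain ⟨c, hc, h2⟩ := exists_small B.support (fun P => p.Δ P) (fun P => B P)
        (fun P => ∀ x : K, P.1 (algebraMap K L x) = 0) h1 hB
      refine ⟨c, hc, fun hcB => Or.inr (Or.inl fun P hP => ?_)⟩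
      rw [addPair_Δ, Finsupp.add_apply, Finsupp.smul_apply, smul_eq_mul]
      by_cases hPB : P ∈ B.support
      · exact h2 P hPB hP
      · rw [Finsupp.notMem_support_iff.1 hPB, mul_zero, add_zero]
        exact (h1 P hP).le
    · exact ⟨1, one_pos, fun hcB => Or.inr (Or.inr (h1.add hcB))⟩
  have hcB : ∀ P, 0 ≤ (c • B) P := fun P => by
    rw [Finsupp.smul_apply, smul_eq_mul]
    exact mul_nonneg hc.le (hB P)
  refine ⟨c, hc, ?_⟩
  have h3 := by_curve hd h (addPair p (c • B) hcB) q (h2 hcB) (orbifold_add hq hcB) hZ hΦ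
  rw [addPair_logDiv p (c • B) hcB] at h3
  exact h3.resolve_left fun h4 => kod_add_ne hκ hcB h4.1

omit [IsScalarTower k K L] in
theorem by_torus [IsAlgClosed k] [CharZero k] [IsScalarTower k K L] {d r : ℕ}
    (hd : Algebra.trdeg k K = d) {t : Fin r → L} (h : IsTorusVariety t X Z) (p : X.Pair (d + r))
    (q : Z.Pair d) (hlc : p.LC) (hq : IsOrbifoldBase p q) (hZ : StableBy Φ Z q.logDiv)
    (hΦ : ∀ s : ℕ, s ≤ r → ∀ a b, Φ a b → Φ' (s + a) (s + b)) :
    (X.kod p.logDiv = ⊥ ∧ X.nu p.logDiv = ⊥) ∨ Φ' (X.kod p.logDiv) (X.nu p.logDiv) := by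
  rcases Pool.Agent.Helper92.Tor.torus_variety_pair hd Z X h p hlc q hq hZ.1 with
    h3 | ⟨s, BZ, hs, hBZ, h3, -⟩
  · exact Or.inl h3
  · obtain ⟨h4, h5⟩ := h3 1 one_pos
    rw [one_smul] at h4 h5
    rw [h4, h5]
    exact Or.inr (hΦ s hs _ _ (hZ.2 BZ hBZ))

theorem stableBy_torus [IsAlgClosed k] [CharZero k] {d r : ℕ}
    (hd : Algebra.trdeg k K = d) {t : Fin r → L} (h : IsTorusVariety t X Z) (p : X.Pair (d + r))
    (q : Z.Pair d) (hlc : ∀ B : X.Div, (∀ P, 0 ≤ B P) →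
      ∃ c : ℚ, 0 < c ∧ X.IsLogCanonical p.ω p.can (p.Δ + c • B))
    (hq : IsOrbifoldBase p q) (hZ : StableBy Φ Z q.logDiv)
    (hΦ : ∀ s : ℕ, s ≤ r → ∀ a b, Φ a b → Φ' (s + a) (s + b)) (hκ : X.kod p.logDiv ≠ ⊥) :
    StableBy Φ' X p.logDiv := by
  refine stableBy_of_small hκ fun B hB => ?_
  obtain ⟨c, hc, hcl⟩ := hlc B hB
  have hcB : ∀ P, 0 ≤ (c • B) P := fun P => by
    rw [Finsupp.smul_apply, smul_eq_mul]
    exact mul_nonneg hc.le (hB P)
  refine ⟨c, hc, ?_⟩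
  have h3 := by_torus hd h (addPair p (c • B) hcB) q hcl (orbifold_add hq hcB) hZ hΦ
  rw [addPair_logDiv p (c • B) hcB] at h3
  exact h3.resolve_left fun h4 => kod_add_ne hκ hcB h4.1

end

section

variable {k L : Type*} [Field k] [Field L] [Algebra k L] {X X' : ProjVar k L}

private theorem exc_apply (N : ℕ) (P : X'.primeDivisors) :
    (P.1 ∈ X.primeDivisors → exc X X' N P = 0) ∧ (P.1 ∉ X.primeDivisors → exc X X' N P = N) := by
  classical
  have h1 : exc X X' N P = (N : ℚ) * redDiv (finite_exc X X').toFinset P := rfl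
  rw [h1, redDiv_apply]
  constructor
  · intro h
    rw [if_neg, mul_zero]
    rw [Set.Finite.mem_toFinset]
    exact fun h2 => h2 h
  · intro h
    rw [if_pos, mul_one]
    rw [Set.Finite.mem_toFinset]
    exact h

/-- The extension by zero of a divisor on `X`. -/
private noncomputable def extDiv (hX : ∀ P ∈ X.primeDivisors, P ∈ X'.primeDivisors) (A : X.Div) :
    X'.Div :=
  Finsupp.mapDomain (fun P : X.primeDivisors => (⟨P.1, hX P.1 P.2⟩ : X'.primeDivisors)) A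

private theorem inj_incl (hX : ∀ P ∈ X.primeDivisors, P ∈ X'.primeDivisors) :
    Function.Injective fun P : X.primeDivisors => (⟨P.1, hX P.1 P.2⟩ : X'.primeDivisors) :=
  fun _ _ h => Subtype.ext (congrArg (fun R : X'.primeDivisors => R.1) h)

private theorem extDiv_apply (hX : ∀ P ∈ X.primeDivisors, P ∈ X'.primeDivisors) (A : X.Div)
    (P : X.primeDivisors) : extDiv hX A ⟨P.1, hX P.1 P.2⟩ = A P := by
  unfold extDiv
  exact Finsupp.mapDomain_apply (inj_incl hX) A P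

private theorem extDiv_notin (hX : ∀ P ∈ X.primeDivisors, P ∈ X'.primeDivisors) (A : X.Div)
    (P : X'.primeDivisors) (hP : P.1 ∉ X.primeDivisors) : extDiv hX A P = 0 := by
  unfold extDiv
  refine Finsupp.mapDomain_of_notMem_range _ _ ?_
  rintro ⟨Q, hQ⟩
  apply hP
  rw [← hQ]
  exact Q.2

theorem stableBy_contract [IsAlgClosed k] [CharZero k] {n : ℕ} (hn : Algebra.trdeg k L = n)
    (hX : ∀ P ∈ X.primeDivisors, P ∈ X'.primeDivisors) (p : X.Pair n) (p' : X'.Pair n)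
    (hΔ : ∀ (P : X.primeDivisors) (P' : X'.primeDivisors), P.1 = P'.1 → p.Δ P = p'.Δ P')
    (h : StableBy Φ X' p'.logDiv) : StableBy Φ X p.logDiv := by
  classical
  obtain ⟨y, hy⟩ := exists_basis_of_trdeg hn
  obtain ⟨ψ, hψ, hψ1⟩ := Pool.Agent.Helper60.MA.exists_psi X p hy (one_ne_zero : (1 : L) ≠ 0)
  obtain ⟨ψ', hψ', hψ1'⟩ :=
    Pool.Agent.Helper60.MA.exists_psi X' p' hy (one_ne_zero : (1 : L) ≠ 0)
  have hψ0 : ψ' / ψ ≠ 0 := div_ne_zero hψ' hψ
  have hres : ∀ B' : X'.Div, resDiv hX (p'.logDiv + B') =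
      (p.logDiv + resDiv hX B') + X.prin (ψ' / ψ) := by
    intro B'
    ext P
    obtain ⟨a, ha, hpa⟩ := hψ1 P
    obtain ⟨a', ha', hpa'⟩ := hψ1' ⟨P.1, hX P.1 P.2⟩
    have haa : a' = a := isOrd_unique ha' ha
    rw [resDiv_apply, Finsupp.add_apply, Finsupp.add_apply, Finsupp.add_apply,
      ProjVar.prin_apply, resDiv_apply]
    unfold ProjVar.Pair.logDiv
    rw [Finsupp.add_apply, Finsupp.add_apply, hpa, hpa', haa,
      hΔ P ⟨P.1, hX P.1 P.2⟩ rfl, P.1.map_div hψ' hψ]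
    push_cast
    ring
  have key' : ∀ B' : X'.Div, (∀ Q, 0 ≤ B' Q) → ∃ C : X'.Div, (∀ Q, 0 ≤ C Q) ∧
      X.kod (p.logDiv + resDiv hX B') = X'.kod (p'.logDiv + C) ∧
      X.nu (p.logDiv + resDiv hX B') = X'.nu (p'.logDiv + C) := by
    intro B' hB'
    obtain ⟨C, hC⟩ := kod_contract hX (p'.logDiv + B')
    obtain ⟨h1, h2⟩ := hC C le_rfl
    rw [hres, ProjVar.kod_add_prin _ hψ0, add_assoc] at h1
    rw [hres, ProjVar.nu_add_prin _ hψ0, add_assoc] at h2
    refine ⟨B' + exc X X' C, fun Q => ?_, h1, h2⟩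
    rw [Finsupp.add_apply]
    refine add_nonneg (hB' Q) ?_
    by_cases hQ : Q.1 ∈ X.primeDivisors
    · rw [(exc_apply C Q).1 hQ]
    · rw [(exc_apply C Q).2 hQ]
      exact Nat.cast_nonneg _
  have key : ∀ B : X.Div, (∀ P, 0 ≤ B P) → ∃ C : X'.Div, (∀ Q, 0 ≤ C Q) ∧
      X.kod (p.logDiv + B) = X'.kod (p'.logDiv + C) ∧
      X.nu (p.logDiv + B) = X'.nu (p'.logDiv + C) := by
    intro B hB
    have h2 : resDiv hX (extDiv hX B) = B := by
      ext P
      rw [resDiv_apply, extDiv_apply]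
    obtain ⟨C, hC0, h1, h3⟩ := key' (extDiv hX B) fun Q => by
      by_cases hQ : Q.1 ∈ X.primeDivisors
      · have h4 := extDiv_apply hX B ⟨Q.1, hQ⟩
        have h5 : extDiv hX B Q = B ⟨Q.1, hQ⟩ := h4
        rw [h5]
        exact hB _
      · rw [extDiv_notin hX B Q hQ]
    rw [h2] at h1 h3
    exact ⟨C, hC0, h1, h3⟩
  constructor
  · obtain ⟨C, hC0, h1, -⟩ := key 0 fun _ => le_rfl
    rw [add_zero] at h1
    rw [h1]
    exact kod_add_ne h.1 hC0
  · intro B hB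
    obtain ⟨C, hC0, h1, h3⟩ := key B hB
    rw [h1, h3]
    exact h.2 C hC0

end

section

variable {k K L M L' : Type*} {K' : Type u} [Field k] [Field K] [Field L] [Field K'] [Field M]
  [Field L'] [Algebra k K] [Algebra k L] [Algebra k K'] [Algebra k M] [Algebra k L'] [Algebra K L]
  [Algebra K K'] [Algebra K L'] [Algebra L L'] [Algebra K' M] [Algebra K' L'] [Algebra M L']
  [IsScalarTower k K L] [IsScalarTower k K K'] [IsScalarTower k K L'] [IsScalarTower k L L']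
  [IsScalarTower k K' M] [IsScalarTower k K' L'] [IsScalarTower k M L'] [IsScalarTower K L L']
  [IsScalarTower K K' L'] [IsScalarTower K' M L'] {d : ℕ}
  {X : ProjVar k L} {Z : ProjVar k K} {t : Fin d → M} {ι : Type*} [Fintype ι] [DecidableEq ι]

theorem by_arrangement [IsAlgClosed k] [CharZero k] {n : ℕ} (hn : Algebra.trdeg k K = n)
    (hd : 0 < d) (A : Arr K' L' t ι) (p : X.Pair (n + d)) (q : Z.Pair n)
    (h : IsArrangement X p.Δ Z A) (hq : IsOrbifoldBase p q) (hZ : StableBy Φ Z q.logDiv)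
    (hΦ : 0 ≤ A.h → ∀ a b, Φ a b → Φ' ((if A.h = 0 then 0 else d : ℕ) + a)
      ((if A.h = 0 then 0 else d : ℕ) + b)) :
    (A.h < 0 ∧ X.kod p.logDiv = ⊥ ∧ X.nu p.logDiv = ⊥) ∨
      (0 ≤ A.h ∧ Φ' (X.kod p.logDiv) (X.nu p.logDiv)) := by
  obtain ⟨h1, h2⟩ := mainR hn hd A p q h hq hZ.1
  rcases lt_or_ge A.h 0 with hA | hA
  · exact Or.inl ⟨hA, h1 hA⟩
  · obtain ⟨s, B, hs, hB, h3, -⟩ := h2 hA
    obtain ⟨h4, h5⟩ := h3 1 one_pos
    rw [one_smul] at h4 h5
    rw [h4, h5, hs]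
    exact Or.inr ⟨hA, hΦ hA _ _ (hZ.2 B hB)⟩

theorem stableBy_arrangement [IsAlgClosed k] [CharZero k] {n : ℕ} (hn : Algebra.trdeg k K = n)
    (hd : 0 < d) (A : Arr K' L' t ι) (p : X.Pair (n + d)) (q : Z.Pair n)
    (h : IsArrangement X p.Δ Z A) (hA : 0 < A.h ∧ A.N = 1 ∧ Algebra.IsPushout K K' L L')
    (hq : IsOrbifoldBase p q) (hZ : StableBy Φ Z q.logDiv)
    (hΦ : ∀ a b, Φ a b → Φ' ((d : ℕ) + a) ((d : ℕ) + b)) : StableBy Φ' X p.logDiv := by
  constructor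
  · obtain ⟨s, B, -, hB, h3, -⟩ := (mainR hn hd A p q h hq hZ.1).2 hA.1.le
    obtain ⟨h4, -⟩ := h3 1 one_pos
    rw [h4, one_smul]
    intro h6
    rw [EReal.add_eq_bot_iff] at h6
    rcases h6 with h6 | h6
    · exact absurd h6 (EReal.natCast_ne_bot _)
    · exact kod_add_ne hZ.1 hB h6
  · intro B hB
    have h1 : IsArrangement X (addPair p B hB).Δ Z A :=
      { mor := h.mor, equi := h.equi, conn := h.conn, finK := h.finK, finL := h.finL
        above := h.above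
        disc := fun P hP v ε hv ℓ hℓ => by
          refine le_trans ?_ (h.disc P hP v ε hv ℓ hℓ)
          have h2 : (0 : ℚ) ≤ ε := Nat.cast_nonneg ε
          have h3 := hB P
          rw [addPair_Δ, Finsupp.add_apply]
          nlinarith
        eq := Or.inr ⟨hA.1, hA.2.2, fun v v' D hv hv' he => over_unique hA.2.1 hv hv' ▸ he⟩ }
    have h3 := by_arrangement (Φ' := Φ') hn hd A (addPair p B hB) q h1 (orbifold_add hq hB) hZ
      (fun _ a b hab => by
        rw [if_neg hA.1.ne']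
        exact hΦ a b hab)
    rw [addPair_logDiv] at h3
    exact (h3.resolve_left fun h4 => absurd h4.1 (not_lt.2 hA.1.le)).2

end

end Pool.Agent.Helper92.HA
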