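import Pool.Agent.Helper92.HR.FibDefs
import Pool.Agent.Helper92.HR.StableBy
import Pool.Agent.Helper92.Tor.Final

set_option autoImplicit false

/-!
# HR FibMain: the comparison formula for towers of fibrations
-/

namespace Pool.Agent.Helper92.HA

open Pool.Agent.Helper92.Weak Pool.Agent.Helper92.Ga Pool.Agent.Helper47.PQ
open Pool.Agent.Helper63.PB
open scoped Pointwise

universe u

/-- The comparison formula for the two dimensions `a`, `b`. -/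
def Formula {k K₀ : Type u} [Field k] [Field K₀] [Algebra k K₀] (Z₀ : ProjVar k K₀)
    (D₀ : Z₀.Div) (S : Set EReal) (a b : EReal) : Prop :=
  ∃ s ∈ S, ∃ B : Z₀.Div, (∀ Q, 0 ≤ B Q) ∧
    ∀ ε : ℚ, 0 < ε → a = s + Z₀.kod (D₀ + ε • B) ∧ b = s + Z₀.nu (D₀ + ε • B)

section

variable {k K₀ : Type u} [Field k] [Field K₀] [Algebra k K₀] {Z₀ : ProjVar k K₀} {D₀ : Z₀.Div}

theorem Formula.add {S T : Set EReal} {a b s : EReal} (h : Formula Z₀ D₀ S a b) (hs : s ∈ T) :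
    Formula Z₀ D₀ (S + T) (s + a) (s + b) := by
  obtain ⟨s', hs', B, hB, h⟩ := h
  refine ⟨s' + s, Set.add_mem_add hs' hs, B, hB, fun ε hε => ?_⟩
  obtain ⟨h1, h2⟩ := h ε hε
  rw [h1, h2]
  constructor
  · rw [← add_assoc, add_comm s s']
  · rw [← add_assoc, add_comm s s']

theorem Formula.bot {S T : Set EReal} {a b : EReal} (h : Formula Z₀ D₀ S a b) (hT : ⊥ ∈ T) :
    Formula Z₀ D₀ (S + T) ⊥ ⊥ := by
  have := h.add hT
  rwa [EReal.bot_add, EReal.bot_add] at this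

theorem Formula.mono {S T : Set EReal} {a b : EReal} (h : Formula Z₀ D₀ S a b) (hT : S ⊆ T) :
    Formula Z₀ D₀ T a b := by
  obtain ⟨s', hs', h⟩ := h
  exact ⟨s', hT hs', h⟩

end

/-- The towers are relatively stable. -/
theorem FibTower.stableBy {k K₀ : Type u} [Field k] [Field K₀] [Algebra k K₀] [IsAlgClosed k]
    [CharZero k] {Z₀ : ProjVar k K₀} {n : ℕ} (hn : Algebra.trdeg k K₀ = n) {q₀ : Z₀.Pair n}
    (hκ₀ : Z₀.kod q₀.logDiv ≠ ⊥) {S : Set EReal} {L : Type u} [Field L] [Algebra k L]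
    {X : ProjVar k L} {m : ℕ} {p : X.Pair m} (h : FibTower Z₀ n q₀ S L X m p) :
    Algebra.trdeg k L = m ∧ StableBy (Formula Z₀ q₀.logDiv S) X p.logDiv ∧
      ∀ s ∈ S, ∃ i : ℕ, s = i ∧ n + i ≤ m := by
  induction h with
  | base =>
    refine ⟨hn, ⟨hκ₀, fun B hB => ⟨0, rfl, B, hB, fun ε hε => ?_⟩⟩, fun s hs => ⟨0, ?_, by simp⟩⟩
    · obtain ⟨h1, h2⟩ := eps_indep hκ₀ hB hε one_pos
      rw [one_smul] at h1 h2
      rw [zero_add, zero_add, h1, h2]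
      exact ⟨rfl, rfl⟩
    · rw [Set.mem_singleton_iff.1 hs, Nat.cast_zero]
  | enlarge S L X m p p' hp hΔ ih => exact ⟨ih.1, stableBy_enlarge ih.1 hΔ ih.2.1, ih.2.2⟩
  | curve S K L K' L' X Z m h p q hq hpq hΔ hκ ih =>
    refine ⟨trdeg_of_curve ih.1 h, stableBy_fibration ih.1 h p q hΔ hpq ih.2.1
      (fun s hs a b hab => hab.add ?_) hκ, ?_⟩
    · interval_cases s <;> simp
    · rintro _ ⟨s, hs, s', hs', rfl⟩
      obtain ⟨i, rfl, hi⟩ := ih.2.2 s hs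
      rcases hs' with rfl | rfl
      · exact ⟨i, by simp, by omega⟩
      · exact ⟨i + 1, by simp, by omega⟩
  | arrangement S K L K' M L' ι X Z m d hd t A p q h hA hq hpq ih =>
    refine ⟨Pool.Agent.Helper63.PB.trdeg_of_arr ih.1 A h,
      stableBy_arrangement ih.1 hd A p q h hA hpq ih.2.1 (fun a b hab => hab.add rfl), ?_⟩
    rintro _ ⟨s, hs, s', hs', rfl⟩
    obtain ⟨i, rfl, hi⟩ := ih.2.2 s hs
    rw [Set.mem_singleton_iff.1 hs']
    exact ⟨i + d, by simp, by omega⟩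
  | torus S K L X Z m r t h p q hlc hq hpq hκ ih =>
    refine ⟨trdeg_of_torus ih.1 h, stableBy_torus ih.1 h p q hlc hpq ih.2.1
      (fun s hs a b hab => hab.add ⟨s, hs, rfl⟩) hκ, ?_⟩
    rintro _ ⟨s, hs, s', ⟨j, hj, rfl⟩, rfl⟩
    obtain ⟨i, rfl, hi⟩ := ih.2.2 s hs
    exact ⟨i + j, by simp, by omega⟩
  | quotient S L M X Y m p p' hp hc h ih =>
    have h1 := (trdeg_cover hc).1 ih.1
    exact ⟨h1, stableBy_quotient hc h1 h ih.2.1, ih.2.2⟩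
  | contraction S L X X' m p p' hp hX hΔ ih =>
    exact ⟨ih.1, stableBy_contract ih.1 hX p p' hΔ ih.2.1, ih.2.2⟩

/-- The comparison formula for towers. -/
theorem FibTop.formula {k K₀ : Type u} [Field k] [Field K₀] [Algebra k K₀] [IsAlgClosed k]
    [CharZero k] {Z₀ : ProjVar k K₀} {n : ℕ} (hn : Algebra.trdeg k K₀ = n) {q₀ : Z₀.Pair n}
    (hκ₀ : Z₀.kod q₀.logDiv ≠ ⊥) {S : Set EReal} {L : Type u} [Field L] [Algebra k L]
    {X : ProjVar k L} {m : ℕ} {p : X.Pair m} (h : FibTop Z₀ n q₀ S L X m p) :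
    Algebra.trdeg k L = m ∧ Formula Z₀ q₀.logDiv S (X.kod p.logDiv) (X.nu p.logDiv) ∧
      ∀ s ∈ S, s = ⊥ ∨ ∃ i : ℕ, s = i ∧ n + i ≤ m := by
  induction h with
  | tower S L X m p hp =>
    obtain ⟨h1, h2, h3⟩ := hp.stableBy hn hκ₀
    exact ⟨h1, h2.eq, fun s hs => Or.inr (h3 s hs)⟩
  | curve S K L K' L' X Z m h p q hq hpq hΔ =>
    obtain ⟨h1, h2, h3⟩ := hq.stableBy hn hκ₀
    refine ⟨trdeg_of_curve h1 h, ?_, ?_⟩
    · rcases by_curve (Φ' := Formula Z₀ q₀.logDiv (S + {⊥, 0, 1})) h1 h p q hΔ hpq h2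
        (fun s hs a b hab => hab.add (by interval_cases s <;> simp)) with h4 | h4
      · rw [h4.1, h4.2]
        exact h2.eq.bot (by simp)
      · exact h4
    · rintro _ ⟨s, hs, s', hs', rfl⟩
      obtain ⟨i, rfl, hi⟩ := h3 s hs
      rcases hs' with rfl | rfl | rfl
      · exact Or.inl (EReal.add_bot _)
      · exact Or.inr ⟨i, by simp, by omega⟩
      · exact Or.inr ⟨i + 1, by simp, by omega⟩
  | arrangement S K L K' M L' ι X Z m d hd t A p q h hq hpq =>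
    obtain ⟨h1, h2, h3⟩ := hq.stableBy hn hκ₀
    refine ⟨Pool.Agent.Helper63.PB.trdeg_of_arr h1 A h, ?_, ?_⟩
    · rcases by_arrangement (Φ' := Formula Z₀ q₀.logDiv
        (S + {if A.h < 0 then ⊥ else if A.h = 0 then 0 else (d : EReal)})) h1 hd A p q h hpq h2
        (fun hA a b hab => hab.add (by
          rw [Set.mem_singleton_iff, if_neg (not_lt.2 hA)]
          split_ifs <;> simp)) with h4 | h4
      · rw [h4.2.1, h4.2.2]
        exact h2.eq.bot (by rw [if_pos h4.1]; rfl)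
      · exact h4.2
    · rintro _ ⟨s, hs, s', hs', rfl⟩
      obtain ⟨i, rfl, hi⟩ := h3 s hs
      rw [Set.mem_singleton_iff.1 hs']
      split_ifs
      · exact Or.inl (EReal.add_bot _)
      · exact Or.inr ⟨i, by simp, by omega⟩
      · exact Or.inr ⟨i + d, by simp, by omega⟩
  | torus S K L X Z m r t h p q hlc hq hpq =>
    obtain ⟨h1, h2, h3⟩ := hq.stableBy hn hκ₀
    refine ⟨trdeg_of_torus h1 h, ?_, ?_⟩
    · rcases by_torus (Φ' := Formula Z₀ q₀.logDiv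
        (S + {s : EReal | s = ⊥ ∨ ∃ i : ℕ, i ≤ r ∧ s = i})) h1 h p q hlc hpq h2
        (fun s hs a b hab => hab.add (Or.inr ⟨s, hs, rfl⟩)) with h4 | h4
      · rw [h4.1, h4.2]
        exact h2.eq.bot (Or.inl rfl)
      · exact h4
    · rintro _ ⟨s, hs, s', hs', rfl⟩
      obtain ⟨i, rfl, hi⟩ := h3 s hs
      rcases hs' with rfl | ⟨j, hj, rfl⟩
      · exact Or.inl (EReal.add_bot _)
      · exact Or.inr ⟨i + j, by simp, by omega⟩
  | cover S L M X Y m p p' hp hc h ih =>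
    obtain ⟨h1, h2⟩ := logPull_eq hc ih.1 h
    rw [h1, h2]
    exact ⟨(trdeg_cover hc).2 ih.1, ih.2⟩
  | quotient S L M X Y m p p' hp hc h ih =>
    have h0 := (trdeg_cover hc).1 ih.1
    obtain ⟨h1, h2⟩ := logPull_eq hc h0 h
    rw [← h1, ← h2]
    exact ⟨h0, ih.2⟩

/-- The comparison formula, with klt pairs. -/
theorem FibTop.main {k K₀ : Type u} [Field k] [Field K₀] [Algebra k K₀] [IsAlgClosed k]
    [CharZero k] {Z₀ : ProjVar k K₀} {n : ℕ} (hn : Algebra.trdeg k K₀ = n) {q₀ : Z₀.Pair n}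
    (hκ₀ : Z₀.kod q₀.logDiv ≠ ⊥) {S : Set EReal} {L : Type u} [Field L] [Algebra k L]
    {X : ProjVar k L} {m : ℕ} {p : X.Pair m} (h : FibTop Z₀ n q₀ S L X m p) :
    ∃ s ∈ S, (s = ⊥ ∨ ∃ i : ℕ, s = i ∧ n + i ≤ m) ∧ ∃ B : Z₀.Div, (∀ Q, 0 ≤ B Q) ∧
      (∀ ε : ℚ, 0 < ε → X.kod p.logDiv = s + Z₀.kod (q₀.logDiv + ε • B) ∧
        X.nu p.logDiv = s + Z₀.nu (q₀.logDiv + ε • B)) ∧
      (Z₀.IsSmooth n → Z₀.IsQFactorial → Z₀.IsKlt q₀.ω q₀.can q₀.Δ →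
        ∃ ε₀ : ℚ, 0 < ε₀ ∧ ∀ ε, 0 < ε → ε ≤ ε₀ → Z₀.IsKlt q₀.ω q₀.can (q₀.Δ + ε • B)) := by
  obtain ⟨-, ⟨s, hs, B, hB, h1⟩, h2⟩ := h.formula hn hκ₀
  exact ⟨s, hs, h2 s hs, B, hB, h1, fun hsm hqf hklt => klt_add_smul hn Z₀ hsm hqf q₀ hklt B⟩

end Pool.Agent.Helper92.HA
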