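import Pool.Agent.Helper92.HA.Stat
import Pool.Agent.Helper92.Tor.Defs
import Pool.Agent.Helper47.PQ.Defs
import Pool.Agent.Helper63.PB.CurveDefs
import Pool.Agent.Helper63.PB.CoverDefs
import Pool.Agent.Helper63.PB.Big

set_option autoImplicit false

/-!
# HR GoodDefs: the fibrations of the comparison theorem
-/

namespace Pool.Agent.Helper92.HA

open Pool.Agent.Helper92.Weak Pool.Agent.Helper92.Ga Pool.Agent.Helper47.PQ
open Pool.Agent.Helper63.PB

universe u

/-- `GoodFibration Z n S L X r p`: `p = (K_X, Δ)` is a pair on the variety `X` of dimension `n + r` over the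
variety `Z` of dimension `n`, of one of the types `curve`, `arrangement`, `torus`, or it is obtained
from such a pair by crepant finite covers and quotients over `Z`; `S` are the values allowed for
the Kodaira dimension of the general fibre. -/
inductive GoodFibration {k K : Type u} [Field k] [Field K] [Algebra k K] (Z : ProjVar k K)
    (n : ℕ) : Set EReal → (L : Type u) → [Field L] → [Algebra k L] → [Algebra K L] →
    (X : ProjVar k L) → (r : ℕ) → X.Pair (n + r) → Prop
  /-- fibrations in curves of genus at most one; in the case of genus zero all horizontal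
  coefficients are at most one, or `K_X + min(Δ, 1)` has positive degree on the generic fibre -/
  | curve (L K' L' : Type u) [Field L] [Field K'] [Field L'] [Algebra k L] [Algebra k K']
      [Algebra k L'] [Algebra K L] [Algebra K K'] [Algebra K L'] [Algebra L L'] [Algebra K' L']
      [IsScalarTower k K L] [IsScalarTower k K K'] [IsScalarTower k K L'] [IsScalarTower k L L']
      [IsScalarTower k K' L'] [IsScalarTower K L L'] [IsScalarTower K K' L'] (X : ProjVar k L)
      (p : X.Pair (n + 1)) (h : IsCurveFibration K' L' X Z)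
      (hΔ : (¬ ∃ t : L', Transcendental K' t ∧ IntermediateField.adjoin K' {t} = ⊤) ∨
        (∀ P : X.primeDivisors, (∀ x : K, P.1 (algebraMap K L x) = 0) → p.Δ P ≤ 1) ∨
        IsBigOnFibre K p) : GoodFibration Z n {⊥, 0, 1} L X 1 p
  /-- the general fibre is compared with a log canonical hyperplane arrangement of `ℙᵈ`, `h` is the
  degree of `K + Δ` on `ℙᵈ` -/
  | arrangement (L K' M L' ι : Type u) [Field L] [Field K'] [Field M] [Field L'] [Algebra k L]
      [Algebra k K'] [Algebra k M] [Algebra k L'] [Algebra K L] [Algebra K K'] [Algebra K L']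
      [Algebra L L'] [Algebra K' M] [Algebra K' L'] [Algebra M L'] [IsScalarTower k K L]
      [IsScalarTower k K K'] [IsScalarTower k K L'] [IsScalarTower k L L'] [IsScalarTower k K' M]
      [IsScalarTower k K' L'] [IsScalarTower k M L'] [IsScalarTower K L L']
      [IsScalarTower K K' L'] [IsScalarTower K' M L'] [Fintype ι] [DecidableEq ι]
      (X : ProjVar k L) (d : ℕ) (hd : 0 < d) (t : Fin d → M) (A : Arr K' L' t ι)
      (p : X.Pair (n + d)) (h : IsArrangement X p.Δ Z A) :
      GoodFibration Z n {if A.h < 0 then ⊥ else if A.h = 0 then 0 else (d : EReal)} L X d p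
  /-- torus actions, log canonical pairs -/
  | torus (L : Type u) [Field L] [Algebra k L] [Algebra K L] [IsScalarTower k K L]
      (X : ProjVar k L) (r : ℕ) (t : Fin r → L) (p : X.Pair (n + r)) (h : IsTorusVariety t X Z)
      (hlc : p.LC) : GoodFibration Z n {s | s = ⊥ ∨ ∃ i : ℕ, i ≤ r ∧ s = i} L X r p
  /-- finite covers `X → Y`, where `K_X + Δ` is the pull-back of `K_Y + Δ'` -/
  | cover (S : Set EReal) (L M : Type u) [Field L] [Field M] [Algebra k L] [Algebra k M]
      [Algebra L M] [Algebra K L] [Algebra K M] [IsScalarTower k L M] [IsScalarTower K L M]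
      (X : ProjVar k M) (Y : ProjVar k L) (r : ℕ) (p : X.Pair (n + r)) (p' : Y.Pair (n + r))
      (hp : GoodFibration Z n S L Y r p') (hc : IsFiniteCover X Y) (h : IsLogPull p.Δ p'.Δ) :
      GoodFibration Z n S M X r p
  /-- finite quotients `X → Y`, where `K_X + Δ` is the pull-back of `K_Y + Δ'` -/
  | quotient (S : Set EReal) (L M : Type u) [Field L] [Field M] [Algebra k L] [Algebra k M]
      [Algebra L M] [Algebra K L] [Algebra K M] [IsScalarTower k L M] [IsScalarTower K L M]
      (X : ProjVar k M) (Y : ProjVar k L) (r : ℕ) (p : X.Pair (n + r)) (p' : Y.Pair (n + r))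
      (hp : GoodFibration Z n S M X r p) (hc : IsFiniteCover X Y) (h : IsLogPull p.Δ p'.Δ) :
      GoodFibration Z n S L Y r p'

end Pool.Agent.Helper92.HA
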