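import Pool.Agent.Helper92.HR.GoodDefs
import Pool.Agent.Helper92.HR.CoverMain
import Pool.Agent.Helper92.Tor.Final
import Pool.Agent.Helper63.PB.Curve
import Pool.Agent.Helper63.PB.CurveCover
import Pool.Agent.Helper63.PB.StableTorus

set_option autoImplicit false

/-!
# HR GoodMain: the comparison formula for fibrations
-/

namespace Pool.Agent.Helper92.HA

open Pool.Agent.Helper92.Weak Pool.Agent.Helper92.Ga Pool.Agent.Helper47.PQ
open Pool.Agent.Helper63.PB

universe u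

/-- If `X → Y` is a finite cover, `K_X + Δ` is the pull back of `K_Y + Δ'`, and `q` is a part of the
orbifold divisor of `(Y, Δ') → Z`, then it is a part of the orbifold divisor of `(X, Δ) → Z`. -/
theorem orbifold_of_quotient {k K L E : Type*} [Field k] [Field K] [Field L] [Field E]
    [Algebra k K] [Algebra k L] [Algebra k E] [Algebra K L] [Algebra K E] [Algebra L E]
    [IsScalarTower k L E] [IsScalarTower K L E] {X : ProjVar k E} {Y : ProjVar k L}
    {Z : ProjVar k K} (hc : IsFiniteCover X Y) {m n : ℕ} {p : X.Pair m}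
    {p' : Y.Pair m} (hp : IsLogPull p.Δ p'.Δ) {q : Z.Pair n} (hq : IsOrbifoldBase p' q) :
    IsOrbifoldBase p q := by
  intro P Q e hPQ
  obtain ⟨P', hP', e₁, hPP'⟩ := hc.equi P.1 P.2
  -- `P'` lies over `Q`
  obtain ⟨c, hc1, hc2⟩ : ∃ c : ℕ, 0 < c ∧ LiesOver P' Q.1 c := by
    have h1 : ∀ a : K, (e₁ : ℤ) * P' (algebraMap K L a) = e * Q.1 a := by
      intro a
      rw [← hPP'.2, ← IsScalarTower.algebraMap_apply, hPQ.2]
    obtain ⟨a, ha⟩ := Q.1.surj'
    have ha' : Q.1 a = 1 := ha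
    have h2 : (e₁ : ℤ) * P' (algebraMap K L a) = e := by
      rw [h1, ha', mul_one]
    have h3 : 0 < P' (algebraMap K L a) := by
      have h4 : (0 : ℤ) < e₁ * P' (algebraMap K L a) := by
        rw [h2]
        exact_mod_cast hPQ.1
      exact pos_of_mul_pos_right h4 (by positivity)
    obtain ⟨c, hc⟩ := Int.eq_ofNat_of_zero_le h3.le
    refine ⟨c, by omega, by omega, fun b => ?_⟩
    have h5 := h1 b
    rw [← h2, hc] at h5
    have h6 : (e₁ : ℤ) ≠ 0 := by exact_mod_cast hPP'.1.ne'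
    rw [mul_assoc] at h5
    exact mul_left_cancel₀ h6 h5
  have he : e = e₁ * c := by
    obtain ⟨a, ha⟩ := Q.1.surj'
    have ha' : Q.1 a = 1 := ha
    have h1 := hPQ.2 a
    rw [IsScalarTower.algebraMap_apply K L E, hPP'.2, hc2.2, ha'] at h1
    have h2 : (e : ℤ) = (e₁ * c : ℕ) := by
      push_cast
      linarith
    exact_mod_cast h2
  have h2 := hp P ⟨P', hP'⟩ e₁ hPP'
  have h3 := hq ⟨P', hP'⟩ Q c hc2
  have h4 : (0 : ℚ) ≤ e₁ := Nat.cast_nonneg _
  have h5 := mul_le_mul_of_nonneg_left h3 h4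
  rw [he]
  push_cast
  nlinarith

theorem GoodFibration.trdeg {k K : Type u} [Field k] [Field K] [Algebra k K] [IsAlgClosed k]
    [CharZero k] {Z : ProjVar k K} {n : ℕ} (hn : Algebra.trdeg k K = n) {S : Set EReal}
    {L : Type u} [Field L] [Algebra k L] [Algebra K L] {X : ProjVar k L} {r : ℕ}
    {p : X.Pair (n + r)} (h : GoodFibration Z n S L X r p) :
    Algebra.trdeg k L = (n + r : ℕ) := by
  induction h with
  | curve L K' L' X p h hΔ => exact trdeg_of_curve hn h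
  | arrangement L K' M L' ι X d hd t A p h =>
    have j1 := h.finK
    have j2 := h.finL
    exact trdeg_of_arr (L := L) hn A
  | torus L X r t p h hlc => exact trdeg_of_torus hn h
  | cover S L M X Y r p p' hp hc h ih => exact (trdeg_cover hc).2 ih
  | quotient S L M X Y r p p' hp hc h ih => exact (trdeg_cover hc).1 ih

/-- The bounds for the Kodaira dimension of the general fibre. -/
theorem GoodFibration.bound {k K : Type u} [Field k] [Field K] [Algebra k K] {Z : ProjVar k K}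
    {n : ℕ} {S : Set EReal} {L : Type u} [Field L] [Algebra k L] [Algebra K L]
    {X : ProjVar k L} {r : ℕ} {p : X.Pair (n + r)} (h : GoodFibration Z n S L X r p) :
    ∀ s ∈ S, s = ⊥ ∨ ∃ i : ℕ, i ≤ r ∧ s = i := by
  induction h with
  | curve L K' L' X p h hΔ =>
    rintro s (rfl | rfl | rfl)
    · exact Or.inl rfl
    · exact Or.inr ⟨0, by simp, by simp⟩
    · exact Or.inr ⟨1, le_rfl, by simp⟩
  | arrangement L K' M L' ι X d hd t A p h =>
    intro s hs
    rw [Set.mem_singleton_iff.1 hs]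
    split_ifs
    · exact Or.inl rfl
    · exact Or.inr ⟨0, by simp, by simp⟩
    · exact Or.inr ⟨d, le_rfl, rfl⟩
  | torus L X r t p h hlc => exact fun s hs => hs
  | cover S L M X Y r p p' hp hc h ih => exact ih
  | quotient S L M X Y r p p' hp hc h ih => exact ih

/-- The comparison formula. -/
theorem GoodFibration.main {k K : Type u} [Field k] [Field K] [Algebra k K] [IsAlgClosed k]
    [CharZero k] {Z : ProjVar k K} {n : ℕ} (hn : Algebra.trdeg k K = n) {S : Set EReal}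
    {L : Type u} [Field L] [Algebra k L] [Algebra K L] {X : ProjVar k L} {r : ℕ}
    {p : X.Pair (n + r)} (h : GoodFibration Z n S L X r p) (q : Z.Pair n)
    (hq : IsOrbifoldBase p q) (hκ : Z.kod q.logDiv ≠ ⊥) :
    ∃ s ∈ S, ∃ B : Z.Div, (∀ Q, 0 ≤ B Q) ∧
      (∀ ε : ℚ, 0 < ε → X.kod p.logDiv = s + Z.kod (q.logDiv + ε • B) ∧
        X.nu p.logDiv = s + Z.nu (q.logDiv + ε • B)) ∧
      (Z.IsSmooth n → Z.IsQFactorial → Z.IsKlt q.ω q.can q.Δ →
        ∃ ε₀ : ℚ, 0 < ε₀ ∧ ∀ ε, 0 < ε → ε ≤ ε₀ → Z.IsKlt q.ω q.can (q.Δ + ε • B)) := by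
  have hbot : ∀ {L : Type u} [Field L] [Algebra k L] (X : ProjVar k L) (D : X.Div)
      (S : Set EReal), ⊥ ∈ S → X.kod D = ⊥ ∧ X.nu D = ⊥ → ∃ s ∈ S, ∃ B : Z.Div,
      (∀ Q, 0 ≤ B Q) ∧ (∀ ε : ℚ, 0 < ε → X.kod D = s + Z.kod (q.logDiv + ε • B) ∧
        X.nu D = s + Z.nu (q.logDiv + ε • B)) ∧
      (Z.IsSmooth n → Z.IsQFactorial → Z.IsKlt q.ω q.can q.Δ →
        ∃ ε₀ : ℚ, 0 < ε₀ ∧ ∀ ε, 0 < ε → ε ≤ ε₀ → Z.IsKlt q.ω q.can (q.Δ + ε • B)) := by
    intro L _ _ X D S hS h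
    refine ⟨⊥, hS, 0, fun Q => le_rfl, fun ε _ => ?_,
      fun hsm hqf hklt => Pool.Agent.Helper92.Ga.klt_add_smul hn Z hsm hqf q hklt 0⟩
    rw [EReal.bot_add, EReal.bot_add]
    exact h
  induction h with
  | curve L K' L' X p h hΔ =>
    have hmain : (X.kod p.logDiv = ⊥ ∧ X.nu p.logDiv = ⊥) ∨
        ∃ (s : ℕ) (B : Z.Div), s ≤ 1 ∧ (∀ Q, 0 ≤ B Q) ∧ ∀ ε : ℚ, 0 < ε →
          X.kod p.logDiv = s + Z.kod (q.logDiv + ε • B) ∧
          X.nu p.logDiv = s + Z.nu (q.logDiv + ε • B) := by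
      rcases hΔ with h0 | h0
      · rcases h.curve with hc | hc
        · exact absurd hc h0
        · exact Or.inr (Pool.Agent.Helper60.PB.emain hn
            ⟨h.mor, h.equi, h.finite, h.pushout, hc⟩ p q hq hκ)
      · exact curve_main hn h p q h0 hq hκ
    rcases hmain with h1 | ⟨s, B, hs, hB, h1⟩
    · exact hbot X _ _ (by simp) h1
    · refine ⟨s, ?_, B, hB, h1,
        fun hsm hqf hklt => Pool.Agent.Helper92.Ga.klt_add_smul hn Z hsm hqf q hklt B⟩
      interval_cases s <;> simp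
  | arrangement L K' M L' ι X d hd t A p h =>
    obtain ⟨h1, h2⟩ := mainR hn hd A p q h hq hκ
    by_cases h0 : A.h < 0
    · exact hbot X _ _ (by simp [h0]) (h1 h0)
    · obtain ⟨s, B, hs, hB, h3, h4⟩ := h2 (not_lt.1 h0)
      refine ⟨s, ?_, B, hB, h3, h4⟩
      rw [Set.mem_singleton_iff, if_neg h0, hs]
      split_ifs <;> simp
  | torus L X r t p h hlc =>
    rcases Pool.Agent.Helper92.Tor.torus_variety_pair hn Z X h p hlc q hq hκ with
      h1 | ⟨s, B, hs, hB, h1, h2⟩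
    · exact hbot X _ _ (by simp) h1
    · exact ⟨s, Or.inr ⟨s, hs, rfl⟩, B, hB, h1, h2⟩
  | cover S L M X Y r p p' hp hc h ih =>
    obtain ⟨h1, h2⟩ := logPull_eq hc (hp.trdeg hn) h
    rw [h1, h2]
    exact ih (orbifold_of_cover hc h hq)
  | quotient S L M X Y r p p' hp hc h ih =>
    obtain ⟨h1, h2⟩ := logPull_eq hc ((trdeg_cover hc).1 (hp.trdeg hn)) h
    rw [← h1, ← h2]
    exact ih (orbifold_of_quotient hc h hq)

end Pool.Agent.Helper92.HA
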