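import Pool.Agent.Helper92.HR.Above
import Pool.Agent.Helper92.HR.Sigma
import Pool.Agent.Helper92.HR.OrdPos
import Pool.Agent.Helper92.HA.MkHorA
import Pool.Agent.Helper63.PB.Unram
import Pool.Agent.Helper63.PB.Finite

set_option autoImplicit false

/-!
# HR-12 MkHorR: the horizontal data if `N = 1`

`N = 1`: all `r i` are in `M`, so `M → L'` is onto (`gen`), and `L' = K'(t)`: `IsTorus K' (tL L' t)`. Every `v` over a horizontal `P` is
unramified over `P`: `ε = 1` (`Helper63.PB.unram`), and `v` is trivial on `K'`. `T = horT A` as in MkHorA (for `sec`, `kill`, `poly`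
use `horT_sec`, `horT_kill`, `horT_poly`, `horT_cases` of MkHorA or their proofs); a valuation over a prime divisor `D` of `ℙᵈ` with
multiplicity `e` is onto `ℤ`, so `e = 1`: `v` is `D` (`M → L'` is onto).

By `hF` and `hasOrd_wedge` (as in MkHorA) `IsLogDisc K v ℓ` holds for `ℓ = 1 + (a P + 1 - 1 - v u) - ((d + 1) m + ∑ δ_i (v (l i) - m))` for
all `v` over `P` horizontal and `m` with `IsMin A v m`. So `disc` is `H.disc`: `v u + (d + 1) m + ∑ δ_i (v (l_i) - m) ≤ a P + Δ P`.
Put `S v = a P + Δ P - (v u + (d + 1) m + ∑ δ_i (v (l_i) - m)) ≥ 0`.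
FINITENESS. `S v = 0` if `a P = 0`, `Δ P = 0`, `v u = 0` and all `v (l i) = 0`; these hold for all but finitely many `P` (finite supports,
`Helper63.PB.finite_ne`), with finitely many `v` over each `P` (`finite_above`). So `S v > 0` for finitely many `v ∈ T` only.
`G`: for each of the finitely many `v ∈ T` with `S v > 0` and `v` over a finite `D` (all `D (t j) ≥ 0`) take the irreducible polynomial `g₀` of `D`
(`proj_fin`); `G₀` = the product of these, and `G` = the polynomial in the coordinates `sc j` with `ev j G = G₀(t)` (`poly_co`),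
`G.totalDegree ≤ G₀.totalDegree`. If the hyperplane at infinity is not among the `v` with
`S v > 0` then `n = G.totalDegree`, otherwise `n = G.totalDegree + 1`. `G ≠ 0`, `G₀.totalDegree = G.totalDegree` (`poly_co` and `poly_co'`,
`ev` is injective).
`w` = the maximum of the finitely many `S v`, or `0`.
`up`: `v ∈ T` over `D`. If `S v = 0`: `ev_ge` and `w ≥ 0`. If `S v > 0`: `v (ev j G) - n m ≥ 1`: `D` finite: `m = 0` and `g₀ ∣ G₀`;
`D` infinite: `m = -1`, `v (G₀(t)) = -deg G₀` (`proj_inf`), `n = deg G₀ + 1`. So `w (v (ev) - n m) ≥ w ≥ S v`.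
`slack`: let `n m < v (ev j G)`. (a) `v ∈ T`: then `S v > 0`: `D` finite: `v (G₀(t)) > 0`, so the irreducible polynomial of `D` divides one of the
irreducible factors of `G₀`, so `D` is one of the chosen ones (a prime divisor is determined by its polynomial: two valuations with
the same value `1` on `g₀` and `0` on polynomials not divisible by `g₀` agree: `exists_aeval_div`); `D` infinite: `v (ev) - n m = -deg G₀ + n > 0`
means `n = deg G₀ + 1`. And `v (l i) ≥ m`, so `v u + (d + 1) m ≤ a P + Δ P - S v < a P + Δ P`.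
(b) `v ∉ T`. If some `v (l i) > m`: `v u + (d + 1) m < v u + (d + 1) m + ∑ δ_i (v (l_i) - m) ≤ a P + Δ P`. Otherwise all `v (l i) = m = v (l o) = 0`,
so `v (t j) ≥ 0` for all `j` (the `l i` span all affine functions over `K'`: `full`, and `v` is trivial on `K'`). `order_pos` (with
`y' = algebraMap K K' ∘ y`, `omD_base`; `hT`: if `v` were the multiplicity of an irreducible `g₀`, then by `exists_fin` it would be the
valuation of a prime divisor of `ℙᵈ`) gives `1 ≤ a P - v u`, so `v u < a P ≤ a P + Δ P` (`hΔ`).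
-/

namespace Pool.Agent.Helper92.HA

open Module Pool.Agent.Helper92.Weak Pool.Agent.Helper63.PB

variable {k K L K' M L' : Type*} [Field k] [Field K] [Field L] [Field K'] [Field M] [Field L']
  [Algebra k K] [Algebra k L] [Algebra k K'] [Algebra k M] [Algebra k L'] [Algebra K L]
  [Algebra K K'] [Algebra K L'] [Algebra L L'] [Algebra K' M] [Algebra K' L'] [Algebra M L']
  [IsScalarTower k K L] [IsScalarTower k K K'] [IsScalarTower k K L'] [IsScalarTower k L L']
  [IsScalarTower k K' M] [IsScalarTower k K' L'] [IsScalarTower k M L'] [IsScalarTower K L L']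
  [IsScalarTower K K' L'] [IsScalarTower K' M L'] [FiniteDimensional K K']
  [FiniteDimensional L L'] [FiniteDimensional M L'] [CharZero k] {d : ℕ}
  {X : ProjVar k L} {Z : ProjVar k K} {t : Fin d → M} {ι : Type*} [Fintype ι] [DecidableEq ι]

/-! ### Auxiliary lemmas -/

section HrAux

/-- `v` is the multiplicity of `p`. -/
private def HrMult {k₁ κ E : Type*} [Field k₁] [Field κ] [Field E] [Algebra k₁ E] [Algebra κ E]
    {d : ℕ} (v : DVal k₁ E) (τ : Fin d → E) (p : MvPolynomial (Fin d) κ) : Prop :=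
  v (MvPolynomial.aeval τ p) = 1 ∧ ∀ g, ¬ p ∣ g → v (MvPolynomial.aeval τ g) = 0

/-- `v` is minus the degree. -/
private def HrInf {k₁ : Type*} (κ : Type*) {E : Type*} [Field k₁] [Field κ] [Field E]
    [Algebra k₁ E] [Algebra κ E] {d : ℕ} (v : DVal k₁ E) (τ : Fin d → E) : Prop :=
  ∀ g : MvPolynomial (Fin d) κ, g ≠ 0 →
    v (MvPolynomial.aeval τ g) = -(g.totalDegree : ℤ)

variable {k₁ κ E : Type*} [Field k₁] [Field κ] [Field E] [Algebra k₁ E] [Algebra κ E]
  {d : ℕ} {v v' : DVal k₁ E} {τ : Fin d → E} {p q : MvPolynomial (Fin d) κ}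

private theorem hr_aeval_ne (hτ : AlgebraicIndependent κ τ) {g : MvPolynomial (Fin d) κ}
    (hg : g ≠ 0) : MvPolynomial.aeval τ g ≠ 0 := fun h => hg (hτ (by rw [h, map_zero]))

private theorem hr_mult_val (hτ : AlgebraicIndependent κ τ) (hp : Irreducible p)
    (h : HrMult v τ p) {g : MvPolynomial (Fin d) κ} (hg : g ≠ 0) :
    v (MvPolynomial.aeval τ g) = (multiplicity p g : ℤ) := by
  obtain ⟨c, hc, hnc⟩ :=
    (FiniteMultiplicity.of_not_isUnit hp.not_isUnit hg).exists_eq_pow_mul_and_not_dvd
  have hc0 : c ≠ 0 := by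
    rintro rfl
    exact hnc (dvd_zero _)
  have h1 : v (MvPolynomial.aeval τ (p ^ multiplicity p g * c)) = (multiplicity p g : ℤ) := by
    rw [map_mul, map_pow, v.map_mul (pow_ne_zero _ (hr_aeval_ne hτ hp.ne_zero))
      (hr_aeval_ne hτ hc0), v.map_pow, h.1, h.2 c hnc]
    ring
  rw [← hc] at h1
  exact h1

private theorem hr_mult_nonneg (hτ : AlgebraicIndependent κ τ) (hp : Irreducible p)
    (h : HrMult v τ p) (g : MvPolynomial (Fin d) κ) : 0 ≤ v (MvPolynomial.aeval τ g) := by
  by_cases hg : g = 0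
  · rw [hg, map_zero, v.map_zero]
  · rw [hr_mult_val hτ hp h hg]
    exact Int.natCast_nonneg _

private theorem hr_mult_assoc (hτ : AlgebraicIndependent κ τ) (hp : Irreducible p)
    (hq : Irreducible q) (hpq : p ∣ q) (h : HrMult v τ p) : HrMult v τ q := by
  have ha : Associated p q := hp.associated_of_dvd hq hpq
  obtain ⟨u, hu⟩ := ha
  have hnu : ¬ p ∣ (u : MvPolynomial (Fin d) κ) := fun h1 =>
    hp.not_isUnit (isUnit_of_dvd_unit h1 u.isUnit)
  refine ⟨?_, fun g hg => h.2 g fun h1 => hg ?_⟩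
  · rw [← hu, map_mul, v.map_mul (hr_aeval_ne hτ hp.ne_zero) (hr_aeval_ne hτ u.isUnit.ne_zero),
      h.1, h.2 _ hnu, add_zero]
  · exact (Associated.dvd_iff_dvd_left ⟨u, hu⟩).1 h1

private theorem hr_mult_unique (hτ : IsTorus κ τ) (hp : Irreducible p) (h : HrMult v τ p)
    (h' : HrMult v' τ p) : v = v' := by
  apply DVal.ext
  intro z
  obtain ⟨a, b, hb, hz⟩ := exists_aeval_div hτ z
  by_cases ha : a = 0
  · rw [hz, ha, map_zero, zero_div, v.map_zero, v'.map_zero]
  · rw [hz, v.map_div (hr_aeval_ne hτ.indep ha) (hr_aeval_ne hτ.indep hb),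
      v'.map_div (hr_aeval_ne hτ.indep ha) (hr_aeval_ne hτ.indep hb),
      hr_mult_val hτ.indep hp h ha, hr_mult_val hτ.indep hp h hb,
      hr_mult_val hτ.indep hp h' ha, hr_mult_val hτ.indep hp h' hb]

private theorem hr_inf_unique (hτ : IsTorus κ τ) (h : HrInf κ v τ) (h' : HrInf κ v' τ) :
    v = v' := by
  apply DVal.ext
  intro z
  obtain ⟨a, b, hb, hz⟩ := exists_aeval_div hτ z
  by_cases ha : a = 0
  · rw [hz, ha, map_zero, zero_div, v.map_zero, v'.map_zero]
  · rw [hz, v.map_div (hr_aeval_ne hτ.indep ha) (hr_aeval_ne hτ.indep hb),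
      v'.map_div (hr_aeval_ne hτ.indep ha) (hr_aeval_ne hτ.indep hb), h a ha, h b hb, h' a ha,
      h' b hb]

private theorem hr_affP_degree (x : Fin (d + 1) → κ) : (affP x).totalDegree ≤ 1 := by
  unfold affP
  refine (MvPolynomial.totalDegree_add _ _).trans (max_le ?_ ?_)
  · rw [MvPolynomial.totalDegree_C]
    exact zero_le_one
  · refine MvPolynomial.totalDegree_finsetSum_le fun j _ => ?_
    refine (MvPolynomial.totalDegree_mul _ _).trans ?_
    rw [MvPolynomial.totalDegree_C, MvPolynomial.totalDegree_X]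

private theorem hr_affP_aeval (τ : Fin d → E) (x : Fin (d + 1) → κ) :
    MvPolynomial.aeval τ (affP x) = affine τ x := by
  unfold affP affine
  rw [map_add, MvPolynomial.aeval_C, map_sum]
  congr 1
  refine Finset.sum_congr rfl fun j _ => ?_
  rw [map_mul, MvPolynomial.aeval_C, MvPolynomial.aeval_X]

end HrAux

private theorem hr_l (A : Arr K' L' t ι) (i : ι) :
    A.l i = MvPolynomial.aeval (tL L' t) (affP (A.co i)) := by
  rw [hr_affP_aeval, affine_map]

private theorem hr_surj (A : Arr K' L' t ι) (hN : A.N = 1) :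
    Function.Surjective (algebraMap M L') := by
  have h1 : Algebra.adjoin M (Set.range A.r) ≤ ⊥ := by
    rw [Algebra.adjoin_le_iff]
    rintro _ ⟨i, rfl⟩
    have h2 := A.r_pow i
    rw [hN, pow_one] at h2
    rw [h2]
    exact Subalgebra.algebraMap_mem _ _
  intro z
  have h3 : z ∈ (⊥ : Subalgebra M L') := h1 (by rw [A.gen]; trivial)
  rwa [Algebra.mem_bot] at h3

private theorem hr_aeval (g : MvPolynomial (Fin d) K') :
    MvPolynomial.aeval (tL L' t) g = algebraMap M L' (MvPolynomial.aeval t g) :=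
  MvPolynomial.aeval_algebraMap_apply L' t g

private theorem hr_indep (A : Arr K' L' t ι) : AlgebraicIndependent K' (tL L' t) :=
  A.torus.indep.map' (f := IsScalarTower.toAlgHom K' M L') (algebraMap M L').injective

private theorem hr_torus (A : Arr K' L' t ι) (hN : A.N = 1) : IsTorus K' (tL L' t) := by
  refine ⟨hr_indep A, ?_⟩
  have h1 := congrArg (IntermediateField.map (IsScalarTower.toAlgHom K' M L')) A.torus.gen
  rw [IntermediateField.adjoin_map, ← AlgHom.fieldRange_eq_map] at h1
  have h2 : (IsScalarTower.toAlgHom K' M L') '' Set.range t = Set.range (tL L' t) := by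
    rw [← Set.range_comp]
    rfl
  rw [h2] at h1
  rw [h1, AlgHom.fieldRange_eq_top]
  exact hr_surj A hN

private theorem hr_exists_co (A : Arr K' L' t ι) (hd : 0 < d) :
    ∃ i, ∃ j : Fin d, A.co i j.succ ≠ 0 := by
  by_contra hcon
  push Not at hcon
  let j₀ : Fin d := ⟨0, hd⟩
  have h1 : ∀ x ∈ Submodule.span K' (Set.range A.co), x j₀.succ = 0 := by
    intro x hx
    induction hx using Submodule.span_induction with
    | mem x hx =>
      obtain ⟨i, rfl⟩ := hx
      exact hcon i j₀
    | zero => rfl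
    | add x y _ _ hx hy => rw [Pi.add_apply, hx, hy, add_zero]
    | smul c x _ hx => rw [Pi.smul_apply, hx, smul_zero]
  have h2 := h1 (Pi.single j₀.succ 1) (by rw [A.full]; trivial)
  rw [Pi.single_eq_same] at h2
  exact one_ne_zero h2

private theorem hr_min_fin (A : Arr K' L' t ι) {v : DVal k L'} {p : MvPolynomial (Fin d) K'}
    (hp : Irreducible p) (h : HrMult v (tL L' t) p) : IsMin A v 0 := by
  refine ⟨fun i => ?_, A.o, ?_⟩
  · rw [hr_l]
    exact hr_mult_nonneg (hr_indep A) hp h _
  · rw [l_o_one, v.map_one]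

private theorem hr_min_inf (A : Arr K' L' t ι) (hd : 0 < d) {v : DVal k L'}
    (h : HrInf K' v (tL L' t)) : IsMin A v (-1) := by
  have hne : ∀ i, affP (A.co i) ≠ 0 := by
    intro i h0
    apply l_ne A i
    rw [hr_l, h0, map_zero]
  refine ⟨fun i => ?_, ?_⟩
  · rw [hr_l, h _ (hne i)]
    have h1 := hr_affP_degree (A.co i)
    omega
  · obtain ⟨i, hi⟩ := hr_exists_co A hd
    refine ⟨i, ?_⟩
    rw [hr_l, h _ (hne i)]
    have h1 := hr_affP_degree (A.co i)
    have h2 : (affP (A.co i)).totalDegree ≠ 0 := by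
      intro h3
      rw [MvPolynomial.totalDegree_eq_zero_iff_eq_C] at h3
      have h4 := irreducible_affP hi
      by_cases h5 : (affP (A.co i)).coeff 0 = 0
      · rw [h5, MvPolynomial.C_0] at h3
        exact hne i h3
      · apply h4.not_isUnit
        rw [h3]
        exact (isUnit_iff_ne_zero.2 h5).map MvPolynomial.C
    omega

private theorem hr_min_unique {A : Arr K' L' t ι} {v : DVal k L'} {m m' : ℤ} (h : IsMin A v m)
    (h' : IsMin A v m') : m = m' := by
  obtain ⟨i, hi⟩ := h.2
  obtain ⟨i', hi'⟩ := h'.2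
  have h1 := h.1 i'
  have h2 := h'.1 i
  omega

private theorem hr_exists_min (A : Arr K' L' t ι) (v : DVal k L') : ∃ m, IsMin A v m := by
  obtain ⟨i, -, hi⟩ := Finset.exists_min_image Finset.univ (fun i => v (A.l i))
    ⟨A.o, Finset.mem_univ _⟩
  exact ⟨v (A.l i), fun j => hi j (Finset.mem_univ j), i, rfl⟩

/-- The valuations over the prime divisors of projective space. -/
private def hrT (A : Arr K' L' t ι) (k : Type*) [Field k] [Algebra k L'] : Set (DVal k L') :=
  {v | ∃ D ∈ (projSpace A.torus).primeDivisors, ∃ e : ℕ, 0 < e ∧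
    ∀ x : M, v (algebraMap M L' x) = e * D x}

private theorem hr_e {A : Arr K' L' t ι} (hN : A.N = 1) {v : DVal k L'} {D : DVal K' M} {e : ℕ}
    (h : ∀ x : M, v (algebraMap M L' x) = e * D x) : e = 1 := by
  obtain ⟨a, ha⟩ := v.surj'
  obtain ⟨x, rfl⟩ := hr_surj A hN a
  have h1 := h x
  have h2 : (e : ℤ) * D x = 1 := by
    rw [← h1]
    exact ha
  have h3 : (e : ℤ) = 1 ∨ (e : ℤ) = -1 := Int.isUnit_iff.1 (IsUnit.of_mul_eq_one _ h2)
  omega

private theorem hr_cases {A : Arr K' L' t ι} (hN : A.N = 1) {v : DVal k L'} (hv : v ∈ hrT A k) :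
    (∃ p : MvPolynomial (Fin d) K', Irreducible p ∧ HrMult v (tL L' t) p) ∨
      HrInf K' v (tL L' t) := by
  obtain ⟨D, hD, e, -, h⟩ := hv
  have he := hr_e hN h
  subst he
  have h' : ∀ g : MvPolynomial (Fin d) K', v (MvPolynomial.aeval (tL L' t) g) =
      D (MvPolynomial.aeval t g) := by
    intro g
    rw [hr_aeval, h, Nat.cast_one, one_mul]
  by_cases hj : ∀ j, 0 ≤ D (t j)
  · obtain ⟨p, hp, h1, h2⟩ := proj_fin A.torus hD hj
    exact Or.inl ⟨p, hp, by rw [h', h1], fun g hg => by rw [h', h2 g hg]⟩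
  · exact Or.inr fun g hg => by rw [h', proj_inf A.torus hD hj g hg]

private theorem hr_mem_fin {A : Arr K' L' t ι} {v : DVal k L'} {p : MvPolynomial (Fin d) K'}
    (hp : Irreducible p) (h : HrMult v (tL L' t) p) : v ∈ hrT A k := by
  obtain ⟨D, hD, -, h1, h2⟩ := exists_fin A.torus hp
  refine ⟨D, hD, 1, one_pos, fun x => ?_⟩
  have hD' : HrMult D t p := ⟨h1, h2⟩
  obtain ⟨a, b, hb, hx⟩ := exists_aeval_div A.torus x
  have hi := hr_indep A
  by_cases ha : a = 0
  · rw [hx, ha, map_zero, zero_div, map_zero, v.map_zero, D.map_zero, mul_zero]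
  · rw [hx, map_div₀, ← hr_aeval, ← hr_aeval, v.map_div (hr_aeval_ne hi ha) (hr_aeval_ne hi hb),
      D.map_div (hr_aeval_ne A.torus.indep ha) (hr_aeval_ne A.torus.indep hb),
      hr_mult_val hi hp h ha, hr_mult_val hi hp h hb,
      hr_mult_val A.torus.indep hp hD' ha, hr_mult_val A.torus.indep hp hD' hb, Nat.cast_one,
      one_mul]

private theorem hr_triv {P : DVal k L} (hP : ∀ x : K, P (algebraMap K L x) = 0) {v : DVal k L'}
    {ε : ℕ} (hv : LiesOver v P ε) (x : K') : v (algebraMap K' L' x) = 0 := by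
  have hv0 : ∀ x : K, v (algebraMap K L' x) = 0 := fun x => by
    rw [IsScalarTower.algebraMap_apply K L L', hv.2, hP, mul_zero]
  have key : ∀ z : K', 0 ≤ v (algebraMap K' L' z) := by
    intro z
    apply Pool.Agent.Helper47.PQ.mem_ring_of_isIntegral v
    have h1 : IsIntegral K (algebraMap K' L' z) :=
      (Algebra.IsIntegral.isIntegral z).algebraMap
    obtain ⟨p, hp, hpz⟩ := h1
    let φ : K →+* v.ring :=
      { toFun := fun c => ⟨algebraMap K L' c, (hv0 c).ge⟩
        map_one' := by ext; simp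
        map_mul' := fun a b => by ext; simp
        map_zero' := by ext; simp
        map_add' := fun a b => by ext; simp }
    refine ⟨p.map φ, hp.map φ, ?_⟩
    rw [Polynomial.eval₂_map]
    exact hpz
  have h1 := key x
  have h2 := key x⁻¹
  rw [map_inv₀, v.map_inv] at h2
  omega

/-- The slack. -/
private noncomputable def hrVal (F : DFrame X Z K' (tL L' t)) (A : Arr K' L' t ι) (Δ : X.Div)
    (P : X.primeDivisors) (v : DVal k L') (m : ℤ) : ℚ :=
  F.a P + Δ P - (v F.u + (d + 1) * m + ∑ i, A.δ i * (v (A.l i) - m))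

private theorem hr_basis {A : Arr K' L' t ι} (hN : A.N = 1) : IsTranscendenceBasis K (tL L' t) ∧
    IsTranscendenceBasis K' (tL L' t) := by
  have ht := hr_torus A hN
  have h1 : IsTranscendenceBasis K' (tL L' t) := by
    rw [ht.indep.isTranscendenceBasis_iff_isAlgebraic]
    refine ⟨fun z => ?_⟩
    have hz : z ∈ IntermediateField.adjoin K' (Set.range (tL L' t)) := by rw [ht.gen]; trivial
    rw [IntermediateField.mem_adjoin_iff_div] at hz
    obtain ⟨a, ha, b, hb, h⟩ := hz
    rw [h, div_eq_mul_inv]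
    have h1 : IsAlgebraic (Algebra.adjoin K' (Set.range (tL L' t))) a :=
      isAlgebraic_algebraMap (⟨a, ha⟩ : Algebra.adjoin K' (Set.range (tL L' t)))
    have h2 : IsAlgebraic (Algebra.adjoin K' (Set.range (tL L' t))) b :=
      isAlgebraic_algebraMap (⟨b, hb⟩ : Algebra.adjoin K' (Set.range (tL L' t)))
    exact h1.mul h2.inv
  refine ⟨?_, h1⟩
  have h2 : AlgebraicIndependent K (tL L' t) :=
    ht.indep.restrictScalars (R := K) (algebraMap K K').injective
  refine h2.isTranscendenceBasis_of_lift_trdeg_le_of_finite ?_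
  have h3 : Algebra.trdeg K' L' = d := by
    have h := h1.lift_cardinalMk_eq_trdeg
    rw [Cardinal.mk_fin, Cardinal.lift_natCast] at h
    have h' : Cardinal.lift.{0} (Algebra.trdeg K' L') = d := by
      rw [← h]
    simpa using h'
  have h4 : Algebra.trdeg K L' = d := by
    have h := lift_trdeg_add_eq K K' L'
    rw [trdeg_eq_zero (R := K) (A := K'), h3] at h
    simp only [Cardinal.lift_zero, zero_add, Cardinal.lift_natCast] at h
    rw [eq_comm, Cardinal.lift_eq_nat_iff] at h
    exact h
  rw [h4, Cardinal.mk_fin, Cardinal.lift_natCast, Cardinal.lift_natCast]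

private theorem hr_disc {n₀ : ℕ} {y : Fin n₀ → K}
    (hy : IsTranscendenceBasis k y) {F : DFrame X Z K' (tL L' t)}
    (hF : ∀ (P : X.primeDivisors) (v : DVal k L') (ε : ℕ), LiesOver v P.1 ε →
      v.IsOrd (OmD k y (tL L' t)) (ε * (F.a P + 1) - 1 - v F.u))
    {A : Arr K' L' t ι} (hN : A.N = 1) {Δ : X.Div}
    (H : IsLogAbove (K := K) X Δ A) {P : X.primeDivisors}
    (hP : ∀ x : K, P.1 (algebraMap K L x) = 0) {v : DVal k L'} {ε : ℕ} (hv : LiesOver v P.1 ε)
    {m : ℤ} (hm : IsMin A v m) :
    v F.u + (d + 1) * m + ∑ i, A.δ i * (v (A.l i) - m) ≤ ε * (F.a P + Δ P) := by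
  obtain ⟨b, hb⟩ := Pool.Agent.Helper50.Forms.exists_kaehler_basis
    (append_basisD hy (hr_basis (K := K) hN).1)
  have h1 := (hasOrd_wedge b _ hb v _ _).2 (hF P v ε hv)
  have h2 := H.disc P hP v ε hv _ ⟨n₀, y, _, m, hy, h1, hm, rfl⟩
  push_cast at h2
  linarith

theorem exists_horR [Algebra.IsPushout K K' L L'] (hd : 0 < d) {n₀ : ℕ} {y : Fin n₀ → K}
    (hy : IsTranscendenceBasis k y) {F : DFrame X Z K' (tL L' t)}
    (hF : ∀ (P : X.primeDivisors) (v : DVal k L') (ε : ℕ), LiesOver v P.1 ε →
      v.IsOrd (OmD k y (tL L' t)) (ε * (F.a P + 1) - 1 - v F.u))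
    {A : Arr K' L' t ι} (hN : A.N = 1) {Δ : X.Div} (hΔ : ∀ P, 0 ≤ Δ P)
    (H : IsLogAbove (K := K) X Δ A) {j : Fin d → ι} (hj : A.IsCo j) :
    ∃ (G : MvPolynomial (Fin d) K') (n : ℕ) (w : ℚ), Nonempty (HorR F A j G n w Δ) := by
  classical
  have hK0 : CharZero K := charZero_of_injective_algebraMap (algebraMap k K).injective
  have hτ := hr_torus A hN
  have hi := hr_indep A
  -- ramification
  have hε1 : ∀ (P : X.primeDivisors), (∀ x : K, P.1 (algebraMap K L x) = 0) →
      ∀ (v : DVal k L') (ε : ℕ), LiesOver v P.1 ε → ε = 1 := fun P hP v ε hv =>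
    unram (K := K) (K' := K') hP hv
  have hdisc : ∀ (P : X.primeDivisors), (∀ x : K, P.1 (algebraMap K L x) = 0) →
      ∀ (v : DVal k L') (ε : ℕ), LiesOver v P.1 ε → ∀ m, IsMin A v m →
        v F.u + (d + 1) * m + ∑ i, A.δ i * (v (A.l i) - m) ≤ ε * (F.a P + Δ P) :=
    fun P hP v ε hv m hm => hr_disc hy hF hN H hP hv hm
  -- the valuations with slack
  let TB : Set (DVal k L') := {v | v ∈ hrT A k ∧ ∃ P : X.primeDivisors,
    (∀ x : K, P.1 (algebraMap K L x) = 0) ∧ (∃ ε, LiesOver v P.1 ε) ∧
      ∃ m, IsMin A v m ∧ 0 < hrVal F A Δ P v m}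
  have hTB : TB.Finite := by
    let B : Set X.primeDivisors := {P | P ∈ F.a.support} ∪ {P | P ∈ Δ.support} ∪
      {P | ∃ (v : DVal k L') (ε : ℕ), LiesOver v P.1 ε ∧ v F.u ≠ 0} ∪
      ⋃ i : ι, {P | ∃ (v : DVal k L') (ε : ℕ), LiesOver v P.1 ε ∧ v (A.l i) ≠ 0}
    have hB : B.Finite := by
      refine Set.Finite.union (Set.Finite.union (Set.Finite.union ?_ ?_) ?_) ?_
      · exact Finset.finite_toSet F.a.support
      · exact Finset.finite_toSet Δ.support
      · exact finite_ne X F.u_ne
      · exact Set.finite_iUnion fun i => finite_ne X (l_ne A i)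
    refine (hB.biUnion fun P _ => finite_above (E' := L') P.1).subset ?_
    rintro v ⟨-, P, hP, ⟨ε, hε⟩, m, hm, hpos⟩
    simp only [Set.mem_iUnion, exists_prop]
    refine ⟨P, ?_, ε, hε⟩
    by_contra hPB
    have h1 : F.a P = 0 := by
      by_contra h
      exact hPB (Or.inl (Or.inl (Or.inl (Finsupp.mem_support_iff.2 h))))
    have h2 : Δ P = 0 := by
      by_contra h
      exact hPB (Or.inl (Or.inl (Or.inr (Finsupp.mem_support_iff.2 h))))
    have h3 : v F.u = 0 := by
      by_contra h
      exact hPB (Or.inl (Or.inr ⟨v, ε, hε, h⟩))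
    have h4 : ∀ i, v (A.l i) = 0 := by
      intro i
      by_contra h
      exact hPB (Or.inr (Set.mem_iUnion.2 ⟨i, v, ε, hε, h⟩))
    have h5 : m = 0 := by
      obtain ⟨i, hi⟩ := hm.2
      rw [← hi, h4]
    unfold hrVal at hpos
    simp only [h1, h2, h3, h4, h5] at hpos
    simp at hpos
  -- the bound
  have hW : ∀ v : DVal k L', ∃ W : ℚ, 0 ≤ W ∧ ∀ (P : X.primeDivisors) (ε : ℕ) (m : ℤ),
      LiesOver v P.1 ε → IsMin A v m → hrVal F A Δ P v m ≤ W := by
    intro v
    obtain ⟨m, hm⟩ := hr_exists_min A v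
    by_cases hP : ∃ (P : X.primeDivisors) (ε : ℕ), LiesOver v P.1 ε
    · obtain ⟨P, ε, hPε⟩ := hP
      refine ⟨max 0 (hrVal F A Δ P v m), le_max_left _ _, fun P' ε' m' hP' hm' => ?_⟩
      obtain ⟨h1, -⟩ := Pool.Agent.Helper47.PQ.liesOver_unique hP' hPε
      have h3 : P' = P := Subtype.ext h1
      rw [h3, hr_min_unique hm' hm]
      exact le_max_right _ _
    · exact ⟨0, le_rfl, fun P' ε' m' hP' _ => absurd ⟨P', ε', hP'⟩ hP⟩
  choose W hW0 hW using hW
  let w : ℚ := ∑ v ∈ hTB.toFinset, W v
  have hw0 : 0 ≤ w := Finset.sum_nonneg fun v _ => hW0 v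
  have hw : ∀ v ∈ TB, W v ≤ w := fun v hv =>
    Finset.single_le_sum (f := W) (fun v _ => hW0 v) (hTB.mem_toFinset.2 hv)
  -- the polynomial
  have hp : ∀ v : DVal k L', ∃ p : MvPolynomial (Fin d) K', p ≠ 0 ∧ (v ∈ hrT A k →
      (Irreducible p ∧ HrMult v (tL L' t) p) ∨ (p = 1 ∧ HrInf K' v (tL L' t))) := by
    intro v
    by_cases hv : v ∈ hrT A k
    · rcases hr_cases hN hv with ⟨p, hp, h⟩ | h
      · exact ⟨p, hp.ne_zero, fun _ => Or.inl ⟨hp, h⟩⟩
      · exact ⟨1, one_ne_zero, fun _ => Or.inr ⟨rfl, h⟩⟩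
    · exact ⟨1, one_ne_zero, fun h => absurd h hv⟩
  choose p hp0 hp using hp
  let G₀ : MvPolynomial (Fin d) K' := ∏ v ∈ hTB.toFinset, p v
  have hG₀ : G₀ ≠ 0 := Finset.prod_ne_zero_iff.2 fun v _ => hp0 v
  obtain ⟨G, hG, hGdeg⟩ := poly_co hj G₀
  have hGne : G ≠ 0 := by
    rintro rfl
    apply hr_aeval_ne hi hG₀
    rw [← hG]
    unfold Arr.ev
    rw [map_zero]
  have hGdeg' : G.totalDegree = G₀.totalDegree := by
    refine le_antisymm hGdeg ?_
    obtain ⟨g, hg, hgd⟩ := poly_co' hj G
    have h1 : g = G₀ := hi (by rw [hg, hG])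
    rw [← h1]
    exact hgd
  let n : ℕ := if ∃ v ∈ TB, HrInf K' v (tL L' t) then G.totalDegree + 1 else G.totalDegree
  have hn : G.totalDegree ≤ n := by
    show G.totalDegree ≤ if ∃ v ∈ TB, HrInf K' v (tL L' t) then G.totalDegree + 1
      else G.totalDegree
    split_ifs <;> omega
  have hone : ∀ v ∈ TB, ∀ m, IsMin A v m → 1 ≤ v (A.ev j G) - n * m := by
    intro v hv m hm
    rcases hp v hv.1 with ⟨h1, h2⟩ | ⟨-, h2⟩
    · have hm0 : m = 0 := hr_min_unique hm (hr_min_fin A h1 h2)
      rw [hm0, mul_zero, sub_zero, hG]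
      have h3 : p v ∣ G₀ := Finset.dvd_prod_of_mem p (hTB.mem_toFinset.2 hv)
      obtain ⟨c, hc⟩ := h3
      have hc0 : c ≠ 0 := by
        rintro rfl
        exact hG₀ (by rw [hc, mul_zero])
      rw [hc, map_mul, v.map_mul (hr_aeval_ne hi h1.ne_zero) (hr_aeval_ne hi hc0), h2.1]
      have h4 := hr_mult_nonneg hi h1 h2 c
      omega
    · have hm0 : m = -1 := hr_min_unique hm (hr_min_inf A hd h2)
      have hn1 : n = G.totalDegree + 1 := if_pos ⟨v, hv, h2⟩
      rw [hm0, hG, h2 G₀ hG₀, hn1, hGdeg']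
      push_cast
      omega
  -- the values of the valuations in `T` with `n m < v (G)`
  have hslackT : ∀ v ∈ hrT A k, ∀ m, IsMin A v m → n * m < v (A.ev j G) → v ∈ TB := by
    intro v hv m hm hlt
    rcases hr_cases hN hv with ⟨q, hq, h⟩ | h
    · have hm0 : m = 0 := hr_min_unique hm (hr_min_fin A hq h)
      rw [hm0, mul_zero, hG] at hlt
      have h1 : q ∣ G₀ := by
        by_contra h2
        rw [h.2 G₀ h2] at hlt
        exact lt_irrefl _ hlt
      obtain ⟨v', hv', hdvd⟩ := (hq.prime.dvd_finsetProd_iff p).1 h1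
      have hv'B := hTB.mem_toFinset.1 hv'
      rcases hp v' hv'B.1 with ⟨h3, h4⟩ | ⟨h3, -⟩
      · have h5 := hr_mult_assoc hi hq h3 hdvd h
        have h6 : v = v' := hr_mult_unique hτ h3 h5 h4
        rw [h6]
        exact hv'B
      · rw [h3] at hdvd
        exact absurd (isUnit_of_dvd_one hdvd) hq.not_isUnit
    · have hm0 : m = -1 := hr_min_unique hm (hr_min_inf A hd h)
      rw [hm0, hG, h G₀ hG₀, ← hGdeg'] at hlt
      have h1 : G.totalDegree < n := by
        have h2 : (G.totalDegree : ℤ) < n := by linarith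
        exact_mod_cast h2
      by_cases hinf : ∃ v ∈ TB, HrInf K' v (tL L' t)
      · obtain ⟨v', hv', h'⟩ := hinf
        rw [hr_inf_unique hτ h h']
        exact hv'
      · have hn1 : n = G.totalDegree := if_neg hinf
        omega
  have hTBval : ∀ v ∈ TB, ∀ (P : X.primeDivisors) (ε : ℕ) (m : ℤ), LiesOver v P.1 ε →
      IsMin A v m → 0 < hrVal F A Δ P v m := by
    rintro v ⟨-, P', -, ⟨ε', hε'⟩, m', hm', hpos⟩ P ε m hε hm
    obtain ⟨h1, -⟩ := Pool.Agent.Helper47.PQ.liesOver_unique hε hε'
    have h3 : P = P' := Subtype.ext h1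
    rw [h3, hr_min_unique hm hm']
    exact hpos
  refine ⟨G, n, w, ⟨{
    T := hrT A k
    w_nonneg := hw0
    G_ne := hGne
    deg := hn
    disc := hdisc
    slack := ?_
    up := ?_
    sec := ?_
    kill := ?_
    poly := ?_ }⟩⟩
  · -- slack
    intro P hP v ε hε m hm hlt
    have he := hε1 P hP v ε hε
    subst he
    rw [Nat.cast_one, one_mul]
    have h0 := hdisc P hP v 1 hε m hm
    rw [Nat.cast_one, one_mul] at h0
    have hsum : ∀ i, 0 ≤ A.δ i * ((v (A.l i) : ℚ) - m) := fun i =>
      mul_nonneg (A.δ_pos i).le (by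
        have h1 := hm.1 i
        have h2 : (m : ℚ) ≤ v (A.l i) := by exact_mod_cast h1
        linarith)
    by_cases hvT : v ∈ hrT A k
    · have h1 := hTBval v (hslackT v hvT m hm hlt) P 1 m hε hm
      unfold hrVal at h1
      have h2 : 0 ≤ ∑ i, A.δ i * ((v (A.l i) : ℚ) - m) := Finset.sum_nonneg fun i _ => hsum i
      linarith
    · by_cases hall : ∀ i, v (A.l i) = m
      · have hm0 : m = 0 := by
          rw [← hall A.o, l_o_one, v.map_one]
        have hvK : ∀ x : K', v (algebraMap K' L' x) = 0 := hr_triv hP hε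
        have hvt : ∀ l, 0 ≤ v (tL L' t l) := by
          have key : ∀ x ∈ Submodule.span K' (Set.range A.co), v.Ge 0 (affine (tL L' t) x) := by
            intro x hx
            induction hx using Submodule.span_induction with
            | mem x hx =>
              obtain ⟨i, rfl⟩ := hx
              rw [← affine_map]
              right
              rw [hall i, hm0, Int.cast_zero]
            | zero =>
              left
              unfold affine
              simp
            | add x z _ _ hx hz =>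
              have h1 : affine (tL L' t) (x + z) = affine (tL L' t) x + affine (tL L' t) z := by
                unfold affine
                simp only [Pi.add_apply, map_add, add_mul, Finset.sum_add_distrib]
                ring
              rw [h1]
              exact hx.add hz
            | smul c x _ hx =>
              have h1 : affine (tL L' t) (c • x) = algebraMap K' L' c * affine (tL L' t) x := by
                unfold affine
                rw [mul_add, Finset.mul_sum]
                simp only [Pi.smul_apply, smul_eq_mul, map_mul]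
                congr 1
                exact Finset.sum_congr rfl fun i _ => mul_assoc _ _ _
              rw [h1]
              have h2 : v.Ge 0 (algebraMap K' L' c) := Or.inr (by rw [hvK, Int.cast_zero])
              have h3 := h2.mul hx
              rwa [zero_add] at h3
          intro l
          have h1 := key (Pi.single l.succ 1) (by rw [A.full]; trivial)
          have h2 : affine (tL L' t) (Pi.single l.succ 1 : Fin (d + 1) → K') = tL L' t l := by
            unfold affine
            rw [Pi.single_eq_of_ne (Fin.succ_ne_zero l).symm, map_zero, zero_add,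
              Finset.sum_eq_single l]
            · rw [Pi.single_eq_same, map_one, one_mul]
            · intro i _ hil
              rw [Pi.single_eq_of_ne (fun h => hil (Fin.succ_injective _ h)), map_zero, zero_mul]
            · intro h
              exact absurd (Finset.mem_univ l) h
          rw [h2, DVal.ge_iff (hτ.ne_zero l)] at h1
          exact_mod_cast h1
        have hy' : IsTranscendenceBasis k (fun i => algebraMap K K' (y i)) :=
          hy.algebraMap_comp (A := K')
        have hord := hF P v 1 hε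
        rw [← omD_base (K' := K')] at hord
        have h1 := order_pos hy' hτ hvK hvt (fun ⟨g₀, hg₀, h1, h2⟩ =>
          hvT (hr_mem_fin hg₀ ⟨h1, h2⟩)) hord
        rw [Nat.cast_one, one_mul] at h1
        have h2 : v F.u < F.a P := by omega
        have h3 : (v F.u : ℚ) < F.a P := by exact_mod_cast h2
        have h4 := hΔ P
        rw [hm0, Int.cast_zero, mul_zero, add_zero]
        linarith
      · push Not at hall
        obtain ⟨i, hi'⟩ := hall
        have h1 : 0 < A.δ i * ((v (A.l i) : ℚ) - m) := by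
          refine mul_pos (A.δ_pos i) ?_
          have h2 := lt_of_le_of_ne (hm.1 i) (Ne.symm hi')
          have h3 : (m : ℚ) < v (A.l i) := by exact_mod_cast h2
          linarith
        have h2 : 0 < ∑ i, A.δ i * ((v (A.l i) : ℚ) - m) :=
          Finset.sum_pos' (fun i _ => hsum i) ⟨i, Finset.mem_univ i, h1⟩
        linarith
  · -- up
    intro v hv
    obtain ⟨D, hD, e, he, h⟩ := id hv
    obtain ⟨P, hP, ε, hε⟩ := H.above D hD v e he h
    refine ⟨P, hP, ε, hε, fun m hm => ?_⟩
    have hev : n * m ≤ v (A.ev j G) := ev_ge hj hGne hn (hr_triv hP hε) hm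
    have hev' : (0 : ℚ) ≤ v (A.ev j G) - n * m := by
      have h1 : ((n * m : ℤ) : ℚ) ≤ v (A.ev j G) := by exact_mod_cast hev
      push_cast at h1
      linarith
    have he1 := hε1 P hP v ε hε
    subst he1
    rw [Nat.cast_one, one_mul]
    by_cases hpos : 0 < hrVal F A Δ P v m
    · have hvB : v ∈ TB := ⟨hv, P, hP, ⟨1, hε⟩, m, hm, hpos⟩
      have h1 := (hW v P 1 m hε hm).trans (hw v hvB)
      have h2 := hone v hvB m hm
      have h3 : (1 : ℚ) ≤ v (A.ev j G) - n * m := by exact_mod_cast h2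
      have h4 : w ≤ w * (v (A.ev j G) - n * m) := le_mul_of_one_le_right hw0 h3
      unfold hrVal at h1
      linarith
    · have h1 : 0 ≤ w * ((v (A.ev j G) : ℚ) - n * m) := mul_nonneg hw0 hev'
      unfold hrVal at hpos
      linarith
  · -- sec
    intro f c hf
    obtain ⟨z, rfl⟩ := hr_surj A hN f
    -- valuations over prime divisors of the projective space
    have hover : ∀ D ∈ (projSpace A.torus).primeDivisors, ∃ v ∈ hrT A k,
        ∀ x : M, v (algebraMap M L' x) = D x := by
      intro D hD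
      obtain ⟨v, e, hv⟩ := Pool.Agent.Helper47.PQ.exists_over L' (down k D)
      have hv' : ∀ x : M, v (algebraMap M L' x) = e * D x := hv.2
      have he := hr_e hN hv'
      refine ⟨v, ⟨D, hD, e, hv.1, hv'⟩, fun x => ?_⟩
      rw [hv', he, Nat.cast_one, one_mul]
    obtain ⟨g, hg⟩ := poly_of_fin A.torus (z := z) (by
      intro D hD hDt
      obtain ⟨v, hv, hvD⟩ := hover D hD
      rcases hr_cases hN hv with ⟨q, hq, h⟩ | h
      · have h1 := hf v hv 0 (hr_min_fin A hq h)
        rw [Int.cast_zero, mul_zero] at h1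
        rcases h1 with h1 | h1
        · left
          exact (map_eq_zero _).1 h1
        · right
          rw [← hvD]
          exact h1
      · exfalso
        have h1 := h (MvPolynomial.X ⟨0, hd⟩) (MvPolynomial.X_ne_zero _)
        rw [hr_aeval, hvD, MvPolynomial.aeval_X, MvPolynomial.totalDegree_X] at h1
        have h2 := hDt ⟨0, hd⟩
        omega)
    have hχ : ∀ (χ : ι → Fin A.N) (i : ι), (χ i : ℕ) = 0 := by
      intro χ i
      have h1 := (χ i).2
      omega
    have hmono : ∀ χ : ι → Fin A.N, A.mono χ = 1 := by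
      intro χ
      unfold Arr.mono
      exact Finset.prod_eq_one fun i _ => by rw [hχ χ i, pow_zero]
    refine ⟨fun _ => g, ?_, fun χ hg0 => ⟨hχ χ _, ?_⟩⟩
    · simp only [hmono, mul_one]
      rw [Finset.sum_const, Finset.card_univ, Fintype.card_fun, Fintype.card_fin, hN, one_pow,
        one_smul, hr_aeval, hg]
    · have hg0' : g ≠ 0 := hg0
      have hs : ∑ i, (χ i : ℕ) = 0 := Finset.sum_eq_zero fun i _ => hχ χ i
      have hN' : (A.N : ℤ) = 1 := by exact_mod_cast hN
      change (A.N : ℤ) * (g.totalDegree : ℤ) + ((∑ i, (χ i : ℕ) : ℕ) : ℤ) ≤ A.N * c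
      rw [hs, hN', Nat.cast_zero, add_zero, one_mul, one_mul]
      obtain ⟨D, hD, -, hDg⟩ := exists_inf A.torus hd
      obtain ⟨v, hv, hvD⟩ := hover D hD
      have hinf : HrInf K' v (tL L' t) := fun g hg => by rw [hr_aeval, hvD, hDg g hg]
      have h1 := hf v hv (-1) (hr_min_inf A hd hinf)
      rw [← hg, ← hr_aeval, DVal.ge_iff (hr_aeval_ne hi hg0'), hinf g hg0'] at h1
      have h2 : c * -1 ≤ -(g.totalDegree : ℤ) := by exact_mod_cast h1
      linarith
  · -- kill
    intro v hv
    rcases hr_cases hN hv with ⟨q, hq, h⟩ | h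
    · refine ⟨q, q.totalDegree, hq.ne_zero, le_rfl, fun m hm => ?_⟩
      rw [hr_min_unique hm (hr_min_fin A hq h), h.1]
      simp
    · refine ⟨1, 1, one_ne_zero, by simp, fun m hm => ?_⟩
      rw [hr_min_unique hm (hr_min_inf A hd h), map_one, v.map_one]
      simp
  · -- poly
    intro v hv g n' hgn m hm
    rcases hr_cases hN hv with ⟨q, hq, h⟩ | h
    · rw [hr_min_unique hm (hr_min_fin A hq h)]
      right
      have h1 := hr_mult_nonneg hi hq h g
      rw [Int.cast_zero, mul_zero]
      exact_mod_cast h1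
    · rw [hr_min_unique hm (hr_min_inf A hd h)]
      by_cases hg : g = 0
      · left
        rw [hg, map_zero]
      · right
        rw [h g hg]
        push_cast
        have h1 : (g.totalDegree : ℚ) ≤ n' := by exact_mod_cast hgn
        linarith

end Pool.Agent.Helper92.HA
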