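import Pool.Agent.Helper92.HA.PsiA
import Pool.Agent.Helper92.HR.Sigma
import Pool.Agent.Helper63.PB.Finite
import Pool.Agent.Helper63.PB.Approx

set_option autoImplicit false

/-!
# HR-06 PsiR: the functions `phi x · sig / u ^ m`

Write `g_v = v (G) - n m_v ≥ 0` (`ev_ge`), `W_v = ∑ δ_i (v (l_i) - m_v) ≥ 0`, `S_v = ε (a P + Δ P) - v u - (d + 1) m_v ≥ W_v` (`H.disc`).
`exists_slack_const`: a constant `C₁` with `g_v ≤ C₁ S_v` for all horizontal `P` and `v` over `P`. PROOF. If `g_v = 0` there is nothing to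
prove (`S_v ≥ W_v ≥ 0`). `g_v > 0` only for the `v` over finitely many `P`: if `v (G) = 0` and all `v (l_i) = 0` then `m_v = 0`, `g_v = 0`
(`finite_ne` for the nonzero elements `ev j G`, `l i`); over each `P` there are finitely many `v` (`finite_above`); `m_v` is
determined by `v`. For these `S_v > 0` by `H.slack`. Take the maximum of the finitely many `g_v / S_v`.
`psiR_hor`: `v` is trivial on `K'`. `v (phi x) = -∑ use_i v (l_i) = -(d + 1) m m_v - ∑ use_i (v (l_i) - m_v) ≥ -(d + 1) m m_v - m (1 - η) W_v`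
(`phi_val`/`sum_use`, `theta_val`, `∑ use_i = (d + 1) m` by `card_base`), `v (sig) ≥ -sigC g_v ≥ -sigC C₁ S_v ≥ -η m S_v` (`sig_hor`,
`sigC C₁ ≤ η m`). The sum with `-m v u` is `≥ -m v u - (d + 1) m m_v - m (1 - η) S_v - η m S_v = -ε m (a P + Δ P)` (`W_v ≤ S_v`, `η ≤ 1`).
`psiR_vert`: `phi_vert` (PsiA): `v (phi x / u^m) = ∑ x_b lam_b - m ε (a P + 1 - e (c Q + 1))` with `lam_b = v (θ_b) + μ ≥ 0` (`theta_vert`),
`sig_vert`: `v (sig) ≥ -sigC lam_(base j)`, and `x_(base j) ≥ sigC`; the rest as in `psiA_vert` (from `hE`).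
`psiR_strict`: `P` over `Q` is not `GoodR`. Either `Δ P + (e - 1) ≠ e E Q`: any `v` over `P` (`Helper47.PQ.exists_over`). Or
`lam_b ≠ 0` for some `v`, and a base `b`: `x_b > sigC`, so `∑ x_b lam_b - sigC lam_(base j) > 0`. Or (all `lam_b = 0` for all `v`)
`v (term α) ≠ v (G)` for some `v`, `α`: `sig_strict`. In each case the same `v` works for all `x`.
-/

namespace Pool.Agent.Helper92.HA

open Module Pool.Agent.Helper92.Weak Pool.Agent.Helper63.PB

variable {k K L K' M L' : Type*} [Field k] [Field K] [Field L] [Field K'] [Field M] [Field L']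
  [Algebra k K] [Algebra k L] [Algebra k K'] [Algebra k M] [Algebra k L'] [Algebra K L]
  [Algebra K K'] [Algebra K L'] [Algebra L L'] [Algebra K' M] [Algebra K' L'] [Algebra M L']
  [IsScalarTower k K L] [IsScalarTower k K K'] [IsScalarTower k K L'] [IsScalarTower k L L']
  [IsScalarTower k K' M] [IsScalarTower k K' L'] [IsScalarTower k M L'] [IsScalarTower K L L']
  [IsScalarTower K K' L'] [IsScalarTower K' M L'] [FiniteDimensional K K']
  [FiniteDimensional L L'] [FiniteDimensional M L'] [CharZero k] {d : ℕ}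
  {X : ProjVar k L} {Z : ProjVar k K} {t : Fin d → M} {ι : Type*} [Fintype ι] [DecidableEq ι]

/-- Constants for finitely many objects. -/
private theorem h45_bdd {α : Type*} {s : Set α} (hs : s.Finite) {p : α → ℕ → Prop}
    (hmono : ∀ a C C', C ≤ C' → p a C → p a C') (h : ∀ a ∈ s, ∃ C, p a C) :
    ∃ C, ∀ a ∈ s, p a C := by
  classical
  choose f hf using h
  let g : α → ℕ := fun a => if ha : a ∈ s then f a ha else 0
  refine ⟨∑ a ∈ hs.toFinset, g a, fun a ha => ?_⟩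
  refine hmono a (g a) _ ?_ ?_
  · exact Finset.single_le_sum (f := g) (fun _ _ => Nat.zero_le _) (hs.mem_toFinset.2 ha)
  · change p a (if ha : a ∈ s then f a ha else 0)
    rw [dif_pos ha]
    exact hf a ha

omit [IsScalarTower k K L] [IsScalarTower k K K'] [IsScalarTower k K L'] [IsScalarTower k L L']
  [IsScalarTower k K' M] [IsScalarTower k K' L'] [IsScalarTower k M L'] [IsScalarTower K L L']
  [IsScalarTower K K' L'] [IsScalarTower K' M L'] [FiniteDimensional K K']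
  [FiniteDimensional L L'] [FiniteDimensional M L'] [CharZero k] [Algebra k M] [Algebra K L'] in
private theorem h45_slack_nonneg {F : DFrame X Z K' (tL L' t)} {A : Arr K' L' t ι}
    {j : Fin d → ι} {G : MvPolynomial (Fin d) K'} {n : ℕ} {w : ℚ} {Δ : X.Div}
    (H : HorR F A j G n w Δ) {P : X.primeDivisors} (hP : ∀ x : K, P.1 (algebraMap K L x) = 0)
    {v : DVal k L'} {ε : ℕ} (hv : LiesOver v P.1 ε) {m : ℤ} (hm : IsMin A v m) :
    0 ≤ ∑ i, A.δ i * ((v (A.l i) : ℚ) - m) ∧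
    ∑ i, A.δ i * ((v (A.l i) : ℚ) - m) ≤ ε * (F.a P + Δ P) - v F.u - (d + 1) * m := by
  constructor
  · refine Finset.sum_nonneg fun i _ => mul_nonneg (A.δ_pos i).le ?_
    have h := hm.1 i
    have h' : (m : ℚ) ≤ v (A.l i) := by exact_mod_cast h
    linarith
  · have h := H.disc P hP v ε hv m hm
    linarith

theorem exists_slack_const {F : DFrame X Z K' (tL L' t)} {A : Arr K' L' t ι} {j : Fin d → ι}
    {G : MvPolynomial (Fin d) K'} {n : ℕ} {w : ℚ} {Δ : X.Div} (hj : A.IsCo j)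
    (H : HorR F A j G n w Δ) : ∃ C₁ : ℕ, ∀ P : X.primeDivisors,
      (∀ x : K, P.1 (algebraMap K L x) = 0) → ∀ (v : DVal k L') (ε : ℕ), LiesOver v P.1 ε →
        ∀ m, IsMin A v m → ((v (A.ev j G) - n * m : ℤ) : ℚ) ≤
          C₁ * (ε * (F.a P + Δ P) - v F.u - (d + 1) * m) := by
  let p : X.primeDivisors → ℕ → Prop := fun P C =>
    (∀ x : K, P.1 (algebraMap K L x) = 0) → ∀ (v : DVal k L') (ε : ℕ), LiesOver v P.1 ε →
        ∀ m, IsMin A v m → ((v (A.ev j G) - n * m : ℤ) : ℚ) ≤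
          C * (ε * (F.a P + Δ P) - v F.u - (d + 1) * m)
  have hmono : ∀ (P : X.primeDivisors) (C C' : ℕ), C ≤ C' → p P C → p P C' := by
    intro P C C' hC hp hP v ε hv m hm
    refine (hp hP v ε hv m hm).trans (mul_le_mul_of_nonneg_right (by exact_mod_cast hC) ?_)
    obtain ⟨h1, h2⟩ := h45_slack_nonneg H hP hv hm
    exact h1.trans h2
  have hne := ev_ne hj H.G_ne
  have hfin : (({P : X.primeDivisors | ∃ (v : DVal k L') (ε : ℕ), LiesOver v P.1 ε ∧
        v (A.ev j G) ≠ 0} ∪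
      ⋃ i, {P : X.primeDivisors | ∃ (v : DVal k L') (ε : ℕ), LiesOver v P.1 ε ∧
        v (A.l i) ≠ 0}) : Set X.primeDivisors).Finite := by
    refine (finite_ne X hne).union (Set.finite_iUnion fun i => finite_ne X (l_ne A i))
  obtain ⟨C, hC⟩ := h45_bdd hfin hmono (fun P _ => by
    by_cases hP : ∀ x : K, P.1 (algebraMap K L x) = 0
    swap
    · exact ⟨0, fun h => absurd h hP⟩
    obtain ⟨C, hC⟩ := h45_bdd (finite_above (E' := L') P.1)
      (p := fun v C => ∀ ε : ℕ, LiesOver v P.1 ε → ∀ m, IsMin A v m →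
        ((v (A.ev j G) - n * m : ℤ) : ℚ) ≤ C * (ε * (F.a P + Δ P) - v F.u - (d + 1) * m))
      (by
        intro v C C' hC hp ε hv m hm
        refine (hp ε hv m hm).trans (mul_le_mul_of_nonneg_right (by exact_mod_cast hC) ?_)
        obtain ⟨h1, h2⟩ := h45_slack_nonneg H hP hv hm
        exact h1.trans h2)
      (by
        rintro v ⟨ε₀, hv₀⟩
        by_cases hex : ∃ m, IsMin A v m
        swap
        · exact ⟨0, fun ε _ m hm => absurd ⟨m, hm⟩ hex⟩
        obtain ⟨m₀, hm₀⟩ := hex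
        have hε : ∀ ε, LiesOver v P.1 ε → ε = ε₀ := by
          intro ε hv
          obtain ⟨π, _, hπ⟩ := P.1.exists_uniformizer
          have h1 := hv.2 π
          have h2 := hv₀.2 π
          rw [h2, hπ, mul_one, mul_one] at h1
          exact_mod_cast h1.symm
        have hmu : ∀ m, IsMin A v m → m = m₀ := by
          intro m hm
          obtain ⟨i, hi⟩ := hm.2
          obtain ⟨i₀, hi₀⟩ := hm₀.2
          have h1 := hm.1 i₀
          have h2 := hm₀.1 i
          omega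
        by_cases hg : n * m₀ < v (A.ev j G)
        · have h1 := H.slack P hP v ε₀ hv₀ m₀ hm₀ hg
          have h2 : (0 : ℚ) < ε₀ * (F.a P + Δ P) - v F.u - (d + 1) * m₀ := by linarith
          obtain ⟨C, hC⟩ := exists_nat_gt (((v (A.ev j G) - n * m₀ : ℤ) : ℚ) /
            (ε₀ * (F.a P + Δ P) - v F.u - (d + 1) * m₀))
          refine ⟨C, fun ε hv m hm => ?_⟩
          rw [hε ε hv, hmu m hm]
          rw [div_lt_iff₀ h2] at hC
          exact hC.le
        · refine ⟨0, fun ε hv m hm => ?_⟩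
          rw [hmu m hm, Nat.cast_zero, zero_mul]
          have h1 : v (A.ev j G) - n * m₀ ≤ 0 := by omega
          exact_mod_cast h1)
    exact ⟨C, fun _ v ε hv m hm => hC v ⟨ε, hv⟩ ε hv m hm⟩)
  refine ⟨C, fun P hP v ε hv m hm => ?_⟩
  by_cases hB : P ∈ (({P : X.primeDivisors | ∃ (v : DVal k L') (ε : ℕ), LiesOver v P.1 ε ∧
        v (A.ev j G) ≠ 0} ∪
      ⋃ i, {P : X.primeDivisors | ∃ (v : DVal k L') (ε : ℕ), LiesOver v P.1 ε ∧
        v (A.l i) ≠ 0}) : Set X.primeDivisors)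
  · exact hC P hB hP v ε hv m hm
  · have h1 : v (A.ev j G) = 0 := by
      by_contra h
      exact hB (Or.inl ⟨v, ε, hv, h⟩)
    have h2 : ∀ i, v (A.l i) = 0 := by
      intro i
      by_contra h
      exact hB (Or.inr (Set.mem_iUnion.2 ⟨i, v, ε, hv, h⟩))
    obtain ⟨i, hi⟩ := hm.2
    have h3 : m = 0 := by rw [← hi, h2 i]
    have h4 : v (A.ev j G) - n * m = 0 := by rw [h1, h3, mul_zero, sub_zero]
    rw [h4, Int.cast_zero]
    obtain ⟨h5, h6⟩ := h45_slack_nonneg H hP hv hm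
    exact mul_nonneg (Nat.cast_nonneg _) (h5.trans h6)

theorem psiR_hor {F : DFrame X Z K' (tL L' t)} {A : Arr K' L' t ι} {j : Fin d → ι}
    {G : MvPolynomial (Fin d) K'} {n : ℕ} {w : ℚ} {Δ : X.Div} (hj : A.IsCo j)
    (H : HorR F A j G n w Δ) {C₁ : ℕ} (hC₁ : ∀ P : X.primeDivisors,
      (∀ x : K, P.1 (algebraMap K L x) = 0) → ∀ (v : DVal k L') (ε : ℕ), LiesOver v P.1 ε →
        ∀ m, IsMin A v m → ((v (A.ev j G) - n * m : ℤ) : ℚ) ≤
          C₁ * (ε * (F.a P + Δ P) - v F.u - (d + 1) * m))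
    {η : ℚ} (hη0 : 0 < η) (hη1 : η < 1) {x : Finset ι → ℕ} {m : ℕ}
    (hb : ∀ b, x b ≠ 0 → IsBase K' A.co b) (hm : ∑ b, x b = m)
    (hu : ∀ i, (A.use x i : ℚ) ≤ m * ((1 - η) * A.δ i)) (hC : ((sigC G * C₁ : ℕ) : ℚ) ≤ η * m)
    {P : X.primeDivisors} (hP : ∀ x : K, P.1 (algebraMap K L x) = 0) {v : DVal k L'} {ε : ℕ}
    (hv : LiesOver v P.1 ε) :
    -((ε : ℚ) * (m * (F.aD + Δ) P)) ≤ v (A.phi x * A.sig j G / F.u ^ m) := by
  have hne := sig_ne hj H.G_ne
  have h0 := phi_ne A hb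
  have htriv := triv_of_hor (k := k) (K := K) (L := L) (K' := K') hP hv
  obtain ⟨mm, hmm⟩ : ∃ mm, IsMin A v mm := by
    haveI : Nonempty ι := ⟨A.o⟩
    obtain ⟨i, hi⟩ := Finite.exists_min (fun i => v (A.l i))
    exact ⟨v (A.l i), hi, i, rfl⟩
  obtain ⟨hW0, hWS⟩ := h45_slack_nonneg H hP hv hmm
  have hg := hC₁ P hP v ε hv mm hmm
  have hsig := sig_hor hj H.G_ne H.deg htriv hmm
  have hphi : v (A.phi x) = -∑ i, (A.use x i : ℤ) * v (A.l i) := by
    rw [phi_val A v hb, sum_use, ← Finset.sum_neg_distrib]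
    refine Finset.sum_congr rfl fun b _ => ?_
    by_cases h : x b = 0
    · rw [h]
      simp
    · rw [theta_val A v (hb b h), htriv]
      ring
  have huse : ∑ i, (A.use x i : ℤ) = (d + 1) * m := by
    have h1 := sum_use A x (fun _ => 1)
    simp only [mul_one] at h1
    rw [h1, ← hm]
    push_cast
    rw [Finset.mul_sum]
    refine Finset.sum_congr rfl fun b _ => ?_
    by_cases h : x b = 0
    · rw [h]
      simp
    · rw [Finset.sum_const, card_base A (hb b h), nsmul_eq_mul]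
      push_cast
      ring
  have huse' : ∑ i, (A.use x i : ℚ) = (d + 1) * m := by exact_mod_cast huse
  have h1 : ∑ i, (A.use x i : ℚ) * ((v (A.l i) : ℚ) - mm) ≤
      m * (1 - η) * ∑ i, A.δ i * ((v (A.l i) : ℚ) - mm) := by
    rw [Finset.mul_sum]
    refine Finset.sum_le_sum fun i _ => ?_
    have h2 : (mm : ℚ) ≤ v (A.l i) := by exact_mod_cast hmm.1 i
    have h3 := mul_le_mul_of_nonneg_right (hu i) (sub_nonneg.2 h2)
    refine h3.trans (le_of_eq ?_)
    ring
  have h2 : ∑ i, (A.use x i : ℚ) * ((v (A.l i) : ℚ) - mm) =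
      ∑ i, (A.use x i : ℚ) * (v (A.l i) : ℚ) - (d + 1) * m * mm := by
    simp only [mul_sub]
    rw [Finset.sum_sub_distrib, ← Finset.sum_mul, huse']
  set S : ℚ := ε * (F.a P + Δ P) - v F.u - (d + 1) * mm with hS
  have hS0 : 0 ≤ S := hW0.trans hWS
  have hm0 : (0 : ℚ) ≤ m := Nat.cast_nonneg m
  have h3 : m * (1 - η) * ∑ i, A.δ i * ((v (A.l i) : ℚ) - mm) ≤ m * (1 - η) * S :=
    mul_le_mul_of_nonneg_left hWS (mul_nonneg hm0 (by linarith))
  have h4 : (sigC G : ℚ) * ((v (A.ev j G) - n * mm : ℤ) : ℚ) ≤ η * m * S := by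
    have h5 := mul_le_mul_of_nonneg_left hg (Nat.cast_nonneg (sigC G) : (0 : ℚ) ≤ (sigC G : ℚ))
    have h6 := mul_le_mul_of_nonneg_right hC hS0
    push_cast at h5 h6 ⊢
    linarith
  have h5 : -((sigC G : ℚ) * ((v (A.ev j G) - n * mm : ℤ) : ℚ)) ≤ (v (A.sig j G) : ℚ) := by
    exact_mod_cast hsig
  rw [v.map_div (mul_ne_zero h0 hne) (pow_ne_zero _ F.u_ne), v.map_pow, v.map_mul h0 hne, hphi]
  rw [Finsupp.add_apply, F.aD_apply]
  push_cast
  have h6 : (m : ℚ) * S = m * (ε * (F.a P + Δ P)) - m * v F.u - m * ((d + 1) * mm) := by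
    rw [hS]
    ring
  linarith

/-- The value in the vertical case. -/
private theorem h45_vert {F : DFrame X Z K' (tL L' t)} {A : Arr K' L' t ι} {j : Fin d → ι}
    {G : MvPolynomial (Fin d) K'} (hj : A.IsCo j) (hG : G ≠ 0) {x : Finset ι → ℕ} {m : ℕ}
    (hb : ∀ b, x b ≠ 0 → IsBase K' A.co b) (hm : ∑ b, x b = m)
    (hx : ∀ b, IsBase K' A.co b → sigC G < x b) {P : X.primeDivisors}
    {Q : Z.primeDivisors} {e : ℕ} (hP : LiesOver P.1 Q.1 e) {v : DVal k L'} {ε : ℕ}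
    (hv : LiesOver v P.1 ε) : ∃ s : ℤ,
      v (A.phi x * A.sig j G / F.u ^ m) = s - m * (ε * (F.a P + 1 - e * (F.c Q + 1))) ∧ 0 ≤ s ∧
      (∀ b, IsBase K' A.co b → v (A.theta b) + F.mu P Q e v ε ≠ 0 → 0 < s) ∧
      (∀ α ∈ G.support, v (A.theta (A.base j)) + F.mu P Q e v ε = 0 →
        v (A.term j G α) ≠ v (A.ev j G) → 0 < s) := by
  have h0 := phi_ne A hb
  have hne := sig_ne hj hG
  have hval : v (A.phi x * A.sig j G / F.u ^ m) =
      (∑ b : Finset ι, (x b : ℤ) * (v (A.theta b) + F.mu P Q e v ε) + v (A.sig j G)) -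
        m * (ε * (F.a P + 1 - e * (F.c Q + 1))) := by
    have h1 : A.phi x * A.sig j G / F.u ^ m = A.phi x / F.u ^ m * A.sig j G := by ring
    rw [h1, v.map_mul (div_ne_zero h0 (pow_ne_zero _ F.u_ne)) hne,
      phi_vert F A hb hm (P := P) (Q := Q) (e := e) (ε := ε)]
    ring
  have hsig := sig_vert F hj hG hP hv
  have hlow : ∑ b : Finset ι, ((x b : ℤ) - if b = A.base j then (sigC G : ℤ) else 0) *
      (v (A.theta b) + F.mu P Q e v ε) ≤
      ∑ b : Finset ι, (x b : ℤ) * (v (A.theta b) + F.mu P Q e v ε) + v (A.sig j G) := by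
    have h1 : ∑ b : Finset ι, ((x b : ℤ) - if b = A.base j then (sigC G : ℤ) else 0) *
        (v (A.theta b) + F.mu P Q e v ε) =
        ∑ b : Finset ι, (x b : ℤ) * (v (A.theta b) + F.mu P Q e v ε) -
          sigC G * (v (A.theta (A.base j)) + F.mu P Q e v ε) := by
      simp only [sub_mul]
      rw [Finset.sum_sub_distrib]
      congr 1
      simp only [ite_mul, zero_mul]
      rw [Finset.sum_ite_eq' Finset.univ (A.base j), if_pos (Finset.mem_univ _)]
    rw [h1]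
    linarith
  have hterm : ∀ b : Finset ι, 0 ≤ ((x b : ℤ) - if b = A.base j then (sigC G : ℤ) else 0) *
      (v (A.theta b) + F.mu P Q e v ε) := by
    intro b
    by_cases hB : IsBase K' A.co b
    · refine mul_nonneg ?_ (theta_vert F A hP hv hB)
      have h1 : (sigC G : ℤ) < x b := by exact_mod_cast hx b hB
      split_ifs <;> omega
    · have h1 : x b = 0 := by
        by_contra h
        exact hB (hb b h)
      have h2 : b ≠ A.base j := fun h => hB (h ▸ hj.base)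
      rw [h1, if_neg h2]
      simp
  refine ⟨∑ b : Finset ι, (x b : ℤ) * (v (A.theta b) + F.mu P Q e v ε) + v (A.sig j G), hval,
    (Finset.sum_nonneg fun b _ => hterm b).trans hlow, ?_, ?_⟩
  · intro b hB hne'
    refine lt_of_lt_of_le (Finset.sum_pos' (fun b _ => hterm b) ⟨b, Finset.mem_univ _, ?_⟩) hlow
    have h1 : (sigC G : ℤ) < x b := by exact_mod_cast hx b hB
    refine mul_pos ?_ (lt_of_le_of_ne (theta_vert F A hP hv hB) (Ne.symm hne'))
    split_ifs <;> omega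
  · intro α hα h1 h2
    have h3 := sig_strict F hj hG hP hv h1 hα h2
    refine add_pos_of_nonneg_of_pos (Finset.sum_nonneg fun b _ => ?_) h3
    by_cases h : x b = 0
    · rw [h]
      simp
    · exact mul_nonneg (Int.natCast_nonneg _) (theta_vert F A hP hv (hb b h))

theorem psiR_vert {F : DFrame X Z K' (tL L' t)} {A : Arr K' L' t ι} {j : Fin d → ι}
    {G : MvPolynomial (Fin d) K'} (hj : A.IsCo j) (hG : G ≠ 0) {Δ : X.Div} {E : Z.Div}
    (hE : ∀ (P : X.primeDivisors) (Q : Z.primeDivisors) (e : ℕ), LiesOver P.1 Q.1 e →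
      e * E Q ≤ Δ P + (e - 1)) {x : Finset ι → ℕ} {m : ℕ}
    (hb : ∀ b, x b ≠ 0 → IsBase K' A.co b) (hm : ∑ b, x b = m)
    (hx : ∀ b, IsBase K' A.co b → sigC G < x b) {P : X.primeDivisors}
    {Q : Z.primeDivisors} {e : ℕ} (hP : LiesOver P.1 Q.1 e) {v : DVal k L'} {ε : ℕ}
    (hv : LiesOver v P.1 ε) :
    (ε : ℚ) * (m * (e * (F.cD + E) Q - (F.aD + Δ) P)) ≤
      v (A.phi x * A.sig j G / F.u ^ m) := by
  obtain ⟨s, hs, hs0, _, _⟩ := h45_vert (F := F) hj hG hb hm hx hP hv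
  rw [hs]
  have h2 : (0 : ℚ) ≤ (s : ℚ) := by exact_mod_cast hs0
  have h3 := hE P Q e hP
  have h4 : (0 : ℚ) ≤ (ε : ℚ) * m := by positivity
  have h5 := mul_le_mul_of_nonneg_left h3 h4
  rw [Finsupp.add_apply, Finsupp.add_apply, F.aD_apply, F.cD_apply, Int.cast_sub]
  push_cast
  linarith

theorem psiR_strict {F : DFrame X Z K' (tL L' t)} {A : Arr K' L' t ι} {j : Fin d → ι}
    {G : MvPolynomial (Fin d) K'} (hj : A.IsCo j) (hG : G ≠ 0) {Δ : X.Div} {E : Z.Div}
    (hE : ∀ (P : X.primeDivisors) (Q : Z.primeDivisors) (e : ℕ), LiesOver P.1 Q.1 e →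
      e * E Q ≤ Δ P + (e - 1)) {P : X.primeDivisors} {Q : Z.primeDivisors} {e : ℕ}
    (hP : LiesOver P.1 Q.1 e) (hng : ¬ GoodR F A j G Δ E P Q e) :
    ∃ (v : DVal k L') (ε : ℕ), LiesOver v P.1 ε ∧ ∀ (x : Finset ι → ℕ) (m : ℕ), 0 < m →
      (∀ b, x b ≠ 0 → IsBase K' A.co b) → ∑ b, x b = m →
      (∀ b, IsBase K' A.co b → sigC G < x b) →
      (ε : ℚ) * (m * (e * (F.cD + E) Q - (F.aD + Δ) P)) <
        v (A.phi x * A.sig j G / F.u ^ m) := by
  have h3 := hE P Q e hP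
  by_cases hs : Δ P + (e - 1) = e * E Q
  · have hfin : ∀ (v : DVal k L') (ε : ℕ), LiesOver v P.1 ε →
        (∀ (x : Finset ι → ℕ) (m : ℕ), 0 < m →
          (∀ b, x b ≠ 0 → IsBase K' A.co b) → ∑ b, x b = m →
          (∀ b, IsBase K' A.co b → sigC G < x b) → ∃ s : ℤ,
            v (A.phi x * A.sig j G / F.u ^ m) =
              s - m * (ε * (F.a P + 1 - e * (F.c Q + 1))) ∧ 0 < s) →
        ∃ (v : DVal k L') (ε : ℕ), LiesOver v P.1 ε ∧ ∀ (x : Finset ι → ℕ) (m : ℕ), 0 < m →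
          (∀ b, x b ≠ 0 → IsBase K' A.co b) → ∑ b, x b = m →
          (∀ b, IsBase K' A.co b → sigC G < x b) →
          (ε : ℚ) * (m * (e * (F.cD + E) Q - (F.aD + Δ) P)) <
            v (A.phi x * A.sig j G / F.u ^ m) := by
      intro v ε hv h
      refine ⟨v, ε, hv, fun x m hm0 hb hm hx => ?_⟩
      obtain ⟨s, hs1, hs2⟩ := h x m hm0 hb hm hx
      rw [hs1]
      have h2 : (0 : ℚ) < (s : ℚ) := by exact_mod_cast hs2
      have h4 : (0 : ℚ) ≤ (ε : ℚ) * m := by positivity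
      have h5 := mul_le_mul_of_nonneg_left h3 h4
      rw [Finsupp.add_apply, Finsupp.add_apply, F.aD_apply, F.cD_apply, Int.cast_sub]
      push_cast
      linarith
    by_cases hex : ∃ (v : DVal k L') (ε : ℕ), LiesOver v P.1 ε ∧ ∃ b : Finset ι,
        IsBase K' A.co b ∧ v (A.theta b) + F.mu P Q e v ε ≠ 0
    · obtain ⟨v, ε, hv, b₀, hb₀, hne⟩ := hex
      refine hfin v ε hv fun x m hm0 hb hm hx => ?_
      obtain ⟨s, h1, _, h2, _⟩ := h45_vert (F := F) hj hG hb hm hx hP hv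
      exact ⟨s, h1, h2 b₀ hb₀ hne⟩
    · have hall : ∀ (v : DVal k L') (ε : ℕ), LiesOver v P.1 ε → ∀ b : Finset ι,
          IsBase K' A.co b → v (A.theta b) + F.mu P Q e v ε = 0 := by
        intro v ε hv b hb
        by_contra hne
        exact hex ⟨v, ε, hv, b, hb, hne⟩
      have hex2 : ∃ (v : DVal k L') (ε : ℕ), LiesOver v P.1 ε ∧ ∃ α ∈ G.support,
          v (A.term j G α) ≠ v (A.ev j G) := by
        by_contra hcon
        refine hng ⟨⟨hP, hs, fun v ε hv b hb _ => hall v ε hv b hb⟩, fun v ε hv α hα => ?_⟩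
        by_contra hne
        exact hcon ⟨v, ε, hv, α, hα, hne⟩
      obtain ⟨v, ε, hv, α, hα, hne⟩ := hex2
      refine hfin v ε hv fun x m hm0 hb hm hx => ?_
      obtain ⟨s, h1, _, _, h2⟩ := h45_vert (F := F) hj hG hb hm hx hP hv
      exact ⟨s, h1, h2 α hα (hall v ε hv _ hj.base) hne⟩
  · obtain ⟨v, ε, hv⟩ := Helper47.PQ.exists_over L' P.1
    refine ⟨v, ε, hv, fun x m hm0 hb hm hx => ?_⟩
    obtain ⟨s, hs1, hs0, _, _⟩ := h45_vert (F := F) hj hG hb hm hx hP hv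
    rw [hs1]
    have h2 : (0 : ℚ) ≤ (s : ℚ) := by exact_mod_cast hs0
    have h3' : (e : ℚ) * E Q < Δ P + (e - 1) := lt_of_le_of_ne h3 (Ne.symm hs)
    have h4 : (0 : ℚ) < (ε : ℚ) * m := by
      have := hv.1
      have h5 : (0 : ℚ) < ε := by exact_mod_cast this
      have h6 : (0 : ℚ) < m := by exact_mod_cast hm0
      positivity
    have h5 := mul_lt_mul_of_pos_left h3' h4
    rw [Finsupp.add_apply, Finsupp.add_apply, F.aD_apply, F.cD_apply, Int.cast_sub]
    push_cast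
    linarith

end Pool.Agent.Helper92.HA
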